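import Mathlib

/-!
Derivations of a field of characteristic zero: existence with prescribed values on an
algebraically independent family, algebraicity through derivations, rank of the differentials,
and spaces stable under a derivation.
-/

namespace Pool.Agent.ED

open IntermediateField

section Exist

variable {K M ι : Type*} [Field K] [CharZero K] [Field M] [Algebra K M]

open scoped IntermediateField.algebraAdjoinAdjoin in
/-- Formal etaleness over the polynomial ring of a transcendence basis. -/
theorem etale_adjoin {v : ι → M} (hv : IsTranscendenceBasis K v) :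
    Algebra.FormallyEtale (Algebra.adjoin K (Set.range v)) M := by
  have h1 : Algebra.FormallyEtale (Algebra.adjoin K (Set.range v))
      (IntermediateField.adjoin K (Set.range v)) :=
    .of_isLocalization (nonZeroDivisors _)
  have h2 : Algebra.IsAlgebraic (IntermediateField.adjoin K (Set.range v)) M :=
    hv.isAlgebraic_field
  have h3 : Algebra.FormallyEtale (IntermediateField.adjoin K (Set.range v)) M :=
    Algebra.FormallyEtale.of_isSeparable _ M
  exact .comp _ (IntermediateField.adjoin K (Set.range v)) _

theorem exists_derivation_basis {v : ι → M} (hv : IsTranscendenceBasis K v) (m : ι → M) :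
    ∃ X : Derivation K M M, ∀ i, X (v i) = m i := by
  classical
  have het := etale_adjoin hv
  set A0 := Algebra.adjoin K (Set.range v) with hA0
  let e : MvPolynomial ι K ≃ₐ[K] A0 := hv.1.aevalEquiv
  -- the derivation on the polynomial ring
  let alg : Algebra (MvPolynomial ι K) M := (MvPolynomial.aeval v).toRingHom.toAlgebra
  have tow : IsScalarTower K (MvPolynomial ι K) M :=
    IsScalarTower.of_algebraMap_eq fun x => by
      change _ = MvPolynomial.aeval v _
      simp
  let δ : Derivation K (MvPolynomial ι K) M := MvPolynomial.mkDerivation K m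
  have hsm : ∀ (p : MvPolynomial ι K) (x : M), p • x = (e p : M) * x := by
    intro p x
    have h1 : (e p : M) = MvPolynomial.aeval v p := hv.1.algebraMap_aevalEquiv p
    rw [h1]; rfl
  let δ' : Derivation K A0 M := Derivation.mk' (δ.toLinearMap.comp e.symm.toLinearMap) (by
    intro a b
    have h := δ.leibniz (e.symm a) (e.symm b)
    simp only [LinearMap.comp_apply, AlgEquiv.toLinearMap_apply, map_mul]
    change δ (e.symm a * e.symm b) = _
    rw [h, hsm, hsm]
    simp only [AlgEquiv.apply_symm_apply]
    rfl)
  have hbc := KaehlerDifferential.isBaseChange_of_formallyEtale K A0 M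
  let L : Ω[M⁄K] →ₗ[M] M := hbc.lift δ'.liftKaehlerDifferential
  refine ⟨L.compDer (KaehlerDifferential.D K M), fun i => ?_⟩
  have hvi : v i ∈ A0 := Algebra.subset_adjoin ⟨i, rfl⟩
  have h1 : (KaehlerDifferential.D K M) (v i)
      = KaehlerDifferential.map K K A0 M (KaehlerDifferential.D K A0 ⟨v i, hvi⟩) := by
    rw [KaehlerDifferential.map_D]; rfl
  change L ((KaehlerDifferential.D K M) (v i)) = m i
  rw [h1, hbc.lift_eq, Derivation.liftKaehlerDifferential_comp_D]
  change δ (e.symm ⟨v i, hvi⟩) = m i
  have h2 : e.symm ⟨v i, hvi⟩ = MvPolynomial.X i := by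
    rw [AlgEquiv.symm_apply_eq]
    apply Subtype.ext
    have := hv.1.algebraMap_aevalEquiv (MvPolynomial.X i)
    change v i = (e (MvPolynomial.X i) : M)
    rw [show (e (MvPolynomial.X i) : M) = MvPolynomial.aeval v (MvPolynomial.X i) from this]
    simp
  rw [h2]
  exact MvPolynomial.mkDerivation_X K m i

theorem exists_derivation {b : ι → M} (hb : AlgebraicIndependent K b) (m : ι → M) :
    ∃ X : Derivation K M M, ∀ i, X (b i) = m i := by
  classical
  obtain ⟨t, hst, ht⟩ := exists_isTranscendenceBasis_superset hb.coe_range
  obtain ⟨X, hX⟩ := exists_derivation_basis ht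
    (fun x : t => if h : ∃ i, b i = x then m h.choose else 0)
  refine ⟨X, fun i => ?_⟩
  have h1 := hX ⟨b i, hst ⟨i, rfl⟩⟩
  have hex : ∃ j, b j = b i := ⟨i, rfl⟩
  simp only [dif_pos hex] at h1
  rw [h1, hb.injective hex.choose_spec]

end Exist


section Alg

variable {K M : Type*} [Field K] [CharZero K] [Field M] [Algebra K M]

/-- A derivation vanishing on a set vanishes on the field it generates. -/
theorem der_zero_adjoin (S : Set M) (X : Derivation K M M) (hX : ∀ s ∈ S, X s = 0) :
    ∀ x ∈ IntermediateField.adjoin K S, X x = 0 := by
  intro x hx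
  induction hx using IntermediateField.adjoin_induction with
  | mem x hx => exact hX x hx
  | algebraMap x => exact X.map_algebraMap x
  | add x y _ _ h1 h2 => rw [map_add, h1, h2, add_zero]
  | inv x _ h => rw [Derivation.leibniz_inv, h, smul_zero]
  | mul x y _ _ h1 h2 => rw [Derivation.leibniz, h1, h2, smul_zero, smul_zero, add_zero]

/-- A derivation vanishing on a subfield is linear over it. -/
noncomputable def derL (L : IntermediateField K M) (X : Derivation K M M)
    (hX : ∀ s ∈ L, X s = 0) : Derivation L M M :=
  Derivation.mk'
    ({ toFun := fun a => X a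
       map_add' := fun a b => map_add X a b
       map_smul' := fun a b => by
        rw [Algebra.smul_def, Derivation.leibniz]
        have h0 : X (algebraMap L M a) = 0 := hX _ a.2
        rw [h0, smul_zero, add_zero]; rfl } : M →ₗ[L] M) (fun a b => X.leibniz a b)

theorem derL_apply (L : IntermediateField K M) (X : Derivation K M M)
    (hX : ∀ s ∈ L, X s = 0) (a : M) : derL L X hX a = X a := rfl

/-- A derivation vanishing on a subfield vanishes on everything algebraic over it. -/
theorem der_zero_alg (L : IntermediateField K M) (X : Derivation K M M)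
    (hX : ∀ s ∈ L, X s = 0) (x : M) (hx : IsAlgebraic L x) : X x = 0 := by
  have hint : IsIntegral L x := hx.isIntegral
  have hmin : Polynomial.aeval x (minpoly L x) = 0 := minpoly.aeval L x
  have h1 : derL L X hX (Polynomial.aeval x (minpoly L x)) = 0 := by rw [hmin, map_zero]
  rw [Derivation.map_aeval] at h1
  have hsep : Polynomial.aeval x (Polynomial.derivative (minpoly L x)) ≠ 0 :=
    (minpoly.irreducible hint).separable.aeval_derivative_ne_zero hmin
  rcases smul_eq_zero.1 h1 with h | h
  · exact absurd h hsep
  · exact h

/-- **A2.** -/
theorem isAlgebraic_of_derivation (S : Set M) (f : M)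
    (h : ∀ X : Derivation K M M, (∀ s ∈ S, X s = 0) → X f = 0) :
    IsAlgebraic (IntermediateField.adjoin K S) f := by
  by_contra hf
  have hf' : Transcendental (IntermediateField.adjoin K S) f := hf
  have hai : AlgebraicIndependent (IntermediateField.adjoin K S) (fun _ : Unit => f) := by
    rw [algebraicIndependent_unique_type_iff]
    exact hf'
  obtain ⟨X, hX⟩ := exists_derivation hai (fun _ => (1 : M))
  have h1 := h (X.restrictScalars K) (fun s hs => by
    have : X (algebraMap (IntermediateField.adjoin K S) M
      ⟨s, IntermediateField.subset_adjoin K S hs⟩) = 0 := X.map_algebraMap _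
    exact this)
  have h2 : X f = 0 := h1
  rw [hX ()] at h2
  exact one_ne_zero h2

/-- Evaluation of derivations on a family. -/
noncomputable def evDer {σ : Type*} (F : σ → M) : Derivation K M M →ₗ[M] (σ → M) where
  toFun X := fun i => X (F i)
  map_add' X Y := by funext i; simp
  map_smul' c X := by funext i; simp

theorem evDer_apply {σ : Type*} (F : σ → M) (X : Derivation K M M) (i : σ) :
    evDer F X i = X (F i) := rfl

/-- **A3.** -/
theorem exists_finset_rank {σ : Type*} [Fintype σ] [DecidableEq σ] (F : σ → M) :
    ∃ s : Finset σ, AlgebraicIndependent K (fun i : s => F i) ∧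
      Module.finrank M (Submodule.span M
        (Set.range fun X : Derivation K M M => fun i => X (F i))) = s.card := by
  classical
  -- a maximal independent subfamily
  obtain ⟨s, hs, hmax⟩ : ∃ s : Finset σ, AlgebraicIndependent K (fun i : s => F i) ∧
      ∀ t : Finset σ, AlgebraicIndependent K (fun i : t => F i) → t.card ≤ s.card := by
    have hne : ((Finset.univ : Finset (Finset σ)).filter
        (fun s : Finset σ => AlgebraicIndependent K (fun i : s => F i))).Nonempty := by
      refine ⟨(∅ : Finset σ), ?_⟩
      rw [Finset.mem_filter]
      refine ⟨Finset.mem_univ _, ?_⟩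
      rw [algebraicIndependent_empty_type_iff]
      exact (algebraMap K M).injective
    obtain ⟨s, hs, hm⟩ := Finset.exists_max_image _ Finset.card hne
    rw [Finset.mem_filter] at hs
    exact ⟨s, hs.2, fun t ht => hm t (by rw [Finset.mem_filter]; exact ⟨Finset.mem_univ _, ht⟩)⟩
  refine ⟨s, hs, ?_⟩
  have halg : ∀ j, IsAlgebraic (IntermediateField.adjoin K (F '' (s : Set σ))) (F j) := by
    intro j
    by_contra hj
    have hj1 : Transcendental (Algebra.adjoin K (F '' (s : Set σ))) (F j) := by
      intro h
      exact hj (IntermediateField.isAlgebraic_adjoin_iff.2 h)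
    have hjs : j ∉ s := by
      intro hmem
      apply hj1
      exact isAlgebraic_algebraMap
        (⟨F j, Algebra.subset_adjoin ⟨j, hmem, rfl⟩⟩ : Algebra.adjoin K (F '' (s : Set σ)))
    have hs' : AlgebraicIndepOn K F (s : Set σ) := hs
    have h2 := hs'.insert hj1
    have h3 : AlgebraicIndependent K (fun i : (insert j s : Finset σ) => F i) := by
      have h4 : ((insert j s : Finset σ) : Set σ) = insert j (s : Set σ) := Finset.coe_insert j s
      have h5 : AlgebraicIndepOn K F ((insert j s : Finset σ) : Set σ) := by rw [h4]; exact h2
      exact h5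
    have h6 := hmax _ h3
    rw [Finset.card_insert_of_notMem hjs] at h6
    omega
  have hrange : Submodule.span M (Set.range fun X : Derivation K M M => fun i => X (F i))
      = LinearMap.range (evDer (K := K) F) := by
    have : (Set.range fun X : Derivation K M M => fun i => X (F i))
        = (LinearMap.range (evDer (K := K) F) : Set (σ → M)) := rfl
    rw [this, Submodule.span_eq]
  rw [hrange]
  let π : (σ → M) →ₗ[M] (s → M) := LinearMap.funLeft M M (fun i : s => (i : σ))
  let ρ : LinearMap.range (evDer (K := K) F) →ₗ[M] (s → M) := π.domRestrict _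
  have hinj : Function.Injective ρ := by
    rw [injective_iff_map_eq_zero]
    rintro ⟨w, X, rfl⟩ hw
    have h1 : ∀ i ∈ s, X (F i) = 0 := fun i hi => congrFun hw ⟨i, hi⟩
    have h2 : ∀ x ∈ IntermediateField.adjoin K (F '' (s : Set σ)), X x = 0 := by
      apply der_zero_adjoin
      rintro _ ⟨i, hi, rfl⟩
      exact h1 i hi
    apply Subtype.ext
    funext j
    exact der_zero_alg _ X h2 (F j) (halg j)
  have hsurj : Function.Surjective ρ := by
    intro m
    obtain ⟨X, hX⟩ := exists_derivation hs m
    exact ⟨⟨evDer F X, X, rfl⟩, funext fun i => hX i⟩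
  rw [(LinearEquiv.ofBijective ρ ⟨hinj, hsurj⟩).finrank_eq]
  simp

end Alg

section Stable

/-- **A4.** -/
theorem dstable {C M : Type*} [Field C] [CharZero C] [Field M] [Algebra C M]
    (D : Derivation C M M) (hD : ∀ m, D m = 0 → m ∈ Set.range (algebraMap C M))
    {σ : Type*} [Fintype σ] (U : Submodule M (σ → M))
    (hU : ∀ u ∈ U, (fun i => D (u i)) ∈ U) :
    U = Submodule.span M {u | u ∈ U ∧ ∃ c : σ → C, u = fun i => algebraMap C M (c i)} := by
  classical
  let supp : (σ → M) → Finset σ := fun u => Finset.univ.filter (fun i => u i ≠ 0)
  have hsupp : ∀ u i, i ∈ supp u ↔ u i ≠ 0 := fun u i => by simp [supp]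
  -- a nonzero vector of minimal support is constant up to a factor
  have key : ∀ n : ℕ, ∀ u ∈ U, u ≠ 0 → (supp u).card ≤ n →
      ∃ v ∈ U, v ≠ 0 ∧ supp v ⊆ supp u ∧ ∃ c : σ → C, v = fun i => algebraMap C M (c i) := by
    intro n
    induction n with
    | zero =>
      intro u _ hne hc
      exfalso
      apply hne
      funext i
      by_contra hi
      have : i ∈ supp u := (hsupp u i).2 hi
      have h0 : (supp u).card = 0 := by omega
      rw [Finset.card_eq_zero] at h0
      rw [h0] at this
      simp at this
    | succ n ih =>
      intro u hu hne hc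
      obtain ⟨i0, hi0⟩ : ∃ i, u i ≠ 0 := by
        by_contra h
        push Not at h
        exact hne (funext h)
      let w : σ → M := (u i0)⁻¹ • u
      have hwU : w ∈ U := U.smul_mem _ hu
      have hw0 : w i0 = 1 := by
        change (u i0)⁻¹ * u i0 = 1
        exact inv_mul_cancel₀ hi0
      have hws : ∀ i, u i = 0 → w i = 0 := fun i hi => by
        change (u i0)⁻¹ * u i = 0
        rw [hi, mul_zero]
      have hwsub : supp w ⊆ supp u := by
        intro i hi
        rw [hsupp] at hi ⊢
        exact fun h => hi (hws i h)
      by_cases hDw : (fun i => D (w i)) = 0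
      · have h1 : ∀ i, ∃ c : C, algebraMap C M c = w i := fun i => hD _ (congrFun hDw i)
        choose c hc' using h1
        refine ⟨w, hwU, ?_, hwsub, c, funext fun i => (hc' i).symm⟩
        intro h
        rw [h] at hw0
        exact zero_ne_one hw0
      · have hsub : supp (fun i => D (w i)) ⊆ (supp u).erase i0 := by
          intro i hi
          rw [hsupp] at hi
          rw [Finset.mem_erase]
          refine ⟨?_, ?_⟩
          · rintro rfl
            apply hi
            simp only [hw0]
            exact D.map_one_eq_zero
          · rw [hsupp]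
            intro h
            apply hi
            simp only [hws i h, map_zero]
        have hcard : (supp (fun i => D (w i))).card ≤ n := by
          have h1 := Finset.card_le_card hsub
          rw [Finset.card_erase_of_mem ((hsupp u i0).2 hi0)] at h1
          omega
        obtain ⟨v, hv, hv0, hvs, hvc⟩ := ih _ (hU w hwU) hDw hcard
        exact ⟨v, hv, hv0, (hvs.trans hsub).trans (Finset.erase_subset _ _), hvc⟩
  apply le_antisymm
  · have main : ∀ n : ℕ, ∀ u ∈ U, (supp u).card ≤ n →
        u ∈ Submodule.span M {u | u ∈ U ∧ ∃ c : σ → C, u = fun i => algebraMap C M (c i)} := by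
      intro n
      induction n with
      | zero =>
        intro u _ hc
        have : u = 0 := by
          funext i
          by_contra hi
          have hm : i ∈ supp u := (hsupp u i).2 hi
          have h0 : (supp u).card = 0 := by omega
          rw [Finset.card_eq_zero] at h0
          rw [h0] at hm
          simp at hm
        rw [this]
        exact Submodule.zero_mem _
      | succ n ih =>
        intro u hu hc
        by_cases hne : u = 0
        · rw [hne]; exact Submodule.zero_mem _
        obtain ⟨v, hv, hv0, hvs, hvc⟩ := key _ u hu hne le_rfl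
        obtain ⟨i1, hi1⟩ : ∃ i, v i ≠ 0 := by
          by_contra h
          push Not at h
          exact hv0 (funext h)
        have hvspan : v ∈ Submodule.span M
            {u | u ∈ U ∧ ∃ c : σ → C, u = fun i => algebraMap C M (c i)} :=
          Submodule.subset_span ⟨hv, hvc⟩
        let u' : σ → M := u - (u i1 * (v i1)⁻¹) • v
        have hu'U : u' ∈ U := U.sub_mem hu (U.smul_mem _ hv)
        have hsub : supp u' ⊆ (supp u).erase i1 := by
          intro i hi
          rw [hsupp] at hi
          rw [Finset.mem_erase]
          refine ⟨?_, ?_⟩
          · rintro rfl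
            apply hi
            change u i - (u i * (v i)⁻¹) * v i = 0
            rw [inv_mul_cancel_right₀ hi1, sub_self]
          · by_contra h
            have h1 : u i = 0 := by
              by_contra h2
              exact h ((hsupp u i).2 h2)
            have h2 : v i = 0 := by
              by_contra h3
              exact h (hvs ((hsupp v i).2 h3))
            apply hi
            change u i - (u i1 * (v i1)⁻¹) * v i = 0
            rw [h1, h2, mul_zero, sub_zero]
        have hcard : (supp u').card ≤ n := by
          have h1 := Finset.card_le_card hsub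
          rw [Finset.card_erase_of_mem (hvs ((hsupp v i1).2 hi1))] at h1
          have h2 : 0 < (supp u).card := Finset.card_pos.2 ⟨i1, hvs ((hsupp v i1).2 hi1)⟩
          omega
        have h3 := ih u' hu'U hcard
        have h4 : u = u' + (u i1 * (v i1)⁻¹) • v := by simp [u']
        rw [h4]
        exact Submodule.add_mem _ h3 (Submodule.smul_mem _ _ hvspan)
    intro u hu
    exact main _ u hu le_rfl
  · rw [Submodule.span_le]
    rintro u ⟨hu, _⟩
    exact hu

end Stable

end Pool.Agent.ED
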