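import Mathlib

/-!
# Arcs along which all polynomial relations over a countable field persist
-/

set_option autoImplicit false

namespace Pool.Agent.Work.MP_8da9ea_nt

open Complex Filter Topology MvPolynomial

section chart

variable {E W : Type*} [NormedAddCommGroup E] [NormedSpace ℂ E] [CompleteSpace E]
  [NormedAddCommGroup W] [NormedSpace ℂ W]

/-- a chart straightening a submersion -/
theorem subm_chart (G : E → W) (L : E →L[ℂ] W) (R : W →L[ℂ] E) (hLR : ∀ w, L (R w) = w) (x : E)
    (hG : ContDiffAt ℂ 1 G x) (hL : HasFDerivAt G L x) :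
    ∃ (Θ : E → E) (r : ℝ), 0 < r ∧ Θ x = x ∧ DifferentiableOn ℂ Θ (Metric.ball x r) ∧
      (∀ w ∈ Metric.ball x r, G (Θ w) = G x + L (w - x)) ∧
      ∀ᶠ y in 𝓝 x, ∃ w ∈ Metric.ball x r, Θ w = y := by
  set Ψ : E → E := fun y => y + R (G y - G x - L (y - x)) with hΨ
  have hΨx : Ψ x = x := by simp [hΨ]
  have hcd : ContDiffAt ℂ 1 Ψ x := by
    apply contDiffAt_id.add
    exact R.contDiff.contDiffAt.comp x
      ((hG.sub contDiffAt_const).sub (L.contDiff.contDiffAt.comp x (contDiffAt_id.sub contDiffAt_const)))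
  have hfd : HasFDerivAt Ψ ((ContinuousLinearEquiv.refl ℂ E : E ≃L[ℂ] E) : E →L[ℂ] E) x := by
    have h1 : HasFDerivAt Ψ (ContinuousLinearMap.id ℂ E +
        R.comp (L - L.comp (ContinuousLinearMap.id ℂ E))) x := by
      apply (hasFDerivAt_id x).add
      apply R.hasFDerivAt.comp x
      exact (hL.sub_const (G x)).sub
        (L.hasFDerivAt.comp x ((hasFDerivAt_id x).sub_const x))
    convert! h1 using 1
    ext v
    simp
  set e := hcd.toOpenPartialHomeomorph Ψ hfd one_ne_zero with he
  have hec : (e : E → E) = Ψ := hcd.toOpenPartialHomeomorph_coe hfd one_ne_zero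
  have hxs : x ∈ e.source := hcd.mem_toOpenPartialHomeomorph_source hfd one_ne_zero
  have hxt : x ∈ e.target := by
    have := hcd.image_mem_toOpenPartialHomeomorph_target hfd one_ne_zero
    rwa [hΨx] at this
  have hinv : ContDiffAt ℂ 1 e.symm x := by
    have := hcd.to_localInverse hfd one_ne_zero
    rw [hΨx] at this
    exact this
  have hsx : e.symm x = x := by
    have h1 := e.left_inv hxs
    rw [hec, hΨx] at h1
    exact h1
  have hev : ∀ᶠ w in 𝓝 x, w ∈ e.target ∧ ContDiffAt ℂ 1 e.symm w :=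
    (show ∀ᶠ w in 𝓝 x, w ∈ e.target from e.open_target.mem_nhds hxt).and
      (hinv.eventually (by simp))
  obtain ⟨r, hr, hball⟩ := Metric.eventually_nhds_iff_ball.1 hev
  refine ⟨e.symm, r, hr, hsx, ?_, ?_, ?_⟩
  · intro w hw
    exact ((hball w hw).2.differentiableAt one_ne_zero).differentiableWithinAt
  · intro w hw
    have h1 : Ψ (e.symm w) = w := by
      rw [← hec]
      exact e.right_inv (hball w hw).1
    have h2 : w - x = (e.symm w - x) + R (G (e.symm w) - G x - L (e.symm w - x)) := by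
      have h3 : e.symm w + R (G (e.symm w) - G x - L (e.symm w - x)) = w := h1
      rw [sub_add_eq_add_sub, h3]
    rw [h2, map_add, hLR]
    abel
  · have hcont : ContinuousAt Ψ x := hfd.continuousAt
    have h1 : ∀ᶠ y in 𝓝 x, Ψ y ∈ Metric.ball x r := by
      apply hcont
      rw [hΨx]
      exact Metric.ball_mem_nhds x hr
    filter_upwards [h1, e.open_source.mem_nhds hxs] with y hy hys
    refine ⟨Ψ y, hy, ?_⟩
    rw [← hec]
    exact e.left_inv hys

end chart

section ev

variable {k : Type*} [Field k] [Algebra k ℂ] {N σ : Type*}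

/-- evaluation of a polynomial at the functions -/
noncomputable def ev (F : (N → ℂ) → σ → ℂ) (P : MvPolynomial σ k) (y : N → ℂ) : ℂ := aeval (F y) P

/-- formal partial derivative -/
noncomputable def pder (Pd : N → σ → MvPolynomial σ k) (a : N) :
    Derivation k (MvPolynomial σ k) (MvPolynomial σ k) := mkDerivation k (Pd a)

variable {F : (N → ℂ) → σ → ℂ} {Pd : N → σ → MvPolynomial σ k}

@[simp] lemma ev_add (P Q : MvPolynomial σ k) (y : N → ℂ) : ev F (P + Q) y = ev F P y + ev F Q y := by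
  simp [ev]
@[simp] lemma ev_sub (P Q : MvPolynomial σ k) (y : N → ℂ) : ev F (P - Q) y = ev F P y - ev F Q y := by
  simp [ev]
@[simp] lemma ev_mul (P Q : MvPolynomial σ k) (y : N → ℂ) : ev F (P * Q) y = ev F P y * ev F Q y := by
  simp [ev]
@[simp] lemma ev_zero (y : N → ℂ) : ev F (0 : MvPolynomial σ k) y = 0 := by simp [ev]
@[simp] lemma ev_one (y : N → ℂ) : ev F (1 : MvPolynomial σ k) y = 1 := by simp [ev]
@[simp] lemma ev_sum {ι : Type*} (s : Finset ι) (P : ι → MvPolynomial σ k) (y : N → ℂ) :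
    ev F (∑ i ∈ s, P i) y = ∑ i ∈ s, ev F (P i) y := by simp [ev]
@[simp] lemma ev_prod {ι : Type*} (s : Finset ι) (P : ι → MvPolynomial σ k) (y : N → ℂ) :
    ev F (∏ i ∈ s, P i) y = ∏ i ∈ s, ev F (P i) y := by simp [ev]

variable [Fintype N]

/-- the differential of `ev F P` -/
noncomputable def dev (F : (N → ℂ) → σ → ℂ) (Pd : N → σ → MvPolynomial σ k) (P : MvPolynomial σ k)
    (y : N → ℂ) : (N → ℂ) →L[ℂ] ℂ :=
  ∑ a, ev F (pder Pd a P) y • ContinuousLinearMap.proj (R := ℂ) (φ := fun _ : N => ℂ) a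

lemma dev_apply (P : MvPolynomial σ k) (y v : N → ℂ) :
    dev F Pd P y v = ∑ a, ev F (pder Pd a P) y * v a := by
  simp [dev, ]

lemma hasFDerivAt_ev {y : N → ℂ}
    (hF : ∀ s, HasFDerivAt (fun y => F y s) (∑ a, aeval (F y) (Pd a s) •
      ContinuousLinearMap.proj (R := ℂ) (φ := fun _ : N => ℂ) a) y) (P : MvPolynomial σ k) :
    HasFDerivAt (ev F P) (dev F Pd P y) y := by
  induction P using MvPolynomial.induction_on with
  | C c =>
    have h1 : ev F (C c : MvPolynomial σ k) = fun _ => algebraMap k ℂ c := by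
      funext z; simp [ev]
    have h2 : dev F Pd (C c : MvPolynomial σ k) y = 0 := by
      ext v; simp [dev_apply, pder]
    rw [h1, h2]
    exact hasFDerivAt_const _ _
  | add p q hp hq =>
    have h1 : ev F (p + q) = fun z => ev F p z + ev F q z := by funext z; simp
    have h2 : dev F Pd (p + q) y = dev F Pd p y + dev F Pd q y := by
      ext v; simp [dev_apply, add_mul, Finset.sum_add_distrib]
    rw [h1, h2]
    exact hp.add hq
  | mul_X p s hp =>
    have h1 : ev F (p * X s) = fun z => ev F p z * F z s := by funext z; simp [ev]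
    have h2 : dev F Pd (p * X s) y = ev F p y • (∑ a, aeval (F y) (Pd a s) •
      ContinuousLinearMap.proj (R := ℂ) (φ := fun _ : N => ℂ) a) + F y s • dev F Pd p y := by
      ext v
      simp only [dev_apply, add_apply, smul_apply,
        sum_apply, ContinuousLinearMap.proj_apply, smul_eq_mul, Finset.mul_sum,
        ← Finset.sum_add_distrib]
      refine Finset.sum_congr rfl fun a _ => ?_
      simp only [pder, Derivation.leibniz, mkDerivation_X, smul_eq_mul, ev, map_add,
        map_mul, aeval_X]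
      ring
    rw [h1, h2]
    exact hp.mul (hF s)

end ev

section jet

variable {k : Type*} [Field k] [Algebra k ℂ] {N σ : Type*} [Fintype N]
variable {F : (N → ℂ) → σ → ℂ} {Pd : N → σ → MvPolynomial σ k} {D : Set (N → ℂ)}

/-- the derivative along an arc -/
lemma hasDerivAt_ev_comp
    (hF : ∀ x ∈ D, ∀ s, HasFDerivAt (fun y => F y s) (∑ a, aeval (F x) (Pd a s) •
      ContinuousLinearMap.proj (R := ℂ) (φ := fun _ : N => ℂ) a) x)
    {φ : ℂ → N → ℂ} {s : ℂ} (hφ : DifferentiableAt ℂ φ s) (hs : φ s ∈ D) (P : MvPolynomial σ k) :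
    HasDerivAt (fun s => ev F P (φ s)) (∑ a, ev F (pder Pd a P) (φ s) * deriv φ s a) s := by
  have h1 := (hasFDerivAt_ev (hF _ hs) P).comp_hasDerivAt s hφ.hasDerivAt
  rw [dev_apply] at h1
  exact h1

lemma analyticAt_ev_comp (hD : IsOpen D)
    (hF : ∀ x ∈ D, ∀ s, HasFDerivAt (fun y => F y s) (∑ a, aeval (F x) (Pd a s) •
      ContinuousLinearMap.proj (R := ℂ) (φ := fun _ : N => ℂ) a) x)
    {φ : ℂ → N → ℂ} {s₀ : ℂ} (hφ : AnalyticAt ℂ φ s₀) (hs : φ s₀ ∈ D) (P : MvPolynomial σ k) :
    AnalyticAt ℂ (fun s => ev F P (φ s)) s₀ := by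
  rw [Complex.analyticAt_iff_eventually_differentiableAt]
  have h1 : ∀ᶠ s in 𝓝 s₀, φ s ∈ D := hφ.continuousAt (hD.mem_nhds hs)
  filter_upwards [h1, hφ.eventually_analyticAt] with s h1 h2
  exact (hasDerivAt_ev_comp hF h2.differentiableAt h1 P).differentiableAt

/-- the key lemma: relations that hold at a point propagate along arcs in the common zero set
of finitely many relations whose differentials span -/
theorem jlem (hD : IsOpen D)
    (hF : ∀ x ∈ D, ∀ s, HasFDerivAt (fun y => F y s) (∑ a, aeval (F x) (Pd a s) •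
      ContinuousLinearMap.proj (R := ℂ) (φ := fun _ : N => ℂ) a) x)
    {x : N → ℂ} (hx : x ∈ D) {ι : Type*} [Fintype ι] (p : ι → MvPolynomial σ k)
    (hJ : ∀ P, ev F P x = 0 → ∃ (C0 : MvPolynomial σ k) (C : ι → MvPolynomial σ k),
      ev F C0 x ≠ 0 ∧ ∀ a, ev F (C0 * pder Pd a P - ∑ j, C j * pder Pd a (p j)) x = 0)
    {φ : ℂ → N → ℂ} {s₀ : ℂ} (hφ : AnalyticAt ℂ φ s₀) (h0 : φ s₀ = x)
    (hφJ : ∀ j, ∀ᶠ s in 𝓝 s₀, ev F (p j) (φ s) = 0) {P : MvPolynomial σ k} (hP : ev F P x = 0) :
    ∀ᶠ s in 𝓝 s₀, ev F P (φ s) = 0 := by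
  subst h0
  have hmem : ∀ᶠ s in 𝓝 s₀, φ s ∈ D := hφ.continuousAt (hD.mem_nhds hx)
  have hdiff : ∀ᶠ s in 𝓝 s₀, AnalyticAt ℂ φ s := hφ.eventually_analyticAt
  have hφ' : ∀ a, AnalyticAt ℂ (fun s => deriv φ s a) s₀ := by
    intro a
    exact (ContinuousLinearMap.proj (R := ℂ) (φ := fun _ : N => ℂ) a).analyticAt _ |>.fun_comp hφ.deriv
  have key : ∀ n : ℕ, ∀ P : MvPolynomial σ k, ev F P (φ s₀) = 0 → (n : ℕ∞) ≤ analyticOrderAt (fun s => ev F P (φ s)) s₀ := by
    intro n
    induction n with
    | zero => intro P _; simp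
    | succ n ih =>
      intro P hP
      have han : AnalyticAt ℂ (fun s => ev F P (φ s)) s₀ := analyticAt_ev_comp hD hF hφ hx P
      push_cast
      rw [← analyticOrderAt_deriv_ge_iff han hP]
      obtain ⟨C0, C, hC0, hC⟩ := hJ P hP
      have hC0an : AnalyticAt ℂ (fun s => ev F C0 (φ s)) s₀ := analyticAt_ev_comp hD hF hφ hx C0
      have h1 : (fun s => ev F C0 (φ s)) * deriv (fun s => ev F P (φ s)) =ᶠ[𝓝 s₀]
          fun s => ∑ a, deriv φ s a *
            ev F (C0 * pder Pd a P - ∑ j, C j * pder Pd a (p j)) (φ s) := by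
        have hz : ∀ᶠ s in 𝓝 s₀, ∀ j, (∑ a, ev F (pder Pd a (p j)) (φ s) * deriv φ s a) = 0 := by
          rw [eventually_all]
          intro j
          filter_upwards [(hφJ j).eventually_nhds, hmem, hdiff] with s hs hm hd
          have h2 := (hasDerivAt_ev_comp hF hd.differentiableAt hm (p j)).deriv
          rw [← h2]
          have h3 : (fun s => ev F (p j) (φ s)) =ᶠ[𝓝 s] fun _ => (0 : ℂ) := hs
          rw [h3.deriv_eq]
          simp
        filter_upwards [hz, hmem, hdiff] with s hs hm hd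
        have h2 := (hasDerivAt_ev_comp hF hd.differentiableAt hm P).deriv
        simp only [Pi.mul_apply, h2, ev_sub, ev_mul, ev_sum, mul_sub, Finset.sum_sub_distrib]
        have h3 : ∑ a, deriv φ s a * ∑ j, ev F (C j) (φ s) * ev F (pder Pd a (p j)) (φ s) = 0 := by
          simp only [Finset.mul_sum]
          rw [Finset.sum_comm]
          apply Finset.sum_eq_zero
          intro j _
          have h4 : ∑ a, deriv φ s a * (ev F (C j) (φ s) * ev F (pder Pd a (p j)) (φ s)) =
              ev F (C j) (φ s) * ∑ a, ev F (pder Pd a (p j)) (φ s) * deriv φ s a := by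
            rw [Finset.mul_sum]
            exact Finset.sum_congr rfl fun a _ => by ring
          rw [h4, hs j, mul_zero]
        rw [h3, sub_zero, Finset.mul_sum]
        exact Finset.sum_congr rfl fun a _ => by ring
      have h2 : analyticOrderAt (deriv (fun s => ev F P (φ s))) s₀ =
          analyticOrderAt ((fun s => ev F C0 (φ s)) * deriv (fun s => ev F P (φ s))) s₀ := by
        rw [analyticOrderAt_mul hC0an han.deriv, 
          (analyticOrderAt_eq_zero (f := fun s => ev F C0 (φ s)) (z₀ := s₀)).2 (Or.inr hC0), zero_add]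
      rw [h2, analyticOrderAt_congr h1]
      have h3 : ∀ S : Finset N, (n : ℕ∞) ≤ analyticOrderAt (fun s => ∑ a ∈ S, deriv φ s a *
            ev F (C0 * pder Pd a P - ∑ j, C j * pder Pd a (p j)) (φ s)) s₀ ∧
            AnalyticAt ℂ (fun s => ∑ a ∈ S, deriv φ s a *
            ev F (C0 * pder Pd a P - ∑ j, C j * pder Pd a (p j)) (φ s)) s₀ := by
        intro S
        classical
        induction S using Finset.induction_on with
        | empty =>
          simp only [Finset.sum_empty]
          refine ⟨?_, analyticAt_const⟩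
          rw [analyticOrderAt_eq_top.2 (Eventually.of_forall fun _ => rfl)]
          exact le_top
        | insert a S ha ihS =>
          simp only [Finset.sum_insert ha]
          have h4 := ih _ (hC a)
          have h5 := analyticAt_ev_comp hD hF hφ hx (C0 * pder Pd a P - ∑ j, C j * pder Pd a (p j))
          have h6 : AnalyticAt ℂ (fun s => deriv φ s a *
            ev F (C0 * pder Pd a P - ∑ j, C j * pder Pd a (p j)) (φ s)) s₀ := (hφ' a).mul h5
          refine ⟨?_, h6.add ihS.2⟩
          refine le_trans (le_min ?_ ihS.1) le_analyticOrderAt_add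
          have h7 := analyticOrderAt_mul (hφ' a) h5
          refine le_trans ?_ (le_of_eq h7.symm)
          exact le_trans h4 le_add_self
      exact (h3 Finset.univ).1
  rw [← analyticOrderAt_eq_top, ENat.eq_top_iff_forall_ge]
  intro m
  exact key m P hP

end jet

section linalg

variable {N : Type*} [Fintype N]

/-- linearly independent functionals are jointly surjective -/
lemma exists_right_inv {ι : Type*} [Fintype ι] (g : ι → N → ℂ) (hg : LinearIndependent ℂ g) :
    ∃ R : (ι → ℂ) →ₗ[ℂ] (N → ℂ), ∀ c i, ∑ a, g i a * R c a = c i := by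
  classical
  set M : Matrix ι N ℂ := Matrix.of g with hM
  have h1 : M.rank = Fintype.card ι := LinearIndependent.rank_matrix hg
  have h2 : LinearMap.range M.mulVecLin = ⊤ := by
    apply Submodule.eq_top_of_finrank_eq
    rw [Module.finrank_fintype_fun_eq_card]
    exact h1
  obtain ⟨R, hR⟩ := M.mulVecLin.exists_rightInverse_of_surjective h2
  refine ⟨R, fun c i => ?_⟩
  have h3 := congrFun (LinearMap.congr_fun hR c) i
  simpa [Matrix.mulVec, dotProduct, hM] using h3

variable {k : Type*} [Field k] [Algebra k ℂ] {σ : Type*} {F : (N → ℂ) → σ → ℂ}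

omit [Fintype N] in
lemma clear_denoms {ι : Type*} [Fintype ι] (x : N → ℂ) (c : ι → ℂ)
    (hc : ∀ j, c j ∈ IntermediateField.adjoin k (Set.range (F x))) :
    ∃ (C0 : MvPolynomial σ k) (C : ι → MvPolynomial σ k), ev F C0 x ≠ 0 ∧
      ∀ j, ev F (C j) x = ev F C0 x * c j := by
  classical
  have h1 : ∀ j, ∃ r s : MvPolynomial σ k, ev F s x ≠ 0 ∧ ev F r x = ev F s x * c j := by
    intro j
    obtain ⟨r, s, hrs⟩ := (IntermediateField.mem_adjoin_range_iff k (F x) (c j)).1 (hc j)
    by_cases hs : ev F s x = 0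
    · refine ⟨0, 1, by simp, ?_⟩
      have h2 : aeval (F x) s = 0 := hs
      rw [hrs, h2]
      simp
    · refine ⟨r, s, hs, ?_⟩
      rw [hrs]
      change _ = ev F s x * (ev F r x / ev F s x)
      field_simp
  choose r s hs hrs using h1
  refine ⟨∏ j, s j, fun j => r j * ∏ i ∈ Finset.univ.erase j, s i, ?_, ?_⟩
  · rw [ev_prod]
    exact Finset.prod_ne_zero_iff.2 fun j _ => hs j
  · intro j
    rw [ev_mul, ev_prod, ev_prod, hrs j, ← Finset.mul_prod_erase Finset.univ _ (Finset.mem_univ j)]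
    ring

omit [Fintype N] in
/-- descent of a linear relation to the field generated by the values -/
lemma span_descent {ι : Type*} [Fintype ι] (x : N → ℂ) (p : ι → N → MvPolynomial σ k)
    (q : N → MvPolynomial σ k)
    (h : (fun a => ev F (q a) x) ∈ Submodule.span ℂ (Set.range fun j => fun a => ev F (p j a) x)) :
    ∃ (C0 : MvPolynomial σ k) (C : ι → MvPolynomial σ k), ev F C0 x ≠ 0 ∧
      ∀ a, ev F (C0 * q a - ∑ j, C j * p j a) x = 0 := by
  set K := IntermediateField.adjoin k (Set.range (F x)) with hK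
  have hmem : ∀ P : MvPolynomial σ k, ev F P x ∈ K := by
    intro P
    rw [hK, IntermediateField.mem_adjoin_range_iff]
    exact ⟨P, 1, by simp [ev]⟩
  obtain ⟨c, hc⟩ := (Submodule.mem_span_range_iff_exists_fun ℂ).1 h
  obtain ⟨π, hπ⟩ := (Algebra.linearMap K ℂ).exists_leftInverse_of_injective
    (LinearMap.ker_eq_bot.2 (algebraMap K ℂ).injective)
  have hπ1 : ∀ u : K, π (u : ℂ) = u := fun u => LinearMap.congr_fun hπ u
  have h1 : ∀ a, ev F (q a) x = ∑ j, (π (c j) : ℂ) * ev F (p j a) x := by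
    intro a
    have h2 := congrFun hc a
    simp only [Finset.sum_apply, Pi.smul_apply, smul_eq_mul] at h2
    have h3 : π (∑ j, c j * ev F (p j a) x) = ⟨ev F (q a) x, hmem _⟩ := by
      rw [h2]
      exact hπ1 ⟨ev F (q a) x, hmem _⟩
    rw [map_sum] at h3
    have h4 : ∀ j, π (c j * ev F (p j a) x) = (⟨ev F (p j a) x, hmem _⟩ : K) * π (c j) := by
      intro j
      rw [mul_comm]
      exact π.map_smul (⟨ev F (p j a) x, hmem _⟩ : K) (c j)
    simp only [h4] at h3
    have h5 := congrArg K.val h3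
    rw [map_sum] at h5
    change _ = ev F (q a) x at h5
    rw [← h5]
    refine Finset.sum_congr rfl fun j _ => ?_
    rw [map_mul]
    change ev F (p j a) x * _ = _
    rw [mul_comm]
    rfl
  obtain ⟨C0, C, hC0, hC⟩ := clear_denoms (F := F) x (fun j => (π (c j) : ℂ)) (fun j => (π (c j)).2)
  refine ⟨C0, C, hC0, fun a => ?_⟩
  rw [ev_sub, ev_mul, ev_sum, h1 a, Finset.mul_sum, ← Finset.sum_sub_distrib]
  apply Finset.sum_eq_zero
  intro j _
  rw [ev_mul, hC j]
  ring

end linalg

section main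

variable {k : Type*} [Field k] [Algebra k ℂ] {N σ : Type*} [Fintype N]
variable {F : (N → ℂ) → σ → ℂ} {Pd : N → σ → MvPolynomial σ k} {D : Set (N → ℂ)}

lemma contDiffAt_ev (hD : IsOpen D)
    (hF : ∀ x ∈ D, ∀ s, HasFDerivAt (fun y => F y s) (∑ a, aeval (F x) (Pd a s) •
      ContinuousLinearMap.proj (R := ℂ) (φ := fun _ : N => ℂ) a) x)
    {x : N → ℂ} (hx : x ∈ D) (P : MvPolynomial σ k) : ContDiffAt ℂ 1 (ev F P) x := by
  rw [contDiffAt_one_iff]
  refine ⟨dev F Pd P, D, hD.mem_nhds hx, ?_, fun y hy => hasFDerivAt_ev (hF y hy) P⟩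
  have h1 : ∀ Q : MvPolynomial σ k, ContinuousOn (ev F Q) D := fun Q y hy =>
    (hasFDerivAt_ev (hF y hy) Q).continuousAt.continuousWithinAt
  unfold dev
  apply continuousOn_finsetSum
  intro a _
  exact (h1 _).smul continuousOn_const

/-- chart adapted to functions with linearly independent differentials -/
lemma chart_of_indep {ι : Type*} [Fintype ι] {x : N → ℂ} (G : ι → (N → ℂ) → ℂ) (g : ι → N → ℂ)
    (hG : ∀ i, ContDiffAt ℂ 1 (G i) x)
    (hg : ∀ i, HasFDerivAt (G i) (∑ a, g i a •
      ContinuousLinearMap.proj (R := ℂ) (φ := fun _ : N => ℂ) a) x)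
    (hli : LinearIndependent ℂ g) :
    ∃ (R : (ι → ℂ) →L[ℂ] (N → ℂ)) (Θ : (N → ℂ) → N → ℂ) (r : ℝ),
      (∀ c i, ∑ a, g i a * R c a = c i) ∧ 0 < r ∧ Θ x = x ∧
      DifferentiableOn ℂ Θ (Metric.ball x r) ∧
      (∀ w ∈ Metric.ball x r, ∀ i, G i (Θ w) = G i x + ∑ a, g i a * (w a - x a)) ∧
      ∀ᶠ y in 𝓝 x, ∃ w ∈ Metric.ball x r, Θ w = y := by
  obtain ⟨R, hR⟩ := exists_right_inv g hli
  set L : (N → ℂ) →L[ℂ] (ι → ℂ) := ContinuousLinearMap.pi fun i => ∑ a, g i a •
      ContinuousLinearMap.proj (R := ℂ) (φ := fun _ : N => ℂ) a with hL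
  have hLa : ∀ v i, L v i = ∑ a, g i a * v a := by
    intro v i
    simp [hL]
  obtain ⟨Θ, r, hr, h1, h2, h3, h4⟩ := subm_chart (fun y i => G i y) L (LinearMap.toContinuousLinearMap R)
    (fun c => by ext i; rw [hLa]; exact hR c i) x (contDiffAt_pi.2 hG) (hasFDerivAt_pi.2 hg)
  refine ⟨LinearMap.toContinuousLinearMap R, Θ, r, hR, hr, h1, h2, fun w hw i => ?_, h4⟩
  have h5 := congrFun (h3 w hw) i
  simp only [Pi.add_apply, hLa, Pi.sub_apply] at h5
  exact h5

/-- a finite set of relations at `x` whose differentials span all the differentials of relations -/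
lemma exists_basis_rel (Pd : N → σ → MvPolynomial σ k) (F : (N → ℂ) → σ → ℂ) (x : N → ℂ) :
    ∃ (m : ℕ) (p : Fin m → MvPolynomial σ k), (∀ j, ev F (p j) x = 0) ∧
      LinearIndependent ℂ (fun j => fun a => ev F (pder Pd a (p j)) x) ∧
      ∀ P, ev F P x = 0 → (fun a => ev F (pder Pd a P) x) ∈
        Submodule.span ℂ (Set.range fun j => fun a => ev F (pder Pd a (p j)) x) := by
  set T : Set (N → ℂ) := {g | ∃ P : MvPolynomial σ k, ev F P x = 0 ∧
    g = fun a => ev F (pder Pd a P) x} with hT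
  obtain ⟨b, hbT, hbs, hbi⟩ := exists_linearIndependent ℂ T
  have hfin : b.Finite := hbi.setFinite
  have : Fintype b := hfin.fintype
  have e := Fintype.equivFin b
  have h1 : ∀ g : b, ∃ P : MvPolynomial σ k, ev F P x = 0 ∧
    (g : N → ℂ) = fun a => ev F (pder Pd a P) x := fun g => hbT g.2
  choose P hP0 hP using h1
  refine ⟨Fintype.card b, fun j => P (e.symm j), fun j => hP0 _, ?_, ?_⟩
  · have h2 : (fun j => fun a => ev F (pder Pd a (P (e.symm j))) x) =
        (Subtype.val : b → N → ℂ) ∘ e.symm := by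
      funext j
      exact (hP _).symm
    rw [h2]
    exact hbi.comp _ e.symm.injective
  · intro Q hQ
    have h2 : (fun a => ev F (pder Pd a Q) x) ∈ Submodule.span ℂ T :=
      Submodule.subset_span ⟨Q, hQ, rfl⟩
    rw [← hbs] at h2
    refine Submodule.span_mono ?_ h2
    intro g hg
    refine ⟨e ⟨g, hg⟩, ?_⟩
    simp only [Equiv.symm_apply_apply]
    exact (hP _).symm

/-- the main case: an arc through `x` -/
theorem arc_case [DecidableEq N] (hD : IsOpen D)
    (hF : ∀ x ∈ D, ∀ s, HasFDerivAt (fun y => F y s) (∑ a, aeval (F x) (Pd a s) •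
      ContinuousLinearMap.proj (R := ℂ) (φ := fun _ : N => ℂ) a) x)
    (o : N) {x : N → ℂ} (hx : x ∈ D) {m : ℕ} (p : Fin m → MvPolynomial σ k)
    (hp0 : ∀ j, ev F (p j) x = 0)
    (hpi : LinearIndependent ℂ (fun j => fun a => ev F (pder Pd a (p j)) x))
    (hps : ∀ P, ev F P x = 0 → (fun a => ev F (pder Pd a P) x) ∈
        Submodule.span ℂ (Set.range fun j => fun a => ev F (pder Pd a (p j)) x))
    (ho : (Pi.single o 1 : N → ℂ) ∉
        Submodule.span ℂ (Set.range fun j => fun a => ev F (pder Pd a (p j)) x)) :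
    ∃ γ : ℂ → N → ℂ, AnalyticAt ℂ γ (x o) ∧ γ (x o) = x ∧ (∀ᶠ τ in 𝓝 (x o), γ τ o = τ) ∧
      ∀ P : MvPolynomial σ k, ev F P x = 0 → ∀ᶠ τ in 𝓝 (x o), ev F P (γ τ) = 0 := by
  set G : Option (Fin m) → (N → ℂ) → ℂ := fun i => i.elim (fun y => y o) (fun j => ev F (p j))
    with hG
  set g : Option (Fin m) → N → ℂ := fun i => i.elim (Pi.single o 1)
    (fun j => fun a => ev F (pder Pd a (p j)) x) with hg
  have hli : LinearIndependent ℂ g := by
    rw [linearIndependent_option]
    exact ⟨hpi, ho⟩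
  obtain ⟨R, Θ, r, hR, hr, hΘx, hΘd, hΘ, -⟩ := chart_of_indep (x := x) G g
    (by
      rintro (_ | j)
      · exact (ContinuousLinearMap.proj (R := ℂ) (φ := fun _ : N => ℂ) o).contDiff.contDiffAt
      · exact contDiffAt_ev hD hF hx (p j))
    (by
      rintro (_ | j)
      · have h1 : (∑ a, g none a • ContinuousLinearMap.proj (R := ℂ) (φ := fun _ : N => ℂ) a) =
            ContinuousLinearMap.proj (R := ℂ) (φ := fun _ : N => ℂ) o := by
          ext v
          rw [sum_apply, Finset.sum_eq_single o]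
          · simp [hg]
          · intro a _ ha
            simp [hg, ha]
          · simp
        rw [h1]
        exact (ContinuousLinearMap.proj (R := ℂ) (φ := fun _ : N => ℂ) o).hasFDerivAt
      · exact hasFDerivAt_ev (hF x hx) (p j)) hli
  set ψ : ℂ → N → ℂ := fun τ => x + R (fun i => i.elim (τ - x o) (fun _ => 0)) with hψ
  have hψ0 : ψ (x o) = x := by
    have h1 : (fun i : Option (Fin m) => (i.elim (x o - x o) (fun _ => 0) : ℂ)) = 0 := by
      funext i
      rcases i with _ | j <;> simp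
    simp only [hψ]
    rw [h1]
    simp
  have hψd : Differentiable ℂ ψ := by
    intro τ
    apply (differentiableAt_const x).add
    apply R.differentiableAt.comp τ
    rw [differentiableAt_pi]
    rintro (_ | j)
    · exact differentiableAt_id.sub_const _
    · exact differentiableAt_const _
  have hball : ∀ᶠ τ in 𝓝 (x o), ψ τ ∈ Metric.ball x r := by
    have h1 : ContinuousAt ψ (x o) := (hψd _).continuousAt
    apply h1
    rw [hψ0]
    exact Metric.ball_mem_nhds x hr
  have hγan : AnalyticAt ℂ (fun τ => Θ (ψ τ)) (x o) := by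
    rw [Complex.analyticAt_iff_eventually_differentiableAt]
    filter_upwards [hball] with τ hτ
    have h1 : DifferentiableAt ℂ Θ (ψ τ) := (hΘd _ hτ).differentiableAt (Metric.isOpen_ball.mem_nhds hτ)
    exact h1.comp τ (hψd τ)
  have hval : ∀ᶠ τ in 𝓝 (x o), ∀ i, G i (Θ (ψ τ)) = G i x + i.elim (τ - x o) (fun _ => 0) := by
    filter_upwards [hball] with τ hτ i
    rw [hΘ _ hτ i]
    congr 1
    rw [← hR (fun i => i.elim (τ - x o) (fun _ => 0)) i]
    refine Finset.sum_congr rfl fun a _ => ?_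
    simp [hψ]
  refine ⟨fun τ => Θ (ψ τ), hγan, ?_, ?_, ?_⟩
  · simp only [hψ0, hΘx]
  · filter_upwards [hval] with τ hτ
    have h1 := hτ none
    simp only [hG, Option.elim_none] at h1
    rw [h1]
    ring
  · intro P hP
    refine jlem (D := D) (Pd := Pd) hD hF hx p ?_ hγan (by simp only [hψ0, hΘx]) ?_ hP
    · intro P hP
      exact span_descent x (fun j a => pder Pd a (p j)) (fun a => pder Pd a P) (hps P hP)
    · intro j
      filter_upwards [hval] with τ hτ
      have h1 := hτ (some j)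
      simp only [hG, Option.elim_some, add_zero, hp0 j] at h1
      exact h1

/-- the exceptional case: the coordinate `o` is locally constant on the common zero set -/
theorem const_case [DecidableEq N] (hD : IsOpen D)
    (hF : ∀ x ∈ D, ∀ s, HasFDerivAt (fun y => F y s) (∑ a, aeval (F x) (Pd a s) •
      ContinuousLinearMap.proj (R := ℂ) (φ := fun _ : N => ℂ) a) x)
    (o : N) {x : N → ℂ} (hx : x ∈ D) {m : ℕ} (p : Fin m → MvPolynomial σ k)
    (hp0 : ∀ j, ev F (p j) x = 0)
    (hpi : LinearIndependent ℂ (fun j => fun a => ev F (pder Pd a (p j)) x))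
    (hps : ∀ P, ev F P x = 0 → (fun a => ev F (pder Pd a P) x) ∈
        Submodule.span ℂ (Set.range fun j => fun a => ev F (pder Pd a (p j)) x))
    (ho : (Pi.single o 1 : N → ℂ) ∈
        Submodule.span ℂ (Set.range fun j => fun a => ev F (pder Pd a (p j)) x)) :
    ∀ᶠ y in 𝓝 x, (∀ j, ev F (p j) y = 0) → y o = x o := by
  obtain ⟨R, Θ, r, hR, hr, hΘx, hΘd, hΘ, hsurj⟩ := chart_of_indep (x := x)
    (fun j => ev F (p j)) (fun j => fun a => ev F (pder Pd a (p j)) x)
    (fun j => contDiffAt_ev hD hF hx (p j)) (fun j => hasFDerivAt_ev (hF x hx) (p j)) hpi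
  filter_upwards [hsurj] with y hy hyz
  obtain ⟨w, hw, rfl⟩ := hy
  set V : Set ℂ := {s : ℂ | x + s • (w - x) ∈ Metric.ball x r} with hV
  have hlc : Continuous fun s : ℂ => x + s • (w - x) := by fun_prop
  have hld : Differentiable ℂ fun s : ℂ => x + s • (w - x) := by fun_prop
  have hVo : IsOpen V := Metric.isOpen_ball.preimage hlc
  have hVc : Convex ℝ V := by
    intro a ha b hb t u ht hu htu
    have h1 : x + (t • a + u • b) • (w - x) =
        t • (x + a • (w - x)) + u • (x + b • (w - x)) := by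
      have h2 : t • (x + a • (w - x)) + u • (x + b • (w - x)) =
        (t + u) • x + (t • a + u • b) • (w - x) := by
        simp only [smul_add, add_smul, smul_assoc]
        abel
      rw [h2, htu, one_smul]
    change _ ∈ Metric.ball x r
    rw [h1]
    exact convex_ball x r ha hb ht hu htu
  have h0V : (0 : ℂ) ∈ V := by
    simp [hV, hr]
  have h1V : (1 : ℂ) ∈ V := by
    have h1 : x + (1 : ℂ) • (w - x) = w := by simp
    change _ ∈ Metric.ball x r
    rw [h1]
    exact hw
  set φ : ℂ → N → ℂ := fun s => Θ (x + s • (w - x)) with hφ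
  have hφd : DifferentiableOn ℂ φ V := by
    intro s hs
    have h1 : DifferentiableAt ℂ Θ (x + s • (w - x)) :=
      (hΘd _ hs).differentiableAt (Metric.isOpen_ball.mem_nhds hs)
    exact (h1.comp s (hld s)).differentiableWithinAt
  have hφan : AnalyticOnNhd ℂ φ V := hφd.analyticOnNhd hVo
  have hφ0 : φ 0 = x := by simp [hφ, hΘx]
  have hφ1 : φ 1 = Θ w := by simp [hφ]
  have hzero : ∀ s ∈ V, ∀ j, ev F (p j) (φ s) = 0 := by
    intro s hs j
    have h1 := hΘ _ hs j
    have h2 := hΘ _ hw j
    rw [hyz j, hp0 j, zero_add] at h2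
    rw [hφ]
    simp only
    rw [h1, hp0 j, zero_add]
    have h3 : ∑ a, ev F (pder Pd a (p j)) x * ((x + s • (w - x)) a - x a) =
        s * ∑ a, ev F (pder Pd a (p j)) x * (w a - x a) := by
      rw [Finset.mul_sum]
      refine Finset.sum_congr rfl fun a _ => ?_
      simp
      ring
    rw [h3, ← h2, mul_zero]
  -- the relations persist near `0`
  have hrel : ∀ P : MvPolynomial σ k, ev F P x = 0 → ∀ᶠ s in 𝓝 (0 : ℂ), ev F P (φ s) = 0 := by
    intro P hP
    refine jlem (D := D) (Pd := Pd) hD hF hx p ?_ (hφan 0 h0V) hφ0 ?_ hP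
    · intro P hP
      exact span_descent x (fun j a => pder Pd a (p j)) (fun a => pder Pd a P) (hps P hP)
    · intro j
      filter_upwards [hVo.mem_nhds h0V] with s hs
      exact hzero s hs j
  obtain ⟨C0, C, hC0, hC⟩ := span_descent x (fun j a => pder Pd a (p j))
    (fun a => if a = o then (1 : MvPolynomial σ k) else 0) (by
      convert ho using 1
      funext a
      by_cases h : a = o
      · subst h; simp
      · simp [h])
  have hmem : ∀ᶠ s in 𝓝 (0 : ℂ), φ s ∈ D := by
    have h1 := (hφan 0 h0V).continuousAt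
    apply h1
    rw [hφ0]
    exact hD.mem_nhds hx
  have hne : ∀ᶠ s in 𝓝 (0 : ℂ), ev F C0 (φ s) ≠ 0 := by
    have h1 : ContinuousAt (fun s => ev F C0 (φ s)) 0 :=
      (analyticAt_ev_comp hD hF (hφan 0 h0V) (by rw [hφ0]; exact hx) C0).continuousAt
    apply h1.eventually_ne
    rw [hφ0]
    exact hC0
  have hder : ∀ᶠ s in 𝓝 (0 : ℂ), deriv (fun s => φ s o) s = 0 := by
    have hall : ∀ᶠ s in 𝓝 (0 : ℂ), ∀ a,
        ev F (C0 * (if a = o then (1 : MvPolynomial σ k) else 0) - ∑ j, C j * pder Pd a (p j))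
          (φ s) = 0 := by
      rw [eventually_all]
      intro a
      exact hrel _ (hC a)
    filter_upwards [hall, hmem, hne, hVo.mem_nhds h0V] with s h1 h2 h3 h4
    have hd : DifferentiableAt ℂ φ s := (hφan s h4).differentiableAt
    have h5 : ∀ j, (∑ a, ev F (pder Pd a (p j)) (φ s) * deriv φ s a) = 0 := by
      intro j
      have h6 := (hasDerivAt_ev_comp hF hd h2 (p j)).deriv
      rw [← h6]
      have h7 : (fun s => ev F (p j) (φ s)) =ᶠ[𝓝 s] fun _ => (0 : ℂ) := by
        filter_upwards [hVo.mem_nhds h4] with s' hs'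
        exact hzero s' hs' j
      rw [h7.deriv_eq]
      simp
    have h6 : ∑ a, deriv φ s a * ev F (C0 * (if a = o then (1 : MvPolynomial σ k) else 0) -
        ∑ j, C j * pder Pd a (p j)) (φ s) = 0 := by
      apply Finset.sum_eq_zero
      intro a _
      rw [h1 a, mul_zero]
    simp only [ev_sub, ev_mul, ev_sum, mul_sub, Finset.sum_sub_distrib] at h6
    have h7 : ∑ a, deriv φ s a * ∑ j, ev F (C j) (φ s) * ev F (pder Pd a (p j)) (φ s) = 0 := by
      simp only [Finset.mul_sum]
      rw [Finset.sum_comm]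
      apply Finset.sum_eq_zero
      intro j _
      have h8 : ∑ a, deriv φ s a * (ev F (C j) (φ s) * ev F (pder Pd a (p j)) (φ s)) =
          ev F (C j) (φ s) * ∑ a, ev F (pder Pd a (p j)) (φ s) * deriv φ s a := by
        rw [Finset.mul_sum]
        exact Finset.sum_congr rfl fun a _ => by ring
      rw [h8, h5 j, mul_zero]
    rw [h7, sub_zero] at h6
    have h8 : ∑ a, deriv φ s a * (ev F C0 (φ s) *
        ev F (if a = o then (1 : MvPolynomial σ k) else 0) (φ s)) = deriv φ s o * ev F C0 (φ s) := by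
      rw [Finset.sum_eq_single o]
      · simp
      · intro a _ ha
        simp [ha]
      · intro h
        exact absurd (Finset.mem_univ o) h
    rw [h8] at h6
    have h9 : deriv (fun s => φ s o) s = deriv φ s o := by
      have := (hasDerivAt_pi.1 hd.hasDerivAt) o
      exact this.deriv
    rw [h9]
    exact (mul_eq_zero.1 h6).resolve_right h3
  -- the coordinate is constant
  have hcoord : AnalyticOnNhd ℂ (fun s => φ s o) V := by
    intro s hs
    exact (ContinuousLinearMap.proj (R := ℂ) (φ := fun _ : N => ℂ) o).analyticAt _ |>.fun_comp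
      (hφan s hs)
  have hconst : Set.EqOn (fun s => φ s o) (fun _ => x o) V := by
    refine hcoord.eqOn_of_preconnected_of_eventuallyEq (fun _ _ => analyticAt_const)
      hVc.isPreconnected h0V ?_
    have h1 : AnalyticAt ℂ (fun s => φ s o) 0 := hcoord 0 h0V
    have h2 : analyticOrderAt (deriv fun s => φ s o) 0 = ⊤ := analyticOrderAt_eq_top.2 hder
    have h3 := h1.analyticOrderAt_deriv_add_one
    rw [h2, top_add] at h3
    have h4 := analyticOrderAt_eq_top.1 h3.symm
    filter_upwards [h4] with s hs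
    rw [← hφ0]
    exact sub_eq_zero.1 hs
  have h1 := hconst h1V
  simp only [hφ1] at h1
  exact h1

end main

/-- a set of points on which a coordinate is locally constant has countably many values -/
lemma countable_values {N : Type*} [Finite N] (o : N) (Z : Set (N → ℂ))
    (hZ : ∀ x ∈ Z, ∀ᶠ y in 𝓝 x, y ∈ Z → y o = x o) : ((fun x => x o) '' Z).Countable := by
  obtain ⟨t, htZ, htc, hcov⟩ := TopologicalSpace.countable_cover_nhdsWithin
    (f := fun x => {y | y o = x o}) (s := Z) (fun x hx => by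
      rw [mem_nhdsWithin_iff_eventually]
      exact hZ x hx)
  refine (htc.image fun x => x o).mono ?_
  rintro _ ⟨x, hx, rfl⟩
  have h1 := hcov hx
  simp only [Set.mem_iUnion, Set.mem_ofPred_eq] at h1
  obtain ⟨y, hy, hxy⟩ := h1
  exact ⟨y, hy, hxy.symm⟩

/-- **Arcs.** For all points `x` of the domain whose coordinate `o` avoids a countable set there is
an analytic arc through `x`, parametrised by the coordinate `o`, along which all the polynomial
relations with coefficients in the countable field `k` that hold at `x` persist. -/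
theorem exists_arcs {k : Type} [Field k] [Countable k] [Algebra k ℂ] {N σ : Type} [Fintype N]
    [DecidableEq N] [Countable σ] (o : N) (D : Set (N → ℂ)) (hD : IsOpen D)
    (F : (N → ℂ) → σ → ℂ) (Pd : N → σ → MvPolynomial σ k)
    (hF : ∀ x ∈ D, ∀ s, HasFDerivAt (fun y => F y s) (∑ a, aeval (F x) (Pd a s) •
      ContinuousLinearMap.proj (R := ℂ) (φ := fun _ : N => ℂ) a) x) :
    ∃ E : Set ℂ, E.Countable ∧ ∀ x ∈ D, x o ∉ E →
      ∃ γ : ℂ → N → ℂ, AnalyticAt ℂ γ (x o) ∧ γ (x o) = x ∧ (∀ᶠ τ in 𝓝 (x o), γ τ o = τ) ∧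
        ∀ P : MvPolynomial σ k, aeval (F x) P = 0 → ∀ᶠ τ in 𝓝 (x o), aeval (F (γ τ)) P = 0 := by
  have hcount : Countable (MvPolynomial σ k) := by
    rw [← Cardinal.mk_le_aleph0_iff]
    refine (MvPolynomial.cardinalMk_le_max_lift (σ := σ) (R := k)).trans ?_
    simp only [max_le_iff, Cardinal.lift_le_aleph0, Cardinal.mk_le_aleph0_iff, le_refl]
    exact ⟨⟨inferInstance, inferInstance⟩, trivial⟩
  set Z : (Σ m : ℕ, Fin m → MvPolynomial σ k) → Set (N → ℂ) := fun q =>
    {x | x ∈ D ∧ (∀ j, ev F (q.2 j) x = 0) ∧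
      ∀ᶠ y in 𝓝 x, (∀ j, ev F (q.2 j) y = 0) → y o = x o} with hZ
  refine ⟨⋃ q, (fun x => x o) '' Z q, ?_, ?_⟩
  · apply Set.countable_iUnion
    intro q
    apply countable_values
    intro x hx
    filter_upwards [hx.2.2] with y hy hyZ
    exact hy hyZ.2.1
  · intro x hx hxE
    obtain ⟨m, p, hp0, hpi, hps⟩ := exists_basis_rel Pd F x
    by_cases ho : (Pi.single o 1 : N → ℂ) ∈
        Submodule.span ℂ (Set.range fun j => fun a => ev F (pder Pd a (p j)) x)
    · exfalso
      apply hxE
      rw [Set.mem_iUnion]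
      exact ⟨⟨m, p⟩, x, ⟨hx, hp0, const_case hD hF o hx p hp0 hpi hps ho⟩, rfl⟩
    · exact arc_case hD hF o hx p hp0 hpi hps ho

end Pool.Agent.Work.MP_8da9ea_nt
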