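import Pool.Agent.Work.MP_8da9ea_nt.MG

set_option autoImplicit false

/-!
# Specialisation of a finitely generated field to analytic germs
-/

namespace Pool.Agent.Work.MP_8da9ea_nt

open Filter Topology

namespace SpecAux

/-- implicit function theorem in one variable for a polynomial with analytic coefficients -/
theorem ift {τ₁ : ℂ} (n : ℕ) (f : ℕ → ℂ → ℂ) (hf : ∀ i, AnalyticAt ℂ (f i) τ₁) (T₀ : ℂ)
    (h0 : ∑ i ∈ Finset.range n, f i τ₁ * T₀ ^ i = 0)
    (h1 : ∑ i ∈ Finset.range n, f i τ₁ * (i * T₀ ^ (i - 1)) ≠ 0) :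
    ∃ ϑ : ℂ → ℂ, AnalyticAt ℂ ϑ τ₁ ∧ ϑ τ₁ = T₀ ∧
      ∀ᶠ τ in 𝓝 τ₁, ∑ i ∈ Finset.range n, f i τ * ϑ τ ^ i = 0 := by
  set H : ℂ × ℂ → ℂ := fun p => ∑ i ∈ Finset.range n, f i p.1 * p.2 ^ i with hH
  have hHan : AnalyticAt ℂ H (τ₁, T₀) := by
    apply Finset.analyticAt_fun_sum
    intro i _
    have e1 : AnalyticAt ℂ (fun p : ℂ × ℂ => f i p.1) (τ₁, T₀) :=
      AnalyticAt.fun_comp (g := f i) (f := fun p : ℂ × ℂ => p.1) (hf i) analyticAt_fst
    exact e1.mul (analyticAt_snd.pow i)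
  set H' : ℂ × ℂ →L[ℂ] ℂ := fderiv ℂ H (τ₁, T₀) with hH'
  have hHd : HasFDerivAt H H' (τ₁, T₀) := hHan.differentiableAt.hasFDerivAt
  set D : ℂ := ∑ i ∈ Finset.range n, f i τ₁ * (i * T₀ ^ (i - 1)) with hD
  have hHD : H' (0, 1) = D := by
    have e1 : HasDerivAt (fun T : ℂ => (τ₁, T)) ((0 : ℂ), (1 : ℂ)) T₀ :=
      (hasDerivAt_const T₀ τ₁).prodMk (hasDerivAt_id T₀)
    have e2 : HasDerivAt (fun T : ℂ => H (τ₁, T)) (H' (0, 1)) T₀ :=
      HasFDerivAt.comp_hasDerivAt (f := fun T : ℂ => (τ₁, T)) T₀ hHd e1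
    have e3 : HasDerivAt (fun T : ℂ => H (τ₁, T)) D T₀ := by
      have : HasDerivAt (fun T : ℂ => ∑ i ∈ Finset.range n, f i τ₁ * T ^ i) D T₀ := by
        rw [hD]
        apply HasDerivAt.fun_sum
        intro i _
        exact (hasDerivAt_pow i T₀).const_mul (f i τ₁)
      exact this
    exact e2.unique e3
  set a₁ : ℂ := H' (1, 0) with ha₁
  have hlin : ∀ p : ℂ × ℂ, H' p = p.1 * a₁ + p.2 * D := by
    intro p
    have e1 : p = p.1 • ((1 : ℂ), (0 : ℂ)) + p.2 • ((0 : ℂ), (1 : ℂ)) := by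
      ext <;> simp
    conv_lhs => rw [e1]
    rw [map_add, map_smul, map_smul, hHD, smul_eq_mul, smul_eq_mul]
  set Ψ : ℂ × ℂ → ℂ × ℂ := fun p => (p.1, H p) with hΨ
  have hΨan : AnalyticAt ℂ Ψ (τ₁, T₀) := analyticAt_fst.prod hHan
  have hcd : ContDiffAt ℂ ⊤ Ψ (τ₁, T₀) := hΨan.contDiffAt
  let L1 : ℂ × ℂ →L[ℂ] ℂ × ℂ := (ContinuousLinearMap.fst ℂ ℂ ℂ).prod H'
  let L2 : ℂ × ℂ →L[ℂ] ℂ × ℂ := (ContinuousLinearMap.fst ℂ ℂ ℂ).prod
    (D⁻¹ • (ContinuousLinearMap.snd ℂ ℂ ℂ - a₁ • ContinuousLinearMap.fst ℂ ℂ ℂ))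
  have hL12 : ∀ p, L2 (L1 p) = p := by
    intro p
    have e1 : L1 p = (p.1, H' p) := rfl
    have e2 : ∀ q : ℂ × ℂ, L2 q = (q.1, D⁻¹ * (q.2 - a₁ * q.1)) := fun q => rfl
    rw [e1, e2, hlin]
    ext
    · rfl
    · have : D⁻¹ * (p.1 * a₁ + p.2 * D - a₁ * p.1) = p.2 := by field_simp; ring
      exact this
  have hL21 : ∀ p, L1 (L2 p) = p := by
    intro p
    have e1 : ∀ q : ℂ × ℂ, L1 q = (q.1, H' q) := fun q => rfl
    have e2 : L2 p = (p.1, D⁻¹ * (p.2 - a₁ * p.1)) := rfl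
    rw [e1, e2, hlin]
    ext
    · rfl
    · have : p.1 * a₁ + D⁻¹ * (p.2 - a₁ * p.1) * D = p.2 := by field_simp; ring
      exact this
  let e : (ℂ × ℂ) ≃L[ℂ] (ℂ × ℂ) := ContinuousLinearEquiv.equivOfInverse L1 L2 hL12 hL21
  have hfd : HasFDerivAt Ψ (e : ℂ × ℂ →L[ℂ] ℂ × ℂ) (τ₁, T₀) :=
    (hasFDerivAt_fst (𝕜 := ℂ) (p := (τ₁, T₀))).prodMk hHd
  have hne : (⊤ : WithTop ℕ∞) ≠ 0 := by decide
  set g := hcd.localInverse hfd hne with hg
  have hΨ0 : Ψ (τ₁, T₀) = (τ₁, 0) := by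
    rw [hΨ]
    simp only [Prod.mk.injEq, true_and]
    exact h0
  have hg0 : g (τ₁, 0) = (τ₁, T₀) := by
    rw [← hΨ0]
    exact hcd.localInverse_apply_image hfd hne
  have hgan : AnalyticAt ℂ g (τ₁, 0) := by
    have := hcd.to_localInverse hfd hne
    rw [hΨ0] at this
    exact this.analyticAt
  have hin : AnalyticAt ℂ (fun τ : ℂ => (τ, (0 : ℂ))) τ₁ := analyticAt_id.prod analyticAt_const
  refine ⟨fun τ => (g (τ, 0)).2, ?_, ?_, ?_⟩
  · have e1 : AnalyticAt ℂ (fun τ => g (τ, 0)) τ₁ :=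
      AnalyticAt.fun_comp (g := g) (f := fun τ : ℂ => (τ, (0 : ℂ))) hgan hin
    exact AnalyticAt.fun_comp (g := Prod.snd) (f := fun τ => g (τ, 0)) analyticAt_snd e1
  · change (g (τ₁, 0)).2 = T₀
    rw [hg0]
  · have e1 : ∀ᶠ y in 𝓝 (Ψ (τ₁, T₀)), Ψ (g y) = y :=
      (hcd.hasStrictFDerivAt' hfd hne).eventually_right_inverse
    rw [hΨ0] at e1
    have e2 : Tendsto (fun τ : ℂ => (τ, (0 : ℂ))) (𝓝 τ₁) (𝓝 (τ₁, 0)) := hin.continuousAt
    filter_upwards [e2.eventually e1] with τ hτ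
    have h3 : (g (τ, 0)).1 = τ := congrArg Prod.fst hτ
    have h4 : H (g (τ, 0)) = 0 := congrArg Prod.snd hτ
    rw [hH] at h4
    simp only [h3] at h4
    exact h4

/-- the germ is analytic and has value `c` -/
def IsAn {τ₁ : ℂ} (m : MG τ₁) (c : ℂ) : Prop :=
  ∃ (f : ℂ → ℂ) (hf : AnalyticAt ℂ f τ₁), m = MG.mk f hf.meromorphicAt ∧ f τ₁ = c

variable {τ₁ : ℂ}

theorem IsAn.add {m m' : MG τ₁} {c c' : ℂ} (h : IsAn m c) (h' : IsAn m' c') :
    IsAn (m + m') (c + c') := by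
  obtain ⟨f, hf, rfl, rfl⟩ := h
  obtain ⟨g, hg, rfl, rfl⟩ := h'
  exact ⟨fun x => f x + g x, hf.add hg, rfl, rfl⟩

theorem IsAn.mul {m m' : MG τ₁} {c c' : ℂ} (h : IsAn m c) (h' : IsAn m' c') :
    IsAn (m * m') (c * c') := by
  obtain ⟨f, hf, rfl, rfl⟩ := h
  obtain ⟨g, hg, rfl, rfl⟩ := h'
  exact ⟨fun x => f x * g x, hf.mul hg, rfl, rfl⟩

theorem isAn_const (c : ℂ) : IsAn (algebraMap ℂ (MG τ₁) c) c :=
  ⟨fun _ => c, analyticAt_const, MG.algebraMap_eq c, rfl⟩

theorem IsAn.inv {m : MG τ₁} {c : ℂ} (h : IsAn m c) (hc : c ≠ 0) : IsAn m⁻¹ c⁻¹ := by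
  obtain ⟨f, hf, rfl, rfl⟩ := h
  exact ⟨fun x => (f x)⁻¹, hf.inv hc, MG.mk_inv _, rfl⟩

theorem IsAn.pow {m : MG τ₁} {c : ℂ} (h : IsAn m c) (n : ℕ) : IsAn (m ^ n) (c ^ n) := by
  induction n with
  | zero =>
    rw [pow_zero, pow_zero]
    have := isAn_const (τ₁ := τ₁) 1
    rwa [map_one] at this
  | succ n ih => rw [pow_succ, pow_succ]; exact ih.mul h

theorem isAn_zero : IsAn (0 : MG τ₁) 0 := by
  have := isAn_const (τ₁ := τ₁) 0
  rwa [map_zero] at this

theorem IsAn.sum {ι : Type*} (s : Finset ι) {m : ι → MG τ₁} {c : ι → ℂ}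
    (h : ∀ i ∈ s, IsAn (m i) (c i)) : IsAn (∑ i ∈ s, m i) (∑ i ∈ s, c i) := by
  classical
  induction s using Finset.induction_on with
  | empty => simpa using isAn_zero
  | insert i s hi ih =>
    rw [Finset.sum_insert hi, Finset.sum_insert hi]
    exact (h i (Finset.mem_insert_self i s)).add
      (ih fun j hj => h j (Finset.mem_insert_of_mem hj))

theorem IsAn.eq_of_zero {c : ℂ} (h : IsAn (0 : MG τ₁) c) : c = 0 := by
  obtain ⟨f, hf, h1, rfl⟩ := h
  rw [MG.mk_zero] at h1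
  have := MG.eq_of_mk_eq analyticAt_const hf h1
  exact this.self_of_nhds.symm

section poly

variable {k L B : Type} [Field k] [Field L] [Algebra k L] [Algebra k ℂ]

/-- evaluation of polynomials at the germs of `G` -/
noncomputable def gg (τ₁ : ℂ) (G : B → ℂ → ℂ) (hG : ∀ s, AnalyticAt ℂ (G s) τ₁) :
    MvPolynomial B k →+* MG τ₁ :=
  MvPolynomial.eval₂Hom ((algebraMap ℂ (MG τ₁)).comp (algebraMap k ℂ))
    (fun s => MG.mk (G s) (hG s).meromorphicAt)

theorem isAn_gg (b : B → L) (ev : L →ₐ[k] ℂ) (G : B → ℂ → ℂ) (hG : ∀ s, AnalyticAt ℂ (G s) τ₁)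
    (hG1 : ∀ s, G s τ₁ = ev (b s)) (p : MvPolynomial B k) :
    IsAn (gg τ₁ G hG p) (ev (MvPolynomial.aeval b p)) := by
  induction p using MvPolynomial.induction_on with
  | C a =>
    have e1 : gg τ₁ G hG (MvPolynomial.C a) = algebraMap ℂ (MG τ₁) (algebraMap k ℂ a) := by
      rw [gg, MvPolynomial.eval₂Hom_C, RingHom.comp_apply]
    have e2 : ev (MvPolynomial.aeval b (MvPolynomial.C a)) = algebraMap k ℂ a := by
      rw [MvPolynomial.aeval_C, AlgHom.commutes]
    rw [e1, e2]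
    exact isAn_const _
  | add p q hp hq =>
    rw [map_add, map_add, map_add]
    exact hp.add hq
  | mul_X p s hp =>
    rw [map_mul, map_mul, map_mul]
    apply hp.mul
    rw [MvPolynomial.aeval_X, gg, MvPolynomial.eval₂Hom_X']
    exact ⟨G s, hG s, rfl, hG1 s⟩

theorem gg_injective (b : B → L) (hb : AlgebraicIndependent k b) (ev : L →ₐ[k] ℂ)
    (G : B → ℂ → ℂ) (hG : ∀ s, AnalyticAt ℂ (G s) τ₁) (hG1 : ∀ s, G s τ₁ = ev (b s)) :
    Function.Injective (gg (k := k) τ₁ G hG) := by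
  rw [injective_iff_map_eq_zero]
  intro p hp
  have h1 := isAn_gg b ev G hG hG1 p
  rw [hp] at h1
  have h2 : MvPolynomial.aeval b p = 0 := by
    have := h1.eq_of_zero
    rwa [map_eq_zero] at this
  exact (map_eq_zero_iff _ hb).mp h2

/-- the embedding of the purely transcendental part -/
theorem exists_phi1 (b : B → L) (hb : AlgebraicIndependent k b) (ev : L →ₐ[k] ℂ)
    (G : B → ℂ → ℂ) (hG : ∀ s, AnalyticAt ℂ (G s) τ₁) (hG1 : ∀ s, G s τ₁ = ev (b s)) :
    ∃ Φ : IntermediateField.adjoin k (Set.range b) →+* MG τ₁,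
      (∀ c : k, Φ (algebraMap k _ c) = algebraMap ℂ (MG τ₁) (algebraMap k ℂ c)) ∧
      (∀ s (hs : b s ∈ IntermediateField.adjoin k (Set.range b)),
        Φ ⟨b s, hs⟩ = MG.mk (G s) (hG s).meromorphicAt) ∧
      (∀ u, IsAn (Φ u) (ev (u : L))) := by
  have hinj := gg_injective b hb ev G hG hG1
  set g := gg (k := k) τ₁ G hG with hg
  set Φ0 : FractionRing (MvPolynomial B k) →+* MG τ₁ := IsFractionRing.lift hinj with hΦ0
  set e := hb.aevalEquivField with he
  have hΦa : ∀ p : MvPolynomial B k, Φ0 (algebraMap _ _ p) = g p := fun p =>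
    IsFractionRing.lift_algebraMap hinj p
  have hea : ∀ p : MvPolynomial B k, ((e (algebraMap _ _ p) :
      IntermediateField.adjoin k (Set.range b)) : L) = MvPolynomial.aeval b p := fun p =>
    hb.aevalEquivField_algebraMap_apply_coe p
  refine ⟨Φ0.comp (e.symm : _ →+* FractionRing (MvPolynomial B k)), ?_, ?_, ?_⟩
  · intro c
    have e1 : e.symm (algebraMap k _ c) = algebraMap (MvPolynomial B k) _ (MvPolynomial.C c) := by
      rw [AlgEquiv.commutes]
      rfl
    change Φ0 (e.symm (algebraMap k _ c)) = _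
    rw [e1, hΦa, hg, gg, MvPolynomial.eval₂Hom_C, RingHom.comp_apply]
  · intro s hs
    have e1 : e.symm ⟨b s, hs⟩ = algebraMap (MvPolynomial B k) _ (MvPolynomial.X s) := by
      rw [AlgEquiv.symm_apply_eq]
      apply Subtype.ext
      rw [hea, MvPolynomial.aeval_X]
    change Φ0 (e.symm ⟨b s, hs⟩) = _
    rw [e1, hΦa, hg, gg, MvPolynomial.eval₂Hom_X']
  · intro u
    change IsAn (Φ0 (e.symm u)) (ev (u : L))
    obtain ⟨p, q, hq, hpq⟩ := IsFractionRing.div_surjective (A := MvPolynomial B k) (e.symm u)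
    have hq0 : q ≠ 0 := nonZeroDivisors.ne_zero hq
    have e1 : u = e (algebraMap _ _ p / algebraMap _ _ q) := by rw [hpq, AlgEquiv.apply_symm_apply]
    have e2 : (u : L) = MvPolynomial.aeval b p / MvPolynomial.aeval b q := by
      rw [← hea, ← hea, e1, map_div₀]
      rfl
    have hq1 : MvPolynomial.aeval b q ≠ 0 := fun h => hq0 ((map_eq_zero_iff _ hb).mp h)
    have hq2 : ev (MvPolynomial.aeval b q) ≠ 0 := by rwa [Ne, map_eq_zero]
    rw [← hpq, map_div₀, hΦa, hΦa, e2, map_div₀, div_eq_mul_inv, div_eq_mul_inv]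
    exact (isAn_gg b ev G hG hG1 p).mul ((isAn_gg b ev G hG hG1 q).inv hq2)

end poly

theorem eval₂_deriv {R S : Type*} [CommSemiring R] [CommSemiring S] (φ : R →+* S) (x : S)
    (P : Polynomial R) : (Polynomial.derivative P).eval₂ φ x =
      ∑ i ∈ Finset.range (P.natDegree + 1), φ (P.coeff i) * (i * x ^ (i - 1)) := by
  rw [Polynomial.derivative_apply, Polynomial.sum_over_range _ (by simp),
    Polynomial.eval₂_finsetSum]
  refine Finset.sum_congr rfl fun i _ => ?_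
  rw [Polynomial.eval₂_mul, Polynomial.eval₂_C, Polynomial.eval₂_X_pow, map_mul, map_natCast,
    mul_assoc]

theorem mk_sum' {ι : Type*} (s : Finset ι) (F : ι → ℂ → ℂ) (h : ∀ i, AnalyticAt ℂ (F i) τ₁) :
    ∑ i ∈ s, MG.mk (F i) (h i).meromorphicAt =
      MG.mk (fun x => ∑ i ∈ s, F i x)
        (Finset.analyticAt_fun_sum s fun i _ => h i).meromorphicAt := by
  classical
  induction s using Finset.induction_on with
  | empty =>
    rw [Finset.sum_empty, MG.mk_zero, MG.mk_eq_iff]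
    exact Eventually.of_forall fun x => by simp
  | insert i s hi ih =>
    rw [Finset.sum_insert hi, ih, MG.mk_add, MG.mk_eq_iff]
    exact Eventually.of_forall fun x => (Finset.sum_insert (f := fun j => F j x) hi).symm

/-- extension to a finite separable extension -/
theorem extend {K L : Type} [Field K] [CharZero K] [Field L] [Algebra K L] [FiniteDimensional K L]
    (ev : L →+* ℂ) (Φ : K →+* MG τ₁) (hΦ : ∀ u, IsAn (Φ u) (ev (algebraMap K L u))) :
    ∃ Φ' : L →+* MG τ₁, (∀ u, Φ' (algebraMap K L u) = Φ u) ∧ ∀ u, IsAn (Φ' u) (ev u) := by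
  let _ : Algebra K (MG τ₁) := Φ.toAlgebra
  have hal : ∀ u : K, algebraMap K (MG τ₁) u = Φ u := fun u => rfl
  set pb := Field.powerBasisOfFiniteOfSeparable K L with hpb
  set P := minpoly K pb.gen with hP
  set N := P.natDegree + 1 with hN
  choose f hfan hfmk hfval using fun i : ℕ => hΦ (P.coeff i)
  have hroot : Polynomial.aeval pb.gen P = 0 := minpoly.aeval K pb.gen
  have hsep : Polynomial.aeval pb.gen (Polynomial.derivative P) ≠ 0 :=
    (Algebra.IsSeparable.isSeparable K pb.gen).aeval_derivative_ne_zero hroot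
  obtain ⟨ϑ, hϑ, hϑ0, hϑe⟩ := ift N f hfan (ev pb.gen)
    (by
      have e1 := congrArg ev hroot
      rw [Polynomial.aeval_eq_sum_range, map_sum, map_zero] at e1
      rw [← e1]
      refine Finset.sum_congr rfl fun i _ => ?_
      rw [hfval, Algebra.smul_def, map_mul, map_pow])
    (by
      have e1 : ev (Polynomial.aeval pb.gen (Polynomial.derivative P)) ≠ 0 := by
        rwa [Ne, map_eq_zero]
      intro e2
      apply e1
      rw [← e2, Polynomial.aeval_def, eval₂_deriv, map_sum]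
      refine Finset.sum_congr rfl fun i _ => ?_
      rw [hfval, map_mul, map_mul, map_natCast, map_pow])
  set θ : MG τ₁ := MG.mk ϑ hϑ.meromorphicAt with hθ
  have hθan : IsAn θ (ev pb.gen) := ⟨ϑ, hϑ, rfl, hϑ0⟩
  have hy : Polynomial.aeval θ (minpoly K pb.gen) = 0 := by
    rw [← hP, Polynomial.aeval_eq_sum_range]
    have e1 : ∀ i, P.coeff i • θ ^ i =
        MG.mk (fun x => f i x * ϑ x ^ i) ((hfan i).mul (hϑ.pow i)).meromorphicAt := by
      intro i
      rw [Algebra.smul_def, hal, hfmk, hθ, MG.mk_pow, MG.mk_mul]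
    simp_rw [e1]
    refine (mk_sum' (Finset.range (P.natDegree + 1)) (fun i x => f i x * ϑ x ^ i)
      (fun i => (hfan i).mul (hϑ.pow i))).trans ?_
    rw [MG.mk_zero, MG.mk_eq_iff]
    exact hϑe.filter_mono nhdsWithin_le_nhds
  set Φ' : L →ₐ[K] MG τ₁ := pb.lift θ hy with hΦ'
  have hgen : Φ' pb.gen = θ := pb.lift_gen θ hy
  refine ⟨Φ', fun u => ?_, fun u => ?_⟩
  · exact (Φ'.commutes u).trans (hal u)
  · obtain ⟨q, hq⟩ := pb.exists_eq_aeval' u
    change IsAn (Φ' u) (ev u)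
    rw [hq, ← Polynomial.aeval_algHom_apply, hgen, Polynomial.aeval_eq_sum_range,
      Polynomial.aeval_eq_sum_range, map_sum]
    apply IsAn.sum
    intro i _
    rw [Algebra.smul_def, Algebra.smul_def, map_mul, map_pow, hal]
    exact (hΦ _).mul (hθan.pow i)

/-- rules for the difference of two derivations along a ring homomorphism -/
theorem der_zero {k L : Type} [Field k] [Field L] [Algebra k L] [CharZero k]
    (F : IntermediateField k L) [FiniteDimensional F L] (Φ : L →+* MG τ₁) (E : L → MG τ₁)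
    (hadd : ∀ u v, E (u + v) = E u + E v) (hmul : ∀ u v, E (u * v) = Φ u * E v + Φ v * E u)
    (hF : ∀ u ∈ F, E u = 0) : ∀ u, E u = 0 := by
  intro u
  have h0 : E 0 = 0 := hF 0 F.zero_mem
  have h1 : E 1 = 0 := hF 1 F.one_mem
  have hpow : ∀ n : ℕ, E (u ^ n) = Φ (n * u ^ (n - 1)) * E u := by
    intro n
    induction n with
    | zero => rw [pow_zero, h1, Nat.cast_zero, zero_mul, map_zero, zero_mul]
    | succ n ih =>
      rw [pow_succ, hmul, ih]
      rcases Nat.eq_zero_or_pos n with rfl | hn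
      · simp
      · have e1 : n - 1 + 1 = n := by omega
        have e2 : u ^ n = u ^ (n - 1) * u := by rw [← pow_succ, e1]
        rw [Nat.add_sub_cancel, ← mul_assoc, ← map_mul, ← add_mul, ← map_add]
        congr 2
        rw [e2]
        push_cast
        ring
  have hpoly : ∀ p : Polynomial F, E (Polynomial.aeval u p) =
      Φ (Polynomial.aeval u (Polynomial.derivative p)) * E u := by
    intro p
    induction p using Polynomial.induction_on' with
    | add p q hp hq =>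
      rw [map_add, hadd, hp, hq, Polynomial.derivative_add, map_add, map_add, add_mul]
    | monomial n a =>
      have ha : E (algebraMap F L a) = 0 := hF _ a.2
      rw [Polynomial.aeval_monomial, hmul, ha, mul_zero, add_zero, hpow,
        Polynomial.derivative_monomial, Polynomial.aeval_monomial, ← mul_assoc, ← map_mul]
      congr 2
      rw [map_mul, map_natCast]
      ring
  have hint : IsIntegral F u := Algebra.IsIntegral.isIntegral u
  have hroot : Polynomial.aeval u (minpoly F u) = 0 := minpoly.aeval F u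
  have hsep : Polynomial.aeval u (Polynomial.derivative (minpoly F u)) ≠ 0 :=
    (Algebra.IsSeparable.isSeparable F u).aeval_derivative_ne_zero hroot
  have h3 := hpoly (minpoly F u)
  rw [hroot, h0] at h3
  have h4 : Φ (Polynomial.aeval u (Polynomial.derivative (minpoly F u))) ≠ 0 := by
    rwa [Ne, map_eq_zero]
  exact (mul_eq_zero.mp h3.symm).resolve_left h4

end SpecAux

open SpecAux

theorem SP {k L B : Type} [Field k] [CharZero k] [Field L] [Algebra k L] [Algebra k ℂ] [Finite B]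
    (b : B → L) (hb : AlgebraicIndependent k b)
    [FiniteDimensional (IntermediateField.adjoin k (Set.range b)) L]
    (ev : L →ₐ[k] ℂ) (τ₁ : ℂ) (G : B → ℂ → ℂ) (hG : ∀ s, AnalyticAt ℂ (G s) τ₁)
    (hG1 : ∀ s, G s τ₁ = ev (b s)) :
    ∃ Φ : L →+* MG τ₁,
      (∀ c : k, Φ (algebraMap k L c) = algebraMap ℂ (MG τ₁) (algebraMap k ℂ c)) ∧
      (∀ s, Φ (b s) = MG.mk (G s) (hG s).meromorphicAt) ∧
      (∀ u, ∃ (f : ℂ → ℂ) (hf : AnalyticAt ℂ f τ₁), Φ u = MG.mk f hf.meromorphicAt ∧ f τ₁ = ev u) ∧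
      ∀ (X : Derivation k L L) (h : MG τ₁), (∀ s, MG.DD (Φ (b s)) = h * Φ (X (b s))) →
        ∀ u, MG.DD (Φ u) = h * Φ (X u) := by
  set K₁ := IntermediateField.adjoin k (Set.range b) with hK₁
  obtain ⟨Φ₁, hk, hbs, han⟩ : ∃ Φ : K₁ →+* MG τ₁,
      (∀ c : k, Φ (algebraMap k _ c) = algebraMap ℂ (MG τ₁) (algebraMap k ℂ c)) ∧
      (∀ s (hs : b s ∈ K₁), Φ ⟨b s, hs⟩ = MG.mk (G s) (hG s).meromorphicAt) ∧
      (∀ u, IsAn (Φ u) (ev (u : L))) := exists_phi1 b hb ev G hG hG1
  have hchar : CharZero K₁ := charZero_of_injective_algebraMap (algebraMap k K₁).injective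
  obtain ⟨Φ, hΦ1, hΦan⟩ := extend (K := K₁) (L := L) (ev : L →+* ℂ) Φ₁ han
  have hmem : ∀ s, b s ∈ K₁ := fun s =>
    IntermediateField.subset_adjoin k (Set.range b) (Set.mem_range_self s)
  have hΦk : ∀ c : k, Φ (algebraMap k L c) = algebraMap ℂ (MG τ₁) (algebraMap k ℂ c) := by
    intro c
    rw [← hk, ← hΦ1]
    rfl
  refine ⟨Φ, hΦk, ?_, hΦan, ?_⟩
  · intro s
    rw [← hbs s (hmem s), ← hΦ1]
    rfl
  · intro X h hX u
    set E : L → MG τ₁ := fun u => MG.DD (Φ u) - h * Φ (X u) with hE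
    have hadd : ∀ u v, E (u + v) = E u + E v := by
      intro u v
      simp only [hE, map_add]
      ring
    have hmul : ∀ u v, E (u * v) = Φ u * E v + Φ v * E u := by
      intro u v
      simp only [hE, map_mul, Derivation.leibniz, smul_eq_mul, map_add]
      ring
    have hEk : ∀ c : k, E (algebraMap k L c) = 0 := by
      intro c
      simp only [hE, hΦk, Derivation.map_algebraMap, map_zero, mul_zero, sub_zero]
    have h0 : E 0 = 0 := by rw [← map_zero (algebraMap k L)]; exact hEk 0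
    have h1 : E 1 = 0 := by rw [← map_one (algebraMap k L)]; exact hEk 1
    -- the elements killed by `E` form an intermediate field
    let F : IntermediateField k L :=
      { carrier := {u | E u = 0}
        mul_mem' := by
          intro u v hu hv
          rw [Set.mem_ofPred_eq] at hu hv ⊢
          rw [hmul, hu, hv, mul_zero, mul_zero, add_zero]
        one_mem' := h1
        add_mem' := by
          intro u v hu hv
          rw [Set.mem_ofPred_eq] at hu hv ⊢
          rw [hadd, hu, hv, add_zero]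
        zero_mem' := h0
        algebraMap_mem' := hEk
        inv_mem' := by
          intro u hu
          rw [Set.mem_ofPred_eq] at hu ⊢
          rcases eq_or_ne u 0 with rfl | hu0
          · rw [inv_zero]; exact h0
          · have e1 := hmul u u⁻¹
            rw [mul_inv_cancel₀ hu0, h1, hu, mul_zero, add_zero] at e1
            have e2 : Φ u ≠ 0 := by rwa [Ne, map_eq_zero]
            exact (mul_eq_zero.mp e1.symm).resolve_left e2 }
    have hle : K₁ ≤ F := by
      rw [hK₁, IntermediateField.adjoin_le_iff]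
      rintro _ ⟨s, rfl⟩
      change E (b s) = 0
      simp only [hE, hX, sub_self]
    have hfin := der_zero K₁ Φ E hadd hmul (fun u hu => hle hu) u
    exact sub_eq_zero.mp hfin

end Pool.Agent.Work.MP_8da9ea_nt
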