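import Mathlib

/-!
# The field of the elliptico-toric problem
-/

set_option autoImplicit false

namespace Pool.Agent.Work.MP_8da9ea_nt

/-- The field `K(ω₁, ω₂, η₁, η₂)` of the problem: it is generated over `ℚ` by the `t l`, the
`exp (t l)`, the invariants `g₂`, `g₃`, the `p i`, `℘ (p i)`, `ζ (p i)`, the periods `ω₁`, `ω₂` and the
quasi-periods `η₁ = 2 ζ(ω₁ / 2)`, `η₂ = 2 ζ(ω₂ / 2)`, all for the lattice `ℤ ω₁ + ℤ ω₂`. -/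
noncomputable def bigField (ω₁ ω₂ : ℂ) {s n : ℕ} (t : Fin s → ℂ) (p : Fin n → ℂ) :
    IntermediateField ℚ ℂ :=
  IntermediateField.adjoin ℚ
    (Set.range t ∪ Set.range (fun l => Complex.exp (t l))
      ∪ {60 * ∑' q : ℤ × ℤ, 1 / ((q.1 : ℂ) * ω₁ + (q.2 : ℂ) * ω₂) ^ 4,
         140 * ∑' q : ℤ × ℤ, 1 / ((q.1 : ℂ) * ω₁ + (q.2 : ℂ) * ω₂) ^ 6}
      ∪ Set.range p
      ∪ Set.range (fun i => ∑' q : ℤ × ℤ, (1 / (p i - ((q.1 : ℂ) * ω₁ + (q.2 : ℂ) * ω₂)) ^ 2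
          - 1 / ((q.1 : ℂ) * ω₁ + (q.2 : ℂ) * ω₂) ^ 2))
      ∪ Set.range (fun i => ∑' q : ℤ × ℤ, (1 / (p i - ((q.1 : ℂ) * ω₁ + (q.2 : ℂ) * ω₂))
          + 1 / ((q.1 : ℂ) * ω₁ + (q.2 : ℂ) * ω₂) + p i / ((q.1 : ℂ) * ω₁ + (q.2 : ℂ) * ω₂) ^ 2))
      ∪ {ω₁, ω₂,
         2 * ∑' q : ℤ × ℤ, (1 / (ω₁ / 2 - ((q.1 : ℂ) * ω₁ + (q.2 : ℂ) * ω₂))
          + 1 / ((q.1 : ℂ) * ω₁ + (q.2 : ℂ) * ω₂) + (ω₁ / 2) / ((q.1 : ℂ) * ω₁ + (q.2 : ℂ) * ω₂) ^ 2),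
         2 * ∑' q : ℤ × ℤ, (1 / (ω₂ / 2 - ((q.1 : ℂ) * ω₁ + (q.2 : ℂ) * ω₂))
          + 1 / ((q.1 : ℂ) * ω₁ + (q.2 : ℂ) * ω₂) + (ω₂ / 2) / ((q.1 : ℂ) * ω₁ + (q.2 : ℂ) * ω₂) ^ 2)})

/-- The field generated over `ℚ` by `2 π i`, `ω₁`, the `t l`, the `exp (t l)` and the `p i`. -/
noncomputable def constField (ω₁ : ℂ) {s n : ℕ} (t : Fin s → ℂ) (p : Fin n → ℂ) :
    IntermediateField ℚ ℂ :=
  IntermediateField.adjoin ℚ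
    ({2 * (Real.pi : ℂ) * Complex.I, ω₁} ∪ Set.range t ∪ Set.range (fun l => Complex.exp (t l))
      ∪ Set.range p)

/-- The lattice `ℤ ω₁ + ℤ ω₂` has complex multiplication: `ω₂ / ω₁` is a root of a quadratic
polynomial with integer coefficients. -/
def IsCM (ω₁ ω₂ : ℂ) : Prop :=
  ∃ a b c : ℤ, a ≠ 0 ∧ (a : ℂ) * (ω₂ / ω₁) ^ 2 + (b : ℂ) * (ω₂ / ω₁) + (c : ℂ) = 0

end Pool.Agent.Work.MP_8da9ea_nt
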