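import Mathlib

/-!
# The field of meromorphic germs at a point, with its derivation
-/

set_option autoImplicit false

namespace Pool.Agent.Work.MP_8da9ea_nt

open Filter Topology

/-- the ring of germs at `τ₀` of meromorphic functions, as a subring of the ring of all germs -/
def MGs (τ₀ : ℂ) : Subring (Filter.Germ (𝓝[≠] τ₀) ℂ) where
  carrier := {g | ∃ f : ℂ → ℂ, MeromorphicAt f τ₀ ∧ g = (f : Filter.Germ (𝓝[≠] τ₀) ℂ)}
  mul_mem' := by
    rintro _ _ ⟨f, hf, rfl⟩ ⟨g, hg, rfl⟩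
    exact ⟨f * g, hf.mul hg, rfl⟩
  one_mem' := ⟨fun _ => 1, MeromorphicAt.const 1 τ₀, rfl⟩
  add_mem' := by
    rintro _ _ ⟨f, hf, rfl⟩ ⟨g, hg, rfl⟩
    exact ⟨f + g, hf.add hg, rfl⟩
  zero_mem' := ⟨fun _ => 0, MeromorphicAt.const 0 τ₀, rfl⟩
  neg_mem' := by
    rintro _ ⟨f, hf, rfl⟩
    exact ⟨-f, hf.neg, rfl⟩

/-- the field of germs at `τ₀` of meromorphic functions -/
def MG (τ₀ : ℂ) : Type := MGs τ₀

namespace MG

variable {τ₀ : ℂ}

noncomputable instance : CommRing (MG τ₀) := inferInstanceAs (CommRing (MGs τ₀))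

/-- the germ of a meromorphic function -/
noncomputable def mk (f : ℂ → ℂ) (hf : MeromorphicAt f τ₀) : MG τ₀ :=
  (⟨(f : Filter.Germ (𝓝[≠] τ₀) ℂ), ⟨f, hf, rfl⟩⟩ : MGs τ₀)

lemma exists_rep (g : MG τ₀) : ∃ (f : ℂ → ℂ) (hf : MeromorphicAt f τ₀), g = mk f hf := by
  obtain ⟨g, f, hf, rfl⟩ := g
  exact ⟨f, hf, rfl⟩

lemma mk_eq_iff {f g : ℂ → ℂ} (hf : MeromorphicAt f τ₀) (hg : MeromorphicAt g τ₀) :
    mk f hf = mk g hg ↔ f =ᶠ[𝓝[≠] τ₀] g := by
  constructor
  · intro h
    exact Filter.Germ.coe_eq.1 (congrArg (fun x : MGs τ₀ => (x : Filter.Germ (𝓝[≠] τ₀) ℂ)) h)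
  · intro h
    exact Subtype.ext (Filter.Germ.coe_eq.2 h)

lemma mk_add {f g : ℂ → ℂ} (hf : MeromorphicAt f τ₀) (hg : MeromorphicAt g τ₀) :
    mk f hf + mk g hg = mk (fun x => f x + g x) (hf.add hg) := rfl

lemma mk_mul {f g : ℂ → ℂ} (hf : MeromorphicAt f τ₀) (hg : MeromorphicAt g τ₀) :
    mk f hf * mk g hg = mk (fun x => f x * g x) (hf.mul hg) := rfl

lemma mk_neg {f : ℂ → ℂ} (hf : MeromorphicAt f τ₀) :
    - mk f hf = mk (fun x => - f x) hf.neg := rfl

lemma mk_sub {f g : ℂ → ℂ} (hf : MeromorphicAt f τ₀) (hg : MeromorphicAt g τ₀) :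
    mk f hf - mk g hg = mk (fun x => f x - g x) (hf.sub hg) := by
  rw [sub_eq_add_neg, mk_neg, mk_add, mk_eq_iff]
  exact Eventually.of_forall fun x => by simp [sub_eq_add_neg]

lemma mk_zero : (0 : MG τ₀) = mk (fun _ => 0) (MeromorphicAt.const 0 τ₀) := rfl

lemma mk_one : (1 : MG τ₀) = mk (fun _ => 1) (MeromorphicAt.const 1 τ₀) := rfl

lemma isField : IsField (MG τ₀) where
  exists_pair_ne := by
    refine ⟨0, 1, fun h => ?_⟩
    rw [mk_zero, mk_one, mk_eq_iff] at h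
    obtain ⟨x, hx⟩ := h.exists
    exact zero_ne_one hx
  mul_comm := mul_comm
  mul_inv_cancel := by
    intro a ha
    obtain ⟨f, hf, rfl⟩ := exists_rep a
    refine ⟨mk f⁻¹ hf.inv, ?_⟩
    rw [mk_mul, mk_one, mk_eq_iff]
    rw [Ne, mk_zero, mk_eq_iff] at ha
    rcases hf.eventually_eq_zero_or_eventually_ne_zero with h | h
    · exact absurd h ha
    · filter_upwards [h] with x hx
      simp [hx]

noncomputable instance : Field (MG τ₀) := isField.toField

/-- constants -/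
noncomputable def const (τ₀ : ℂ) : ℂ →+* MG τ₀ where
  toFun c := mk (fun _ => c) (MeromorphicAt.const c τ₀)
  map_one' := rfl
  map_mul' _ _ := rfl
  map_zero' := rfl
  map_add' _ _ := rfl

noncomputable instance : Algebra ℂ (MG τ₀) := (const τ₀).toAlgebra

lemma algebraMap_eq (c : ℂ) : algebraMap ℂ (MG τ₀) c = mk (fun _ => c) (MeromorphicAt.const c τ₀) :=
  rfl

lemma smul_mk (c : ℂ) {f : ℂ → ℂ} (hf : MeromorphicAt f τ₀) :
    c • mk f hf = mk (fun x => c * f x) ((MeromorphicAt.const c τ₀).mul hf) := by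
  rw [Algebra.smul_def, algebraMap_eq, mk_mul]

instance : CharZero (MG τ₀) := charZero_of_injective_algebraMap (algebraMap ℂ (MG τ₀)).injective

lemma mk_inv {f : ℂ → ℂ} (hf : MeromorphicAt f τ₀) :
    (mk f hf)⁻¹ = mk (fun x => (f x)⁻¹) hf.inv := by
  rcases hf.eventually_eq_zero_or_eventually_ne_zero with h | h
  · have h1 : mk f hf = 0 := by rw [mk_zero, mk_eq_iff]; exact h
    rw [h1, inv_zero, mk_zero, mk_eq_iff]
    filter_upwards [h] with x hx
    simp [hx]
  · rw [inv_eq_iff_eq_inv]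
    apply eq_inv_of_mul_eq_one_left
    rw [mk_mul, mk_one, mk_eq_iff]
    filter_upwards [h] with x hx
    simp [hx]

lemma mk_div {f g : ℂ → ℂ} (hf : MeromorphicAt f τ₀) (hg : MeromorphicAt g τ₀) :
    mk f hf / mk g hg = mk (fun x => f x / g x) (hf.div hg) := by
  rw [div_eq_mul_inv, mk_inv, mk_mul, mk_eq_iff]
  exact Eventually.of_forall fun x => by simp [div_eq_mul_inv]

lemma mk_pow {f : ℂ → ℂ} (hf : MeromorphicAt f τ₀) (n : ℕ) :
    (mk f hf) ^ n = mk (fun x => f x ^ n) (hf.pow n) := by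
  induction n with
  | zero =>
    rw [pow_zero, mk_one, mk_eq_iff]
    exact Eventually.of_forall fun x => by simp
  | succ n ih =>
    rw [pow_succ, ih, mk_mul, mk_eq_iff]
    exact Eventually.of_forall fun x => by simp [pow_succ]

/-- the germ of the derivative of a representative -/
noncomputable def dfun (g : MG τ₀) : MG τ₀ :=
  mk (deriv (exists_rep g).choose) (exists_rep g).choose_spec.choose.deriv

lemma dfun_mk {f : ℂ → ℂ} (hf : MeromorphicAt f τ₀) : dfun (mk f hf) = mk (deriv f) hf.deriv := by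
  rw [dfun, mk_eq_iff]
  have h := (exists_rep (mk f hf)).choose_spec.choose_spec
  rw [mk_eq_iff] at h
  exact h.nhdsNE_deriv.symm

/-- the derivation `d/dτ` on meromorphic germs -/
noncomputable def DD : Derivation ℂ (MG τ₀) (MG τ₀) where
  toFun := dfun
  map_add' := by
    intro a b
    obtain ⟨f, hf, rfl⟩ := exists_rep a
    obtain ⟨g, hg, rfl⟩ := exists_rep b
    rw [mk_add, dfun_mk, dfun_mk, dfun_mk, mk_add, mk_eq_iff]
    filter_upwards [hf.eventually_analyticAt, hg.eventually_analyticAt] with x h1 h2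
    exact deriv_fun_add h1.differentiableAt h2.differentiableAt
  map_smul' := by
    intro c a
    obtain ⟨f, hf, rfl⟩ := exists_rep a
    rw [smul_mk, dfun_mk, dfun_mk, RingHom.id_apply, smul_mk, mk_eq_iff]
    filter_upwards [hf.eventually_analyticAt] with x h1
    rw [deriv_const_mul _ h1.differentiableAt]
  map_one_eq_zero' := by
    change dfun (1 : MG τ₀) = 0
    rw [mk_one, dfun_mk, mk_zero, mk_eq_iff]
    exact Eventually.of_forall fun x => by simp
  leibniz' := by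
    intro a b
    change dfun (a * b) = a • dfun b + b • dfun a
    obtain ⟨f, hf, rfl⟩ := exists_rep a
    obtain ⟨g, hg, rfl⟩ := exists_rep b
    rw [smul_eq_mul, smul_eq_mul, mk_mul, dfun_mk, dfun_mk, dfun_mk, mk_mul, mk_mul, mk_add,
      mk_eq_iff]
    filter_upwards [hf.eventually_analyticAt, hg.eventually_analyticAt] with x h1 h2
    rw [deriv_fun_mul h1.differentiableAt h2.differentiableAt]
    ring

lemma DD_mk {f : ℂ → ℂ} (hf : MeromorphicAt f τ₀) : DD (mk f hf) = mk (deriv f) hf.deriv :=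
  dfun_mk hf

lemma eq_of_mk_eq {f g : ℂ → ℂ} (hf : AnalyticAt ℂ f τ₀) (hg : AnalyticAt ℂ g τ₀)
    (h : mk f hf.meromorphicAt = mk g hg.meromorphicAt) : f =ᶠ[𝓝 τ₀] g := by
  rw [mk_eq_iff] at h
  exact (hf.frequently_eq_iff_eventually_eq hg).1 h.frequently

lemma mk_eq_of_eq {f g : ℂ → ℂ} (hf : MeromorphicAt f τ₀) (hg : MeromorphicAt g τ₀)
    (h : f =ᶠ[𝓝 τ₀] g) : mk f hf = mk g hg := by
  rw [mk_eq_iff]
  exact h.filter_mono nhdsWithin_le_nhds

/-- the constants of the derivation -/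
lemma DD_ker (m : MG τ₀) (h : DD m = 0) : m ∈ Set.range (algebraMap ℂ (MG τ₀)) := by
  obtain ⟨f, hf, rfl⟩ := exists_rep m
  rw [DD_mk, mk_zero, mk_eq_iff] at h
  have hord : meromorphicOrderAt (deriv f) τ₀ = ⊤ := by
    rw [meromorphicOrderAt_eq_top_iff]
    exact h
  rcases eq_or_ne (meromorphicOrderAt f τ₀) ⊤ with h1 | h1
  · rw [meromorphicOrderAt_eq_top_iff] at h1
    refine ⟨0, ?_⟩
    rw [algebraMap_eq, mk_eq_iff]
    filter_upwards [h1] with x hx
    exact hx.symm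
  · obtain ⟨n, hn⟩ := WithTop.ne_top_iff_exists.1 h1
    have hn0 : n = 0 := by
      by_contra hne
      have h2 := meromorphicOrderAt_deriv_eq_sub_one (x := τ₀) (f := f) (n := n)
        (Int.cast_ne_zero.2 hne) hn.symm
      rw [hord] at h2
      exact WithTop.top_ne_coe h2
    subst hn0
    rw [eq_comm, meromorphicOrderAt_eq_int_iff hf] at hn
    obtain ⟨g, hg, hg0, hfg⟩ := hn
    have hfg' : f =ᶠ[𝓝[≠] τ₀] g := by
      filter_upwards [hfg] with x hx
      simpa using hx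
    have h2 : deriv g =ᶠ[𝓝[≠] τ₀] fun _ => 0 := hfg'.nhdsNE_deriv.symm.trans h
    have h3 : deriv g =ᶠ[𝓝 τ₀] fun _ => 0 :=
      (hg.deriv.frequently_eq_iff_eventually_eq analyticAt_const).1 h2.frequently
    have h4 : analyticOrderAt (deriv g) τ₀ = ⊤ := analyticOrderAt_eq_top.2 h3
    have h5 := hg.analyticOrderAt_deriv_add_one
    rw [h4, top_add] at h5
    have h6 := analyticOrderAt_eq_top.1 h5.symm
    refine ⟨g τ₀, ?_⟩
    rw [algebraMap_eq, mk_eq_iff]
    filter_upwards [hfg', h6.filter_mono nhdsWithin_le_nhds] with x h7 h8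
    rw [h7]
    exact (sub_eq_zero.1 h8).symm

/-- germ of an analytic function -/
noncomputable def an (τ₀ : ℂ) (f : ℂ → ℂ) (hf : AnalyticAt ℂ f τ₀) : MG τ₀ := mk f hf.meromorphicAt

end MG

end Pool.Agent.Work.MP_8da9ea_nt
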