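import Pool.Agent.Work.MP_8da9ea_nt.OdeD

/-!
# The differential equations of the lattice functions: final statements

For `0 < τ.im` and `z ∉ Lam τ`, with `kap = 2 π i`:

* `ode_et`, `ode_gg2`, `ode_gg3`: Ramanujan's equations;
* `hasFDerivAt_zt`, `hasFDerivAt_wp`, `hasFDerivAt_wpd`: joint derivatives in `(τ, z)`;
* `wpt_eq`, `ztt_eq`, `wpdt_eq`, `wpdd_eq`, `wpd_sq`: closed forms of the partial derivatives;
* `hasStrictFDerivAt_zt` etc.
-/

set_option autoImplicit false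

namespace Pool.Agent.Work.MP_8da9ea_nt

open Complex Filter Topology

/-- derivative in `z` of the `τ` derivative of the zeta function -/
theorem hasDerivAt_ztt {τ z : ℂ} (hτ : 0 < τ.im) (hz : ∀ q : ℤ × ℤ, q.2 ≠ 0 → z ≠ lp 1 τ q) :
    HasDerivAt (fun z => ztt τ z) (-wpt τ z) z := by
  obtain ⟨R, c, S, hR, hc, hS0, hev⟩ := exists_setup2 z hτ
  obtain ⟨C, hC, hb⟩ := bdd3_wptT R c hR hc
  have hev' : ∀ᶠ w in 𝓝 z, ‖w‖ ≤ R ∧ (∀ q, c * nr q ≤ ‖lp 1 τ q‖) ∧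
      ∀ q ∉ S, 0 < nr q ∧ 2 * R ≤ ‖lp 1 τ q‖ := by
    have hcont : Tendsto (fun w : ℂ => (τ, w)) (𝓝 z) (𝓝 (τ, z)) := by
      have : ContinuousAt (fun w : ℂ => (τ, w)) z := by fun_prop
      exact this
    filter_upwards [hcont.eventually hev] with w hw
    exact hw.2
  have hterm : ∀ (w : ℂ) (q : ℤ × ℤ), (q.2 ≠ 0 → w ≠ lp 1 τ q) →
      HasDerivAt (fun z : ℂ => zttT τ z q) (-wptT τ w q) w := by
    intro w q hq
    by_cases h0 : q.2 = 0
    · have : (fun z : ℂ => zttT τ z q) = fun _ => 0 := by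
        funext z; simp [zttT, h0]
      rw [this]
      have h1 : -wptT τ w q = 0 := by simp [wptT, h0]
      rw [h1]
      exact hasDerivAt_const _ _
    · have h : w - lp 1 τ q ≠ 0 := sub_ne_zero.2 (hq h0)
      have h1 : HasDerivAt (fun z : ℂ => z - lp 1 τ q) 1 w := (hasDerivAt_id w).sub_const _
      have h2 := ((((hasDerivAt_invpow 2 h).comp w h1).sub_const (1 / (lp 1 τ q) ^ 2)).sub
        (((hasDerivAt_id w).const_mul (2 : ℂ)).div_const ((lp 1 τ q) ^ 3))).const_mul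
        ((q.2 : ℂ))
      refine h2.congr_deriv ?_
      unfold wptT
      push_cast
      ring
  have hmain := hasDerivAt_tsum_cofinite (f := fun q z => zttT τ z q)
    (f' := fun q z => -wptT τ z q) (x₀ := z)
    (u := fun q => (C / c ^ 3) * (nr q ^ 3)⁻¹) (summable_nr.mul_left _)
    (fun q => by have := nr_nonneg q; positivity) S (fun q _ => hterm z q (hz q)) ?_
    (bdd3_zttT.summable hτ z) ((bdd3_neg bdd3_wptT).summable hτ z)
  · rw [tsum_neg] at hmain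
    exact hmain
  filter_upwards [hev'] with w hw q hq
  obtain ⟨d4, d5, d6⟩ := hw
  obtain ⟨d7, d8⟩ := d6 q hq
  refine ⟨hterm w q (fun _ h => ?_), ?_⟩
  · rw [← h] at d8
    linarith
  · rw [norm_neg]
    refine (hb τ w q d4 d8 (d5 q)).trans ?_
    have h1 : (c * nr q) ^ 3 ≤ ‖lp 1 τ q‖ ^ 3 := by
      have := d5 q
      gcongr
    calc C / ‖lp 1 τ q‖ ^ 3 ≤ C / (c * nr q) ^ 3 := by
          gcongr
      _ = (C / c ^ 3) * (nr q ^ 3)⁻¹ := by
          rw [mul_pow]; field_simp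

lemma hasDerivAt_ztt_z {τ z : ℂ} (hτ : 0 < τ.im) (hz : z ∉ Lam τ) :
    HasDerivAt (fun z => ztt τ z) (-wpt τ z) z :=
  hasDerivAt_ztt hτ (fun q _ h => hz ⟨q, h.symm⟩)

lemma half_notMem {τ : ℂ} (hτ : 0 < τ.im) : (1 / 2 : ℂ) ∉ Lam τ := by
  intro h
  have := (PP hτ).ω₁_div_two_notMem_lattice
  apply this
  rw [mem_PP]
  exact h

lemma ztt_neg {τ z : ℂ} (hτ : 0 < τ.im) (hz : z ∉ Lam τ) : ztt τ (-z) = -ztt τ z := by
  have hz' : -z ∉ Lam τ := fun h => hz (neg_mem_Lam.1 h)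
  have h1 := hasDerivAt_zt_t hτ hz'
  have h2 := (hasDerivAt_zt_t hτ hz).neg
  refine h1.unique (h2.congr_of_eventuallyEq (Eventually.of_forall fun t => ?_))
  exact zt_neg 1 t z

theorem ztt_eq {τ z : ℂ} (hτ : 0 < τ.im) (hz : z ∉ Lam τ) :
    kap * ztt τ z = -(zt 1 τ z - z * et τ) * wp 1 τ z - wpd τ z / 2 - et τ * zt 1 τ z +
      gg2 τ * z / 12 := by
  set E : ℂ → ℂ := fun z => kap * ztt τ z - (-(zt 1 τ z - z * et τ) * wp 1 τ z - wpd τ z / 2 -
    et τ * zt 1 τ z + gg2 τ * z / 12) with hE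
  have hd : ∀ z ∈ (Lam τ)ᶜ, HasDerivAt E 0 z := by
    intro z hz
    have hz' : z ∉ Lam τ := hz
    have a0 := hasDerivAt_ztt_z hτ hz'
    have a1 := hasDerivAt_zt_z hτ hz'
    have a2 := hasDerivAt_wp_z hτ hz'
    have a3 := hasDerivAt_wpd_z hτ hz'
    have h := (a0.const_mul kap).sub ((((((a1.sub ((hasDerivAt_id z).mul_const (et τ))).neg.mul
      a2)).sub (a3.div_const 2)).sub (a1.const_mul (et τ))).add
      (((hasDerivAt_id z).const_mul (gg2 τ)).div_const 12))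
    refine h.congr_deriv ?_
    have e1 := wpt_eq hτ hz'
    have e2 := wpdd_eq hτ hz'
    simp only [Pi.sub_apply, Pi.neg_apply, id_eq]
    rw [e2]
    linear_combination -e1
  have hconst : ∀ w ∈ (Lam τ)ᶜ, E w = E z := by
    intro w hw
    exact IsOpen.is_const_of_deriv_eq_zero (Lam_compl_open hτ) Lam_compl_conn
      (fun w hw => (hd w hw).differentiableAt.differentiableWithinAt)
      (fun w hw => (hd w hw).deriv) hw hz
  have hz' : -z ∉ Lam τ := fun h => hz (neg_mem_Lam.1 h)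
  have h1 := hconst (-z) hz'
  have h2 : E (-z) = - E z := by
    simp only [hE]
    rw [ztt_neg hτ hz, zt_neg, wp_neg, wpd_neg hτ]
    ring
  have h3 : E z = 0 := by
    rw [h2] at h1
    linear_combination -h1 / 2
  exact sub_eq_zero.1 h3

lemma wpd_half {τ : ℂ} (hτ : 0 < τ.im) : wpd τ (1 / 2) = 0 := by
  have h := wpd_add_one hτ (-(1 / 2))
  rw [wpd_neg hτ, show -(1 / 2 : ℂ) + 1 = 1 / 2 by norm_num] at h
  linear_combination h / 2

/-- Ramanujan's equation for the quasi-period -/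
theorem ode_et {τ : ℂ} (hτ : 0 < τ.im) :
    HasDerivAt et ((-(et τ) ^ 2 + gg2 τ / 12) / kap) τ := by
  have h := (hasDerivAt_zt_t hτ (half_notMem hτ)).const_mul 2
  have e := ztt_eq hτ (half_notMem hτ)
  rw [wpd_half hτ] at e
  have e2 : zt 1 τ (1 / 2) = et τ / 2 := by unfold et; ring
  refine h.congr_deriv ?_
  rw [eq_div_iff kap_ne_zero]
  rw [e2] at e
  linear_combination 2 * e

lemma differentiableAt_gk {k : ℕ} (hk : 3 ≤ k) {τ : ℂ} (hτ : 0 < τ.im) :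
    DifferentiableAt ℂ (fun τ => gk k 1 τ) τ :=
  (analytic_gk (τ := fun x => x) hk analyticAt_id hτ).differentiableAt

lemma ode_aux {τ : ℂ} (hτ : 0 < τ.im) :
    kap * deriv gg2 τ + 4 * et τ * gg2 τ - 6 * gg3 τ = 0 ∧
      kap * deriv gg3 τ + 6 * et τ * gg3 τ - gg2 τ ^ 2 / 3 = 0 := by
  have d2 : HasDerivAt gg2 (deriv gg2 τ) τ :=
    ((differentiableAt_gk (k := 4) (by norm_num) hτ).const_mul 60).hasDerivAt
  have d3 : HasDerivAt gg3 (deriv gg3 τ) τ :=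
    ((differentiableAt_gk (k := 6) (by norm_num) hτ).const_mul 140).hasDerivAt
  refine linear_zero hτ fun z hz => ?_
  have b1 := hasDerivAt_wp_t hτ hz
  have b2 := hasDerivAt_wpd_t hτ hz
  have h1 := b2.pow 2
  have h3 := (((b1.pow 3).const_mul 4).sub (d2.mul b1)).sub d3
  have hopen : ∀ᶠ t : ℂ in 𝓝 τ, 0 < t.im ∧ z ∉ Lam t := by
    obtain ⟨R, c, S, hR, hc, hS0, hev⟩ := exists_setup2 z hτ
    have hcont : Tendsto (fun t : ℂ => (t, z)) (𝓝 τ) (𝓝 (τ, z)) := by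
      have : ContinuousAt (fun t : ℂ => (t, z)) τ := by fun_prop
      exact this
    have hS : ∀ᶠ t : ℂ in 𝓝 τ, ∀ q ∈ S, z ≠ lp 1 t q := by
      rw [Filter.eventually_all_finset]
      intro q _
      have hc : ContinuousAt (fun t : ℂ => lp 1 t q) τ := by unfold lp; fun_prop
      have hne : z ≠ lp 1 τ q := fun h => hz ⟨q, h.symm⟩
      exact (hc.eventually_ne hne.symm).mono fun t ht h => ht h.symm
    filter_upwards [hcont.eventually hev, hS] with t ht hSt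
    obtain ⟨d1, d2, d3, d4⟩ := ht
    refine ⟨d1, ?_⟩
    rintro ⟨q, hq⟩
    by_cases hqS : q ∈ S
    · exact hSt q hqS hq.symm
    · obtain ⟨d5, d6⟩ := d4 q hqS
      rw [hq] at d6
      have : ‖z‖ ≤ R := d2
      have : 2 * R ≤ ‖z‖ := d6
      linarith
  have h4 : (fun t => wpd t z ^ 2) =ᶠ[𝓝 τ]
      fun t => 4 * wp 1 t z ^ 3 - gg2 t * wp 1 t z - gg3 t := by
    filter_upwards [hopen] with t ht
    exact wpd_sq ht.1 ht.2
  have h5 := (h1.congr_of_eventuallyEq (f₁ := fun t => wpd t z ^ 2)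
      (Eventually.of_forall fun _ => rfl)).unique (h3.congr_of_eventuallyEq h4)
  simp only [Nat.cast_ofNat] at h5
  norm_num at h5
  have e1 := wpt_eq hτ hz
  have e2 := wpdt_eq hτ hz
  have e3 := wpdd_eq hτ hz
  have e4 := wpd_sq hτ hz
  rw [e3] at e2
  linear_combination kap * h5 - (2 * wpd τ z) * e2 + (12 * wp 1 τ z ^ 2 - gg2 τ) * e1 +
    (-6 * wp 1 τ z + 6 * et τ) * e4

/-- Ramanujan's equation for `g₂` -/
theorem ode_gg2 {τ : ℂ} (hτ : 0 < τ.im) :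
    HasDerivAt gg2 ((-4 * et τ * gg2 τ + 6 * gg3 τ) / kap) τ := by
  have d2 : HasDerivAt gg2 (deriv gg2 τ) τ :=
    ((differentiableAt_gk (k := 4) (by norm_num) hτ).const_mul 60).hasDerivAt
  refine d2.congr_deriv ?_
  rw [eq_div_iff kap_ne_zero]
  linear_combination (ode_aux hτ).1

/-- Ramanujan's equation for `g₃` -/
theorem ode_gg3 {τ : ℂ} (hτ : 0 < τ.im) :
    HasDerivAt gg3 ((-6 * et τ * gg3 τ + gg2 τ ^ 2 / 3) / kap) τ := by
  have d3 : HasDerivAt gg3 (deriv gg3 τ) τ :=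
    ((differentiableAt_gk (k := 6) (by norm_num) hτ).const_mul 140).hasDerivAt
  refine d3.congr_deriv ?_
  rw [eq_div_iff kap_ne_zero]
  linear_combination (ode_aux hτ).2

/-! ### the domain is open; strict differentiability -/

/-- the domain of the lattice functions -/
def Dom : Set (ℂ × ℂ) := {p | 0 < p.1.im ∧ p.2 ∉ Lam p.1}

lemma Dom_open : IsOpen Dom := by
  rw [isOpen_iff_mem_nhds]
  rintro ⟨τ, z⟩ ⟨hτ, hz⟩
  simp only at hτ hz
  obtain ⟨R, c, S, hR, hc, hS0, hev⟩ := exists_setup2 z hτ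
  have hS : ∀ᶠ p : ℂ × ℂ in 𝓝 (τ, z), ∀ q ∈ S, p.2 - lp 1 p.1 q ≠ 0 := by
    rw [Filter.eventually_all_finset]
    intro q _
    have hc : ContinuousAt (fun p : ℂ × ℂ => p.2 - lp 1 p.1 q) (τ, z) := by unfold lp; fun_prop
    exact hc.eventually_ne (sub_ne_zero.2 fun h => hz ⟨q, h.symm⟩)
  filter_upwards [hev, hS] with p hp hSp
  obtain ⟨d1, d2, d3, d4⟩ := hp
  refine ⟨d1, ?_⟩
  rintro ⟨q, hq⟩
  by_cases hqS : q ∈ S
  · exact hSp q hqS (by rw [hq, sub_self])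
  · obtain ⟨d5, d6⟩ := d4 q hqS
    rw [hq] at d6
    linarith

lemma Dom_nhds {τ z : ℂ} (hτ : 0 < τ.im) (hz : z ∉ Lam τ) : Dom ∈ 𝓝 (τ, z) :=
  Dom_open.mem_nhds ⟨hτ, hz⟩

lemma continuousOn_zt : ContinuousOn (fun p : ℂ × ℂ => zt 1 p.1 p.2) Dom := fun _ hp =>
  (hasFDerivAt_zt hp.1 hp.2).continuousAt.continuousWithinAt

lemma continuousOn_wp : ContinuousOn (fun p : ℂ × ℂ => wp 1 p.1 p.2) Dom := fun _ hp =>
  (hasFDerivAt_wp hp.1 hp.2).continuousAt.continuousWithinAt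

lemma continuousOn_wpd : ContinuousOn (fun p : ℂ × ℂ => wpd p.1 p.2) Dom := fun _ hp =>
  (hasFDerivAt_wpd hp.1 hp.2).continuousAt.continuousWithinAt

lemma continuousOn_et : ContinuousOn (fun p : ℂ × ℂ => et p.1) Dom := fun p hp =>
  ((ode_et hp.1).continuousAt.comp (f := fun p : ℂ × ℂ => p.1) (x := p)
    continuousAt_fst).continuousWithinAt

lemma continuousOn_gg2 : ContinuousOn (fun p : ℂ × ℂ => gg2 p.1) Dom := fun p hp =>
  ((ode_gg2 hp.1).continuousAt.comp (f := fun p : ℂ × ℂ => p.1) (x := p)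
    continuousAt_fst).continuousWithinAt

lemma wpt_eq' {τ z : ℂ} (hτ : 0 < τ.im) (hz : z ∉ Lam τ) :
    wpt τ z = ((zt 1 τ z - z * et τ) * wpd τ z + 2 * wp 1 τ z ^ 2 -
      2 * et τ * wp 1 τ z - gg2 τ / 3) / kap := by
  rw [eq_div_iff kap_ne_zero, mul_comm]
  exact wpt_eq hτ hz

lemma ztt_eq' {τ z : ℂ} (hτ : 0 < τ.im) (hz : z ∉ Lam τ) :
    ztt τ z = (-(zt 1 τ z - z * et τ) * wp 1 τ z - wpd τ z / 2 - et τ * zt 1 τ z +
      gg2 τ * z / 12) / kap := by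
  rw [eq_div_iff kap_ne_zero, mul_comm]
  exact ztt_eq hτ hz

lemma wpdt_eq' {τ z : ℂ} (hτ : 0 < τ.im) (hz : z ∉ Lam τ) :
    wpdt τ z = ((zt 1 τ z - z * et τ) * wpdd τ z + 3 * wp 1 τ z * wpd τ z -
      3 * et τ * wpd τ z) / kap := by
  rw [eq_div_iff kap_ne_zero, mul_comm]
  exact wpdt_eq hτ hz

lemma continuousOn_wpdd : ContinuousOn (fun p : ℂ × ℂ => wpdd p.1 p.2) Dom := by
  have h : ContinuousOn (fun p : ℂ × ℂ => 6 * wp 1 p.1 p.2 ^ 2 - gg2 p.1 / 2) Dom :=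
    (continuousOn_const.mul (continuousOn_wp.pow 2)).sub (continuousOn_gg2.div_const 2)
  exact h.congr fun p hp => wpdd_eq hp.1 hp.2

lemma continuousOn_wpt : ContinuousOn (fun p : ℂ × ℂ => wpt p.1 p.2) Dom := by
  have h : ContinuousOn (fun p : ℂ × ℂ => ((zt 1 p.1 p.2 - p.2 * et p.1) * wpd p.1 p.2 +
      2 * wp 1 p.1 p.2 ^ 2 - 2 * et p.1 * wp 1 p.1 p.2 - gg2 p.1 / 3) / kap) Dom :=
    (((((continuousOn_zt.sub (continuousOn_snd.mul continuousOn_et)).mul continuousOn_wpd).add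
      (continuousOn_const.mul (continuousOn_wp.pow 2))).sub
      ((continuousOn_const.mul continuousOn_et).mul continuousOn_wp)).sub
      (continuousOn_gg2.div_const 3)).div_const kap
  exact h.congr fun p hp => wpt_eq' hp.1 hp.2

lemma continuousOn_ztt : ContinuousOn (fun p : ℂ × ℂ => ztt p.1 p.2) Dom := by
  have h : ContinuousOn (fun p : ℂ × ℂ => (-(zt 1 p.1 p.2 - p.2 * et p.1) * wp 1 p.1 p.2 -
      wpd p.1 p.2 / 2 - et p.1 * zt 1 p.1 p.2 + gg2 p.1 * p.2 / 12) / kap) Dom :=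
    (((((continuousOn_zt.sub (continuousOn_snd.mul continuousOn_et)).neg.mul
      continuousOn_wp).sub (continuousOn_wpd.div_const 2)).sub
      (continuousOn_et.mul continuousOn_zt)).add
      ((continuousOn_gg2.mul continuousOn_snd).div_const 12)).div_const kap
  exact h.congr fun p hp => ztt_eq' hp.1 hp.2

lemma continuousOn_wpdt : ContinuousOn (fun p : ℂ × ℂ => wpdt p.1 p.2) Dom := by
  have h : ContinuousOn (fun p : ℂ × ℂ => ((zt 1 p.1 p.2 - p.2 * et p.1) * wpdd p.1 p.2 +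
      3 * wp 1 p.1 p.2 * wpd p.1 p.2 - 3 * et p.1 * wpd p.1 p.2) / kap) Dom :=
    ((((continuousOn_zt.sub (continuousOn_snd.mul continuousOn_et)).mul continuousOn_wpdd).add
      ((continuousOn_const.mul continuousOn_wp).mul continuousOn_wpd)).sub
      ((continuousOn_const.mul continuousOn_et).mul continuousOn_wpd)).div_const kap
  exact h.congr fun p hp => wpdt_eq' hp.1 hp.2

lemma hasStrictFDerivAt_aux {F A B : ℂ × ℂ → ℂ} (hF : ∀ p ∈ Dom, HasFDerivAt F (lf (A p) (B p)) p)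
    (hA : ContinuousOn A Dom) (hB : ContinuousOn B Dom) {p : ℂ × ℂ} (hp : p ∈ Dom) :
    HasStrictFDerivAt F (lf (A p) (B p)) p := by
  refine hasStrictFDerivAt_of_hasFDerivAt_of_continuousAt (f' := fun p => lf (A p) (B p)) ?_ ?_
  · filter_upwards [Dom_open.mem_nhds hp] with x hx
    exact hF x hx
  · have h1 := (hA.continuousAt (Dom_open.mem_nhds hp))
    have h2 := (hB.continuousAt (Dom_open.mem_nhds hp))
    unfold lf
    exact (h1.smul continuousAt_const).add (h2.smul continuousAt_const)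

theorem hasStrictFDerivAt_zt {τ z : ℂ} (hτ : 0 < τ.im) (hz : z ∉ Lam τ) :
    HasStrictFDerivAt (fun p : ℂ × ℂ => zt 1 p.1 p.2) (lf (ztt τ z) (-wp 1 τ z)) (τ, z) :=
  hasStrictFDerivAt_aux (A := fun p => ztt p.1 p.2) (B := fun p => -wp 1 p.1 p.2)
    (fun _ hp => hasFDerivAt_zt hp.1 hp.2) continuousOn_ztt continuousOn_wp.neg
    (p := (τ, z)) ⟨hτ, hz⟩

theorem hasStrictFDerivAt_wp {τ z : ℂ} (hτ : 0 < τ.im) (hz : z ∉ Lam τ) :
    HasStrictFDerivAt (fun p : ℂ × ℂ => wp 1 p.1 p.2) (lf (wpt τ z) (wpd τ z)) (τ, z) :=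
  hasStrictFDerivAt_aux (A := fun p => wpt p.1 p.2) (B := fun p => wpd p.1 p.2)
    (fun _ hp => hasFDerivAt_wp hp.1 hp.2) continuousOn_wpt continuousOn_wpd
    (p := (τ, z)) ⟨hτ, hz⟩

theorem hasStrictFDerivAt_wpd {τ z : ℂ} (hτ : 0 < τ.im) (hz : z ∉ Lam τ) :
    HasStrictFDerivAt (fun p : ℂ × ℂ => wpd p.1 p.2) (lf (wpdt τ z) (wpdd τ z)) (τ, z) :=
  hasStrictFDerivAt_aux (A := fun p => wpdt p.1 p.2) (B := fun p => wpdd p.1 p.2)
    (fun _ hp => hasFDerivAt_wpd hp.1 hp.2) continuousOn_wpdt continuousOn_wpdd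
    (p := (τ, z)) ⟨hτ, hz⟩

end Pool.Agent.Work.MP_8da9ea_nt
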