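import Pool.Agent.Work.MP_8da9ea_nt.OdeC

/-!
# The differential equations of the Weierstrass functions in both variables
-/

set_option autoImplicit false

namespace Pool.Agent.Work.MP_8da9ea_nt

open Complex Filter Topology

/-- the constant `2 π i` -/
noncomputable def kap : ℂ := 2 * Real.pi * I

/-- the invariant `g₂` of the lattice `ℤ + ℤ τ` -/
noncomputable def gg2 (τ : ℂ) : ℂ := 60 * gk 4 1 τ

/-- the invariant `g₃` of the lattice `ℤ + ℤ τ` -/
noncomputable def gg3 (τ : ℂ) : ℂ := 140 * gk 6 1 τ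

lemma kap_ne_zero : kap ≠ 0 := by
  unfold kap
  simp [Real.pi_ne_zero]

lemma Lam_closed {τ : ℂ} (hτ : 0 < τ.im) : IsClosed (Lam τ) := by
  rw [← coe_PP hτ]
  exact (PP hτ).isClosed_lattice

lemma Lam_compl_open {τ : ℂ} (hτ : 0 < τ.im) : IsOpen (Lam τ)ᶜ := (Lam_closed hτ).isOpen_compl

lemma Lam_compl_conn {τ : ℂ} : IsPreconnected (Lam τ)ᶜ :=
  (Set.Countable.isConnected_compl_of_one_lt_rank (by simp) (Lam_countable τ)).2

lemma add_one_mem {τ z : ℂ} : z + 1 ∈ Lam τ ↔ z ∈ Lam τ := by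
  rw [mem_Lam, mem_Lam]
  constructor
  · rintro ⟨m, n, h⟩
    exact ⟨m - 1, n, by push_cast; linear_combination h⟩
  · rintro ⟨m, n, h⟩
    exact ⟨m + 1, n, by push_cast; linear_combination h⟩

lemma add_tau_mem {τ z : ℂ} : z + τ ∈ Lam τ ↔ z ∈ Lam τ := by
  rw [mem_Lam, mem_Lam]
  constructor
  · rintro ⟨m, n, h⟩
    exact ⟨m, n - 1, by push_cast; linear_combination h⟩
  · rintro ⟨m, n, h⟩
    exact ⟨m, n + 1, by push_cast; linear_combination h⟩

lemma neg_mem_Lam {τ z : ℂ} : -z ∈ Lam τ ↔ z ∈ Lam τ := by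
  rw [mem_Lam, mem_Lam]
  constructor
  · rintro ⟨m, n, h⟩
    exact ⟨-m, -n, by push_cast; linear_combination -h⟩
  · rintro ⟨m, n, h⟩
    exact ⟨-m, -n, by push_cast; linear_combination -h⟩

/-! ### derivatives in `z` -/

lemma hasDerivAt_zt_z {τ z : ℂ} (hτ : 0 < τ.im) (hz : z ∉ Lam τ) :
    HasDerivAt (fun z => zt 1 τ z) (-wp 1 τ z) z := by
  have h := hasDerivAt_arc (τ := fun _ => τ) (z := fun z => z) (x := z)
    (hasFDerivAt_zt hτ hz) (hasDerivAt_const _ _) (hasDerivAt_id z)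
  simpa using h

lemma hasDerivAt_wp_z {τ z : ℂ} (hτ : 0 < τ.im) (hz : z ∉ Lam τ) :
    HasDerivAt (fun z => wp 1 τ z) (wpd τ z) z := by
  have h := hasDerivAt_arc (τ := fun _ => τ) (z := fun z => z) (x := z)
    (hasFDerivAt_wp hτ hz) (hasDerivAt_const _ _) (hasDerivAt_id z)
  simpa using h

lemma hasDerivAt_wpd_z {τ z : ℂ} (hτ : 0 < τ.im) (hz : z ∉ Lam τ) :
    HasDerivAt (fun z => wpd τ z) (wpdd τ z) z := by
  have h := hasDerivAt_arc (τ := fun _ => τ) (z := fun z => z) (x := z)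
    (hasFDerivAt_wpd hτ hz) (hasDerivAt_const _ _) (hasDerivAt_id z)
  simpa using h

lemma hasDerivAt_zt_t {τ z : ℂ} (hτ : 0 < τ.im) (hz : z ∉ Lam τ) :
    HasDerivAt (fun τ => zt 1 τ z) (ztt τ z) τ := by
  have h := hasDerivAt_arc (τ := fun τ => τ) (z := fun _ => z) (x := τ)
    (hasFDerivAt_zt hτ hz) (hasDerivAt_id τ) (hasDerivAt_const _ _)
  simpa using h

lemma hasDerivAt_wp_t {τ z : ℂ} (hτ : 0 < τ.im) (hz : z ∉ Lam τ) :
    HasDerivAt (fun τ => wp 1 τ z) (wpt τ z) τ := by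
  have h := hasDerivAt_arc (τ := fun τ => τ) (z := fun _ => z) (x := τ)
    (hasFDerivAt_wp hτ hz) (hasDerivAt_id τ) (hasDerivAt_const _ _)
  simpa using h

lemma hasDerivAt_wpd_t {τ z : ℂ} (hτ : 0 < τ.im) (hz : z ∉ Lam τ) :
    HasDerivAt (fun τ => wpd τ z) (wpdt τ z) τ := by
  have h := hasDerivAt_arc (τ := fun τ => τ) (z := fun _ => z) (x := τ)
    (hasFDerivAt_wpd hτ hz) (hasDerivAt_id τ) (hasDerivAt_const _ _)
  simpa using h

lemma hasDerivAt_wpt_z {τ z : ℂ} (hτ : 0 < τ.im) (hz : z ∉ Lam τ) :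
    HasDerivAt (fun z => wpt τ z) (wpdt τ z) z :=
  hasDerivAt_wpt hτ (fun q _ h => hz ⟨q, h.symm⟩)

/-! ### the Weierstrass equation -/

theorem wpd_sq {τ z : ℂ} (hτ : 0 < τ.im) (hz : z ∉ Lam τ) :
    wpd τ z ^ 2 = 4 * wp 1 τ z ^ 3 - gg2 τ * wp 1 τ z - gg3 τ := by
  have h := (PP hτ).derivWeierstrassP_sq z (fun h => hz ((mem_PP hτ).1 h))
  rw [wpd_PP hτ, wp_PP hτ, gg2, gg3, gk_PP hτ, gk_PP hτ]
  exact h

lemma lim_sq_wp {τ : ℂ} (hτ : 0 < τ.im) :
    Tendsto (fun z => z ^ 2 * wp 1 τ z) (𝓝[≠] 0) (𝓝 1) := by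
  have h := lim_wpE hτ
  have h4 : Tendsto (fun z : ℂ => z ^ 4) (𝓝[≠] 0) (𝓝 0) := by
    have : Tendsto (fun z : ℂ => z ^ 4) (𝓝 0) (𝓝 (0 ^ 4)) := by
      apply Continuous.tendsto; fun_prop
    rw [zero_pow (by norm_num)] at this
    exact this.mono_left nhdsWithin_le_nhds
  have h2 := (h4.mul h).const_add 1
  rw [zero_mul, add_zero] at h2
  refine h2.congr' ?_
  filter_upwards [self_mem_nhdsWithin] with z hz
  have hz0 : z ≠ 0 := hz
  rw [wp_eq_E hτ]
  field_simp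

/-- the Weierstrass function is not constant -/
lemma linear_zero {τ A B : ℂ} (hτ : 0 < τ.im) (h : ∀ z, z ∉ Lam τ → A * wp 1 τ z + B = 0) :
    A = 0 ∧ B = 0 := by
  have h1 := (lim_sq_wp hτ).const_mul A
  have h2 : Tendsto (fun z : ℂ => z ^ 2 * B) (𝓝[≠] 0) (𝓝 0) := by
    have : Tendsto (fun z : ℂ => z ^ 2 * B) (𝓝 0) (𝓝 (0 ^ 2 * B)) := by
      apply Continuous.tendsto; fun_prop
    rw [zero_pow (by norm_num), zero_mul] at this
    exact this.mono_left nhdsWithin_le_nhds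
  have h3 := h1.add h2
  have h4 : Tendsto (fun z : ℂ => A * (z ^ 2 * wp 1 τ z) + z ^ 2 * B) (𝓝[≠] 0) (𝓝 0) := by
    refine tendsto_const_nhds.congr' ?_
    filter_upwards [eventually_notMem hτ] with z hz
    have := h z hz
    linear_combination -z ^ 2 * this
  have h5 := tendsto_nhds_unique h3 h4
  have hA : A = 0 := by linear_combination h5
  refine ⟨hA, ?_⟩
  obtain ⟨z, hz⟩ := (eventually_notMem hτ).exists
  have := h z hz
  rw [hA] at this
  linear_combination this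

lemma wpd_not_zero {τ : ℂ} (hτ : 0 < τ.im) : ¬ ∀ z, z ∉ Lam τ → wpd τ z = 0 := by
  intro h
  have hc : ∀ z ∈ (Lam τ)ᶜ, HasDerivAt (fun z => wp 1 τ z) 0 z := by
    intro z hz
    have := hasDerivAt_wp_z hτ hz
    rwa [h z hz] at this
  obtain ⟨z₀, hz₀⟩ := (eventually_notMem hτ).exists
  have hconst : ∀ z ∈ (Lam τ)ᶜ, wp 1 τ z = wp 1 τ z₀ := by
    intro z hz
    refine IsOpen.is_const_of_deriv_eq_zero (Lam_compl_open hτ) Lam_compl_conn
      (fun w hw => (hc w hw).differentiableAt.differentiableWithinAt)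
      (fun w hw => (hc w hw).deriv) hz hz₀
  have := linear_zero (A := 1) (B := -wp 1 τ z₀) hτ (fun z hz => by rw [hconst z hz]; ring)
  exact one_ne_zero this.1

lemma analyticOn_zt {τ : ℂ} (hτ : 0 < τ.im) : AnalyticOnNhd ℂ (fun z => zt 1 τ z) (Lam τ)ᶜ :=
  DifferentiableOn.analyticOnNhd
    (fun _ hz => (hasDerivAt_zt_z hτ hz).differentiableAt.differentiableWithinAt)
    (Lam_compl_open hτ)

lemma analyticOn_wp {τ : ℂ} (hτ : 0 < τ.im) : AnalyticOnNhd ℂ (fun z => wp 1 τ z) (Lam τ)ᶜ :=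
  DifferentiableOn.analyticOnNhd
    (fun _ hz => (hasDerivAt_wp_z hτ hz).differentiableAt.differentiableWithinAt)
    (Lam_compl_open hτ)

lemma analyticOn_wpd {τ : ℂ} (hτ : 0 < τ.im) : AnalyticOnNhd ℂ (fun z => wpd τ z) (Lam τ)ᶜ :=
  DifferentiableOn.analyticOnNhd
    (fun _ hz => (hasDerivAt_wpd_z hτ hz).differentiableAt.differentiableWithinAt)
    (Lam_compl_open hτ)

lemma analyticOn_wpdd {τ : ℂ} (hτ : 0 < τ.im) : AnalyticOnNhd ℂ (fun z => wpdd τ z) (Lam τ)ᶜ := by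
  have h := (analyticOn_wpd hτ).deriv
  refine h.congr (Lam_compl_open hτ) ?_
  intro z hz
  exact (hasDerivAt_wpd_z hτ hz).deriv

theorem wpdd_eq {τ z : ℂ} (hτ : 0 < τ.im) (hz : z ∉ Lam τ) :
    wpdd τ z = 6 * wp 1 τ z ^ 2 - gg2 τ / 2 := by
  have hb : AnalyticOnNhd ℂ (fun z => wpdd τ z - (6 * wp 1 τ z ^ 2 - gg2 τ / 2)) (Lam τ)ᶜ := by
    have h1 := analyticOn_wpdd hτ
    have h2 := analyticOn_wp hτ
    exact h1.sub ((analyticOnNhd_const.mul (h2.pow 2)).sub analyticOnNhd_const)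
  have hmul : ∀ z ∈ (Lam τ)ᶜ, wpd τ z * (wpdd τ z - (6 * wp 1 τ z ^ 2 - gg2 τ / 2)) = 0 := by
    intro z hz
    have h1 := (hasDerivAt_wpd_z hτ hz).pow 2
    have h2 := hasDerivAt_wp_z hτ hz
    have h3 := (((h2.pow 3).const_mul 4).sub (h2.const_mul (gg2 τ))).sub_const (gg3 τ)
    have h4 : (fun z => wpd τ z ^ 2) =ᶠ[𝓝 z]
        fun z => 4 * wp 1 τ z ^ 3 - gg2 τ * wp 1 τ z - gg3 τ := by
      filter_upwards [(Lam_compl_open hτ).mem_nhds hz] with w hw
      exact wpd_sq hτ hw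
    have h5 := (h1.congr_of_eventuallyEq (f₁ := fun z => wpd τ z ^ 2)
      (Eventually.of_forall fun _ => rfl)).unique (h3.congr_of_eventuallyEq h4)
    simp only [Nat.cast_ofNat] at h5
    norm_num at h5
    linear_combination h5 / 2
  rcases AnalyticOnNhd.eq_zero_or_eq_zero_of_mul_eq_zero (analyticOn_wpd hτ) hb hmul
    Lam_compl_conn with h | h
  · exact absurd (fun z hz => h z hz) (wpd_not_zero hτ)
  · exact sub_eq_zero.1 (h z hz)

/-! ### quasi periodicity of the `τ` derivatives -/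

lemma wpd_add_one {τ : ℂ} (hτ : 0 < τ.im) (z : ℂ) : wpd τ (z + 1) = wpd τ z := by
  rw [wpd_PP hτ, wpd_PP hτ]
  exact (PP hτ).derivWeierstrassP_add_coe z ⟨1, (PP hτ).ω₁_mem_lattice⟩

lemma wpd_add_tau {τ : ℂ} (hτ : 0 < τ.im) (z : ℂ) : wpd τ (z + τ) = wpd τ z := by
  rw [wpd_PP hτ, wpd_PP hτ]
  exact (PP hτ).derivWeierstrassP_add_coe z ⟨τ, (PP hτ).ω₂_mem_lattice⟩

lemma wpd_neg {τ : ℂ} (hτ : 0 < τ.im) (z : ℂ) : wpd τ (-z) = -wpd τ z := by
  rw [wpd_PP hτ, wpd_PP hτ]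
  exact (PP hτ).derivWeierstrassP_neg z

lemma eventually_im {τ : ℂ} (hτ : 0 < τ.im) : ∀ᶠ t : ℂ in 𝓝 τ, 0 < t.im := by
  have : ContinuousAt (fun t : ℂ => t.im) τ := by fun_prop
  exact continuousAt_const.eventually_lt this hτ

lemma wpt_add_one {τ z : ℂ} (hτ : 0 < τ.im) (hz : z ∉ Lam τ) : wpt τ (z + 1) = wpt τ z := by
  have hz1 : z + 1 ∉ Lam τ := fun h => hz (add_one_mem.1 h)
  have h1 := hasDerivAt_wp_t hτ hz1
  have h2 := hasDerivAt_wp_t hτ hz
  refine h1.unique (h2.congr_of_eventuallyEq ?_)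
  filter_upwards [eventually_im hτ] with t ht
  exact wp_add_one ht z

lemma wpt_add_tau {τ z : ℂ} (hτ : 0 < τ.im) (hz : z ∉ Lam τ) :
    wpt τ (z + τ) = wpt τ z - wpd τ z := by
  have hz1 : z + τ ∉ Lam τ := fun h => hz (add_tau_mem.1 h)
  have h1 := hasDerivAt_arc (τ := fun t => t) (z := fun t => z + t) (x := τ)
    (hasFDerivAt_wp hτ hz1) (hasDerivAt_id τ) ((hasDerivAt_id τ).const_add z)
  have h2 := hasDerivAt_wp_t hτ hz
  have h3 := h1.unique (h2.congr_of_eventuallyEq (by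
    filter_upwards [eventually_im hτ] with t ht
    exact wp_add_tau ht z))
  rw [wpd_add_tau hτ] at h3
  linear_combination h3

/-! ### the equation for the `τ` derivative of the Weierstrass function -/

/-- the difference of the two sides -/
noncomputable def Del (τ z : ℂ) : ℂ :=
  kap * wpt τ z - ((zt 1 τ z - z * et τ) * wpd τ z + 2 * wp 1 τ z ^ 2 - 2 * et τ * wp 1 τ z -
    gg2 τ / 3)

lemma Del_add_one {τ z : ℂ} (hτ : 0 < τ.im) (hz : z ∉ Lam τ) : Del τ (z + 1) = Del τ z := by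
  unfold Del
  rw [wpt_add_one hτ hz, zt_add_one' hτ, wpd_add_one hτ, wp_add_one hτ]
  ring

lemma Del_add_tau {τ z : ℂ} (hτ : 0 < τ.im) (hz : z ∉ Lam τ) : Del τ (z + τ) = Del τ z := by
  unfold Del
  rw [wpt_add_tau hτ hz, zt_add_tau hτ, wpd_add_tau hτ, wp_add_tau hτ, kap]
  ring

lemma wpt_zero {τ : ℂ} : wpt τ 0 = 0 := by
  unfold wpt
  rw [tsum_congr (g := fun _ => 0), tsum_zero]
  intro q
  unfold wptT
  rw [zero_sub, Odd.neg_pow (by decide), one_div_neg_eq_neg_one_div]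
  ring

lemma lim_wpt {τ : ℂ} (hτ : 0 < τ.im) : Tendsto (fun z => wpt τ z) (𝓝[≠] 0) (𝓝 0) := by
  have h : HasDerivAt (fun z => wpt τ z) (wpdt τ 0) 0 := by
    refine hasDerivAt_wpt hτ fun q hq h => ?_
    exact lp_ne_zero hτ (q := q) (by rintro rfl; exact hq rfl) h.symm
  have h2 := h.continuousAt.tendsto
  rw [wpt_zero] at h2
  exact h2.mono_left nhdsWithin_le_nhds

lemma lim_Del {τ : ℂ} (hτ : 0 < τ.im) : Tendsto (fun z => Del τ z) (𝓝[≠] 0) (𝓝 0) := by
  have hp := lim_wpE hτ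
  have hq := lim_wpdE hτ
  have hr := lim_ztE hτ
  have hz : Tendsto (fun z : ℂ => z) (𝓝[≠] 0) (𝓝 0) :=
    (continuous_id.tendsto (0 : ℂ)).mono_left nhdsWithin_le_nhds
  have h2 := hz.pow 2
  have h4 := hz.pow 4
  have hw := (lim_wpt hτ).const_mul kap
  have key := hw.sub ((((((hq.sub (hr.const_mul 2)).add (hp.const_mul 4)).add
    ((h4.mul hr).mul hq)).sub ((h2.const_mul (et τ)).mul hq)).add
    ((h4.mul (hp.pow 2)).const_mul 2)).sub (((h2.mul hp).const_mul (2 * et τ))) |>.sub_const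
      (gg2 τ / 3))
  have e : kap * 0 - (6 * gk 4 1 τ - 2 * -gk 4 1 τ + 4 * (3 * gk 4 1 τ) +
      0 ^ 4 * -gk 4 1 τ * (6 * gk 4 1 τ) - et τ * 0 ^ 2 * (6 * gk 4 1 τ) +
      2 * (0 ^ 4 * (3 * gk 4 1 τ) ^ 2) - 2 * et τ * (0 ^ 2 * (3 * gk 4 1 τ)) - gg2 τ / 3) = 0 := by
    unfold gg2
    ring
  rw [e] at key
  refine key.congr' ?_
  filter_upwards [self_mem_nhdsWithin] with z hz
  have hz0 : z ≠ 0 := hz
  unfold Del
  rw [wp_eq_E hτ, wpd_eq_E hτ, zt_eq_E hτ]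
  field_simp
  ring

lemma hasDerivAt_Del {τ z : ℂ} (hτ : 0 < τ.im) (hz : z ∉ Lam τ) :
    DifferentiableAt ℂ (fun z => Del τ z) z := by
  have h1 := (hasDerivAt_zt_z hτ hz).differentiableAt
  have h2 := (hasDerivAt_wp_z hτ hz).differentiableAt
  have h3 := (hasDerivAt_wpd_z hτ hz).differentiableAt
  have h4 := (hasDerivAt_wpt_z hτ hz).differentiableAt
  unfold Del
  fun_prop

open scoped Classical in
/-- an elliptic function without poles which tends to zero at the origin vanishes -/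
lemma elliptic_zero {τ : ℂ} (hτ : 0 < τ.im) {D : ℂ → ℂ} (h1 : ∀ z, z ∉ Lam τ → D (z + 1) = D z)
    (h2 : ∀ z, z ∉ Lam τ → D (z + τ) = D z) (hd : ∀ z, z ∉ Lam τ → DifferentiableAt ℂ D z)
    (hl : Tendsto D (𝓝[≠] 0) (𝓝 0)) : ∀ z, z ∉ Lam τ → D z = 0 := by
  set F : ℂ → ℂ := fun z => if z ∈ Lam τ then 0 else D z with hF
  have p1 : Function.Periodic F 1 := by
    intro z
    by_cases hz : z ∈ Lam τ
    · simp [hF, hz, add_one_mem.2 hz]
    · have hz' : z + 1 ∉ Lam τ := fun h => hz (add_one_mem.1 h)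
      simp only [hF, hz, hz', if_false]
      exact h1 z hz
  have p2 : Function.Periodic F τ := by
    intro z
    by_cases hz : z ∈ Lam τ
    · simp [hF, hz, add_tau_mem.2 hz]
    · have hz' : z + τ ∉ Lam τ := fun h => hz (add_tau_mem.1 h)
      simp only [hF, hz, hz', if_false]
      exact h2 z hz
  have p3 : ∀ z w, w ∈ Lam τ → F (z + w) = F z := by
    intro z w hw
    obtain ⟨m, n, rfl⟩ := mem_Lam.1 hw
    have := (p1.int_mul m).add_period (p2.int_mul n) z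
    rw [mul_one] at this
    exact this
  have d1 : ∀ z, z ∉ Lam τ → DifferentiableAt ℂ F z := by
    intro z hz
    refine (hd z hz).congr_of_eventuallyEq ?_
    filter_upwards [(Lam_compl_open hτ).mem_nhds hz] with w hw
    have hw' : w ∉ Lam τ := hw
    simp [hF, hw']
  have hF0 : F 0 = 0 := by
    have : (0 : ℂ) ∈ Lam τ := mem_Lam.2 ⟨0, 0, by simp⟩
    simp [hF, this]
  have d0 : DifferentiableAt ℂ F 0 := by
    refine (Complex.analyticAt_of_differentiable_on_punctured_nhds_of_continuousAt ?_ ?_).differentiableAt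
    · filter_upwards [eventually_notMem hτ] with z hz
      exact d1 z hz
    · rw [continuousAt_iff_punctured_nhds, hF0]
      refine hl.congr' ?_
      filter_upwards [eventually_notMem hτ] with z hz
      simp [hF, hz]
  have d2 : Differentiable ℂ F := by
    intro z
    by_cases hz : z ∈ Lam τ
    · have e : F = fun w => F (w - z) := by
        funext w
        have := p3 (w - z) z hz
        rw [sub_add_cancel] at this
        exact this
      rw [e]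
      have : DifferentiableAt ℂ F (z - z) := by rw [sub_self]; exact d0
      exact DifferentiableAt.comp (f := fun w => w - z) z this (by fun_prop)
    · exact d1 z hz
  intro z hz
  have hbd := (IsZLattice.isCompact_range_of_periodic (PP hτ).lattice F d2.continuous
    (fun z w hw => p3 z w ((mem_PP hτ).1 hw))).isBounded
  have := d2.apply_eq_apply_of_bounded hbd z 0
  rw [hF0] at this
  simpa [hF, hz] using this

theorem wpt_eq {τ z : ℂ} (hτ : 0 < τ.im) (hz : z ∉ Lam τ) :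
    kap * wpt τ z = (zt 1 τ z - z * et τ) * wpd τ z + 2 * wp 1 τ z ^ 2 -
      2 * et τ * wp 1 τ z - gg2 τ / 3 :=
  sub_eq_zero.1 (elliptic_zero hτ (fun _ hz => Del_add_one hτ hz) (fun _ hz => Del_add_tau hτ hz)
    (fun _ hz => hasDerivAt_Del hτ hz) (lim_Del hτ) z hz)

theorem wpdt_eq {τ z : ℂ} (hτ : 0 < τ.im) (hz : z ∉ Lam τ) :
    kap * wpdt τ z = (zt 1 τ z - z * et τ) * wpdd τ z + 3 * wp 1 τ z * wpd τ z -
      3 * et τ * wpd τ z := by
  have h1 := (hasDerivAt_wpt_z hτ hz).const_mul kap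
  have a1 := hasDerivAt_zt_z hτ hz
  have a2 := hasDerivAt_wp_z hτ hz
  have a3 := hasDerivAt_wpd_z hτ hz
  have h2 := ((((a1.sub ((hasDerivAt_id z).mul_const (et τ))).mul a3).add
    ((a2.pow 2).const_mul 2)).sub (a2.const_mul (2 * et τ))).sub_const (gg2 τ / 3)
  have h3 : (fun z => kap * wpt τ z) =ᶠ[𝓝 z] fun z => (zt 1 τ z - z * et τ) * wpd τ z +
      2 * wp 1 τ z ^ 2 - 2 * et τ * wp 1 τ z - gg2 τ / 3 := by
    filter_upwards [(Lam_compl_open hτ).mem_nhds hz] with w hw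
    exact wpt_eq hτ hw
  have h4 := h1.unique (h2.congr_of_eventuallyEq h3)
  rw [h4]
  simp only [Nat.cast_ofNat, Pi.sub_apply, id_eq]
  norm_num
  ring

end Pool.Agent.Work.MP_8da9ea_nt
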