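import Pool.Agent.Work.MP_8da9ea_nt.Dens

/-!
# Zariski density of the values of the Eisenstein sums
-/

set_option autoImplicit false

namespace Pool.Agent.Work.MP_8da9ea_nt

open Complex Filter Topology

/-- the upper half plane as a set -/
def HH : Set ℂ := {τ | 0 < τ.im}

lemma isPreconnected_HH : IsPreconnected HH := by
  have : Convex ℝ HH := convex_halfSpace_im_gt 0
  exact this.isPreconnected

open MvPolynomial in
/-- two variable polynomials as iterated polynomials -/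
noncomputable def Phi : MvPolynomial (Fin 2) ℂ →ₐ[ℂ] Polynomial (Polynomial ℂ) :=
  aeval ![Polynomial.C Polynomial.X, Polynomial.X]

/-- evaluation of iterated polynomials -/
noncomputable def E2 (a b : ℂ) : Polynomial (Polynomial ℂ) →+* ℂ :=
  (Polynomial.evalRingHom a).comp (Polynomial.evalRingHom (Polynomial.C b))

open MvPolynomial in
lemma E2_Phi (p : MvPolynomial (Fin 2) ℂ) (a b : ℂ) : E2 a b (Phi p) = eval ![a, b] p := by
  rw [Phi, MvPolynomial.aeval_def, MvPolynomial.hom_eval₂, MvPolynomial.eval,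
    MvPolynomial.coe_eval₂Hom]
  congr 1
  · ext w
    change E2 a b (Polynomial.C (Polynomial.C w)) = w
    simp [E2]
  · funext i
    fin_cases i
    · change E2 a b (Polynomial.C Polynomial.X) = a
      simp [E2]
    · change E2 a b Polynomial.X = b
      simp [E2]

lemma E2_eq_sum (q : Polynomial (Polynomial ℂ)) (a b : ℂ) :
    E2 a b q = ∑ j ∈ Finset.range (q.natDegree + 1), (q.coeff j).eval a * b ^ j := by
  simp only [E2, RingHom.comp_apply, Polynomial.coe_evalRingHom]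
  have h : Polynomial.eval (Polynomial.C b) q =
      ∑ j ∈ Finset.range (q.natDegree + 1), q.coeff j * (Polynomial.C b) ^ j :=
    Polynomial.eval_eq_sum_range _
  rw [h, Polynomial.eval_finsetSum]
  refine Finset.sum_congr rfl fun j _ => ?_
  simp

lemma analyticAt_E2 (q : Polynomial (Polynomial ℂ)) {f g : ℂ → ℂ} {x : ℂ} (hf : AnalyticAt ℂ f x)
    (hg : AnalyticAt ℂ g x) : AnalyticAt ℂ (fun y => E2 (f y) (g y) q) x := by
  simp only [E2_eq_sum]
  refine Finset.analyticAt_fun_sum _ fun j _ => ?_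
  refine AnalyticAt.mul ?_ (hg.pow j)
  have := hf.aeval_polynomial (q.coeff j)
  simpa [Polynomial.aeval_def] using this

lemma infinite_fourth {c : ℂ} (hc : c ≠ 0) :
    {a : ℂ | ∃ μ : ℂ, μ ≠ 0 ∧ μ ≠ -1 ∧ a = μ ^ 4 * c}.Infinite := by
  refine infinite_of_unbounded fun M => ?_
  obtain ⟨n, hn⟩ := exists_nat_gt (max M 0 / ‖c‖)
  have hc' : 0 < ‖c‖ := norm_pos_iff.2 hc
  have hn0 : (0 : ℝ) < n := lt_of_le_of_lt (by positivity) hn
  have hn1 : (1 : ℝ) ≤ n := by
    have : 0 < n := by exact_mod_cast hn0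
    exact_mod_cast this
  refine ⟨(n : ℂ) ^ 4 * c, ⟨n, ?_, ?_, rfl⟩, ?_⟩
  · intro h
    have : (n : ℝ) = 0 := by exact_mod_cast h
    linarith
  · intro h
    have := congrArg Complex.re h
    simp at this
    linarith
  · rw [norm_mul, norm_pow, Complex.norm_natCast]
    rw [div_lt_iff₀ hc'] at hn
    have h1 : (n : ℝ) ≤ (n : ℝ) ^ 4 := by
      calc (n : ℝ) = (n : ℝ) ^ 1 := (pow_one _).symm
        _ ≤ (n : ℝ) ^ 4 := pow_le_pow_right₀ hn1 (by norm_num)
    calc M ≤ max M 0 := le_max_left _ _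
      _ < n * ‖c‖ := hn
      _ ≤ (n : ℝ) ^ 4 * ‖c‖ := by gcongr

theorem ZD_eis : ZD {s | ∃ μ τ : ℂ, μ ≠ 0 ∧ μ ≠ -1 ∧ 0 < τ.im ∧
    s = (μ ^ 4 * gk 4 1 τ, μ ^ 6 * gk 6 1 τ)} := by
  intro p hp
  have hmain : Phi p = 0 := by
    by_contra hne
    obtain ⟨q, hq, hq'⟩ := Polynomial.exists_eq_pow_rootMultiplicity_mul_and_not_dvd (Phi p) hne 0
    set k := Polynomial.rootMultiplicity 0 (Phi p) with hk
    apply hq'
    rw [map_zero, sub_zero, Polynomial.X_dvd_iff]
    -- q vanishes on the set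
    have hvan : ∀ μ τ : ℂ, μ ≠ 0 → μ ≠ -1 → 0 < τ.im →
        E2 (μ ^ 4 * gk 4 1 τ) (μ ^ 6 * gk 6 1 τ) q = 0 := by
      intro μ τ hμ hμ' hτ
      have ha : AnalyticOnNhd ℂ (fun x => (μ ^ 6 * gk 6 1 x) ^ k) HH := fun x hx =>
        (analyticAt_const.mul (analytic_gk (τ := fun x => x) (by norm_num) analyticAt_id hx)).pow k
      have hb : AnalyticOnNhd ℂ (fun x => E2 (μ ^ 4 * gk 4 1 x) (μ ^ 6 * gk 6 1 x) q) HH :=
        fun x hx => analyticAt_E2 q
          (analyticAt_const.mul (analytic_gk (τ := fun x => x) (by norm_num) analyticAt_id hx))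
          (analyticAt_const.mul (analytic_gk (τ := fun x => x) (by norm_num) analyticAt_id hx))
      have hmul : ∀ x ∈ HH, (μ ^ 6 * gk 6 1 x) ^ k *
          E2 (μ ^ 4 * gk 4 1 x) (μ ^ 6 * gk 6 1 x) q = 0 := by
        intro x hx
        have h1 := hp (μ ^ 4 * gk 4 1 x, μ ^ 6 * gk 6 1 x) ⟨μ, x, hμ, hμ', hx, rfl⟩
        simp only at h1
        rw [← E2_Phi, hq, map_mul, map_pow] at h1
        have h2 : E2 (μ ^ 4 * gk 4 1 x) (μ ^ 6 * gk 6 1 x)
            (Polynomial.X - Polynomial.C 0) = μ ^ 6 * gk 6 1 x := by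
          simp [E2]
        rw [h2] at h1
        exact h1
      rcases AnalyticOnNhd.eq_zero_or_eq_zero_of_mul_eq_zero ha hb hmul isPreconnected_HH with
        h | h
      · exfalso
        have h1 := h rho rho_im
        have h2 : μ ^ 6 * gk 6 1 rho ≠ 0 := mul_ne_zero (pow_ne_zero _ hμ) gk6_rho
        exact pow_ne_zero k h2 h1
      · exact h τ hτ
    -- restrict to τ = i
    refine Polynomial.eq_zero_of_infinite_isRoot _ ((infinite_fourth gk4_I).mono ?_)
    rintro _ ⟨μ, hμ, hμ', rfl⟩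
    have h1 := hvan μ I hμ hμ' (by simp)
    rw [gk6_I, mul_zero, E2_eq_sum, Finset.sum_range_succ'] at h1
    simpa using h1
  refine MvPolynomial.funext fun x => ?_
  have h1 := E2_Phi p (x 0) (x 1)
  rw [hmain, map_zero] at h1
  have hx : ![x 0, x 1] = x := by
    funext i
    fin_cases i <;> rfl
  rw [hx] at h1
  rw [← h1, map_zero]

end Pool.Agent.Work.MP_8da9ea_nt
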