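import Mathlib

/-!
# Polynomial principles
-/

set_option autoImplicit false

namespace Pool.Agent.Work.MP_8da9ea_nt

open Filter Topology MvPolynomial

/-- a polynomial vanishing at infinitely many points of a polynomial curve vanishes on the curve -/
lemma poly_line {σ : Type*} (P : MvPolynomial σ ℂ) (g : σ → Polynomial ℂ) {S : Set ℂ}
    (hS : S.Infinite) (h : ∀ x ∈ S, eval (fun i => (g i).eval x) P = 0) (x : ℂ) :
    eval (fun i => (g i).eval x) P = 0 := by
  have h1 : ∀ y : ℂ, (aeval g P : Polynomial ℂ).eval y = eval (fun i => (g i).eval y) P := by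
    intro y
    rw [← Polynomial.coe_evalRingHom, MvPolynomial.aeval_def, MvPolynomial.hom_eval₂,
      MvPolynomial.eval, MvPolynomial.coe_eval₂Hom]
    congr 1
    ext z
    simp
  have h2 : (aeval g P : Polynomial ℂ) = 0 := by
    refine Polynomial.eq_zero_of_infinite_isRoot _ (hS.mono ?_)
    intro y hy
    change (aeval g P : Polynomial ℂ).IsRoot y
    rw [Polynomial.IsRoot, h1]
    exact h y hy
  rw [← h1, h2, Polynomial.eval_zero]

/-- the leading coefficient principle -/
lemma lead {ι : Type*} [Fintype ι] (Q : Polynomial (MvPolynomial ι ℂ)) (d : ℕ → ℂ)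
    (hd : Tendsto (fun k => ‖d k‖) atTop atTop) (w : ℕ → ι → ℂ) (w' : ι → ℂ)
    (hw : Tendsto w atTop (𝓝 w'))
    (h : ∀ᶠ k in atTop, (Q.map (eval (w k))).eval (d k) = 0) : eval w' Q.leadingCoeff = 0 := by
  set J := Q.natDegree with hJ
  have hcont : ∀ p : MvPolynomial ι ℂ, Tendsto (fun k => eval (w k) p) atTop (𝓝 (eval w' p)) := by
    intro p
    have : Continuous fun v : ι → ℂ => eval v p := MvPolynomial.continuous_eval p
    exact (this.tendsto w').comp hw
  have hd0 : ∀ᶠ k in atTop, d k ≠ 0 := by
    filter_upwards [hd.eventually_gt_atTop 0] with k hk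
    exact norm_pos_iff.1 hk
  have hdinv : Tendsto (fun k => (d k)⁻¹) atTop (𝓝 0) := by
    rw [tendsto_zero_iff_norm_tendsto_zero]
    simp only [norm_inv]
    exact hd.inv_tendsto_atTop
  -- the lower terms divided by d^J tend to zero
  have hlow : Tendsto (fun k => ∑ j ∈ Finset.range J, eval (w k) (Q.coeff j) * (d k)⁻¹ ^ (J - j))
      atTop (𝓝 0) := by
    have : Tendsto (fun k => ∑ j ∈ Finset.range J, eval (w k) (Q.coeff j) * (d k)⁻¹ ^ (J - j))
        atTop (𝓝 (∑ j ∈ Finset.range J, eval w' (Q.coeff j) * 0 ^ (J - j))) :=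
      tendsto_finsetSum _ fun j _ => (hcont _).mul (hdinv.pow _)
    have h0 : ∑ j ∈ Finset.range J, eval w' (Q.coeff j) * 0 ^ (J - j) = 0 := by
      refine Finset.sum_eq_zero fun j hj => ?_
      rw [Finset.mem_range] at hj
      rw [zero_pow (by omega), mul_zero]
    rwa [h0] at this
  have heq : ∀ᶠ k in atTop, eval (w k) Q.leadingCoeff =
      -∑ j ∈ Finset.range J, eval (w k) (Q.coeff j) * (d k)⁻¹ ^ (J - j) := by
    filter_upwards [h, hd0] with k hk hk0
    have h1 : (Q.map (eval (w k))).eval (d k) =
        ∑ j ∈ Finset.range (J + 1), eval (w k) (Q.coeff j) * d k ^ j := by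
      rw [Polynomial.eval_eq_sum_range' (n := J + 1)]
      · simp only [Polynomial.coeff_map]
      · exact Nat.lt_succ_of_le (Polynomial.natDegree_map_le)
    rw [h1, Finset.sum_range_succ] at hk
    have h2 : ∑ j ∈ Finset.range J, eval (w k) (Q.coeff j) * (d k)⁻¹ ^ (J - j) =
        (∑ j ∈ Finset.range J, eval (w k) (Q.coeff j) * d k ^ j) * (d k)⁻¹ ^ J := by
      rw [Finset.sum_mul]
      refine Finset.sum_congr rfl fun j hj => ?_
      rw [Finset.mem_range] at hj
      have : (d k)⁻¹ ^ J = (d k)⁻¹ ^ (J - j) * (d k)⁻¹ ^ j := by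
        rw [← pow_add]; congr 1; omega
      rw [this, mul_assoc, mul_comm ((d k)⁻¹ ^ (J - j)), ← mul_assoc (d k ^ j), ← mul_pow,
        mul_inv_cancel₀ hk0, one_pow, one_mul]
    rw [h2, eq_neg_of_add_eq_zero_left hk, Polynomial.leadingCoeff, ← hJ, neg_mul, neg_neg,
      mul_assoc, ← mul_pow, mul_inv_cancel₀ hk0, one_pow, mul_one]
  have h3 : Tendsto (fun k => eval (w k) Q.leadingCoeff) atTop (𝓝 0) := by
    have := hlow.neg
    rw [neg_zero] at this
    exact this.congr' (heq.mono fun k hk => hk.symm)
  exact tendsto_nhds_unique (hcont _) h3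

/-- Zariski dense subsets of the plane -/
def ZD (S : Set (ℂ × ℂ)) : Prop :=
  ∀ p : MvPolynomial (Fin 2) ℂ, (∀ s ∈ S, eval ![s.1, s.2] p = 0) → p = 0

open Classical in
/-- products of Zariski dense subsets of the plane are Zariski dense -/
lemma ZD.prod {ι : Type*} [Fintype ι] {S : ι → Set (ℂ × ℂ)} (hS : ∀ i, ZD (S i))
    (q : MvPolynomial (ι ⊕ ι) ℂ)
    (h : ∀ u v : ι → ℂ, (∀ i, (u i, v i) ∈ S i) → eval (Sum.elim u v) q = 0) : q = 0 := by
  have key : ∀ T : Finset ι, ∀ u v : ι → ℂ, (∀ i, i ∉ T → (u i, v i) ∈ S i) →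
      eval (Sum.elim u v) q = 0 := by
    intro T
    induction T using Finset.induction_on with
    | empty => intro u v huv; exact h u v fun i => huv i (by simp)
    | insert j T hj ih =>
      intro u v huv
      let g : ι ⊕ ι → MvPolynomial (Fin 2) ℂ :=
        Sum.elim (fun i => if i = j then X 0 else C (u i)) (fun i => if i = j then X 1 else C (v i))
      have hg : ∀ s : ℂ × ℂ, eval ![s.1, s.2] (aeval g q) =
          eval (Sum.elim (Function.update u j s.1) (Function.update v j s.2)) q := by
        intro s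
        rw [MvPolynomial.aeval_def, MvPolynomial.hom_eval₂, MvPolynomial.eval,
          MvPolynomial.coe_eval₂Hom, MvPolynomial.eval, MvPolynomial.coe_eval₂Hom]
        congr 1
        · ext z; simp
        · funext i
          rcases i with i | i
          · by_cases hi : i = j
            · subst hi; simp [g]
            · simp [g, hi]
          · by_cases hi : i = j
            · subst hi; simp [g]
            · simp [g, hi]
      have h0 : (aeval g q : MvPolynomial (Fin 2) ℂ) = 0 := by
        refine hS j _ fun s hs => ?_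
        rw [hg]
        refine ih _ _ fun i hi => ?_
        by_cases hij : i = j
        · subst hij; simpa using hs
        · rw [Function.update_of_ne hij, Function.update_of_ne hij]
          exact huv i (by simp [hij, hi])
      have h1 := hg (u j, v j)
      rw [h0, map_zero] at h1
      simpa using h1.symm
  refine MvPolynomial.funext fun x => ?_
  rw [map_zero]
  have := key Finset.univ (fun i => x (Sum.inl i)) (fun i => x (Sum.inr i)) (by simp)
  have hx : Sum.elim (fun i => x (Sum.inl i)) (fun i => x (Sum.inr i)) = x := by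
    funext i
    rcases i with i | i <;> rfl
  rwa [hx] at this

end Pool.Agent.Work.MP_8da9ea_nt
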