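import Pool.Agent.Work.MP_8da9ea_nt.Eis
import Pool.Agent.Work.MP_8da9ea_nt.Poly

/-!
# Zariski density of the values of the Weierstrass functions
-/

set_option autoImplicit false

namespace Pool.Agent.Work.MP_8da9ea_nt

open Complex Filter Topology

/-- the lattice as a set -/
def Lam (τ : ℂ) : Set ℂ := Set.range (lp 1 τ)

lemma Lam_countable (τ : ℂ) : (Lam τ).Countable := Set.countable_range _

lemma mem_Lam {τ w : ℂ} : w ∈ Lam τ ↔ ∃ m n : ℤ, w = m + n * τ := by
  constructor
  · rintro ⟨q, rfl⟩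
    exact ⟨q.1, q.2, by simp [lp]⟩
  · rintro ⟨m, n, rfl⟩
    exact ⟨(m, n), lp_one τ m n⟩

lemma isPreconnected_compl_Lam (τ : ℂ) : IsPreconnected (Lam τ)ᶜ := by
  have h : 1 < Module.rank ℝ ℂ := by
    rw [Complex.rank_real_complex]; norm_num
  exact ((Lam_countable τ).isConnected_compl_of_one_lt_rank h).isPreconnected

lemma isClosed_Lam {τ : ℂ} (hτ : 0 < τ.im) : IsClosed (Lam τ) := by
  have hind : LinearIndependent ℝ ![(1 : ℂ), τ] := by
    rw [LinearIndependent.pair_iff]
    intro s t hst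
    have him := congrArg Complex.im hst
    have hre := congrArg Complex.re hst
    simp at him hre
    have ht : t = 0 := by
      rcases him with h | h
      · exact h
      · exact absurd h hτ.ne'
    subst ht
    simpa using hre
  let L : PeriodPair := ⟨1, τ, hind⟩
  have h : Lam τ = (L.lattice : Set ℂ) := by
    ext w
    rw [mem_Lam, SetLike.mem_coe, PeriodPair.mem_lattice]
    constructor
    · rintro ⟨m, n, rfl⟩; exact ⟨m, n, by simp [L]⟩
    · rintro ⟨m, n, hmn⟩; exact ⟨m, n, by simpa [L] using hmn.symm⟩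
  rw [h]
  exact L.isClosed_lattice

lemma notMem_Lam_iff {τ w : ℂ} : w ∉ Lam τ ↔ ∀ q, w ≠ lp 1 τ q := by
  unfold Lam
  rw [Set.mem_range]
  push Not
  exact ⟨fun h q => (h q).symm, fun h q => (h q).symm⟩

lemma add_mem_Lam_iff {τ w : ℂ} (m n : ℤ) : w + (m + n * τ) ∈ Lam τ ↔ w ∈ Lam τ := by
  rw [mem_Lam, mem_Lam]
  constructor
  · rintro ⟨a, b, h⟩
    exact ⟨a - m, b - n, by push_cast; linear_combination h⟩
  · rintro ⟨a, b, h⟩
    exact ⟨a + m, b + n, by push_cast; linear_combination h⟩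

/-- the Weierstrass function is unbounded -/
lemma wp_unbounded {τ : ℂ} (hτ : 0 < τ.im) (M : ℝ) : ∃ w, w ∉ Lam τ ∧ M < ‖wp 1 τ w‖ := by
  -- the regular part
  obtain ⟨R, c, S, hR, hc, hS0, hev⟩ := exists_setup (z := fun x => x) (τ := fun _ => τ)
    (x₀ := 0) analyticAt_id analyticAt_const hτ
  have han := (analyticAt_tsum (f := fun q x => if q = (0, 0) then 0 else wpT 1 τ x q) (x₀ := 0)
    (u := fun q => (10 * (R + R ^ 2) / c ^ 3) * (nr q ^ 3)⁻¹)
    (summable_nr.mul_left _) (fun q => by have := nr_nonneg q; positivity) S ?_ ?_).1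
  rotate_left
  · intro q _
    by_cases hq : q = (0, 0)
    · simp only [hq, if_true]; exact analyticAt_const
    · simp only [hq, if_false]
      have h0 := lp_ne_zero hτ hq
      have h1 : (0 : ℂ) - lp 1 τ q ≠ 0 := by rw [zero_sub]; exact neg_ne_zero.2 h0
      exact (analyticAt_const.div ((analyticAt_id.sub analyticAt_const).pow 2)
        (pow_ne_zero 2 h1)).sub analyticAt_const
  · filter_upwards [hev] with x hx q hq
    obtain ⟨d1, d2, d3, d4, d5, d6⟩ := hx
    obtain ⟨d7, d8⟩ := d6 q hq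
    have hq0 : q ≠ (0, 0) := by
      rintro rfl; exact hq hS0
    simp only [hq0, if_false]
    have hzl : x - lp 1 τ q ≠ 0 := by
      intro h
      rw [sub_eq_zero] at h
      rw [← h] at d8
      linarith
    constructor
    · have e1 : DifferentiableAt ℂ (fun y : ℂ => y - lp 1 τ q) x :=
        differentiableAt_id.sub (differentiableAt_const _)
      have e2 : DifferentiableAt ℂ (fun y : ℂ => (y - lp 1 τ q) ^ 2) x := e1.pow 2
      have e3 : DifferentiableAt ℂ (fun y : ℂ => 1 / (y - lp 1 τ q) ^ 2) x :=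
        (differentiableAt_const _).div e2 (pow_ne_zero 2 hzl)
      exact e3.sub (differentiableAt_const _)
    · refine (wpT_bound hR d4 d8).trans ?_
      have h1 : (c * nr q) ^ 3 ≤ ‖lp 1 τ q‖ ^ 3 := by
        have := d5 q
        gcongr
      calc 10 * (R + R ^ 2) / ‖lp 1 τ q‖ ^ 3 ≤ 10 * (R + R ^ 2) / (c * nr q) ^ 3 := by
            gcongr
        _ = (10 * (R + R ^ 2) / c ^ 3) * (nr q ^ 3)⁻¹ := by
            rw [mul_pow]; field_simp
  set h : ℂ → ℂ := fun x => ∑' q : ℤ × ℤ, if q = (0, 0) then 0 else wpT 1 τ x q with hh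
  have hdec : ∀ x, wp 1 τ x = 1 / x ^ 2 + h x := by
    intro x
    have hs := summable_wpT hτ x
    have h0 : wpT 1 τ x (0, 0) = 1 / x ^ 2 := by simp [wpT, lp]
    rw [← h0]
    unfold wp
    rw [hs.tsum_eq_add_tsum_ite (0, 0)]
  have hb : ∀ᶠ x in 𝓝 (0 : ℂ), ‖h x‖ < ‖h 0‖ + 1 :=
    han.continuousAt.norm.eventually_lt continuousAt_const (by simp)
  have hclosed : ∀ᶠ x in 𝓝[≠] (0 : ℂ), x ∉ Lam τ := by
    obtain ⟨ε, hε, hball⟩ : ∃ ε > 0, ∀ q, q ≠ (0, 0) → ε ≤ ‖lp 1 τ q‖ := by
      obtain ⟨c, hc, hlow⟩ := exists_lower |τ.re| τ.im hτ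
      refine ⟨c, hc, fun q hq => ?_⟩
      have h1 := hlow τ le_rfl le_rfl q
      have h2 : 1 ≤ nr q := by
        have a1 := nr_ge_fst q
        have a2 := nr_ge_snd q
        by_contra hlt
        push Not at hlt
        have b1 : |q.1| < 1 := by
          have : |(q.1 : ℝ)| < 1 := a1.trans_lt hlt
          exact_mod_cast this
        have b2 : |q.2| < 1 := by
          have : |(q.2 : ℝ)| < 1 := a2.trans_lt hlt
          exact_mod_cast this
        exact hq (Prod.ext (by simpa using Int.abs_lt_one_iff.1 b1)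
          (by simpa using Int.abs_lt_one_iff.1 b2))
      nlinarith
    rw [eventually_nhdsWithin_iff]
    filter_upwards [Metric.ball_mem_nhds (0 : ℂ) hε] with x hx hx0
    rintro ⟨q, rfl⟩
    by_cases hq : q = (0, 0)
    · subst hq; exact hx0 (by simp [lp])
    · have := hball q hq
      rw [Metric.mem_ball, dist_zero_right] at hx
      linarith
  have hbig : ∀ᶠ x in 𝓝[≠] (0 : ℂ), M + ‖h 0‖ + 1 < ‖1 / x ^ 2‖ := by
    have h1 : Tendsto (fun x : ℂ => ‖1 / x ^ 2‖) (𝓝[≠] 0) atTop := by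
      have h2 : Tendsto (fun x : ℂ => ‖x⁻¹‖) (𝓝[≠] 0) atTop := by
        exact (tendsto_norm_cobounded_atTop).comp tendsto_inv₀_nhdsNE_zero
      have h3 := (tendsto_pow_atTop (α := ℝ) (n := 2) two_ne_zero).comp h2
      refine h3.congr fun x => ?_
      simp only [Function.comp_apply, norm_pow, norm_inv, one_div, inv_pow]
    exact h1.eventually_gt_atTop _
  obtain ⟨x, ⟨hx1, hx2⟩, hx3⟩ := ((hclosed.and hbig).and
    (hb.filter_mono nhdsWithin_le_nhds)).exists
  refine ⟨x, hx1, ?_⟩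
  rw [hdec]
  have h1 := norm_sub_norm_le (1 / x ^ 2) (-h x)
  rw [norm_neg, sub_neg_eq_add] at h1
  linarith

lemma infinite_of_unbounded {S : Set ℂ} (h : ∀ M : ℝ, ∃ s ∈ S, M < ‖s‖) : S.Infinite := by
  intro hfin
  obtain ⟨M, hM⟩ := (hfin.isBounded).exists_norm_le
  obtain ⟨s, hs, hs'⟩ := h M
  exact absurd (hM s hs) (not_le.2 hs')

lemma vec1 (a x : ℂ) : (fun i => ((![Polynomial.C a, Polynomial.X] : Fin 2 → Polynomial ℂ) i).eval x)
    = ![a, x] := by
  funext i
  fin_cases i <;> simp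

lemma vec2 (a x : ℂ) : (fun i => ((![Polynomial.X, Polynomial.C a] : Fin 2 → Polynomial ℂ) i).eval x)
    = ![x, a] := by
  funext i
  fin_cases i <;> simp

open MvPolynomial in
/-- the key density statement -/
theorem ZD_line {τ : ℂ} (hτ : 0 < τ.im) (w₀ : ℂ) :
    ZD {s | ∃ r : ℝ, w₀ + r ∉ Lam τ ∧
      s = (wp 1 τ (w₀ + r), zt 1 τ (w₀ + r) - et τ * (w₀ + r))} := by
  intro p hp
  -- the function is analytic off the lattice
  set f : ℂ → ℂ := fun w => eval ![wp 1 τ w, zt 1 τ w - et τ * w] p with hf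
  have hcoord : ∀ w ∈ (Lam τ)ᶜ, ∀ i : Fin 2,
      AnalyticAt ℂ (fun x => (![wp 1 τ x, zt 1 τ x - et τ * x] : Fin 2 → ℂ) i) w := by
    intro w hw i
    have hw' := notMem_Lam_iff.1 hw
    fin_cases i
    · exact analytic_wp (z := fun x => x) (τ := fun _ => τ) analyticAt_id analyticAt_const hτ hw'
    · exact (analytic_zt (z := fun x => x) (τ := fun _ => τ) analyticAt_id analyticAt_const hτ
        hw').sub (analyticAt_const.mul analyticAt_id)
  have hfan : AnalyticOnNhd ℂ f (Lam τ)ᶜ := by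
    intro w hw
    exact AnalyticAt.aeval_mvPolynomial (hcoord w hw) p
  -- a point of the line off the lattice
  obtain ⟨r₀, hr₀⟩ : ∃ r₀ : ℝ, w₀ + r₀ ∉ Lam τ := by
    by_contra hcon
    push Not at hcon
    have hinj : Function.Injective (fun r : ℝ => w₀ + (r : ℂ)) := by
      intro a b hab
      have : (a : ℂ) = b := add_left_cancel hab
      exact_mod_cast this
    have : (Set.univ : Set ℝ).Countable := by
      have h1 := (Lam_countable τ).preimage hinj
      refine h1.mono fun r _ => hcon r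
    exact Set.not_countable_univ this
  have hfreq : ∃ᶠ w in 𝓝[≠] (w₀ + r₀), f w = 0 := by
    have hopen : ∀ᶠ w in 𝓝 (w₀ + (r₀ : ℂ)), w ∉ Lam τ :=
      (isClosed_Lam hτ).isOpen_compl.mem_nhds hr₀
    have hlim : Tendsto (fun k : ℕ => w₀ + ((r₀ + 1 / ((k : ℝ) + 1) : ℝ) : ℂ)) atTop
        (𝓝[≠] (w₀ + (r₀ : ℂ))) := by
      rw [tendsto_nhdsWithin_iff]
      constructor
      · have h1 : Tendsto (fun k : ℕ => r₀ + 1 / ((k : ℝ) + 1)) atTop (𝓝 (r₀ + 0)) :=
          (tendsto_one_div_add_atTop_nhds_zero_nat (𝕜 := ℝ)).const_add r₀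
        rw [add_zero] at h1
        have h2 := (Complex.continuous_ofReal.tendsto r₀).comp h1
        exact h2.const_add w₀
      · refine Eventually.of_forall fun k => ?_
        have hk : (0 : ℝ) < 1 / ((k : ℝ) + 1) := by positivity
        intro h
        have h1 : ((r₀ + 1 / ((k : ℝ) + 1) : ℝ) : ℂ) = (r₀ : ℂ) := add_left_cancel h
        have h2 : r₀ + 1 / ((k : ℝ) + 1) = r₀ := by exact_mod_cast h1
        linarith
    have hev : ∀ᶠ k : ℕ in atTop, f (w₀ + ((r₀ + 1 / ((k : ℝ) + 1) : ℝ) : ℂ)) = 0 := by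
      have := hlim.eventually (hopen.filter_mono nhdsWithin_le_nhds)
      filter_upwards [this] with k hk
      set r : ℝ := r₀ + 1 / ((k : ℝ) + 1) with hr
      have h5 := hp (wp 1 τ (w₀ + r), zt 1 τ (w₀ + r) - et τ * (w₀ + r)) ⟨r, hk, rfl⟩
      exact h5
    exact hlim.frequently hev.frequently
  have hzero : ∀ w ∈ (Lam τ)ᶜ, f w = 0 := fun w hw =>
    hfan.eqOn_zero_of_preconnected_of_frequently_eq_zero (isPreconnected_compl_Lam τ)
      (by exact hr₀) hfreq hw
  -- the second coordinate is free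
  have h2 : ∀ w ∈ (Lam τ)ᶜ, ∀ v : ℂ, eval ![wp 1 τ w, v] p = 0 := by
    intro w hw v
    have hS : (Set.range fun m : ℤ => zt 1 τ w - et τ * w - 2 * Real.pi * I * m).Infinite := by
      refine Set.infinite_range_of_injective ?_
      intro a b hab
      have h3 : (2 * Real.pi * I : ℂ) * a = 2 * Real.pi * I * b := by
        simp only at hab
        linear_combination -hab
      exact_mod_cast mul_left_cancel₀ Complex.two_pi_I_ne_zero h3
    have key := poly_line p (![Polynomial.C (wp 1 τ w), Polynomial.X]) hS (by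
      rintro _ ⟨m, rfl⟩
      rw [vec1]
      have hw' : w + ((0 : ℤ) + m * τ) ∈ (Lam τ)ᶜ := by
        intro hmem
        exact hw ((add_mem_Lam_iff 0 m).1 hmem)
      have h3 := hzero _ hw'
      simp only [hf] at h3
      rw [wp_add_lp hτ, zt_add_lp hτ] at h3
      have h4 : zt 1 τ w + et τ * ((0 : ℤ) + m * τ) - 2 * Real.pi * I * m -
          et τ * (w + ((0 : ℤ) + m * τ)) = zt 1 τ w - et τ * w - 2 * Real.pi * I * m := by ring
      rw [h4] at h3
      exact h3) v
    rw [vec1] at key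
    exact key
  -- the first coordinate is free
  refine MvPolynomial.funext fun x => ?_
  rw [map_zero]
  have hS : {u | ∃ w ∈ (Lam τ)ᶜ, u = wp 1 τ w}.Infinite := by
    refine infinite_of_unbounded fun M => ?_
    obtain ⟨w, hw, hM⟩ := wp_unbounded hτ M
    exact ⟨_, ⟨w, hw, rfl⟩, hM⟩
  have key := poly_line p (![Polynomial.X, Polynomial.C (x 1)]) hS (by
    rintro _ ⟨w, hw, rfl⟩
    rw [vec2]
    exact h2 w hw (x 1)) (x 0)
  rw [vec2] at key
  have hx : ![x 0, x 1] = x := by
    funext i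
    fin_cases i <;> rfl
  rw [hx] at key
  exact key

end Pool.Agent.Work.MP_8da9ea_nt
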