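import Pool.Agent.Work.MP_8da9ea_nt.Per

/-!
# Eisenstein sums of weight 4 and 6
-/

set_option autoImplicit false

namespace Pool.Agent.Work.MP_8da9ea_nt

open Complex Filter Topology

lemma gk_eq {k : ℕ} (hk : 3 ≤ k) {τ : ℂ} (hτ : 0 < τ.im) :
    gk k 1 τ = 2 * riemannZeta k * ModularForm.E hk ⟨τ, hτ⟩ := by
  have h1 : gk k 1 τ = ∑' v : Fin 2 → ℤ, EisensteinSeries.eisSummand k v ⟨τ, hτ⟩ := by
    unfold gk
    rw [← vec.tsum_eq]
    refine tsum_congr fun q => ?_
    rw [vec_apply, EisensteinSeries.eisSummand, zpow_neg, zpow_natCast, one_div]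
    congr 2
    simp [lp]
    ring
  rw [h1, tsum_eisSummand_eq_riemannZeta_mul_eisensteinSeries hk]
  have h2 : ModularForm.E hk ⟨τ, hτ⟩ =
      (1 / 2 : ℂ) * eisensteinSeries (N := 1) 0 k ⟨τ, hτ⟩ := rfl
  rw [h2]
  ring

lemma zeta_ne_zero {k : ℕ} (hk : 3 ≤ k) : (2 * riemannZeta k : ℂ) ≠ 0 := by
  have : riemannZeta (k : ℂ) ≠ 0 := by
    refine riemannZeta_ne_zero_of_one_lt_re ?_
    rw [natCast_re]
    exact_mod_cast (by omega : 1 < k)
  exact mul_ne_zero two_ne_zero this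

lemma gk_not_both {τ : ℂ} (hτ : 0 < τ.im) (h4 : gk 4 1 τ = 0) (h6 : gk 6 1 τ = 0) : False := by
  rw [gk_eq (by norm_num) hτ] at h4 h6
  have e4 := (mul_eq_zero.1 h4).resolve_left (zeta_ne_zero (k := 4) (by norm_num))
  have e6 := (mul_eq_zero.1 h6).resolve_left (zeta_ne_zero (k := 6) (by norm_num))
  have h := ModularForm.discriminant_eq_E₄_cube_sub_E₆_sq ⟨τ, hτ⟩
  have h0 := ModularForm.discriminant_ne_zero ⟨τ, hτ⟩
  apply h0
  rw [h, show ModularForm.E₄ ⟨τ, hτ⟩ = 0 from e4, show ModularForm.E₆ ⟨τ, hτ⟩ = 0 from e6]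
  norm_num

lemma gk6_I : gk 6 1 I = 0 := by
  have h := gk_inv 6 (τ := I) I_ne_zero
  rw [show -1 / I = I by rw [div_I]; simp] at h
  have h6 : I ^ 6 = -1 := by
    rw [show (6 : ℕ) = 2 + 4 by norm_num, pow_add, I_sq, I_pow_four, mul_one]
  rw [h6] at h
  linear_combination h / 2

lemma gk4_I : gk 4 1 I ≠ 0 := fun h => gk_not_both (by simp) h gk6_I

/-- the sixth root of unity -/
noncomputable def rho : ℂ := ⟨1 / 2, √3 / 2⟩

lemma rho_im : 0 < rho.im := by
  simp only [rho]; positivity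

lemma rho_sq : rho ^ 2 = rho - 1 := by
  have h3 : √3 * √3 = 3 := Real.mul_self_sqrt (by norm_num)
  rw [sq]
  apply Complex.ext
  · simp only [rho, mul_re, sub_re, one_re]
    nlinarith
  · simp only [rho, mul_im, sub_im, one_im]
    ring

lemma gk4_rho : gk 4 1 rho = 0 := by
  have h0 := ne_zero_of_im rho_im
  have h := gk_inv 4 h0
  have h1 : -1 / rho = rho + ((-1 : ℤ) : ℂ) * 1 := by
    field_simp
    push_cast
    linear_combination -rho_sq
  rw [h1, gk_T] at h
  have h2 : rho ^ 4 = - rho := by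
    have := rho_sq
    linear_combination (rho ^ 2 + rho) * this
  rw [h2] at h
  have h3 : (1 + rho) * gk 4 1 rho = 0 := by linear_combination h
  rcases mul_eq_zero.1 h3 with h4 | h4
  · exfalso
    have := congrArg Complex.im h4
    simp at this
    exact rho_im.ne' this
  · exact h4

lemma gk6_rho : gk 6 1 rho ≠ 0 := fun h => gk_not_both rho_im gk4_rho h

lemma analytic_gk {k : ℕ} (hk : 3 ≤ k) {τ : ℂ → ℂ} {x₀ : ℂ} (hτ : AnalyticAt ℂ τ x₀)
    (him : 0 < (τ x₀).im) : AnalyticAt ℂ (fun x => gk k 1 (τ x)) x₀ := by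
  obtain ⟨R, c, S, hR, hc, hS0, hev⟩ := exists_setup (z := fun _ => 1)
    (analyticAt_const (v := (1 : ℂ)) (x := x₀)) hτ him
  refine (analyticAt_tsum (f := fun q x => 1 / (lp 1 (τ x) q) ^ k)
    (u := fun q => (1 / c ^ 3) * (nr q ^ 3)⁻¹)
    (summable_nr.mul_left _) (fun q => by have := nr_nonneg q; positivity) S ?_ ?_).1
  · intro q _
    have hl := analyticAt_lp hτ q
    by_cases hq : q = (0, 0)
    · subst hq
      have h0 : ∀ x, lp 1 (τ x) (0, 0) = 0 := fun x => by simp [lp]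
      simp only [h0]
      exact analyticAt_const
    · have h0 := lp_ne_zero him hq
      exact analyticAt_const.div (hl.pow k) (pow_ne_zero k h0)
  · filter_upwards [hev] with x hx q hq
    obtain ⟨d1, d2, d3, d4, d5, d6⟩ := hx
    obtain ⟨d7, d8⟩ := d6 q hq
    have hR1 : 1 ≤ R := by simpa using d4
    have hl := differentiableAt_lp d2 q
    have hl0 : lp 1 (τ x) q ≠ 0 := norm_pos_iff.1 (by linarith)
    constructor
    · exact (differentiableAt_const _).div (hl.pow k) (pow_ne_zero k hl0)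
    · rw [norm_div, norm_one, norm_pow]
      have h1 : (c * nr q) ^ 3 ≤ ‖lp 1 (τ x) q‖ ^ 3 := by
        have := d5 q
        gcongr
      have h2 : ‖lp 1 (τ x) q‖ ^ 3 ≤ ‖lp 1 (τ x) q‖ ^ k := pow_le_pow_right₀ (by linarith) hk
      calc 1 / ‖lp 1 (τ x) q‖ ^ k ≤ 1 / (c * nr q) ^ 3 := by
            apply one_div_le_one_div_of_le (by positivity) (h1.trans h2)
        _ = (1 / c ^ 3) * (nr q ^ 3)⁻¹ := by
            rw [mul_pow]; field_simp

lemma analytic_et {τ : ℂ → ℂ} {x₀ : ℂ} (hτ : AnalyticAt ℂ τ x₀)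
    (him : 0 < (τ x₀).im) : AnalyticAt ℂ (fun x => et (τ x)) x₀ := by
  unfold et
  refine analyticAt_const.mul (analytic_zt analyticAt_const hτ him ?_)
  intro q h
  have him' := congrArg Complex.im h
  have hre := congrArg Complex.re h
  simp only [lp, mul_one, add_im, mul_im, intCast_re, intCast_im, zero_mul, add_zero, add_re,
    mul_re, sub_zero, zero_add] at him' hre
  have h0 : (1 / 2 : ℂ).im = 0 := by norm_num
  have h00 : (1 / 2 : ℂ).re = 1 / 2 := by norm_num
  rw [h0] at him'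
  rw [h00] at hre
  have h2 : q.2 = 0 := by
    rcases mul_eq_zero.1 him'.symm with h | h
    · exact_mod_cast h
    · exact absurd h him.ne'
  rw [h2] at hre
  simp only [Int.cast_zero, zero_mul, add_zero] at hre
  have h3 : (2 * q.1 : ℤ) = 1 := by
    have : (2 * q.1 : ℝ) = 1 := by rw [← hre]; norm_num
    exact_mod_cast this
  omega

end Pool.Agent.Work.MP_8da9ea_nt
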