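import Pool.Agent.Work.MP_8da9ea_nt.Dens
import Pool.Agent.Work.MP_8da9ea_nt.Bd.B02

/-!
# The limiting argument
-/

set_option autoImplicit false

namespace Pool.Agent.Work.MP_8da9ea_nt

open Complex Filter Topology

/-- real coordinates with respect to `1, τ` -/
noncomputable def ya (τ w : ℂ) : ℝ := w.im / τ.im

/-- real coordinates with respect to `1, τ` -/
noncomputable def xa (τ w : ℂ) : ℝ := w.re - w.im / τ.im * τ.re

lemma coord {τ : ℂ} (hτ : 0 < τ.im) (w : ℂ) : w = xa τ w + ya τ w * τ := by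
  apply Complex.ext
  · simp [xa, ya]
  · simp [xa, ya]
    field_simp

variable {ι : Type*} [Fintype ι]

/-- generic `τ` -/
def Gen (z : ι → ℂ) (τ : ℂ) : Prop :=
  ∀ (m k : ι → ℤ) (l : ℤ), ∑ i, (m i : ℝ) * xa τ (z i) + ∑ i, (k i : ℝ) * ya τ (z i) = l → m = 0

/-- points -/
def pt (x e a b : ℂ) (u v : ι → ℂ) : Fin 4 ⊕ (ι ⊕ ι) → ℂ :=
  Sum.elim ![x, e, a, b] (Sum.elim u v)

open MvPolynomial in
/-- the polynomial curve -/
noncomputable def gg (x e a b τ κ : ℂ) (z : ι → ℂ) (y : ι → ℝ) :
    Fin 4 ⊕ (ι ⊕ ι) → Polynomial (MvPolynomial (ι ⊕ ι) ℂ) :=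
  Sum.elim
    ![Polynomial.C (C x),
      (Polynomial.C (C τ) + Polynomial.X) ^ 2 * Polynomial.C (C e) -
        Polynomial.C (C κ) * (Polynomial.C (C τ) + Polynomial.X),
      (Polynomial.C (C τ) + Polynomial.X) ^ 4 * Polynomial.C (C a),
      (Polynomial.C (C τ) + Polynomial.X) ^ 6 * Polynomial.C (C b)]
    (Sum.elim
      (fun i => (Polynomial.C (C τ) + Polynomial.X) ^ 2 * Polynomial.C (X (Sum.inl i)))
      (fun i => (Polynomial.C (C τ) + Polynomial.X) *
        (Polynomial.C (X (Sum.inr i)) + Polynomial.C (C (e * z i)) *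
          (Polynomial.C (C τ) + Polynomial.X) - Polynomial.C (C (κ * y i)) * Polynomial.X)))

/-- the point of the curve -/
noncomputable def cpt (x e a b τ κ : ℂ) (z : ι → ℂ) (y : ι → ℝ) (D : ℂ) (u v : ι → ℂ) :
    Fin 4 ⊕ (ι ⊕ ι) → ℂ :=
  pt x ((τ + D) ^ 2 * e - κ * (τ + D)) ((τ + D) ^ 4 * a) ((τ + D) ^ 6 * b)
    (fun i => (τ + D) ^ 2 * u i)
    (fun i => (τ + D) * (v i + e * z i * (τ + D) - κ * y i * D))

open MvPolynomial in
omit [Fintype ι] in
lemma eval_curve (P : MvPolynomial (Fin 4 ⊕ (ι ⊕ ι)) ℂ) (x e a b τ κ : ℂ) (z : ι → ℂ) (y : ι → ℝ)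
    (D : ℂ) (u v : ι → ℂ) :
    ((aeval (gg x e a b τ κ z y) P : Polynomial (MvPolynomial (ι ⊕ ι) ℂ)).map
      (eval (Sum.elim u v))).eval D = eval (cpt x e a b τ κ z y D u v) P := by
  set φ : Polynomial (MvPolynomial (ι ⊕ ι) ℂ) →+* ℂ :=
    (Polynomial.evalRingHom D).comp (Polynomial.mapRingHom (eval (Sum.elim u v))) with hφ
  have h1 : ((aeval (gg x e a b τ κ z y) P : Polynomial (MvPolynomial (ι ⊕ ι) ℂ)).map
      (eval (Sum.elim u v))).eval D = φ (aeval (gg x e a b τ κ z y) P) := rfl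
  rw [h1, MvPolynomial.aeval_def, MvPolynomial.hom_eval₂, MvPolynomial.eval,
    MvPolynomial.coe_eval₂Hom]
  have hC : ∀ p : MvPolynomial (ι ⊕ ι) ℂ, φ (Polynomial.C p) = eval (Sum.elim u v) p := by
    intro p; simp [hφ]
  have hX : φ Polynomial.X = D := by simp [hφ]
  congr 1
  · ext w
    change φ (Polynomial.C (C w)) = w
    rw [hC, eval_C]
  · funext s
    rcases s with s | s | s
    · fin_cases s
      · change φ (Polynomial.C (C x)) = x
        rw [hC, eval_C]
      · change φ ((Polynomial.C (C τ) + Polynomial.X) ^ 2 * Polynomial.C (C e) -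
          Polynomial.C (C κ) * (Polynomial.C (C τ) + Polynomial.X)) = (τ + D) ^ 2 * e - κ * (τ + D)
        simp only [map_sub, map_mul, map_pow, map_add, hX]
        simp only [hC, eval_C]
      · change φ ((Polynomial.C (C τ) + Polynomial.X) ^ 4 * Polynomial.C (C a)) = (τ + D) ^ 4 * a
        simp only [map_mul, map_pow, map_add, hX]
        simp only [hC, eval_C]
      · change φ ((Polynomial.C (C τ) + Polynomial.X) ^ 6 * Polynomial.C (C b)) = (τ + D) ^ 6 * b
        simp only [map_mul, map_pow, map_add, hX]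
        simp only [hC, eval_C]
    · change φ ((Polynomial.C (C τ) + Polynomial.X) ^ 2 * Polynomial.C (X (Sum.inl s))) =
        (τ + D) ^ 2 * u s
      simp only [map_mul, map_pow, map_add, hX]
      simp only [hC, eval_C, eval_X, Sum.elim_inl]
    · change φ ((Polynomial.C (C τ) + Polynomial.X) *
        (Polynomial.C (X (Sum.inr s)) + Polynomial.C (C (e * z s)) *
          (Polynomial.C (C τ) + Polynomial.X) - Polynomial.C (C (κ * y s)) * Polynomial.X)) =
        (τ + D) * (v s + e * z s * (τ + D) - κ * y s * D)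
      simp only [map_sub, map_mul, map_add, hX]
      simp only [hC, eval_C, eval_X, Sum.elim_inr]

open MvPolynomial in
theorem step_BC {τ : ℂ} (hτ : 0 < τ.im) {z : ι → ℂ} (hgen : Gen z τ)
    (P : MvPolynomial (Fin 4 ⊕ (ι ⊕ ι)) ℂ) (x a b : ℂ)
    (hrel : ∀ d : ℕ, (∀ i, (τ + d) * z i ∉ Lam τ) →
      eval (pt x ((τ + d) ^ 2 * et τ - 2 * Real.pi * I * (τ + d)) ((τ + d) ^ 4 * a)
        ((τ + d) ^ 6 * b) (fun i => (τ + d) ^ 2 * wp 1 τ ((τ + d) * z i))
        (fun i => (τ + d) * zt 1 τ ((τ + d) * z i))) P = 0) :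
    ∀ D u v, eval (cpt x (et τ) a b τ (2 * Real.pi * I) z (fun i => ya τ (z i)) D u v) P = 0 := by
  classical
  set κ : ℂ := 2 * Real.pi * I with hκ
  set e := et τ with he
  set y : ι → ℝ := fun i => ya τ (z i) with hy
  set Q : Polynomial (MvPolynomial (ι ⊕ ι) ℂ) := aeval (gg x e a b τ κ z y) P with hQ
  have hq : Q.leadingCoeff = 0 := by
    refine ZD.prod (S := fun i => {s | ∃ r : ℝ, τ * z i + r ∉ Lam τ ∧
      s = (wp 1 τ (τ * z i + r), zt 1 τ (τ * z i + r) - et τ * (τ * z i + r))})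
      (fun i => ZD_line hτ (τ * z i)) _ ?_
    intro u v huv
    choose r hr huv using huv
    have hu : ∀ i, u i = wp 1 τ (τ * z i + r i) := fun i => (Prod.ext_iff.1 (huv i)).1
    have hv : ∀ i, v i = zt 1 τ (τ * z i + r i) - e * (τ * z i + r i) :=
      fun i => (Prod.ext_iff.1 (huv i)).2
    -- Kronecker
    let θ : ι ⊕ ι → ℝ := Sum.elim (fun i => xa τ (z i)) (fun i => ya τ (z i))
    let r' : ι ⊕ ι → ℝ := Sum.elim r (fun _ => 0)
    have hkron : ∀ k : ℕ, ∃ d : ℕ, k ≤ d ∧ ∃ a : ι ⊕ ι → ℤ,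
        ∀ i, |d * θ i - r' i - a i| < 1 / ((k : ℝ) + 1) := by
      intro k
      refine kron θ r' ?_ _ (by positivity) k
      intro m l hml
      rw [Fintype.sum_sum_type] at hml
      have hm := hgen (fun i => m (Sum.inl i)) (fun i => m (Sum.inr i)) l hml
      refine ⟨0, ?_⟩
      rw [Fintype.sum_sum_type]
      have h1 : ∀ i, m (Sum.inl i) = 0 := fun i => congrFun hm i
      simp [h1, r']
    choose d hd A hA using hkron
    -- the points
    let w : ℕ → ι → ℂ := fun k i =>
      (τ + d k) * z i - ((A k (Sum.inl i) : ℤ) + (A k (Sum.inr i) : ℤ) * τ)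
    have htend0 : Tendsto (fun k : ℕ => 1 / ((k : ℝ) + 1)) atTop (𝓝 0) :=
      tendsto_one_div_add_atTop_nhds_zero_nat
    have hx1 : ∀ i, Tendsto (fun k => (d k * xa τ (z i) - A k (Sum.inl i) : ℝ)) atTop
        (𝓝 (r i)) := by
      intro i
      rw [tendsto_iff_dist_tendsto_zero]
      refine squeeze_zero (fun k => dist_nonneg) (fun k => ?_) htend0
      rw [Real.dist_eq]
      have := (hA k (Sum.inl i)).le
      simp only [θ, r', Sum.elim_inl] at this
      rw [show (d k * xa τ (z i) - A k (Sum.inl i) - r i : ℝ) =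
        d k * xa τ (z i) - r i - A k (Sum.inl i) by ring]
      exact this
    have hy1 : ∀ i, Tendsto (fun k => (d k * ya τ (z i) - A k (Sum.inr i) : ℝ)) atTop
        (𝓝 0) := by
      intro i
      rw [tendsto_iff_dist_tendsto_zero]
      refine squeeze_zero (fun k => dist_nonneg) (fun k => ?_) htend0
      rw [Real.dist_eq]
      have := (hA k (Sum.inr i)).le
      simp only [θ, r', Sum.elim_inr] at this
      rw [show (d k * ya τ (z i) - A k (Sum.inr i) - 0 : ℝ) =
        d k * ya τ (z i) - 0 - A k (Sum.inr i) by ring]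
      exact this
    have hweq : ∀ k i, w k i = τ * z i + ((d k * xa τ (z i) - A k (Sum.inl i) : ℝ) : ℂ) +
        ((d k * ya τ (z i) - A k (Sum.inr i) : ℝ) : ℂ) * τ := by
      intro k i
      have h1 : (d k : ℂ) * z i = d k * xa τ (z i) + d k * ya τ (z i) * τ := by
        conv_lhs => rw [coord hτ (z i)]
        ring
      simp only [w]
      push_cast
      linear_combination h1
    have hwt : ∀ i, Tendsto (fun k => w k i) atTop (𝓝 (τ * z i + r i)) := by
      intro i
      have h1 := ((Complex.continuous_ofReal.tendsto _).comp (hx1 i)).const_add (τ * z i)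
      have h2 := ((Complex.continuous_ofReal.tendsto _).comp (hy1 i)).mul_const τ
      have h3 := h1.add h2
      rw [Complex.ofReal_zero, zero_mul, add_zero] at h3
      refine h3.congr fun k => ?_
      rw [hweq]
      rfl
    have hwn : ∀ᶠ k in atTop, ∀ i, w k i ∉ Lam τ := by
      rw [Filter.eventually_all]
      intro i
      exact (hwt i).eventually ((isClosed_Lam hτ).isOpen_compl.mem_nhds (hr i))
    let u' : ℕ → ι → ℂ := fun k i => wp 1 τ (w k i)
    let v' : ℕ → ι → ℂ := fun k i => zt 1 τ (w k i) - e * w k i +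
      κ * ((d k * ya τ (z i) - A k (Sum.inr i) : ℝ) : ℂ)
    have hut : Tendsto (fun k => (Sum.elim (u' k) (v' k) : ι ⊕ ι → ℂ)) atTop
        (𝓝 (Sum.elim u v)) := by
      rw [tendsto_pi_nhds]
      rintro (i | i)
      · simp only [Sum.elim_inl]
        rw [hu i]
        have := (analytic_wp (z := fun x => x) (τ := fun _ => τ) (x₀ := τ * z i + r i)
          analyticAt_id analyticAt_const hτ (notMem_Lam_iff.1 (hr i))).continuousAt
        exact this.tendsto.comp (hwt i)
      · simp only [Sum.elim_inr]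
        rw [hv i]
        have := (analytic_zt (z := fun x => x) (τ := fun _ => τ) (x₀ := τ * z i + r i)
          analyticAt_id analyticAt_const hτ (notMem_Lam_iff.1 (hr i))).continuousAt
        have h1 := this.tendsto.comp (hwt i)
        have h2 := (hwt i).const_mul e
        have h3 := ((Complex.continuous_ofReal.tendsto _).comp (hy1 i)).const_mul κ
        have h4 := (h1.sub h2).add h3
        rw [Complex.ofReal_zero, mul_zero, add_zero] at h4
        exact h4
    have hdt : Tendsto (fun k => ‖(d k : ℂ)‖) atTop atTop := by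
      simp only [Complex.norm_natCast]
      exact tendsto_natCast_atTop_atTop.comp (tendsto_atTop_mono hd tendsto_id)
    refine lead Q (fun k => (d k : ℂ)) hdt _ _ hut ?_
    filter_upwards [hwn] with k hk
    rw [hQ, eval_curve]
    have hmem : ∀ i, (τ + d k) * z i =
        w k i + ((A k (Sum.inl i) : ℤ) + (A k (Sum.inr i) : ℤ) * τ) := fun i => by
      simp only [w]; ring
    have h1 := hrel (d k) (fun i => by
      rw [hmem i, add_mem_Lam_iff]
      exact hk i)
    have h2 : cpt x e a b τ κ z y (d k) (u' k) (v' k) =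
        pt x ((τ + d k) ^ 2 * e - κ * (τ + d k)) ((τ + d k) ^ 4 * a)
        ((τ + d k) ^ 6 * b) (fun i => (τ + d k) ^ 2 * wp 1 τ ((τ + d k) * z i))
        (fun i => (τ + d k) * zt 1 τ ((τ + d k) * z i)) := by
      unfold cpt
      congr 1
      · funext i
        simp only [u']
        rw [hmem i, wp_add_lp hτ]
      · funext i
        simp only [v']
        rw [hmem i, zt_add_lp hτ, ← he, ← hκ]
        have h3 : e * z i * (τ + d k) = e * (w k i + ((A k (Sum.inl i) : ℤ) +
            (A k (Sum.inr i) : ℤ) * τ)) := by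
          rw [← hmem i]; ring
        rw [h3]
        simp only [hy]
        push_cast
        ring
    rw [h2]
    exact h1
  have hQ0 : Q = 0 := Polynomial.leadingCoeff_eq_zero.1 hq
  intro D u v
  rw [← eval_curve, ← hQ, hQ0]
  simp

end Pool.Agent.Work.MP_8da9ea_nt
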