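import Pool.Agent.Work.MP_8da9ea_nt.Stmt

/-!
# Definitions for the theorem on elliptic curves with generic invariant
-/

set_option autoImplicit false

namespace Pool.Agent.Work.MP_8da9ea_nt

/-- The `j`-invariant `1728 g₂³ / (g₂³ - 27 g₃²)` of the lattice `ℤ ω₁ + ℤ ω₂`. -/
noncomputable def jInv (ω₁ ω₂ : ℂ) : ℂ :=
  1728 * (60 * ∑' q : ℤ × ℤ, 1 / ((q.1 : ℂ) * ω₁ + (q.2 : ℂ) * ω₂) ^ 4) ^ 3 /
    ((60 * ∑' q : ℤ × ℤ, 1 / ((q.1 : ℂ) * ω₁ + (q.2 : ℂ) * ω₂) ^ 4) ^ 3 -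
      27 * (140 * ∑' q : ℤ × ℤ, 1 / ((q.1 : ℂ) * ω₁ + (q.2 : ℂ) * ω₂) ^ 6) ^ 2)

/-- The field `ℚ(2πi, t l, exp (t l))`. -/
noncomputable def expField {m : ℕ} (t : Fin m → ℂ) : IntermediateField ℚ ℂ :=
  IntermediateField.adjoin ℚ ({2 * (Real.pi : ℂ) * Complex.I} ∪ Set.range t ∪
    Set.range (fun l => Complex.exp (t l)))

/-- The dimension over `ℚ` of the span of the classes of the `t l` in `ℂ / 2πiℚ`. -/
noncomputable def tDim {s : ℕ} (t : Fin s → ℂ) : ℕ :=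
  Module.finrank ℚ (Submodule.span ℚ (Set.range t ∪ {2 * (Real.pi : ℂ) * Complex.I})) - 1

/-- The dimension over `ℚ` of the span of the classes of the `p i` in `ℂ / (ℚω₁ + ℚω₂)`. -/
noncomputable def pDim (ω₁ ω₂ : ℂ) {n : ℕ} (p : Fin n → ℂ) : ℕ :=
  Module.finrank ℚ (Submodule.span ℚ (Set.range p ∪ {ω₁, ω₂})) - 2

/-- There are at least `d` algebraically independent numbers over `ℚ` in the field `K`. -/
def HasTrdeg (K : IntermediateField ℚ ℂ) (d : ℕ) : Prop :=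
  ∃ x : Fin d → ℂ, (∀ j, x j ∈ K) ∧ AlgebraicIndependent ℚ x

end Pool.Agent.Work.MP_8da9ea_nt
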