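import Pool.Agent.Work.MP_8da9ea_nt.Stmt2

/-!
# Dimensions modulo a field of constants
-/

set_option autoImplicit false

namespace Pool.Agent.Work.MP_8da9ea_nt

/-- The dimension over `ℚ` of the span of the classes of the `t l` in `ℂ / K`. -/
noncomputable def modDim (K : IntermediateField ℚ ℂ) {s : ℕ} (t : Fin s → ℂ) : ℕ :=
  Module.finrank ℚ (Submodule.span ℚ (Set.range fun l =>
    (Submodule.Quotient.mk (t l) : ℂ ⧸ Subalgebra.toSubmodule K.toSubalgebra)))

end Pool.Agent.Work.MP_8da9ea_nt
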