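import Pool.Agent.Work.MP_8da9ea_nt.Bd.B10
import Pool.Agent.Work.MP_8da9ea_nt.Bd.B02
import Pool.Agent.Work.MP_8da9ea_nt.Stmt3

/-!
# The theorem over a countable field of constants
-/

set_option autoImplicit false

namespace Pool.Agent.Work.MP_8da9ea_nt

open Complex Filter Topology Submodule

/-- the exceptional values for the base field `k` -/
noncomputable def Emov (k : IntermediateField ℚ ℂ) : Set ℂ :=
  open Classical in
  ⋃ n : ℕ, ⋃ s : ℕ, if h : Countable k ∧ kap ∈ k then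
    (@mov_case k h.1 h.2 n s).choose else ∅

/-- a nonzero polynomial in `g₂`, `g₃` has countably many zeros -/
lemma poly_zeros (P : MvPolynomial (Fin 4) ℂ) (hP : P ≠ 0) :
    ({τ : ℂ | 0 < τ.im ∧ MvPolynomial.aeval ![τ, et τ, gg2 τ, gg3 τ] P = 0}).Countable := by
  have hU : IsPreconnected {τ : ℂ | 0 < τ.im} := by
    have := preconnected_half (S := ∅) Set.countable_empty
    simpa using this
  have hI : (0 : ℝ) < (I : ℂ).im := by simp
  have hind := hindep hI
  set G : Fin 4 → ℂ → ℂ := ![fun τ => τ, et, gg2, gg3] with hG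
  have hGa : ∀ τ : ℂ, 0 < τ.im → ∀ s, AnalyticAt ℂ (G s) τ := by
    intro τ hτ s
    fin_cases s
    · exact analyticAt_id
    · exact analyticAt_et hτ
    · exact analyticAt_gg2 hτ
    · exact analyticAt_gg3 hτ
  have hGe : ∀ τ : ℂ, (fun s => G s τ) = ![τ, et τ, gg2 τ, gg3 τ] := by
    intro τ
    funext s
    fin_cases s <;> rfl
  have hGg : (fun s => gm I (G s)) = ![gm I fun τ => τ, gm I et, gm I gg2, gm I gg3] := by
    funext s
    fin_cases s <;> rfl
  refine zeros_countable hU (f := fun τ => MvPolynomial.aeval ![τ, et τ, gg2 τ, gg3 τ] P)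
    (fun τ hτ => ?_) ?_
  · have := (gm_aeval (τ₀ := τ) G (hGa τ hτ) P).1
    simpa only [hGe] using this
  · by_contra hcon
    push Not at hcon
    obtain ⟨h1, h2⟩ := gm_aeval (τ₀ := I) G (hGa I hI) P
    rw [hGg] at h2
    have h3 : gm I (fun τ => MvPolynomial.aeval (fun s => G s τ) P) = gm I (fun _ => 0) := by
      refine gm_eq_of h1 ?_
      filter_upwards [eventually_im hI] with τ hτ
      rw [hGe]
      exact hcon τ hτ
    rw [h3, gm_const, map_zero] at h2
    exact hP (algebraicIndependent_iff.1 hind P h2)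

lemma j_fibre (c : ℂ) : ({τ : ℂ | 0 < τ.im ∧ jInv 1 τ = c}).Countable := by
  set X2 : MvPolynomial (Fin 4) ℂ := MvPolynomial.X 2
  set X3 : MvPolynomial (Fin 4) ℂ := MvPolynomial.X 3
  have h1 : (X2 ^ 3 - 27 * X3 ^ 2 : MvPolynomial (Fin 4) ℂ) ≠ 0 := by
    intro h
    have := congrArg (MvPolynomial.eval ![0, 0, 1, 0]) h
    simp [X2, X3] at this
  have h2 : (1728 * X2 ^ 3 - MvPolynomial.C c * (X2 ^ 3 - 27 * X3 ^ 2) :
      MvPolynomial (Fin 4) ℂ) ≠ 0 := by
    intro h
    have e1 := congrArg (MvPolynomial.eval ![0, 0, 0, 1]) h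
    have e2 := congrArg (MvPolynomial.eval ![0, 0, 1, 0]) h
    simp [X2, X3] at e1 e2
    rw [e1] at e2
    norm_num at e2
  refine ((poly_zeros _ h1).union (poly_zeros _ h2)).mono ?_
  rintro τ ⟨hτ, hj⟩
  by_cases h0 : gg2 τ ^ 3 - 27 * gg3 τ ^ 2 = 0
  · left
    refine ⟨hτ, ?_⟩
    simp [X2, X3, h0]
  · right
    refine ⟨hτ, ?_⟩
    have h3 : jInv 1 τ = 1728 * gg2 τ ^ 3 / (gg2 τ ^ 3 - 27 * gg3 τ ^ 2) := rfl
    rw [h3, div_eq_iff h0] at hj
    simp [X2, X3]
    linear_combination hj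

/-- the operation under which the field of constants is closed -/
noncomputable def Eop (k : IntermediateField ℚ ℂ) : Set ℂ :=
  Emov k ∪ exp '' (k : Set ℂ) ∪ jInv 1 '' (k : Set ℂ) ∪
    ⋃ c ∈ (k : Set ℂ), {τ : ℂ | 0 < τ.im ∧ jInv 1 τ = c}

lemma Eop_countable (k : IntermediateField ℚ ℂ) (hk : Countable k) : (Eop k).Countable := by
  classical
  have hk' : ((k : IntermediateField ℚ ℂ) : Set ℂ).Countable := Set.to_countable _
  refine (((?_ : Set.Countable _).union (hk'.image _)).union (hk'.image _)).union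
    (hk'.biUnion fun c _ => j_fibre c)
  unfold Emov
  refine Set.countable_iUnion fun n => Set.countable_iUnion fun s => ?_
  split_ifs with h
  · exact (@mov_case k h.1 h.2 n s).choose_spec.1
  · exact Set.countable_empty

lemma mov_chain (k : IntermediateField ℚ ℂ) [Countable k] (hk : kap ∈ k) (n s : ℕ)
    (τ : ℂ) (hτ : 0 < τ.im) (hτE : τ ∉ Eop k) (z : Fin n → ℂ)
    (hz : ∀ (m : Fin n → ℤ) (a b : ℤ), ∑ i, (m i : ℂ) * z i = a + b * τ → m = 0)
    (t : Fin s → ℂ) (ht : ∀ m : Fin s → ℤ, ∑ l, (m l : ℂ) * t l ∈ Eop k → m = 0) :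
    ∃ S : Finset (Fin 4 ⊕ ((Fin 3 × Fin n) ⊕ (Fin 2 × Fin s))),
        AlgebraicIndependent k
          (fun i : S => asF τ (et τ) (gg2 τ) (gg3 τ) z (fun i => wp 1 τ (z i))
            (fun i => zt 1 τ (z i)) t (fun j => exp (t j)) i) ∧
        4 + 2 * n + s ≤ S.card := by
  classical
  have hE : (@mov_case k ‹_› hk n s).choose ⊆ Eop k := by
    intro x hx
    refine Or.inl (Or.inl (Or.inl ?_))
    unfold Emov
    rw [Set.mem_iUnion]
    refine ⟨n, ?_⟩
    rw [Set.mem_iUnion]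
    refine ⟨s, ?_⟩
    rw [dif_pos ⟨‹_›, hk⟩]
    exact hx
  exact (@mov_case k ‹_› hk n s).choose_spec.2 τ hτ (fun h => hτE (hE h)) z hz t
    (fun m hm => ht m (hE hm))

/-- independence over the union of the chain -/
lemma mov_union {S₀ : Set ℂ} (hS₀ : S₀.Countable) (hkap : kap ∈ S₀) (n s : ℕ)
    (τ : ℂ) (hτ : 0 < τ.im) (hτE : τ ∉ unionF Eop S₀) (z : Fin n → ℂ)
    (hz : ∀ (m : Fin n → ℤ) (a b : ℤ), ∑ i, (m i : ℂ) * z i = a + b * τ → m = 0)
    (t : Fin s → ℂ) (ht : ∀ m : Fin s → ℤ, ∑ l, (m l : ℂ) * t l ∈ unionF Eop S₀ → m = 0) :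
    ∃ S : Finset (Fin 4 ⊕ ((Fin 3 × Fin n) ⊕ (Fin 2 × Fin s))),
        AlgebraicIndependent (unionF Eop S₀)
          (fun i : S => asF τ (et τ) (gg2 τ) (gg3 τ) z (fun i => wp 1 τ (z i))
            (fun i => zt 1 τ (z i)) t (fun j => exp (t j)) i) ∧
        4 + 2 * n + s ≤ S.card := by
  classical
  have hsub : ∀ j, Eop (chainF Eop S₀ j) ⊆ unionF Eop S₀ := fun j x hx =>
    mem_unionF.2 ⟨j + 1, chainF_E j hx⟩
  have h1 : ∀ j, ∃ S : Finset (Fin 4 ⊕ ((Fin 3 × Fin n) ⊕ (Fin 2 × Fin s))),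
        AlgebraicIndependent (chainF Eop S₀ j)
          (fun i : S => asF τ (et τ) (gg2 τ) (gg3 τ) z (fun i => wp 1 τ (z i))
            (fun i => zt 1 τ (z i)) t (fun j => exp (t j)) i) ∧
        4 + 2 * n + s ≤ S.card := by
    intro j
    have hc := chainF_countable (E := Eop) (S := S₀) Eop_countable hS₀ j
    have hk : kap ∈ chainF Eop S₀ j := chainF_mono (Nat.zero_le j)
      (IntermediateField.subset_adjoin _ _ hkap)
    exact mov_chain _ hk n s τ hτ (fun h => hτE (hsub j h)) z hz t (fun m hm => ht m (hsub j hm))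
  obtain ⟨S, hS⟩ := exists_of_finite _ h1
  refine ⟨S, indep_unionF _ fun i => ?_, ?_⟩
  · obtain ⟨j, hij, hj⟩ := hS i
    exact ⟨j, hij, hj.1⟩
  · obtain ⟨j, _, hj⟩ := hS 0
    exact hj.2

lemma indep_mono {k k' : IntermediateField ℚ ℂ} (h : k ≤ k') {σ : Type*} {y : σ → ℂ}
    (hy : AlgebraicIndependent k' y) : AlgebraicIndependent k y := by
  rw [algebraicIndependent_iff]
  intro P hP
  have h1 : MvPolynomial.aeval y (MvPolynomial.map
      (IntermediateField.inclusion h : k →+* k') P) = 0 := by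
    rw [MvPolynomial.aeval_def, MvPolynomial.eval₂_map]
    exact hP
  have h2 := (algebraicIndependent_iff.1 hy) _ h1
  exact (map_eq_zero_iff _ (MvPolynomial.map_injective _
    (IntermediateField.inclusion h : k →+* k').injective)).1 h2

/-- a subfamily which is a basis modulo the field of constants -/
lemma exists_mod_basis (K : IntermediateField ℚ ℂ) {s : ℕ} (t : Fin s → ℂ) :
    ∃ J : Finset (Fin s), J.card = modDim K t ∧
      ∀ m : J → ℤ, ∑ j, (m j : ℂ) * t j ∈ K → m = 0 := by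
  classical
  obtain ⟨J, hJ, hJc⟩ := exists_rel_basis (V := ℂ ⧸ Subalgebra.toSubmodule K.toSubalgebra)
    (k := 0) (fun i => i.elim0) (linearIndependent_empty_type) (fun l => Submodule.Quotient.mk (t l))
  refine ⟨J, ?_, ?_⟩
  · rw [add_zero] at hJc
    rw [hJc]
    unfold modDim
    rw [show (Set.range fun l => (Submodule.Quotient.mk (t l) :
        ℂ ⧸ Subalgebra.toSubmodule K.toSubalgebra)) ∪ Set.range (fun i : Fin 0 => i.elim0) =
        Set.range fun l => (Submodule.Quotient.mk (t l) :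
        ℂ ⧸ Subalgebra.toSubmodule K.toSubalgebra) from by ext x; simp]
  · intro m hm
    rw [Fintype.linearIndependent_iff] at hJ
    have h1 := hJ (Sum.elim (fun i => i.elim0) (fun j => (m j : ℚ))) (by
      rw [Fintype.sum_sum_type]
      simp only [Finset.univ_eq_empty, Finset.sum_empty, zero_add, Sum.elim_inr]
      have h2 : ∑ j : J, (m j : ℚ) • (Submodule.Quotient.mk (t j) :
          ℂ ⧸ Subalgebra.toSubmodule K.toSubalgebra) =
          Submodule.Quotient.mk (∑ j : J, (m j : ℂ) * t j) := by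
        rw [← Submodule.mkQ_apply, map_sum]
        refine Finset.sum_congr rfl fun j _ => ?_
        rw [← Submodule.mkQ_apply, ← map_smul]
        congr 1
      rw [h2, Submodule.Quotient.mk_eq_zero]
      exact hm)
    funext j
    have h3 := h1 (Sum.inr j)
    simp only [Sum.elim_inr] at h3
    exact_mod_cast h3

/-- the theorem in the upper half plane -/
theorem mov_upper {S₀ : Set ℂ} (hS₀ : S₀.Countable) (hkap : kap ∈ S₀) (τ : ℂ) (hτ : 0 < τ.im)
    (hτE : τ ∉ unionF Eop S₀) (ω₁ : ℂ) (h1 : ω₁ ≠ 0)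
    (s n : ℕ) (t : Fin s → ℂ) (p : Fin n → ℂ) (d : ℕ)
    (hd : HasTrdeg (bigField ω₁ (ω₁ * τ) t p ⊓ unionF Eop S₀) d) :
    HasTrdeg (bigField ω₁ (ω₁ * τ) t p)
      (d + modDim (unionF Eop S₀) t + 4 + 2 * pDim ω₁ (ω₁ * τ) p) := by
  classical
  set K := unionF Eop S₀ with hK
  have ha : LinearIndependent ℚ ![ω₁, ω₁ * τ] := by
    rw [LinearIndependent.pair_iff]
    intro a b hab
    have h2 : (a : ℂ) + b * τ = 0 := by
      have h3 : ω₁ * ((a : ℂ) + b * τ) = 0 := by
        simp only [Rat.smul_def] at hab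
        linear_combination hab
      exact (mul_eq_zero.1 h3).resolve_left h1
    have h3 := congrArg Complex.im h2
    simp only [Complex.add_im, Complex.ratCast_im, Complex.mul_im, Complex.ratCast_re, zero_mul,
      add_zero, Complex.zero_im, zero_add] at h3
    have hb : (b : ℝ) = 0 := (mul_eq_zero.1 h3).resolve_right hτ.ne'
    have hb' : b = 0 := by exact_mod_cast hb
    rw [hb'] at h2
    refine ⟨?_, hb'⟩
    have : (a : ℂ) = 0 := by simpa using h2
    exact_mod_cast this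
  obtain ⟨Jp, hJp, hJpc⟩ := exists_rel_basis ![ω₁, ω₁ * τ] ha p
  have hr1 : Set.range ![ω₁, ω₁ * τ] = {ω₁, ω₁ * τ} := by
    simp [Matrix.range_cons, Set.pair_comm]
  rw [hr1] at hJpc
  set n' := Jp.card with hn'
  let e : Fin n' ≃ Jp := Jp.equivFin.symm
  set z : Fin n' → ℂ := fun i => p (e i) / ω₁ with hz
  have hzi : ∀ (m : Fin n' → ℤ) (a b : ℤ), ∑ i, (m i : ℂ) * z i = a + b * τ → m = 0 := by
    intro m a b hml
    rw [Fintype.linearIndependent_iff] at hJp
    have h2 := hJp (Sum.elim ![-(a : ℚ), -(b : ℚ)] (fun j => (m (e.symm j) : ℚ))) (by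
      rw [Fintype.sum_sum_type]
      simp only [Sum.elim_inl, Sum.elim_inr, Fin.sum_univ_two, Matrix.cons_val_zero,
        Matrix.cons_val_one, Rat.smul_def]
      push_cast
      have h3 : ∑ j : Jp, (m (e.symm j) : ℂ) * p j = (a + b * τ) * ω₁ := by
        rw [← hml, Finset.sum_mul, ← e.sum_comp]
        refine Finset.sum_congr rfl fun i _ => ?_
        simp only [hz, Equiv.symm_apply_apply]
        field_simp
      rw [h3]
      ring)
    funext i
    have h3 := h2 (Sum.inr (e i))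
    simp only [Sum.elim_inr, Equiv.symm_apply_apply] at h3
    exact_mod_cast h3
  obtain ⟨J, hJc, hJ⟩ := exists_mod_basis K t
  let e' : Fin J.card ≃ J := J.equivFin.symm
  set t' : Fin J.card → ℂ := fun l => t (e' l) with ht'
  have hti : ∀ m : Fin J.card → ℤ, ∑ l, (m l : ℂ) * t' l ∈ K → m = 0 := by
    intro m hm
    have h2 := hJ (fun j => m (e'.symm j)) (by
      rw [← e'.sum_comp]
      simpa [ht'] using hm)
    funext l
    have h3 := congrFun h2 (e' l)
    simpa using h3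
  obtain ⟨S, hS, hScard⟩ := mov_union hS₀ hkap n' J.card τ hτ hτE z hzi t' hti
  obtain ⟨u, hu, hui⟩ := hd
  set L := bigField ω₁ (ω₁ * τ) t p ⊓ K with hL
  have hS' := indep_mono (k := L) inf_le_right hS
  have h60 : gg2 τ ∈ bigField ω₁ (ω₁ * τ) t p :=
    mul_mem (ofNat_mem (bigField ω₁ (ω₁ * τ) t p) 60) (big_gk4 t p h1)
  have h140 : gg3 τ ∈ bigField ω₁ (ω₁ * τ) t p :=
    mul_mem (ofNat_mem (bigField ω₁ (ω₁ * τ) t p) 140) (big_gk6 t p h1)
  obtain ⟨x, hx, hxi⟩ := exists_indep_of_tower L _ hS' u hu hui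
    (bigField ω₁ (ω₁ * τ) t p) (fun y hy => hy.1) (by
      rintro ⟨k | ⟨k, i⟩ | ⟨k, l⟩, hi⟩
      · fin_cases k
        · exact big_tau t p h1
        · exact big_et t p h1
        · exact h60
        · exact h140
      · fin_cases k
        · exact div_mem (big_p _ _ _ _ _) (big_o1 _ _ _ _)
        · exact big_wp' t p h1 _
        · exact big_zt' t p h1 _
      · fin_cases k
        · exact big_t _ _ _ _ _
        · exact big_exp _ _ _ _ _)
  have hT : HasTrdeg (bigField ω₁ (ω₁ * τ) t p) (d + Fintype.card S) := ⟨x, hx, hxi⟩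
  refine hT.mono le_rfl ?_
  have hpd : pDim ω₁ (ω₁ * τ) p = n' := by
    unfold pDim
    rw [← hJpc]
    omega
  rw [hpd, Fintype.card_coe, ← hJc]
  omega

lemma two_pi_ne : (2 * (Real.pi : ℂ) * Complex.I) ≠ 0 := by simp [Real.pi_ne_zero]

lemma one_le_finrank {s : ℕ} (t : Fin s → ℂ) : 1 ≤ Module.finrank ℚ
    (span ℚ (Set.range t ∪ {2 * (Real.pi : ℂ) * Complex.I})) := by
  have : FiniteDimensional ℚ (span ℚ (Set.range t ∪ {2 * (Real.pi : ℂ) * Complex.I})) :=
    FiniteDimensional.span_of_finite ℚ ((Set.finite_range _).union (Set.finite_singleton _))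
  have h8 : span ℚ {2 * (Real.pi : ℂ) * Complex.I} ≤
    span ℚ (Set.range t ∪ {2 * (Real.pi : ℂ) * Complex.I}) := span_mono Set.subset_union_right
  have h9 := Submodule.finrank_mono h8
  rwa [finrank_span_singleton two_pi_ne] at h9

/-- the dimension splits -/
lemma dim_split (K : IntermediateField ℚ ℂ) (hK : kap ∈ K) {s : ℕ} (t : Fin s → ℂ) :
    Module.finrank ℚ (span ℚ (Set.range t ∪ {2 * (Real.pi : ℂ) * Complex.I})) =
      modDim K t + Module.finrank ℚ (span ℚ (Set.range t ∪ {2 * (Real.pi : ℂ) * Complex.I}) ⊓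
        Subalgebra.toSubmodule K.toSubalgebra : Submodule ℚ ℂ) := by
  set V : Submodule ℚ ℂ := span ℚ (Set.range t ∪ {2 * (Real.pi : ℂ) * Complex.I}) with hV
  set KK : Submodule ℚ ℂ := Subalgebra.toSubmodule K.toSubalgebra with hKK
  have hfdV : FiniteDimensional ℚ V :=
    FiniteDimensional.span_of_finite ℚ ((Set.finite_range _).union (Set.finite_singleton _))
  set f : V →ₗ[ℚ] (ℂ ⧸ KK) := KK.mkQ.domRestrict V with hf
  have hrange : LinearMap.range f = span ℚ (Set.range fun l => (Submodule.Quotient.mk (t l) :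
      ℂ ⧸ KK)) := by
    rw [hf, LinearMap.range_domRestrict, hV, Submodule.map_span, Set.image_union,
      Set.image_singleton, ← Set.range_comp]
    have h0 : KK.mkQ (2 * (Real.pi : ℂ) * Complex.I) = 0 := by
      rw [Submodule.mkQ_apply, Submodule.Quotient.mk_eq_zero]
      exact hK
    rw [h0, span_union, span_zero_singleton, sup_bot_eq]
    rfl
  have hker : Module.finrank ℚ (LinearMap.ker f) = Module.finrank ℚ (V ⊓ KK : Submodule ℚ ℂ) := by
    have h1 : LinearMap.ker f = ((V ⊓ KK).comap V.subtype) := by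
      ext x
      simp only [hf, LinearMap.mem_ker, LinearMap.domRestrict_apply, Submodule.mkQ_apply,
        Submodule.Quotient.mk_eq_zero, Submodule.mem_comap, Submodule.subtype_apply,
        Submodule.mem_inf]
      exact ⟨fun h => ⟨x.2, h⟩, fun h => h.2⟩
    rw [h1]
    exact (Submodule.comapSubtypeEquivOfLe (inf_le_left : V ⊓ KK ≤ V)).finrank_eq
  have h1 := LinearMap.finrank_range_add_finrank_ker f
  rw [hrange, hker] at h1
  exact h1.symm

lemma tDim_add_le (K : IntermediateField ℚ ℂ) (hK : kap ∈ K) {s m : ℕ} (t : Fin s → ℂ)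
    (t' : Fin m → ℂ) (h : ∀ l, t' l ∈ K ∧ t' l ∈ span ℚ (Set.range t)) :
    tDim t' + modDim K t ≤ tDim t := by
  have h1 := dim_split K hK t
  have hfdV : FiniteDimensional ℚ (span ℚ (Set.range t ∪ {2 * (Real.pi : ℂ) * Complex.I})) :=
    FiniteDimensional.span_of_finite ℚ ((Set.finite_range _).union (Set.finite_singleton _))
  have hfdW : FiniteDimensional ℚ (span ℚ (Set.range t ∪ {2 * (Real.pi : ℂ) * Complex.I}) ⊓
        Subalgebra.toSubmodule K.toSubalgebra : Submodule ℚ ℂ) :=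
    Submodule.finiteDimensional_of_le inf_le_left
  have h2 : span ℚ (Set.range t' ∪ {2 * (Real.pi : ℂ) * Complex.I}) ≤
      span ℚ (Set.range t ∪ {2 * (Real.pi : ℂ) * Complex.I}) ⊓
        Subalgebra.toSubmodule K.toSubalgebra := by
    rw [span_le]
    rintro x (⟨l, rfl⟩ | hx)
    · exact ⟨span_mono Set.subset_union_left (h l).2, (h l).1⟩
    · rw [Set.mem_singleton_iff] at hx
      rw [hx]
      exact ⟨subset_span (Or.inr rfl), hK⟩
  have h3 := Submodule.finrank_mono h2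
  have h4 := one_le_finrank t'
  unfold tDim
  omega

/-- integral combinations spanning the part of the span in the field of constants -/
lemma exists_const_basis (K : IntermediateField ℚ ℂ) (hK : kap ∈ K) {s : ℕ} (t : Fin s → ℂ) :
    ∃ (m : ℕ) (A : Fin m → Fin s → ℤ), (∀ i, ∑ l, (A i l : ℂ) * t l ∈ K) ∧
      tDim t ≤ tDim (fun i => ∑ l, (A i l : ℂ) * t l) + modDim K t := by
  classical
  set V : Submodule ℚ ℂ := span ℚ (Set.range t) with hV
  set KK : Submodule ℚ ℂ := Subalgebra.toSubmodule K.toSubalgebra with hKK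
  have hfdV : FiniteDimensional ℚ V := FiniteDimensional.span_of_finite ℚ (Set.finite_range _)
  -- a basis of the intersection
  set W : Submodule ℚ ℂ := V ⊓ KK with hW
  have hfdW : FiniteDimensional ℚ W := Submodule.finiteDimensional_of_le inf_le_left
  let b := Module.finBasis ℚ W
  have hb : ∀ i, ∃ (N : ℤ) (A : Fin s → ℤ), N ≠ 0 ∧ (N : ℂ) * (b i : ℂ) = ∑ l, (A l : ℂ) * t l := by
    intro i
    have h1 : (b i : ℂ) ∈ V := (b i).2.1
    obtain ⟨c, hc⟩ := (Submodule.mem_span_range_iff_exists_fun ℚ).1 h1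
    obtain ⟨N, A, hN, hA⟩ := clear_rat c
    refine ⟨N, A, by exact_mod_cast hN, ?_⟩
    rw [← hc, Finset.mul_sum]
    refine Finset.sum_congr rfl fun l _ => ?_
    rw [Rat.smul_def, ← mul_assoc]
    congr 1
    have := hA l
    have h2 : ((A l : ℚ) : ℂ) = ((N * c l : ℚ) : ℂ) := by rw [this]
    push_cast at h2
    rw [h2]
    push_cast
    ring
  choose N A hN hA using hb
  refine ⟨Module.finrank ℚ W, A, ?_, ?_⟩
  · intro i
    rw [← hA i]
    exact mul_mem (intCast_mem _ _) (b i).2.2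
  · -- dimension count
    set t' : Fin (Module.finrank ℚ W) → ℂ := fun i => ∑ l, (A i l : ℂ) * t l with ht'
    have hWle : W ≤ span ℚ (Set.range t') := by
      intro x hx
      have h1 : (⟨x, hx⟩ : W) ∈ span ℚ (Set.range b) := by rw [b.span_eq]; trivial
      obtain ⟨c, hc⟩ := (Submodule.mem_span_range_iff_exists_fun ℚ).1 h1
      have h2 : ((∑ i, c i • b i : W) : ℂ) = x := congrArg Subtype.val hc
      rw [← h2]
      have h4 : ((∑ i, c i • b i : W) : ℂ) = ∑ i, c i • (b i : ℂ) := by simp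
      rw [h4]
      refine sum_mem fun i _ => smul_mem _ _ ?_
      have h3 : (b i : ℂ) = ((N i : ℚ)⁻¹) • t' i := by
        simp only [ht']
        rw [← hA i, Rat.smul_def]
        have : (N i : ℂ) ≠ 0 := by exact_mod_cast hN i
        push_cast
        field_simp
      rw [h3]
      exact smul_mem _ _ (subset_span ⟨i, rfl⟩)
    have h1 := dim_split K hK t
    rw [← hKK] at h1
    have hle : (span ℚ (Set.range t ∪ {2 * (Real.pi : ℂ) * Complex.I}) ⊓ KK : Submodule ℚ ℂ) ≤
        span ℚ (Set.range t' ∪ {2 * (Real.pi : ℂ) * Complex.I}) := by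
      rintro x ⟨hx, hxK⟩
      rw [span_union] at hx
      obtain ⟨y, hy, z, hz, rfl⟩ := Submodule.mem_sup.1 hx
      have hzK : z ∈ KK := by
        have h5 : span ℚ {2 * (Real.pi : ℂ) * Complex.I} ≤ KK := by
          rw [span_le]
          rintro w hw
          rw [Set.mem_singleton_iff] at hw
          rw [hw]
          exact hK
        exact h5 hz
      have hyW : y ∈ W := ⟨hy, by
        have := KK.sub_mem hxK hzK
        rwa [add_sub_cancel_right] at this⟩
      exact add_mem (span_mono Set.subset_union_left (hWle hyW))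
        (span_mono Set.subset_union_right hz)
    have hfd : FiniteDimensional ℚ (span ℚ (Set.range t' ∪ {2 * (Real.pi : ℂ) * Complex.I})) :=
      FiniteDimensional.span_of_finite ℚ ((Set.finite_range _).union (Set.finite_singleton _))
    have h2 := Submodule.finrank_mono hle
    have h3 := one_le_finrank t'
    unfold tDim
    omega

/-- **The theorem for elliptic curves with generic invariant.** -/
theorem mov_final (S₀ : Set ℂ) (hS₀ : S₀.Countable) :
    ∃ K : IntermediateField ℚ ℂ, (K : Set ℂ).Countable ∧ S₀ ⊆ K ∧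
      (∀ x : ℂ, IsAlgebraic K x → x ∈ K) ∧ (∀ x ∈ K, exp x ∈ K) ∧
      (∀ ω₁ ω₂ : ℂ, (ω₂ / ω₁).im ≠ 0 → (jInv ω₁ ω₂ ∈ K ↔ ω₂ / ω₁ ∈ K)) ∧
      ∀ ω₁ ω₂ : ℂ, (ω₂ / ω₁).im ≠ 0 → jInv ω₁ ω₂ ∉ K →
        ¬ IsCM ω₁ ω₂ ∧ ∀ (s n : ℕ) (t : Fin s → ℂ) (p : Fin n → ℂ),
        (∀ d, HasTrdeg (bigField ω₁ ω₂ t p ⊓ K) d →
          HasTrdeg (bigField ω₁ ω₂ t p) (d + modDim K t + 4 + 2 * pDim ω₁ ω₂ p)) ∧
        ((∀ (m : ℕ) (t' : Fin m → ℂ), (∀ l, t' l ∈ K ∧ t' l ∈ span ℚ (Set.range t)) →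
            HasTrdeg (expField t') (tDim t')) →
          HasTrdeg (bigField ω₁ ω₂ t p) (tDim t + 4 + 2 * pDim ω₁ ω₂ p)) ∧
        ((∀ x ∈ span ℚ (Set.range t), x ∈ K → IsAlgebraic ℚ x) ∨ tDim t ≤ modDim K t + 1 →
          HasTrdeg (bigField ω₁ ω₂ t p) (tDim t + 4 + 2 * pDim ω₁ ω₂ p)) := by
  classical
  set T := S₀ ∪ {kap} with hT
  have hTc : T.Countable := hS₀.union (Set.countable_singleton _)
  have hkT : kap ∈ T := Or.inr rfl
  set K := unionF Eop T with hK
  have hKc : Countable K := unionF_countable Eop_countable hTc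
  have hKalg : ∀ x : ℂ, IsAlgebraic K x → x ∈ K := fun x hx => unionF_alg hx
  have hEK : ∀ j, Eop (chainF Eop T j) ⊆ K := fun j x hx => mem_unionF.2 ⟨j + 1, chainF_E j hx⟩
  have hKexp : ∀ x ∈ K, exp x ∈ K := by
    intro x hx
    obtain ⟨j, hj⟩ := mem_unionF.1 hx
    exact hEK j (Or.inl (Or.inl (Or.inr ⟨x, hj, rfl⟩)))
  have hKj : ∀ x ∈ K, jInv 1 x ∈ K := by
    intro x hx
    obtain ⟨j, hj⟩ := mem_unionF.1 hx
    exact hEK j (Or.inl (Or.inr ⟨x, hj, rfl⟩))
  have hKf : ∀ τ : ℂ, 0 < τ.im → jInv 1 τ ∈ K → τ ∈ K := by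
    intro τ hτ hx
    obtain ⟨j, hj⟩ := mem_unionF.1 hx
    refine hEK j (Or.inr ?_)
    rw [Set.mem_iUnion₂]
    exact ⟨jInv 1 τ, hj, hτ, rfl⟩
  have hKiff : ∀ ω₁ ω₂ : ℂ, (ω₂ / ω₁).im ≠ 0 → (jInv ω₁ ω₂ ∈ K ↔ ω₂ / ω₁ ∈ K) := by
    intro ω₁ ω₂ him
    have h1 : ω₁ ≠ 0 := by
      rintro rfl
      simp at him
    have hω : ω₂ = ω₁ * (ω₂ / ω₁) := by field_simp
    rcases lt_or_gt_of_ne him with hlt | hgt
    · have h2 : jInv ω₁ ω₂ = jInv 1 (-(ω₂ / ω₁)) := by
        rw [jInv_neg, ← jInv_smul h1, ← hω]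
      rw [h2]
      constructor
      · intro h
        have h3 := hKf _ (by simpa using hlt) h
        have h4 := neg_mem h3
        rwa [neg_neg] at h4
      · intro h
        exact hKj _ (neg_mem h)
    · have h2 : jInv ω₁ ω₂ = jInv 1 (ω₂ / ω₁) := by
        rw [← jInv_smul h1, ← hω]
      rw [h2]
      exact ⟨hKf _ hgt, hKj _⟩
  have hkapK : kap ∈ K := subset_unionF hkT
  refine ⟨K, Set.countable_coe_iff.1 hKc, fun x hx => subset_unionF (Or.inl hx), hKalg, hKexp,
    hKiff, ?_⟩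
  -- the first assertion for a modulus in the upper half plane
  have key : ∀ ω₁ τ : ℂ, ω₁ ≠ 0 → 0 < τ.im → jInv ω₁ (ω₁ * τ) ∉ K →
      ¬ IsCM ω₁ (ω₁ * τ) ∧ ∀ (s n : ℕ) (t : Fin s → ℂ) (p : Fin n → ℂ),
        ∀ d, HasTrdeg (bigField ω₁ (ω₁ * τ) t p ⊓ K) d →
          HasTrdeg (bigField ω₁ (ω₁ * τ) t p) (d + modDim K t + 4 + 2 * pDim ω₁ (ω₁ * τ) p) := by
    intro ω₁ τ h1 hτ hj
    rw [jInv_smul h1] at hj
    have hj1 : τ ∉ K := fun hh => hj (hKj τ hh)
    refine ⟨not_CM_of ?_, fun s n t p d hd => mov_upper hTc hkT τ hτ hj1 ω₁ h1 s n t p d hd⟩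
    rw [mul_div_cancel_left₀ _ h1]
    intro h
    exact hj1 (hKalg τ (h.tower_top K))
  intro ω₁ ω₂ him hj
  have h1 : ω₁ ≠ 0 := by
    rintro rfl
    simp at him
  have hω : ω₂ = ω₁ * (ω₂ / ω₁) := by field_simp
  have main : ¬ IsCM ω₁ ω₂ ∧ ∀ (s n : ℕ) (t : Fin s → ℂ) (p : Fin n → ℂ),
        ∀ d, HasTrdeg (bigField ω₁ ω₂ t p ⊓ K) d →
          HasTrdeg (bigField ω₁ ω₂ t p) (d + modDim K t + 4 + 2 * pDim ω₁ ω₂ p) := by
    rcases lt_or_gt_of_ne him with hlt | hgt
    · have h2 : -ω₂ = ω₁ * (-(ω₂ / ω₁)) := by field_simp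
      have h3 := key ω₁ (-(ω₂ / ω₁)) h1 (by simpa using hlt) (by
        rw [← h2, jInv_neg]
        exact hj)
      rw [← h2] at h3
      obtain ⟨h4, h5⟩ := h3
      refine ⟨?_, ?_⟩
      · rintro ⟨a, b, c, ha, habc⟩
        exact h4 ⟨a, -b, c, ha, by push_cast; rw [neg_div]; linear_combination habc⟩
      · intro s n t p
        have h6 := h5 s n t p
        rw [bigField_neg, pDim_neg] at h6
        exact h6
    · have h3 := key ω₁ (ω₂ / ω₁) h1 hgt (by rw [← hω]; exact hj)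
      rw [← hω] at h3
      exact h3
  have sch : ∀ (s n : ℕ) (t : Fin s → ℂ) (p : Fin n → ℂ),
      (∀ (m : ℕ) (t' : Fin m → ℂ), (∀ l, t' l ∈ K ∧ t' l ∈ span ℚ (Set.range t)) →
            HasTrdeg (expField t') (tDim t')) →
          HasTrdeg (bigField ω₁ ω₂ t p) (tDim t + 4 + 2 * pDim ω₁ ω₂ p) := by
    intro s n t p hsch
    obtain ⟨m, A, hAK, hdim⟩ := exists_const_basis K hkapK t
    set t' : Fin m → ℂ := fun i => ∑ l, (A i l : ℂ) * t l with ht'
    have hspan : ∀ l, t' l ∈ span ℚ (Set.range t) := by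
      intro i
      refine sum_mem fun l _ => ?_
      have h3 : (A i l : ℂ) * t l = (A i l : ℚ) • t l := by
        rw [Rat.smul_def]; push_cast; rfl
      rw [h3]
      exact smul_mem _ _ (subset_span ⟨l, rfl⟩)
    have hle : expField t' ≤ bigField ω₁ ω₂ t p ⊓ K := by
      unfold expField
      rw [IntermediateField.adjoin_le_iff]
      rintro x ((hx | ⟨i, rfl⟩) | ⟨i, rfl⟩)
      · rw [Set.mem_singleton_iff] at hx
        rw [hx]
        refine ⟨?_, hkapK⟩
        rcases lt_or_gt_of_ne him with hlt | hgt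
        · have h2 : -ω₂ = ω₁ * (-(ω₂ / ω₁)) := by field_simp
          rw [← bigField_neg, h2]
          exact big_pi t p h1 (by simpa using hlt)
        · rw [hω]
          exact big_pi t p h1 hgt
      · exact ⟨sum_mem fun l _ => mul_mem (intCast_mem _ _) (big_t _ _ _ _ _), hAK i⟩
      · refine ⟨?_, hKexp _ (hAK i)⟩
        have h2 : exp (t' i) = ∏ l, exp (t l) ^ (A i l) := by
          simp only [ht']
          rw [Complex.exp_sum]
          exact Finset.prod_congr rfl fun l _ => Complex.exp_int_mul _ _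
        change exp (t' i) ∈ _
        rw [h2]
        exact prod_mem fun l _ => zpow_mem (big_exp _ _ _ _ _) _
    have h2 := (hsch m t' (fun l => ⟨hAK l, hspan l⟩)).mono hle le_rfl
    exact (main.2 s n t p _ h2).mono le_rfl (by omega)
  refine ⟨main.1, fun s n t p => ⟨main.2 s n t p, fun h => sch s n t p h,
    fun ht => sch s n t p fun m t' h' => tbound2 t' ?_⟩⟩
  rcases ht with ht | ht
  · exact Or.inl fun l => ht _ (h' l).2 (h' l).1
  · have := tDim_add_le K hkapK t t' h'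
    exact Or.inr (by omega)

end Pool.Agent.Work.MP_8da9ea_nt
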