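import Pool.Agent.Work.MP_8da9ea_nt.Stmt3

/-!
# Dimensions over the endomorphism field
-/

set_option autoImplicit false

namespace Pool.Agent.Work.MP_8da9ea_nt

/-- Twice the dimension over `k = End ⊗ ℚ` of the span of the classes of the `p i` in
`ℂ / (ℚω₁ + ℚω₂)`. In the case of complex multiplication `k = ℚ(ω₂ / ω₁)` is quadratic over `ℚ`, so it is
the dimension over `ℚ` of the span of the classes of the `p i` and the `(ω₂ / ω₁) p i`; otherwise
`k = ℚ`. -/
noncomputable def kDim2 (ω₁ ω₂ : ℂ) {n : ℕ} (p : Fin n → ℂ) : ℕ :=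
  open Classical in
  if IsCM ω₁ ω₂ then
    Module.finrank ℚ (Submodule.span ℚ
      (Set.range p ∪ Set.range (fun i => ω₂ / ω₁ * p i) ∪ {ω₁, ω₂})) - 2
  else 2 * (Module.finrank ℚ (Submodule.span ℚ (Set.range p ∪ {ω₁, ω₂})) - 2)

/-- Twice the dimension over `k = End ⊗ ℚ` of the span of the classes of the `p i / ω₁` in `ℂ / K`. -/
noncomputable def modDim2 (K : IntermediateField ℚ ℂ) (ω₁ ω₂ : ℂ) {n : ℕ} (p : Fin n → ℂ) : ℕ :=
  open Classical in
  if IsCM ω₁ ω₂ then
    Module.finrank ℚ (Submodule.span ℚ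
      (Set.range (fun i => (Submodule.Quotient.mk (p i / ω₁) :
          ℂ ⧸ Subalgebra.toSubmodule K.toSubalgebra)) ∪
        Set.range (fun i => (Submodule.Quotient.mk (ω₂ / ω₁ * (p i / ω₁)) :
          ℂ ⧸ Subalgebra.toSubmodule K.toSubalgebra))))
  else 2 * Module.finrank ℚ (Submodule.span ℚ
      (Set.range (fun i => (Submodule.Quotient.mk (p i / ω₁) :
          ℂ ⧸ Subalgebra.toSubmodule K.toSubalgebra))))

end Pool.Agent.Work.MP_8da9ea_nt
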