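import Pool.Agent.Work.MP_8da9ea_nt.Bd.B11

/-!
# The theorem for curves over the field of constants, without hypotheses
-/

set_option autoImplicit false

namespace Pool.Agent.Work.MP_8da9ea_nt

theorem fx_prop : FXprop :=
  fun _ _ _ _ _ _ hτ z hz hzL t ht c d e hne T H => FX hτ z hz hzL t ht c d e hne T H

end Pool.Agent.Work.MP_8da9ea_nt
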