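import Pool.Agent.Work.MP_8da9ea_nt.Lat

/-!
# Bounds, summability and analyticity of the lattice functions
-/

set_option autoImplicit false

namespace Pool.Agent.Work.MP_8da9ea_nt

open Complex Filter Topology

/-- size of an index -/
noncomputable def nr (q : ℤ × ℤ) : ℝ := ‖![q.2, q.1]‖

/-- the index as a vector -/
def vec : ℤ × ℤ ≃ (Fin 2 → ℤ) := (Equiv.prodComm ℤ ℤ).trans (finTwoArrowEquiv ℤ).symm

lemma vec_apply (q : ℤ × ℤ) : vec q = ![q.2, q.1] := rfl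

lemma nr_nonneg (q : ℤ × ℤ) : 0 ≤ nr q := norm_nonneg _

lemma nr_zero : nr 0 = 0 := by
  have : (![0, 0] : Fin 2 → ℤ) = 0 := by
    ext i; fin_cases i <;> rfl
  simp [nr, this]

lemma summable_nr : Summable (fun q : ℤ × ℤ => (nr q ^ 3)⁻¹) := by
  have h := EisensteinSeries.summable_one_div_norm_rpow (k := 3) (by norm_num)
  have h2 := vec.summable_iff.2 h
  refine h2.congr fun q => ?_
  simp only [Function.comp_apply, vec_apply, nr]
  rw [Real.rpow_neg (norm_nonneg _)]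
  norm_cast

lemma nr_ge_fst (q : ℤ × ℤ) : |(q.1 : ℝ)| ≤ nr q := by
  have := EisensteinSeries.abs_le_right_of_norm q.1 q.2
  unfold nr
  exact_mod_cast this

lemma nr_ge_snd (q : ℤ × ℤ) : |(q.2 : ℝ)| ≤ nr q := by
  have := EisensteinSeries.abs_le_left_of_norm q.1 q.2
  unfold nr
  exact_mod_cast this

lemma finite_nr (R : ℝ) : {q : ℤ × ℤ | nr q ≤ R}.Finite := by
  refine (((Set.finite_Icc (-⌈R⌉) ⌈R⌉).prod (Set.finite_Icc (-⌈R⌉) ⌈R⌉))).subset ?_
  intro q hq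
  have hq' : nr q ≤ R := hq
  have h1 := (nr_ge_fst q).trans (hq'.trans (Int.le_ceil R))
  have h2 := (nr_ge_snd q).trans (hq'.trans (Int.le_ceil R))
  have h3 : |q.1| ≤ ⌈R⌉ := by exact_mod_cast h1
  have h4 : |q.2| ≤ ⌈R⌉ := by exact_mod_cast h2
  exact ⟨abs_le.1 h3, abs_le.1 h4⟩

lemma exists_lower (A B : ℝ) (hB : 0 < B) : ∃ c : ℝ, 0 < c ∧ ∀ τ : ℂ, |τ.re| ≤ A → B ≤ τ.im →
    ∀ q : ℤ × ℤ, c * nr q ≤ ‖lp 1 τ q‖ := by
  refine ⟨EisensteinSeries.r ⟨⟨A, B⟩, hB⟩, EisensteinSeries.r_pos _, ?_⟩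
  intro τ hre him q
  by_cases hq : q = 0
  · subst hq
    rw [nr_zero]
    simp [lp]
  have hx : (![q.2, q.1] : Fin 2 → ℤ) ≠ 0 := by
    intro h
    apply hq
    have h0 := congrFun h 0
    have h1 := congrFun h 1
    simp at h0 h1
    exact Prod.ext h1 h0
  have him' : 0 < τ.im := hB.trans_le him
  have h1 := EisensteinSeries.r_mul_max_le ⟨τ, him'⟩ hx
  have h2 : EisensteinSeries.r ⟨⟨A, B⟩, hB⟩ ≤ EisensteinSeries.r ⟨τ, him'⟩ := by
    apply EisensteinSeries.r_lower_bound_on_verticalStrip _ hB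
    rw [UpperHalfPlane.mem_verticalStrip_iff]
    exact ⟨hre, him⟩
  have h3 : lp 1 τ q = ((![q.2, q.1] : Fin 2 → ℤ) 0 : ℂ) * τ + ((![q.2, q.1] : Fin 2 → ℤ) 1 : ℂ) := by
    simp [lp]; ring
  rw [h3]
  exact (mul_le_mul_of_nonneg_right h2 (nr_nonneg q)).trans h1

lemma lp_ne_zero {τ : ℂ} (hτ : 0 < τ.im) {q : ℤ × ℤ} (hq : q ≠ 0) : lp 1 τ q ≠ 0 := by
  intro h
  have him := congrArg Complex.im h
  have hre := congrArg Complex.re h
  simp only [lp, mul_one, add_im, mul_im, intCast_re, intCast_im, zero_mul,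
    add_zero, zero_add, zero_im, mul_eq_zero, add_re, mul_re, sub_zero, zero_re] at him hre
  have h2 : q.2 = 0 := by
    rcases him with h | h
    · exact_mod_cast h
    · exact absurd h hτ.ne'
  have h1 : q.1 = 0 := by
    rw [h2] at hre
    simp at hre
    exact_mod_cast hre
  exact hq (Prod.ext h1 h2)

/-! ### bounds of the terms -/

lemma ztT_eq {z l : ℂ} (hl : l ≠ 0) (hz : z - l ≠ 0) :
    1 / (z - l) + 1 / l + z / l ^ 2 = z ^ 2 / (l ^ 2 * (z - l)) := by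
  field_simp
  ring

lemma wpT_eq {z l : ℂ} (hl : l ≠ 0) (hz : z - l ≠ 0) :
    1 / (z - l) ^ 2 - 1 / l ^ 2 = z * (2 * l - z) / (l ^ 2 * (z - l) ^ 2) := by
  field_simp
  ring

lemma ztT_bound {z l : ℂ} {R : ℝ} (hR : 0 < R) (hz : ‖z‖ ≤ R) (hl : 2 * R ≤ ‖l‖) :
    ‖1 / (z - l) + 1 / l + z / l ^ 2‖ ≤ 10 * (R + R ^ 2) / ‖l‖ ^ 3 := by
  have hl0 : 0 < ‖l‖ := by linarith
  have hl1 : l ≠ 0 := norm_pos_iff.1 hl0
  have h1 : ‖l‖ / 2 ≤ ‖z - l‖ := by
    have := norm_sub_norm_le l z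
    rw [norm_sub_rev l z] at this
    linarith
  have h2 : 0 < ‖z - l‖ := by linarith
  rw [ztT_eq hl1 (norm_pos_iff.1 h2), norm_div, norm_mul, norm_pow, norm_pow,
    div_le_div_iff₀ (by positivity) (by positivity)]
  have h3 : ‖z‖ ^ 2 ≤ R ^ 2 := by gcongr
  calc ‖z‖ ^ 2 * ‖l‖ ^ 3 ≤ R ^ 2 * ‖l‖ ^ 3 := by gcongr
    _ = 2 * R ^ 2 * (‖l‖ ^ 2 * (‖l‖ / 2)) := by ring
    _ ≤ 2 * R ^ 2 * (‖l‖ ^ 2 * ‖z - l‖) := by gcongr
    _ ≤ 10 * (R + R ^ 2) * (‖l‖ ^ 2 * ‖z - l‖) := by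
        refine mul_le_mul_of_nonneg_right ?_ (by positivity)
        nlinarith [sq_nonneg R]

lemma wpT_bound {z l : ℂ} {R : ℝ} (hR : 0 < R) (hz : ‖z‖ ≤ R) (hl : 2 * R ≤ ‖l‖) :
    ‖1 / (z - l) ^ 2 - 1 / l ^ 2‖ ≤ 10 * (R + R ^ 2) / ‖l‖ ^ 3 := by
  have hl0 : 0 < ‖l‖ := by linarith
  have hl1 : l ≠ 0 := norm_pos_iff.1 hl0
  have h1 : ‖l‖ / 2 ≤ ‖z - l‖ := by
    have := norm_sub_norm_le l z
    rw [norm_sub_rev l z] at this
    linarith
  have h2 : 0 < ‖z - l‖ := by linarith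
  rw [wpT_eq hl1 (norm_pos_iff.1 h2), norm_div, norm_mul, norm_mul, norm_pow, norm_pow,
    div_le_div_iff₀ (by positivity) (by positivity)]
  have h3 : ‖2 * l - z‖ ≤ 5 / 2 * ‖l‖ := by
    calc ‖2 * l - z‖ ≤ ‖2 * l‖ + ‖z‖ := norm_sub_le _ _
      _ = 2 * ‖l‖ + ‖z‖ := by rw [norm_mul]; simp
      _ ≤ 5 / 2 * ‖l‖ := by linarith
  have h4 : (‖l‖ / 2) ^ 2 ≤ ‖z - l‖ ^ 2 := by gcongr
  calc ‖z‖ * ‖2 * l - z‖ * ‖l‖ ^ 3 ≤ R * (5 / 2 * ‖l‖) * ‖l‖ ^ 3 := by gcongr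
    _ = 10 * R * (‖l‖ ^ 2 * (‖l‖ / 2) ^ 2) := by ring
    _ ≤ 10 * R * (‖l‖ ^ 2 * ‖z - l‖ ^ 2) := by gcongr
    _ ≤ 10 * (R + R ^ 2) * (‖l‖ ^ 2 * ‖z - l‖ ^ 2) := by
        refine mul_le_mul_of_nonneg_right ?_ (by positivity)
        nlinarith [sq_nonneg R]

/-! ### sums of analytic functions -/

lemma analyticAt_tsum {ι : Type*} {f : ι → ℂ → ℂ} {x₀ : ℂ} {u : ι → ℝ} (hu : Summable u)
    (hu0 : ∀ i, 0 ≤ u i) (S : Finset ι) (hS : ∀ i ∈ S, AnalyticAt ℂ (f i) x₀)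
    (hd : ∀ᶠ x in 𝓝 x₀, ∀ i ∉ S, DifferentiableAt ℂ (f i) x ∧ ‖f i x‖ ≤ u i) :
    AnalyticAt ℂ (fun x => ∑' i, f i x) x₀ ∧ ∀ᶠ x in 𝓝 x₀, Summable (fun i => f i x) := by
  classical
  obtain ⟨U, hU, hUo, hxU⟩ := eventually_nhds_iff.1 hd
  let g : ι → ℂ → ℂ := fun i x => if i ∈ S then 0 else f i x
  have hg : ∀ i, ∀ x ∈ U, ‖g i x‖ ≤ u i := by
    intro i x hx
    by_cases hi : i ∈ S
    · simp [g, hi, hu0 i]
    · simp only [g, hi, if_false]
      exact (hU x hx i hi).2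
  have hgd : ∀ i, DifferentiableOn ℂ (g i) U := by
    intro i x hx
    by_cases hi : i ∈ S
    · have : g i = fun _ => 0 := by funext y; simp [g, hi]
      rw [this]
      exact differentiableWithinAt_const _
    · have : g i = f i := by funext y; simp [g, hi]
      rw [this]
      exact (hU x hx i hi).1.differentiableWithinAt
  have h1 : DifferentiableOn ℂ (fun x => ∑' i, g i x) U :=
    differentiableOn_tsum_of_summable_norm hu hgd hUo hg
  have h2 : AnalyticAt ℂ (fun x => ∑' i, g i x) x₀ :=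
    h1.analyticAt (hUo.mem_nhds hxU)
  have h3 : AnalyticAt ℂ (fun x => ∑ i ∈ S, f i x) x₀ := by
    have := Finset.analyticAt_fun_sum (𝕜 := ℂ) (f := f) (c := x₀) S (fun i hi => hS i hi)
    exact this
  have hsumg : ∀ x ∈ U, Summable (fun i => g i x) := fun x hx =>
    Summable.of_norm_bounded hu (fun i => hg i x hx)
  have hsumf : ∀ x ∈ U, Summable (fun i => f i x) := by
    intro x hx
    have hfin : Summable (fun i => if i ∈ S then f i x else 0) :=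
      summable_of_ne_finset_zero (s := S) (fun i hi => by simp [hi])
    refine ((hsumg x hx).add hfin).congr fun i => ?_
    by_cases hi : i ∈ S <;> simp [g, hi]
  constructor
  · have h4 : (fun x => ∑' i, f i x) =ᶠ[𝓝 x₀] fun x => ∑ i ∈ S, f i x + ∑' i, g i x := by
      filter_upwards [hUo.mem_nhds hxU] with x hx
      have hfin : Summable (fun i => if i ∈ S then f i x else 0) :=
        summable_of_ne_finset_zero (s := S) (fun i hi => by simp [hi])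
      have e1 : ∑' i, (if i ∈ S then f i x else 0) = ∑ i ∈ S, f i x := by
        rw [tsum_eq_sum (s := S) (fun i hi => by simp [hi])]
        exact Finset.sum_congr rfl (fun i hi => by simp [hi])
      rw [← e1, ← hfin.tsum_add (hsumg x hx)]
      refine tsum_congr fun i => ?_
      by_cases hi : i ∈ S <;> simp [g, hi]
    exact (h3.add h2).congr h4.symm
  · filter_upwards [hUo.mem_nhds hxU] with x hx
    exact hsumf x hx

/-- the common set-up for the lattice sums -/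
lemma exists_setup {z τ : ℂ → ℂ} {x₀ : ℂ} (hz : AnalyticAt ℂ z x₀) (hτ : AnalyticAt ℂ τ x₀)
    (him : 0 < (τ x₀).im) : ∃ (R c : ℝ) (S : Finset (ℤ × ℤ)), 0 < R ∧ 0 < c ∧ (0, 0) ∈ S ∧
      ∀ᶠ x in 𝓝 x₀, DifferentiableAt ℂ z x ∧ DifferentiableAt ℂ τ x ∧ 0 < (τ x).im ∧ ‖z x‖ ≤ R ∧
        (∀ q, c * nr q ≤ ‖lp 1 (τ x) q‖) ∧ ∀ q ∉ S, 0 < nr q ∧ 2 * R ≤ ‖lp 1 (τ x) q‖ := by
  obtain ⟨c, hc, hlow⟩ := exists_lower (|(τ x₀).re| + 1) ((τ x₀).im / 2) (by linarith)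
  set R : ℝ := ‖z x₀‖ + 1 with hR
  have hR0 : 0 < R := by positivity
  refine ⟨R, c, (finite_nr (2 * R / c)).toFinset, hR0, hc, ?_, ?_⟩
  · rw [Set.Finite.mem_toFinset]
    change nr 0 ≤ 2 * R / c
    rw [nr_zero]; positivity
  have e1 : ∀ᶠ x in 𝓝 x₀, ‖z x‖ < R := by
    have := hz.continuousAt.norm
    exact this.eventually_lt continuousAt_const (by rw [hR]; linarith)
  have e2 : ∀ᶠ x in 𝓝 x₀, |(τ x).re| < |(τ x₀).re| + 1 := by
    have := (Complex.continuous_re.continuousAt.comp hτ.continuousAt).abs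
    exact this.eventually_lt continuousAt_const (by simp)
  have e3 : ∀ᶠ x in 𝓝 x₀, (τ x₀).im / 2 < (τ x).im := by
    have := Complex.continuous_im.continuousAt.comp hτ.continuousAt
    exact continuousAt_const.eventually_lt this (by simp; linarith)
  have e4 := hz.eventually_analyticAt
  have e5 := hτ.eventually_analyticAt
  filter_upwards [e1, e2, e3, e4, e5] with x h1 h2 h3 h4 h5
  refine ⟨h4.differentiableAt, h5.differentiableAt, by linarith, h1.le, hlow _ h2.le h3.le, ?_⟩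
  intro q hq
  rw [Set.Finite.mem_toFinset] at hq
  have hq' : 2 * R / c < nr q := lt_of_not_ge hq
  have h6 := hlow _ h2.le h3.le q
  constructor
  · exact lt_trans (by positivity) hq'
  · rw [div_lt_iff₀ hc] at hq'
    linarith

lemma differentiableAt_lp {τ : ℂ → ℂ} {x : ℂ} (hτ : DifferentiableAt ℂ τ x) (q : ℤ × ℤ) :
    DifferentiableAt ℂ (fun y => lp 1 (τ y) q) x := by
  unfold lp
  fun_prop

lemma analyticAt_lp {τ : ℂ → ℂ} {x : ℂ} (hτ : AnalyticAt ℂ τ x) (q : ℤ × ℤ) :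
    AnalyticAt ℂ (fun y => lp 1 (τ y) q) x := by
  unfold lp
  fun_prop

lemma analytic_zt {z τ : ℂ → ℂ} {x₀ : ℂ} (hz : AnalyticAt ℂ z x₀) (hτ : AnalyticAt ℂ τ x₀)
    (him : 0 < (τ x₀).im) (hne : ∀ q, z x₀ ≠ lp 1 (τ x₀) q) :
    AnalyticAt ℂ (fun x => zt 1 (τ x) (z x)) x₀ := by
  obtain ⟨R, c, S, hR, hc, hS0, hev⟩ := exists_setup hz hτ him
  refine (analyticAt_tsum (f := fun q x => ztT 1 (τ x) (z x) q)
    (u := fun q => (10 * (R + R ^ 2) / c ^ 3) * (nr q ^ 3)⁻¹)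
    (summable_nr.mul_left _) (fun q => by have := nr_nonneg q; positivity) S ?_ ?_).1
  · intro q _
    have hl := analyticAt_lp hτ q
    have h1 : AnalyticAt ℂ (fun x => 1 / (z x - lp 1 (τ x) q)) x₀ :=
      analyticAt_const.div (hz.sub hl) (sub_ne_zero.2 (hne q))
    by_cases hq : q = (0, 0)
    · subst hq
      simp only [ztT]
      have h0 : ∀ x, lp 1 (τ x) (0, 0) = 0 := fun x => by simp [lp]
      simp only [h0] at h1 ⊢
      simpa using h1
    · have h0 := lp_ne_zero him hq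
      exact (h1.add (analyticAt_const.div hl h0)).add (hz.div (hl.pow 2) (pow_ne_zero 2 h0))
  · filter_upwards [hev] with x hx q hq
    obtain ⟨d1, d2, d3, d4, d5, d6⟩ := hx
    obtain ⟨d7, d8⟩ := d6 q hq
    have hl := differentiableAt_lp d2 q
    have hl0 : lp 1 (τ x) q ≠ 0 := norm_pos_iff.1 (by linarith)
    have hzl : z x - lp 1 (τ x) q ≠ 0 := by
      intro h
      rw [sub_eq_zero] at h
      rw [← h] at d8
      linarith
    constructor
    · exact (((differentiableAt_const _).div (d1.sub hl) hzl).add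
        ((differentiableAt_const _).div hl hl0)).add (d1.div (hl.pow 2) (pow_ne_zero 2 hl0))
    · refine (ztT_bound hR d4 d8).trans ?_
      have h1 : (c * nr q) ^ 3 ≤ ‖lp 1 (τ x) q‖ ^ 3 := by
        have := d5 q
        gcongr
      calc 10 * (R + R ^ 2) / ‖lp 1 (τ x) q‖ ^ 3 ≤ 10 * (R + R ^ 2) / (c * nr q) ^ 3 := by
            gcongr
        _ = (10 * (R + R ^ 2) / c ^ 3) * (nr q ^ 3)⁻¹ := by
            rw [mul_pow]; field_simp

lemma analytic_wp {z τ : ℂ → ℂ} {x₀ : ℂ} (hz : AnalyticAt ℂ z x₀) (hτ : AnalyticAt ℂ τ x₀)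
    (him : 0 < (τ x₀).im) (hne : ∀ q, z x₀ ≠ lp 1 (τ x₀) q) :
    AnalyticAt ℂ (fun x => wp 1 (τ x) (z x)) x₀ := by
  obtain ⟨R, c, S, hR, hc, hS0, hev⟩ := exists_setup hz hτ him
  refine (analyticAt_tsum (f := fun q x => wpT 1 (τ x) (z x) q)
    (u := fun q => (10 * (R + R ^ 2) / c ^ 3) * (nr q ^ 3)⁻¹)
    (summable_nr.mul_left _) (fun q => by have := nr_nonneg q; positivity) S ?_ ?_).1
  · intro q _
    have hl := analyticAt_lp hτ q
    have h1 : AnalyticAt ℂ (fun x => 1 / (z x - lp 1 (τ x) q) ^ 2) x₀ :=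
      analyticAt_const.div ((hz.sub hl).pow 2) (pow_ne_zero 2 (sub_ne_zero.2 (hne q)))
    by_cases hq : q = (0, 0)
    · subst hq
      simp only [wpT]
      have h0 : ∀ x, lp 1 (τ x) (0, 0) = 0 := fun x => by simp [lp]
      simp only [h0] at h1 ⊢
      simpa using h1
    · have h0 := lp_ne_zero him hq
      exact h1.sub (analyticAt_const.div (hl.pow 2) (pow_ne_zero 2 h0))
  · filter_upwards [hev] with x hx q hq
    obtain ⟨d1, d2, d3, d4, d5, d6⟩ := hx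
    obtain ⟨d7, d8⟩ := d6 q hq
    have hl := differentiableAt_lp d2 q
    have hl0 : lp 1 (τ x) q ≠ 0 := norm_pos_iff.1 (by linarith)
    have hzl : z x - lp 1 (τ x) q ≠ 0 := by
      intro h
      rw [sub_eq_zero] at h
      rw [← h] at d8
      linarith
    constructor
    · exact ((differentiableAt_const _).div ((d1.sub hl).pow 2) (pow_ne_zero 2 hzl)).sub
        ((differentiableAt_const _).div (hl.pow 2) (pow_ne_zero 2 hl0))
    · refine (wpT_bound hR d4 d8).trans ?_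
      have h1 : (c * nr q) ^ 3 ≤ ‖lp 1 (τ x) q‖ ^ 3 := by
        have := d5 q
        gcongr
      calc 10 * (R + R ^ 2) / ‖lp 1 (τ x) q‖ ^ 3 ≤ 10 * (R + R ^ 2) / (c * nr q) ^ 3 := by
            gcongr
        _ = (10 * (R + R ^ 2) / c ^ 3) * (nr q ^ 3)⁻¹ := by
            rw [mul_pow]; field_simp

end Pool.Agent.Work.MP_8da9ea_nt
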