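import Pool.Agent.Work.MP_8da9ea_nt.K2Alg

/-!
# Local branches of the solutions
-/

set_option autoImplicit false

namespace Pool.Agent.Work.MP_8da9ea_nt

open Complex Filter Topology Metric

/-- strict differentiability with prescribed partial derivative in the second variable -/
def SD (F : ℂ × ℂ → ℂ) (B : ℂ) (p : ℂ × ℂ) : Prop := ∃ A, HasStrictFDerivAt F (lf A B) p

lemma SD.of_eq {F : ℂ × ℂ → ℂ} {B B' : ℂ} {p : ℂ × ℂ} (h : SD F B p) (hB : B = B') :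
    SD F B' p := hB ▸ h

lemma SD.const (c : ℂ) (p : ℂ × ℂ) : SD (fun _ => c) 0 p := by
  refine ⟨0, ?_⟩
  have : lf 0 0 = 0 := by ext <;> simp [lf_apply]
  rw [this]
  exact hasStrictFDerivAt_const c p

lemma SD.add {F G : ℂ × ℂ → ℂ} {B B' : ℂ} {p : ℂ × ℂ} (hF : SD F B p) (hG : SD G B' p) :
    SD (fun p => F p + G p) (B + B') p := by
  obtain ⟨A, hA⟩ := hF
  obtain ⟨A', hA'⟩ := hG
  refine ⟨A + A', ?_⟩
  have := HasStrictFDerivAt.add hA hA'
  rw [lf_add] at this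
  exact this

lemma SD.mul {F G : ℂ × ℂ → ℂ} {B B' : ℂ} {p : ℂ × ℂ} (hF : SD F B p) (hG : SD G B' p) :
    SD (fun p => F p * G p) (F p * B' + B * G p) p := by
  obtain ⟨A, hA⟩ := hF
  obtain ⟨A', hA'⟩ := hG
  refine ⟨F p * A' + G p * A, ?_⟩
  have h := HasStrictFDerivAt.mul hA hA'
  rw [lf_smul, lf_smul, lf_add, mul_comm (G p) B] at h
  exact h

lemma SD.fst {g : ℂ → ℂ} {p : ℂ × ℂ} (h : AnalyticAt ℂ g p.1) : SD (fun p => g p.1) 0 p := by
  have h1 := h.hasStrictDerivAt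
  refine ⟨deriv g p.1, ?_⟩
  have h2 : HasStrictFDerivAt (fun p : ℂ × ℂ => p.1) (ContinuousLinearMap.fst ℂ ℂ ℂ) p :=
    hasStrictFDerivAt_fst
  have h3 := h1.comp_hasStrictFDerivAt p h2
  refine h3.congr_fderiv ?_
  ext <;> simp [lf_apply]

lemma sd_wp {p : ℂ × ℂ} (h : p ∈ Dom) : SD (fun p => wp 1 p.1 p.2) (wpd p.1 p.2) p :=
  ⟨_, hasStrictFDerivAt_wp h.1 h.2⟩

lemma sd_E2 {J : ℂ → ℂ} {X : ℂ × ℂ → ℂ} {B : ℂ} {p : ℂ × ℂ} (hJ : AnalyticAt ℂ J p.1)
    (hX : SD X B p) (q : Polynomial (Polynomial ℂ)) :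
    SD (fun p => E2 (J p.1) (X p) q) (E2 (J p.1) (X p) (Polynomial.derivative q) * B) p := by
  induction q using Polynomial.induction_on with
  | C a =>
    simp only [E2_C, Polynomial.derivative_C, map_zero, zero_mul]
    have : AnalyticAt ℂ (fun t => a.eval (J t)) p.1 := by
      have := hJ.aeval_polynomial a
      simpa [Polynomial.aeval_def] using this
    exact SD.fst this
  | add f g hf hg =>
    simp only [map_add, add_mul]
    exact hf.add hg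
  | monomial n a ih =>
    have e : Polynomial.C a * Polynomial.X ^ (n + 1) =
        (Polynomial.C a * Polynomial.X ^ n) * Polynomial.X := by ring
    rw [e]
    have h2 := ih.mul hX
    simp only [map_mul, E2_X, Polynomial.derivative_mul, Polynomial.derivative_X, mul_one,
      map_add] at h2 ⊢
    refine h2.of_eq ?_
    ring

/-- the defining function of the solutions -/
noncomputable def FF (q : Polynomial (Polynomial ℂ)) (p : ℂ × ℂ) : ℂ := E2 (jt p.1) (xt p.1 p.2) q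

/-- its partial derivative -/
noncomputable def FB (q : Polynomial (Polynomial ℂ)) (p : ℂ × ℂ) : ℂ :=
  E2 (jt p.1) (xt p.1 p.2) (Polynomial.derivative q) * (wpd p.1 p.2 * (gg2 p.1 / gg3 p.1))

lemma sd_xt {p : ℂ × ℂ} (h : p ∈ Dom) (h3 : gg3 p.1 ≠ 0) :
    SD (fun p => xt p.1 p.2) (wpd p.1 p.2 * (gg2 p.1 / gg3 p.1)) p := by
  have h1 : SD (fun p => gg2 p.1 / gg3 p.1) 0 p :=
    SD.fst (g := fun t => gg2 t / gg3 t) ((analytic_gg2 h.1).div (analytic_gg3 h.1) h3)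
  have h2 := (sd_wp h).mul h1
  have e : (fun p : ℂ × ℂ => wp 1 p.1 p.2 * (gg2 p.1 / gg3 p.1)) = fun p => xt p.1 p.2 := by
    funext p
    unfold xt
    rw [mul_div_assoc]
  rw [e] at h2
  exact h2.of_eq (by ring)

lemma sd_FF {p : ℂ × ℂ} (h : p ∈ Dom) (h3 : gg3 p.1 ≠ 0) (q : Polynomial (Polynomial ℂ)) :
    SD (FF q) (FB q p) p :=
  sd_E2 (analytic_jt h.1 h3) (sd_xt h h3) q

lemma SD.continuousAt {F : ℂ × ℂ → ℂ} {B : ℂ} {p : ℂ × ℂ} (h : SD F B p) : ContinuousAt F p := by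
  obtain ⟨A, hA⟩ := h
  exact hA.continuousAt

/-- `q` is good away from the zeros of `D` -/
structure Gd (q : Polynomial (Polynomial ℂ)) (D : Polynomial ℂ) : Prop where
  q0 : q ≠ 0
  lead : ∀ γ, D.eval γ ≠ 0 → q.leadingCoeff.eval γ ≠ 0
  simple : ∀ γ x, D.eval γ ≠ 0 → E2 γ x q = 0 → E2 γ x (Polynomial.derivative q) ≠ 0 ∧
    E2 γ x cub ≠ 0

/-- the good part of the upper half plane -/
def Om (D : Polynomial ℂ) : Set ℂ :=
  {τ | 0 < τ.im ∧ gg2 τ ≠ 0 ∧ gg3 τ ≠ 0 ∧ D.eval (jt τ) ≠ 0}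

variable {q : Polynomial (Polynomial ℂ)} {D : Polynomial ℂ}

lemma Om_open : IsOpen (Om D) := by
  rw [isOpen_iff_mem_nhds]
  rintro τ ⟨h0, h2, h3, hD⟩
  have a1 : AnalyticAt ℂ (fun t => D.eval (jt t)) τ := by
    have := (analytic_jt h0 h3).aeval_polynomial D
    simpa [Polynomial.aeval_def] using this
  filter_upwards [eventually_im h0, (analytic_gg2 h0).continuousAt.eventually_ne h2,
    (analytic_gg3 h0).continuousAt.eventually_ne h3, a1.continuousAt.eventually_ne hD]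
    with t t0 t2 t3 tD
  exact ⟨t0, t2, t3, tD⟩

lemma Om_sub : Om D ⊆ HH := fun _ h => h.1

lemma wpd_ne (hq : Gd q D) {τ z : ℂ} (hτ : τ ∈ Om D) (hz : z ∈ Sol q τ) : wpd τ z ≠ 0 := by
  obtain ⟨h0, h2, h3, hD⟩ := hτ
  have h := wpd_cub h0 hz.1 h2 h3
  intro hw
  rw [hw] at h
  have h1 := (hq.simple _ _ hD hz.2).2
  have h4 : gg3 τ / jt τ ≠ 0 := by
    unfold jt
    positivity
  exact mul_ne_zero h4 h1 (by rw [← h]; ring)

lemma FB_ne (hq : Gd q D) {τ z : ℂ} (hτ : τ ∈ Om D) (hz : z ∈ Sol q τ) : FB q (τ, z) ≠ 0 := by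
  have h := wpd_ne hq hτ hz
  obtain ⟨h0, h2, h3, hD⟩ := hτ
  unfold FB
  exact mul_ne_zero (hq.simple _ _ hD hz.2).1 (mul_ne_zero h (div_ne_zero h2 h3))

lemma continuousAt_FB {p : ℂ × ℂ} (h : p ∈ Dom) (h3 : gg3 p.1 ≠ 0)
    (q : Polynomial (Polynomial ℂ)) : ContinuousAt (FB q) p := by
  have h1 := (sd_E2 (analytic_jt h.1 h3) (sd_xt h h3) (Polynomial.derivative q)).continuousAt
  have h2 : ContinuousAt (fun p : ℂ × ℂ => wpd p.1 p.2) p :=
    (hasFDerivAt_wpd h.1 h.2).continuousAt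
  have h4 : ContinuousAt (fun p : ℂ × ℂ => gg2 p.1 / gg3 p.1) p :=
    (SD.fst (g := fun t => gg2 t / gg3 t)
      ((analytic_gg2 h.1).div (analytic_gg3 h.1) h3)).continuousAt
  exact h1.mul (h2.mul h4)

/-- near a solution the solutions form the graph of an analytic function -/
theorem local_branch (hq : Gd q D) {τ₀ z₀ : ℂ} (hτ : τ₀ ∈ Om D) (hz : z₀ ∈ Sol q τ₀) :
    ∃ ψ : ℂ → ℂ, AnalyticAt ℂ ψ τ₀ ∧ ψ τ₀ = z₀ ∧
      ∀ᶠ p : ℂ × ℂ in 𝓝 (τ₀, z₀), (p.2 ∈ Sol q p.1 ↔ ψ p.1 = p.2) := by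
  have hdom : (τ₀, z₀) ∈ Dom := ⟨hτ.1, hz.1⟩
  have hev : ∀ᶠ p : ℂ × ℂ in 𝓝 (τ₀, z₀), p ∈ Dom := Dom_open.mem_nhds hdom
  have hev3 : ∀ᶠ p : ℂ × ℂ in 𝓝 (τ₀, z₀), p.1 ∈ Om D :=
    (continuous_fst.tendsto (τ₀, z₀)).eventually (Om_open.mem_nhds hτ)
  classical
  set A : ℂ × ℂ → ℂ := fun p => if h : ∃ A, HasStrictFDerivAt (FF q) (lf A (FB q p)) p then h.choose
    else 0 with hA
  have hF : ∀ᶠ p in 𝓝 (τ₀, z₀), HasStrictFDerivAt (FF q) (lf (A p) (FB q p)) p := by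
    filter_upwards [hev, hev3] with p h1 h2
    have h := sd_FF h1 h2.2.2.1 q
    have h' : ∃ A, HasStrictFDerivAt (FF q) (lf A (FB q p)) p := h
    simp only [hA]
    rw [dif_pos h']
    exact h'.choose_spec
  have hB : ∀ᶠ p in 𝓝 (τ₀, z₀), FB q p ≠ 0 :=
    (continuousAt_FB hdom hτ.2.2.1 q).eventually_ne (FB_ne hq hτ hz)
  obtain ⟨ψ, h1, h2, h3⟩ := ift hF hB hz.2
  refine ⟨ψ, h1, h2, ?_⟩
  filter_upwards [h3, hev] with p hp hp2
  rw [← hp]
  exact ⟨fun h => h.2, fun h => ⟨hp2.2, h⟩⟩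

/-- no solutions near the origin -/
lemma no_sol_zero (hq : Gd q D) {τ₀ : ℂ} (hτ : τ₀ ∈ Om D) :
    ∀ᶠ p : ℂ × ℂ in 𝓝 (τ₀, 0), p.2 ∉ Sol q p.1 := by
  obtain ⟨h0, h2, h3, hD⟩ := hτ
  set d := q.natDegree with hd
  set G : ℂ × ℂ → ℂ := fun p => ∑ k ∈ Finset.range (d + 1), (q.coeff k).eval (jt p.1) *
    ((gg2 p.1 / gg3 p.1) ^ k * ((1 + p.2 ^ 2 * wpE {0} p.1 p.2) ^ k * p.2 ^ (2 * (d - k)))) with hG
  have hE : ContinuousAt (fun p : ℂ × ℂ => wpE {0} p.1 p.2) (τ₀, 0) := by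
    refine (hasFDerivAt_wpE {0} h0 (z := 0) ?_).continuousAt
    intro r hr h
    exact hr ((lp_eq_zero_iff h0 r).1 h.symm)
  have hc : ContinuousAt G (τ₀, 0) := by
    refine tendsto_finsetSum _ fun k _ => ?_
    have c1 : ContinuousAt (fun p : ℂ × ℂ => (q.coeff k).eval (jt p.1)) (τ₀, 0) := by
      have : AnalyticAt ℂ (fun t => (q.coeff k).eval (jt t)) τ₀ := by
        have := (analytic_jt h0 h3).aeval_polynomial (q.coeff k)
        simpa [Polynomial.aeval_def] using this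
      exact (SD.fst (p := (τ₀, 0)) this).continuousAt
    have c2 : ContinuousAt (fun p : ℂ × ℂ => gg2 p.1 / gg3 p.1) (τ₀, 0) :=
      (SD.fst (p := (τ₀, 0)) (g := fun t => gg2 t / gg3 t)
        ((analytic_gg2 h0).div (analytic_gg3 h0) h3)).continuousAt
    exact c1.mul ((c2.pow k).mul ((((continuousAt_const).add
      ((continuousAt_snd.pow 2).mul hE)).pow k).mul (continuousAt_snd.pow _)))
  have hval : G (τ₀, 0) ≠ 0 := by
    simp only [hG]
    rw [Finset.sum_eq_single d]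
    · simp only [Nat.sub_self, mul_zero, pow_zero, mul_one]
      refine mul_ne_zero (hq.lead _ hD) (mul_ne_zero (pow_ne_zero _ (div_ne_zero h2 h3)) ?_)
      simp
    · intro k hk hkd
      have : k < d := by
        have := Finset.mem_range.1 hk
        omega
      have : 2 * (d - k) ≠ 0 := by omega
      simp [this]
    · intro h
      exact absurd (Finset.mem_range.2 (Nat.lt_succ_self d)) h
  have him : ∀ᶠ p : ℂ × ℂ in 𝓝 (τ₀, 0), 0 < p.1.im :=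
    (continuous_fst.tendsto (τ₀, (0 : ℂ))).eventually (eventually_im h0)
  filter_upwards [hc.eventually_ne hval, him] with p hp hpim hsol
  have hz : p.2 ≠ 0 := by
    intro h
    apply hsol.1
    rw [h, mem_Lam]
    exact ⟨0, 0, by simp⟩
  apply hp
  have hE2 := hsol.2
  rw [E2_eq_sum] at hE2
  have key : G p = p.2 ^ (2 * d) * ∑ j ∈ Finset.range (q.natDegree + 1),
      (q.coeff j).eval (jt p.1) * xt p.1 p.2 ^ j := by
    simp only [hG]
    rw [Finset.mul_sum]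
    refine Finset.sum_congr rfl fun k hk => ?_
    have hk' : k ≤ d := by
      have := Finset.mem_range.1 hk
      omega
    have e1 : xt p.1 p.2 = (gg2 p.1 / gg3 p.1) * wp 1 p.1 p.2 := by
      unfold xt
      ring
    have e2 : wp 1 p.1 p.2 = (1 + p.2 ^ 2 * wpE {0} p.1 p.2) / p.2 ^ 2 := by
      rw [wp_eq_E hpim]
      field_simp
    have e3 : p.2 ^ (2 * d) = p.2 ^ (2 * k) * p.2 ^ (2 * (d - k)) := by
      rw [← pow_add]
      congr 1
      omega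
    have e4 : (1 + p.2 ^ 2 * wpE {0} p.1 p.2) ^ k =
        p.2 ^ (2 * k) * ((1 + p.2 ^ 2 * wpE {0} p.1 p.2) / p.2 ^ 2) ^ k := by
      rw [div_pow, ← pow_mul]
      field_simp
    rw [e1, e2, e3, e4, mul_pow]
    ring
  rw [key, hE2, mul_zero]

end Pool.Agent.Work.MP_8da9ea_nt
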