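import Pool.Agent.Work.MP_8da9ea_nt.Stmt4

/-!
# The inequality of the problem
-/

set_option autoImplicit false

namespace Pool.Agent.Work.MP_8da9ea_nt

/-- The inequality of Q1 for the lattice `ℤ ω₁ + ℤ ω₂` and the points `t`, `p`:
`tr.deg K(ω₁, ω₂, η₁, η₂) ≥ dim ⟨t⟩ + 4 / [k : ℚ] + 2 dim ⟨p⟩`. -/
def Q1 (ω₁ ω₂ : ℂ) {s n : ℕ} (t : Fin s → ℂ) (p : Fin n → ℂ) : Prop :=
  open Classical in
  HasTrdeg (bigField ω₁ ω₂ t p) (tDim t + (if IsCM ω₁ ω₂ then 2 else 4) + kDim2 ω₁ ω₂ p)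

end Pool.Agent.Work.MP_8da9ea_nt
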