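import Pool.Agent.Work.MP_8da9ea_nt.Bd.B06
import Pool.Agent.Work.MP_8da9ea_nt.Bd.B02

/-!
# The generic lattice theorem
-/

set_option autoImplicit false

namespace Pool.Agent.Work.MP_8da9ea_nt

open Complex Filter Topology

variable {s n : ℕ}

lemma constField_le {ω₁ τ : ℂ} (t : Fin s → ℂ) (p : Fin n → ℂ) (h1 : ω₁ ≠ 0) (hτ : 0 < τ.im) :
    constField ω₁ t p ≤ bigField ω₁ (ω₁ * τ) t p := by
  unfold constField
  rw [IntermediateField.adjoin_le_iff]
  rintro x ((((rfl | rfl) | ⟨l, rfl⟩) | ⟨l, rfl⟩) | ⟨i, rfl⟩)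
  · exact big_pi t p h1 hτ
  · exact big_o1 _ _ _ _
  · exact big_t _ _ _ _ l
  · exact big_exp _ _ _ _ l
  · exact big_p _ _ _ _ i

lemma constField_countable (ω₁ : ℂ) (t : Fin s → ℂ) (p : Fin n → ℂ) :
    Countable (constField ω₁ t p) := by
  unfold constField
  refine countable_adjoin _ ?_
  refine Set.Countable.union (Set.Countable.union (Set.Countable.union ?_ ?_) ?_) ?_
  · exact (Set.countable_singleton _).insert _
  · exact Set.countable_range _
  · exact Set.countable_range _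
  · exact Set.countable_range _

/-- the set of bad second periods in the upper half plane -/
theorem generic_upper {ω₁ : ℂ} (h1 : ω₁ ≠ 0) (t : Fin s → ℂ) (p : Fin n → ℂ) :
    ∃ C : Set ℂ, C.Countable ∧ ∀ ω₂, ω₂ ∉ C → 0 < (ω₂ / ω₁).im →
      ∀ (d : ℕ) (u : Fin d → ℂ), (∀ j, u j ∈ constField ω₁ t p) → AlgebraicIndependent ℚ u →
      ∃ x : Fin (d + 4 + 2 * (Module.finrank ℚ
          (Submodule.span ℚ (Set.range p ∪ {ω₁, ω₂})) - 2)) → ℂ,
        (∀ j, x j ∈ bigField ω₁ ω₂ t p) ∧ AlgebraicIndependent ℚ x := by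
  classical
  have ha : LinearIndependent ℚ ![ω₁] := by
    rw [linearIndependent_unique_iff]
    simpa using h1
  obtain ⟨J, hJ, hJc⟩ := exists_rel_basis ![ω₁] ha p
  have hr1 : Set.range ![ω₁] = {ω₁} := by simp
  rw [hr1] at hJc
  set z : J → ℂ := fun j => p j / ω₁ with hz
  have hzi : ∀ (m : J → ℤ) (l : ℤ), ∑ i, (m i : ℂ) * z i = l → m = 0 := by
    intro m l hml
    rw [Fintype.linearIndependent_iff] at hJ
    have h2 := hJ (Sum.elim (fun _ => -(l : ℚ)) (fun j => (m j : ℚ))) (by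
      rw [Fintype.sum_sum_type]
      simp only [Sum.elim_inl, Sum.elim_inr, Finset.univ_unique, Fin.default_eq_zero,
        Finset.sum_singleton, Matrix.cons_val_zero, Rat.smul_def]
      push_cast
      have h3 : ∑ i : J, (m i : ℂ) * p i = l * ω₁ := by
        rw [← hml, Finset.sum_mul]
        refine Finset.sum_congr rfl fun i _ => ?_
        simp only [hz]
        field_simp
      rw [h3]
      ring)
    funext j
    have h3 := h2 (Sum.inr j)
    simp only [Sum.elim_inr] at h3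
    exact_mod_cast h3
  have hcnt := constField_countable ω₁ t p
  have hE := exc_countable hzi (constField ω₁ t p)
  set E := {τ : ℂ | 0 < τ.im ∧ ((∃ i, z i ∈ Lam τ) ∨
    ¬ AlgebraicIndependent (constField ω₁ t p) (fpt τ τ z))} with hEdef
  set V := Submodule.span ℚ (Set.range p ∪ {ω₁}) with hV
  have hSfin : (Set.range p ∪ {ω₁}).Finite := (Set.finite_range p).union (Set.finite_singleton _)
  have hVc : (V : Set ℂ).Countable := by
    have h3 : Countable (Set.range p ∪ {ω₁} : Set ℂ) := hSfin.countable.to_subtype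
    have h4 : Set.range (Subtype.val : (Set.range p ∪ {ω₁} : Set ℂ) → ℂ) = Set.range p ∪ {ω₁} :=
      Subtype.range_coe
    have h5 : Countable V := by
      rw [hV, ← h4]
      infer_instance
    exact Set.countable_coe_iff.1 h5
  refine ⟨(V : Set ℂ) ∪ (fun w => w / ω₁) ⁻¹' E, ?_, ?_⟩
  · refine hVc.union (hE.preimage ?_)
    intro a b hab
    simp only at hab
    field_simp at hab
    exact hab
  intro ω₂ hω₂ him d u hu hui
  have hω₂V : ω₂ ∉ V := fun h => hω₂ (Or.inl h)
  have hω₂E : ω₂ / ω₁ ∉ E := fun h => hω₂ (Or.inr h)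
  set τ := ω₂ / ω₁ with hτ
  have hω : ω₂ = ω₁ * τ := by rw [hτ]; field_simp
  rw [hEdef] at hω₂E
  simp only [Set.mem_ofPred_eq, not_and, not_or, not_not] at hω₂E
  obtain ⟨hzL, hai⟩ := hω₂E him
  have hcard : Module.finrank ℚ (Submodule.span ℚ (Set.range p ∪ {ω₁, ω₂})) = J.card + 2 := by
    have h3 : (Set.range p ∪ {ω₁, ω₂} : Set ℂ) = insert ω₂ (Set.range p ∪ {ω₁}) := by
      ext y
      simp only [Set.mem_union, Set.mem_insert_iff, Set.mem_singleton_iff]
      tauto
    rw [h3, finrank_insert _ hSfin hω₂V, ← hJc]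
  rw [hcard]
  have hle := constField_le t p h1 him
  rw [← hω] at hle
  obtain ⟨x, hx, hxi⟩ := exists_indep_of_tower (constField ω₁ t p) (fpt τ τ z) hai u hu hui
    (bigField ω₁ ω₂ t p) hle (by
      rw [hω]
      intro j
      rcases j with j | j | j
      · fin_cases j
        · exact big_tau t p h1
        · exact big_et t p h1
        · exact big_gk4 t p h1
        · exact big_gk6 t p h1
      · exact big_wp' t p h1 j
      · exact big_zt' t p h1 j)
  have hc2 : d + Fintype.card (Fin 4 ⊕ (J ⊕ J)) = d + 4 + 2 * (J.card + 2 - 2) := by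
    simp only [Fintype.card_sum, Fintype.card_fin, Fintype.card_coe]
    omega
  rw [← hc2]
  exact ⟨x, hx, hxi⟩

/-- **Generic lattice theorem.** -/
theorem generic_lattice {ω₁ : ℂ} (h1 : ω₁ ≠ 0) (t : Fin s → ℂ) (p : Fin n → ℂ) :
    ∃ C : Set ℂ, C.Countable ∧ ∀ ω₂, ω₂ ∉ C → (ω₂ / ω₁).im ≠ 0 →
      ¬ IsCM ω₁ ω₂ ∧
      ∀ (d : ℕ) (u : Fin d → ℂ), (∀ j, u j ∈ constField ω₁ t p) → AlgebraicIndependent ℚ u →
      ∃ x : Fin (d + 4 + 2 * (Module.finrank ℚ
          (Submodule.span ℚ (Set.range p ∪ {ω₁, ω₂})) - 2)) → ℂ,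
        (∀ j, x j ∈ bigField ω₁ ω₂ t p) ∧ AlgebraicIndependent ℚ x := by
  obtain ⟨C, hC, h⟩ := generic_upper h1 t p
  have hA : {τ : ℂ | IsAlgebraic ℚ τ}.Countable := Algebraic.countable ℚ ℂ
  refine ⟨C ∪ (fun w => -w) ⁻¹' C ∪ (fun w => w / ω₁) ⁻¹' {τ : ℂ | IsAlgebraic ℚ τ}, ?_, ?_⟩
  · refine (hC.union (hC.preimage neg_injective)).union (hA.preimage ?_)
    intro a b hab
    simp only at hab
    field_simp at hab
    exact hab
  intro ω₂ hω₂ him
  simp only [Set.mem_union, Set.mem_preimage, not_or] at hω₂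
  obtain ⟨⟨hc1, hc2⟩, hc3⟩ := hω₂
  refine ⟨?_, ?_⟩
  · rintro ⟨a, b, c, ha, habc⟩
    apply hc3
    refine ⟨Polynomial.C (a : ℚ) * Polynomial.X ^ 2 + Polynomial.C (b : ℚ) * Polynomial.X +
      Polynomial.C (c : ℚ), ?_, ?_⟩
    · intro h0
      have h9 := congrArg (fun q : Polynomial ℚ => q.coeff 2) h0
      simp only [Polynomial.coeff_add, Polynomial.coeff_C_mul, Polynomial.coeff_X_pow,
        Polynomial.coeff_X, Polynomial.coeff_C, Polynomial.coeff_zero] at h9
      norm_num at h9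
      exact ha h9
    · simpa using habc
  · rcases lt_or_gt_of_ne him with hlt | hgt
    · have h2 := h (-ω₂) hc2 (by rw [neg_div]; simpa using hlt)
      intro d u hu hui
      obtain ⟨x, hx, hxi⟩ := h2 d u hu hui
      have hs : (Submodule.span ℚ (Set.range p ∪ {ω₁, -ω₂})) =
          Submodule.span ℚ (Set.range p ∪ {ω₁, ω₂}) := by
        apply le_antisymm
        · rw [Submodule.span_le]
          rintro y (⟨i, rfl⟩ | rfl | rfl)
          · exact Submodule.subset_span (Or.inl ⟨i, rfl⟩)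
          · exact Submodule.subset_span (Or.inr (Or.inl rfl))
          · exact neg_mem (Submodule.subset_span (Or.inr (Or.inr rfl)))
        · rw [Submodule.span_le]
          rintro y (⟨i, rfl⟩ | rfl | rfl)
          · exact Submodule.subset_span (Or.inl ⟨i, rfl⟩)
          · exact Submodule.subset_span (Or.inr (Or.inl rfl))
          · have := Submodule.neg_mem _ (Submodule.subset_span (R := ℚ)
              (s := Set.range p ∪ {ω₁, -y}) (Or.inr (Or.inr rfl)))
            rwa [neg_neg] at this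
      rw [← hs]
      refine ⟨x, fun j => ?_, hxi⟩
      rw [← bigField_neg]
      exact hx j
    · exact h ω₂ hc1 hgt

end Pool.Agent.Work.MP_8da9ea_nt
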