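import Pool.Agent.Work.MP_8da9ea_nt.LocSol

/-!
# The family of germs attached to a linear form
-/

set_option autoImplicit false

namespace Pool.Agent.Work.MP_8da9ea_nt

open Complex Filter Topology Metric

variable {ι : Type*} [Fintype ι] {q : ι → Polynomial (Polynomial ℂ)}
  {Q : Polynomial (Polynomial ℂ)} {c : ι → ℂ} {D : Polynomial ℂ}

/-- the combination attached to `ρ` -/
noncomputable def vf (ρ : ℂ →ₗ[ℚ] ℚ) (c : ι → ℂ) (Z : ι → ℂ → ℂ) (w : ℂ × ℂ) (t : ℂ) : ℂ :=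
  ∑ i, (ρ (c i) : ℂ) * Z i t - (ρ w.1 : ℂ) - (ρ w.2 : ℂ) * t

/-- the family of germs -/
def AA (q : ι → Polynomial (Polynomial ℂ)) (Q : Polynomial (Polynomial ℂ)) (c : ι → ℂ)
    (ρ : ℂ →ₗ[ℚ] ℚ) (τ : ℂ) : Set ((𝓝 τ).Germ ℂ) :=
  {g | ∃ (Z : ι → ℂ → ℂ) (w : ℂ × ℂ), LS q Q c τ Z w ∧ g = ((vf ρ c Z w : ℂ → ℂ) : (𝓝 τ).Germ ℂ)}

lemma rho_mul_int (ρ : ℂ →ₗ[ℚ] ℚ) (x : ℂ) (m : ℤ) : ρ (x * m) = ρ x * m := by
  have h : x * (m : ℂ) = (m : ℤ) • x := by rw [zsmul_eq_mul, mul_comm]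
  rw [h, map_zsmul, zsmul_eq_mul, mul_comm]

lemma vf_shift (ρ : ℂ →ₗ[ℚ] ℚ) (Z : ι → ℂ → ℂ) (w : ℂ × ℂ) (m n : ι → ℤ) :
    vf ρ c (fun i t => Z i t + (m i + n i * t))
      (w.1 + ∑ i, c i * m i, w.2 + ∑ i, c i * n i) = vf ρ c Z w := by
  funext t
  unfold vf
  simp only [map_add, map_sum, rho_mul_int, Rat.cast_add, Rat.cast_sum, Rat.cast_mul,
    Rat.cast_intCast, mul_add, Finset.sum_add_distrib, add_mul, Finset.sum_mul]
  have : ∀ i, (ρ (c i) : ℂ) * ((n i : ℂ) * t) = (ρ (c i) : ℂ) * n i * t := fun i => by ring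
  simp only [this]
  ring

lemma LS.shift {τ : ℂ} (hτ : 0 < τ.im) {Z : ι → ℂ → ℂ} {w : ℂ × ℂ} (h : LS q Q c τ Z w)
    (m n : ι → ℤ) : LS q Q c τ (fun i t => Z i t + (m i + n i * t))
      (w.1 + ∑ i, c i * m i, w.2 + ∑ i, c i * n i) := by
  refine ⟨fun i => ?_, fun i => ?_, ?_⟩
  · exact (h.an i).add (analyticAt_const.add (analyticAt_const.mul analyticAt_id))
  · filter_upwards [h.sol i, eventually_im hτ] with t t1 t2
    rw [Sol_add t2]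
    exact t1
  · filter_upwards [h.rel] with t ht
    unfold RF at ht ⊢
    have e : ∑ i, c i * (Z i t + (m i + n i * t)) - (w.1 + ∑ i, c i * m i) -
        (w.2 + ∑ i, c i * n i) * t = ∑ i, c i * Z i t - w.1 - w.2 * t := by
      simp only [mul_add, Finset.sum_add_distrib, add_mul, Finset.sum_mul]
      have : ∀ i, c i * ((n i : ℂ) * t) = c i * n i * t := fun i => by ring
      simp only [this]
      ring
    simp only
    rw [e]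
    exact ht

lemma floor_coord {τ : ℂ} (hτ : 0 < τ.im) (z : ℂ) :
    (0 ≤ xa τ (z + (((-⌊xa τ z⌋ : ℤ) : ℂ) + ((-⌊ya τ z⌋ : ℤ) : ℂ) * τ)) ∧
      xa τ (z + (((-⌊xa τ z⌋ : ℤ) : ℂ) + ((-⌊ya τ z⌋ : ℤ) : ℂ) * τ)) < 1) ∧
    (0 ≤ ya τ (z + (((-⌊xa τ z⌋ : ℤ) : ℂ) + ((-⌊ya τ z⌋ : ℤ) : ℂ) * τ)) ∧
      ya τ (z + (((-⌊xa τ z⌋ : ℤ) : ℂ) + ((-⌊ya τ z⌋ : ℤ) : ℂ) * τ)) < 1) := by
  rw [xa_add hτ, ya_add hτ]
  have h1 := Int.floor_le (xa τ z)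
  have h2 := Int.lt_floor_add_one (xa τ z)
  have h3 := Int.floor_le (ya τ z)
  have h4 := Int.lt_floor_add_one (ya τ z)
  push_cast
  refine ⟨⟨by linarith, by linarith⟩, ⟨by linarith, by linarith⟩⟩

lemma vf_congr {ρ : ℂ →ₗ[ℚ] ℚ} {Z Z' : ι → ℂ → ℂ} {w : ℂ × ℂ} {τ : ℂ}
    (h : ∀ i, Z i =ᶠ[𝓝 τ] Z' i) : vf ρ c Z w =ᶠ[𝓝 τ] vf ρ c Z' w := by
  have hall : ∀ᶠ t in 𝓝 τ, ∀ i, Z i t = Z' i t := eventually_all.2 h
  filter_upwards [hall] with t ht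
  unfold vf
  simp only [ht]

lemma analyticAt_vf {ρ : ℂ →ₗ[ℚ] ℚ} {Z : ι → ℂ → ℂ} {w : ℂ × ℂ} {t : ℂ}
    (hZ : ∀ i, AnalyticAt ℂ (Z i) t) : AnalyticAt ℂ (vf ρ c Z w) t := by
  unfold vf
  refine AnalyticAt.sub (AnalyticAt.sub ?_ analyticAt_const) (analyticAt_const.mul analyticAt_id)
  exact Finset.analyticAt_fun_sum _ fun i _ => analyticAt_const.mul (hZ i)

theorem AA_fam (hq : Gds q Q D) (ρ : ℂ →ₗ[ℚ] ℚ) : Fam (Om D) (AA q Q c ρ) := by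
  constructor
  · intro τ hτ
    obtain ⟨F, hF, h⟩ := LS.fin (c := c) hq hτ 1
    refine (hF.image fun p => ((vf ρ c p.1 p.2 : ℂ → ℂ) : (𝓝 τ).Germ ℂ)).subset ?_
    rintro g ⟨Z, w, hLS, rfl⟩
    set m : ι → ℤ := fun i => -⌊xa τ (Z i τ)⌋ with hm
    set n : ι → ℤ := fun i => -⌊ya τ (Z i τ)⌋ with hn
    have h1 := hLS.shift hτ.1 m n
    obtain ⟨Z', h2, h3⟩ := h _ _ h1 (by
      intro i
      have h4 := floor_coord hτ.1 (Z i τ)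
      obtain ⟨⟨a1, a2⟩, ⟨a3, a4⟩⟩ := h4
      refine ⟨?_, ?_⟩
      · rw [abs_le]; exact ⟨by linarith, a2.le⟩
      · rw [abs_le]; exact ⟨by linarith, a4.le⟩)
    refine ⟨_, h2, ?_⟩
    simp only
    rw [germ_eq_iff]
    refine (vf_congr h3).trans ?_
    rw [vf_shift]
  · intro τ hτ
    obtain ⟨r, hr, hsub, h⟩ := LS.ext (c := c) hq hτ
    refine ⟨r, hr, hsub, ?_⟩
    rintro τ₁ hτ₁ g ⟨Z, w, hLS, rfl⟩
    obtain ⟨Z', h1, h2, h3⟩ := h τ₁ hτ₁ Z w hLS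
    refine ⟨vf ρ c Z' w, fun t ht => analyticAt_vf fun i => h1 i t ht,
      germ_eq_iff.2 (vf_congr h2), fun t ht => ⟨Z', w, h3 t ht, rfl⟩⟩

lemma LS.T {τ : ℂ} {Z : ι → ℂ → ℂ} {w : ℂ × ℂ} (h : LS q Q c τ Z w) :
    LS q Q c (τ + 1) (fun i t => Z i (t - 1)) (w.1 - w.2, w.2) := by
  have hc : Tendsto (fun t : ℂ => t - 1) (𝓝 (τ + 1)) (𝓝 τ) := by
    have h1 : ContinuousAt (fun t : ℂ => t - 1) (τ + 1) := by fun_prop
    have h2 := h1.tendsto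
    rwa [add_sub_cancel_right] at h2
  refine ⟨fun i => ?_, fun i => ?_, ?_⟩
  · have h1 : AnalyticAt ℂ (fun t : ℂ => t - 1) (τ + 1) := analyticAt_id.sub analyticAt_const
    refine AnalyticAt.fun_comp (g := Z i) (f := fun t : ℂ => t - 1) ?_ h1
    rw [add_sub_cancel_right]
    exact h.an i
  · filter_upwards [hc.eventually (h.sol i)] with t ht
    rw [← Sol_T, sub_add_cancel] at ht
    exact ht
  · filter_upwards [hc.eventually h.rel] with t ht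
    unfold RF at ht ⊢
    have e1 : jt (t - 1) = jt t := by rw [← jt_T, sub_add_cancel]
    have e2 : gg2 (t - 1) = gg2 t := by rw [← gg2_T, sub_add_cancel]
    have e3 : gg3 (t - 1) = gg3 t := by rw [← gg3_T, sub_add_cancel]
    rw [e1, e2, e3] at ht
    have e : ∑ i, c i * Z i (t - 1) - (w.1 - w.2) - w.2 * t =
        ∑ i, c i * Z i (t - 1) - w.1 - w.2 * (t - 1) := by ring
    simp only
    rw [e]
    exact ht

lemma LS.T' {τ : ℂ} {Z : ι → ℂ → ℂ} {w : ℂ × ℂ} (h : LS q Q c τ Z w) :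
    LS q Q c (τ - 1) (fun i t => Z i (t + 1)) (w.1 + w.2, w.2) := by
  have hc : Tendsto (fun t : ℂ => t + 1) (𝓝 (τ - 1)) (𝓝 τ) := by
    have h1 : ContinuousAt (fun t : ℂ => t + 1) (τ - 1) := by fun_prop
    have h2 := h1.tendsto
    rwa [sub_add_cancel] at h2
  refine ⟨fun i => ?_, fun i => ?_, ?_⟩
  · have h1 : AnalyticAt ℂ (fun t : ℂ => t + 1) (τ - 1) := analyticAt_id.add analyticAt_const
    refine AnalyticAt.fun_comp (g := Z i) (f := fun t : ℂ => t + 1) ?_ h1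
    rw [sub_add_cancel]
    exact h.an i
  · filter_upwards [hc.eventually (h.sol i)] with t ht
    rw [Sol_T] at ht
    exact ht
  · filter_upwards [hc.eventually h.rel] with t ht
    unfold RF at ht ⊢
    rw [jt_T, gg2_T, gg3_T] at ht
    have e : ∑ i, c i * Z i (t + 1) - (w.1 + w.2) - w.2 * t =
        ∑ i, c i * Z i (t + 1) - w.1 - w.2 * (t + 1) := by ring
    simp only
    rw [e]
    exact ht

lemma LS.S {τ : ℂ} (hτ : 0 < τ.im) {Z : ι → ℂ → ℂ} {w : ℂ × ℂ} (h : LS q Q c τ Z w) :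
    LS q Q c (-1 / τ) (fun i t => t * Z i (-1 / t)) (-w.2, w.1) := by
  have hτ0 : τ ≠ 0 := ne_zero_of_im hτ
  have hτ' : -1 / τ ≠ 0 := ne_zero_of_im (inv_im hτ)
  have hinv : -1 / (-1 / τ) = τ := by field_simp
  have han : AnalyticAt ℂ (fun t : ℂ => -1 / t) (-1 / τ) := analyticAt_const.div analyticAt_id hτ'
  have hc : Tendsto (fun t : ℂ => -1 / t) (𝓝 (-1 / τ)) (𝓝 τ) := by
    have h2 := han.continuousAt.tendsto
    rwa [hinv] at h2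
  have hne : ∀ᶠ t : ℂ in 𝓝 (-1 / τ), t ≠ 0 := isOpen_ne.mem_nhds hτ'
  refine ⟨fun i => ?_, fun i => ?_, ?_⟩
  · refine analyticAt_id.mul ?_
    refine AnalyticAt.fun_comp (g := Z i) (f := fun t : ℂ => -1 / t) ?_ han
    rw [hinv]
    exact h.an i
  · filter_upwards [hc.eventually (h.sol i), hne] with t ht ht0
    rw [Sol_S ht0] at ht
    exact ht
  · filter_upwards [hc.eventually h.rel, hc.eventually (eventually_im hτ), hne] with t ht him ht0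
    unfold RF at ht ⊢
    rw [jt_S ht0, gg2_S ht0, gg3_S ht0] at ht
    have e : (∑ i, c i * (t * Z i (-1 / t)) - -w.2 - w.1 * t) ^ 2 * gg3 t / gg2 t =
        (∑ i, c i * Z i (-1 / t) - w.1 - w.2 * (-1 / t)) ^ 2 * (t ^ 6 * gg3 t) /
          (t ^ 4 * gg2 t) := by
      have e1 : ∑ i, c i * (t * Z i (-1 / t)) = t * ∑ i, c i * Z i (-1 / t) := by
        rw [Finset.mul_sum]
        exact Finset.sum_congr rfl fun i _ => by ring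
      rw [e1]
      by_cases h2 : gg2 t = 0
      · simp [h2]
      · field_simp
        ring
    simp only
    rw [e]
    exact ht

lemma AA_T (ρ : ℂ →ₗ[ℚ] ℚ) (τ τ' : ℂ) (hτ' : τ' = τ + 1) (φ : ℂ → ℂ)
    (h : (φ : (𝓝 τ).Germ ℂ) ∈ AA q Q c ρ τ) :
    ((fun t => φ (t - 1) : ℂ → ℂ) : (𝓝 τ').Germ ℂ) ∈ AA q Q c ρ τ' := by
  subst hτ'
  obtain ⟨Z, w, hLS, hg⟩ := h
  refine ⟨_, _, hLS.T, ?_⟩
  rw [germ_eq_iff] at hg ⊢
  have hc : Tendsto (fun t : ℂ => t - 1) (𝓝 (τ + 1)) (𝓝 τ) := by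
    have h1 : ContinuousAt (fun t : ℂ => t - 1) (τ + 1) := by fun_prop
    have h2 := h1.tendsto
    rwa [add_sub_cancel_right] at h2
  filter_upwards [hc.eventually hg] with t ht
  rw [ht]
  unfold vf
  simp only [map_sub, Rat.cast_sub]
  ring

lemma AA_T' (ρ : ℂ →ₗ[ℚ] ℚ) (τ τ' : ℂ) (hτ' : τ' = τ - 1) (φ : ℂ → ℂ)
    (h : (φ : (𝓝 τ).Germ ℂ) ∈ AA q Q c ρ τ) :
    ((fun t => φ (t + 1) : ℂ → ℂ) : (𝓝 τ').Germ ℂ) ∈ AA q Q c ρ τ' := by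
  subst hτ'
  obtain ⟨Z, w, hLS, hg⟩ := h
  refine ⟨_, _, hLS.T', ?_⟩
  rw [germ_eq_iff] at hg ⊢
  have hc : Tendsto (fun t : ℂ => t + 1) (𝓝 (τ - 1)) (𝓝 τ) := by
    have h1 : ContinuousAt (fun t : ℂ => t + 1) (τ - 1) := by fun_prop
    have h2 := h1.tendsto
    rwa [sub_add_cancel] at h2
  filter_upwards [hc.eventually hg] with t ht
  rw [ht]
  unfold vf
  simp only [map_add, Rat.cast_add]
  ring

lemma AA_S (ρ : ℂ →ₗ[ℚ] ℚ) (τ : ℂ) (hτ : 0 < τ.im) (τ' : ℂ) (hτ' : τ' = -1 / τ) (φ : ℂ → ℂ)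
    (h : (φ : (𝓝 τ).Germ ℂ) ∈ AA q Q c ρ τ) :
    ((fun t => t * φ (-1 / t) : ℂ → ℂ) : (𝓝 τ').Germ ℂ) ∈ AA q Q c ρ τ' := by
  subst hτ'
  obtain ⟨Z, w, hLS, hg⟩ := h
  refine ⟨_, _, hLS.S hτ, ?_⟩
  rw [germ_eq_iff] at hg ⊢
  have hτ0 : τ ≠ 0 := ne_zero_of_im hτ
  have hτ' : -1 / τ ≠ 0 := ne_zero_of_im (inv_im hτ)
  have hinv : -1 / (-1 / τ) = τ := by field_simp
  have hc : Tendsto (fun t : ℂ => -1 / t) (𝓝 (-1 / τ)) (𝓝 τ) := by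
    have h1 : ContinuousAt (fun t : ℂ => -1 / t) (-1 / τ) := continuousAt_const.div continuousAt_id hτ'
    have h2 := h1.tendsto
    rwa [hinv] at h2
  have hne : ∀ᶠ t : ℂ in 𝓝 (-1 / τ), t ≠ 0 := isOpen_ne.mem_nhds hτ'
  filter_upwards [hc.eventually hg, hne] with t ht ht0
  rw [ht]
  unfold vf
  simp only [map_neg, Rat.cast_neg]
  rw [mul_sub, mul_sub, Finset.mul_sum]
  have e1 : ∀ i, t * ((ρ (c i) : ℂ) * Z i (-1 / t)) = (ρ (c i) : ℂ) * (t * Z i (-1 / t)) :=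
    fun i => by ring
  simp only [e1]
  have e2 : t * ((ρ w.2 : ℂ) * (-1 / t)) = -(ρ w.2 : ℂ) := by field_simp
  rw [e2]
  ring

end Pool.Agent.Work.MP_8da9ea_nt
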