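import Pool.Agent.Work.MP_8da9ea_nt.Bd.B09
import Pool.Agent.Work.MP_8da9ea_nt.Bd.B06

/-!
# Existence of elliptic logarithms of analytic points of the curve
-/

set_option autoImplicit false

namespace Pool.Agent.Work.MP_8da9ea_nt

open Complex Filter Topology

/-- L1 -/
theorem exists_logY {τ₁ z₁ : ℂ} (hτ : 0 < τ₁.im) (hz : z₁ ∉ Lam τ₁) (hz' : wpd τ₁ z₁ ≠ 0)
    (X Y : ℂ → ℂ) (hX : AnalyticAt ℂ X τ₁) (hY : AnalyticAt ℂ Y τ₁) (hX1 : X τ₁ = wp 1 τ₁ z₁)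
    (hY1 : Y τ₁ = wpd τ₁ z₁)
    (hXY : ∀ᶠ τ in 𝓝 τ₁, Y τ ^ 2 = 4 * X τ ^ 3 - gg2 τ * X τ - gg3 τ) :
    ∃ zz : ℂ → ℂ, AnalyticAt ℂ zz τ₁ ∧ zz τ₁ = z₁ ∧ ∀ᶠ τ in 𝓝 τ₁, zz τ ∉ Lam τ ∧
      wpd τ (zz τ) ≠ 0 ∧ wp 1 τ (zz τ) = X τ ∧ wpd τ (zz τ) = Y τ := by
  obtain ⟨z, h1, h2, h3⟩ := exists_log hτ hz hz' hX hX1.symm
  refine ⟨z, h1, h2, ?_⟩
  have h4 : AnalyticAt ℂ (fun τ => wpd τ (z τ)) τ₁ :=
    analyticAt_wpd_arc h1 hτ (by rw [h2]; exact hz)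
  have h5 : ∀ᶠ τ in 𝓝 τ₁, wpd τ (z τ) + Y τ ≠ 0 := by
    apply (h4.continuousAt.add hY.continuousAt).eventually_ne
    change wpd τ₁ (z τ₁) + Y τ₁ ≠ 0
    rw [h2, hY1]
    intro h
    apply hz'
    linear_combination (1 / 2 : ℂ) * h
  filter_upwards [h3, hXY, h5] with τ h6 h7 h8
  refine ⟨h6.2.1, h6.2.2.1, h6.2.2.2, ?_⟩
  have h9 := wpd_sq h6.1 h6.2.1
  have h10 : (wpd τ (z τ) - Y τ) * (wpd τ (z τ) + Y τ) = 0 := by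
    rw [h6.2.2.2] at h9
    linear_combination h9 - h7
  rcases mul_eq_zero.1 h10 with h | h
  · exact sub_eq_zero.1 h
  · exact absurd h h8

end Pool.Agent.Work.MP_8da9ea_nt
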