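import Pool.Agent.Work.MP_8da9ea_nt.Bd.B08

/-!
# A good defining polynomial
-/

set_option autoImplicit false

namespace Pool.Agent.Work.MP_8da9ea_nt

open Complex Filter Topology Metric

section alg

open Polynomial

variable {A : Type*} [CommRing A] [IsDomain A]

/-- clearing denominators of a polynomial -/
lemma clear_den (p : Polynomial (FractionRing A)) : ∃ (r : Polynomial A) (b : A), b ≠ 0 ∧
    r.map (algebraMap A (FractionRing A)) = b • p := by
  obtain ⟨b, hb, h⟩ := IsLocalization.integerNormalization_spec (nonZeroDivisors A) p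
  exact ⟨_, b, nonZeroDivisors.ne_zero hb, h⟩

theorem coprime_of_minimal {V : Ideal (Polynomial A)} (hV : V.IsPrime)
    (hC : ∀ a : A, a ≠ 0 → C a ∉ V) {q : Polynomial A} (hq : q ∈ V) (hq0 : q ≠ 0)
    (hmin : ∀ r ∈ V, r ≠ 0 → q.natDegree ≤ r.natDegree) {p : Polynomial A} (hp : p ∉ V) :
    ∃ (a b : Polynomial A) (D : A), D ≠ 0 ∧ a * q + b * p = C D := by
  classical
  set K := FractionRing A
  set φ := algebraMap A K with hφ
  have hinj : Function.Injective φ := IsFractionRing.injective A K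
  have hminj : Function.Injective (Polynomial.map φ) := Polynomial.map_injective φ hinj
  have hsm : ∀ (b : A) (r : Polynomial K), b • r = C (φ b) * r := by
    intro b r
    rw [← algebraMap_smul K b r, Polynomial.smul_eq_C_mul]
  have hco : IsCoprime (q.map φ) (p.map φ) := by
    by_contra hcon
    set g' := EuclideanDomain.gcd (q.map φ) (p.map φ) with hg'
    have hq'0 : q.map φ ≠ 0 := (Polynomial.map_ne_zero_iff hinj).2 hq0
    have hgu : ¬ IsUnit g' := fun h => hcon (EuclideanDomain.gcd_isUnit_iff.1 h)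
    obtain ⟨h', hh'⟩ : g' ∣ q.map φ := EuclideanDomain.gcd_dvd_left _ _
    obtain ⟨k', hk'⟩ : g' ∣ p.map φ := EuclideanDomain.gcd_dvd_right _ _
    have hg0 : g' ≠ 0 := fun h => hq'0 (by rw [hh', h, zero_mul])
    have hh0 : h' ≠ 0 := fun h => hq'0 (by rw [hh', h, mul_zero])
    have hgd : 1 ≤ g'.natDegree := by
      by_contra hlt
      have h0 : g'.natDegree = 0 := by omega
      rw [Polynomial.natDegree_eq_zero] at h0
      obtain ⟨x, hx⟩ := h0
      apply hgu
      rw [← hx]
      refine Polynomial.isUnit_C.2 (isUnit_iff_ne_zero.2 ?_)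
      rintro rfl
      rw [C_0] at hx
      exact hg0 hx.symm
    obtain ⟨g, b, hb, hg⟩ := clear_den g'
    obtain ⟨h, c, hc, hh⟩ := clear_den h'
    obtain ⟨k, d, hd, hk⟩ := clear_den k'
    rw [hsm] at hg hh hk
    have e1 : g * h = C (b * c) * q := by
      apply hminj
      rw [Polynomial.map_mul, Polynomial.map_mul, Polynomial.map_C, hg, hh, hh', map_mul, C_mul]
      ring
    have e2 : g * k = C (b * d) * p := by
      apply hminj
      rw [Polynomial.map_mul, Polynomial.map_mul, Polynomial.map_C, hg, hk, hk', map_mul, C_mul]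
      ring
    have hmem : g * h ∈ V := by
      rw [e1]
      exact V.mul_mem_left _ hq
    have hhne : h ≠ 0 := by
      intro h0
      rw [h0, Polynomial.map_zero] at hh
      have := mul_eq_zero.1 hh.symm
      rcases this with h1 | h1
      · rw [C_eq_zero] at h1
        exact hc (hinj (by rw [h1, map_zero]))
      · exact hh0 h1
    have hhdeg : h.natDegree < q.natDegree := by
      have f1 : h.natDegree = h'.natDegree := by
        rw [← Polynomial.natDegree_map_eq_of_injective hinj h, hh,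
          Polynomial.natDegree_C_mul]
        intro h1
        exact hc (hinj (by rw [h1, map_zero]))
      have f2 : q.natDegree = g'.natDegree + h'.natDegree := by
        rw [← Polynomial.natDegree_map_eq_of_injective hinj q, hh', natDegree_mul hg0 hh0]
      omega
    have hhV : h ∉ V := fun hmem => by
      have := hmin h hmem hhne
      omega
    have hgV : g ∈ V := (hV.mem_or_mem hmem).resolve_right hhV
    have h5 : C (b * d) * p ∈ V := by
      rw [← e2]
      exact V.mul_mem_right _ hgV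
    rcases hV.mem_or_mem h5 with h6 | h6
    · exact hC _ (mul_ne_zero hb hd) h6
    · exact hp h6
  obtain ⟨u, v, huv⟩ := hco
  obtain ⟨a, s, hs, ha⟩ := clear_den u
  obtain ⟨b, t, ht, hb⟩ := clear_den v
  rw [hsm] at ha hb
  refine ⟨C t * a, C s * b, s * t, mul_ne_zero hs ht, ?_⟩
  apply hminj
  rw [Polynomial.map_add, Polynomial.map_mul, Polynomial.map_mul, Polynomial.map_mul,
    Polynomial.map_mul, Polynomial.map_C, Polynomial.map_C, Polynomial.map_C, ha, hb]
  have : C (φ t) * (C (φ s) * u) * q.map φ + C (φ s) * (C (φ t) * v) * p.map φ =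
      C (φ s) * C (φ t) * (u * q.map φ + v * p.map φ) := by ring
  rw [this, huv, mul_one, map_mul, C_mul]

end alg

/-- the ideal of relations along a curve -/
noncomputable def relIdeal (U : Set ℂ) (J X : ℂ → ℂ) : Ideal (Polynomial (Polynomial ℂ)) where
  carrier := {p | ∀ τ ∈ U, E2 (J τ) (X τ) p = 0}
  add_mem' := by
    intro a b ha hb τ hτ
    rw [map_add, ha τ hτ, hb τ hτ, add_zero]
  zero_mem' := by
    intro τ _
    exact map_zero _
  smul_mem' := by
    intro c x hx τ hτ
    rw [smul_eq_mul, map_mul, hx τ hτ, mul_zero]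

lemma mem_relIdeal {U : Set ℂ} {J X : ℂ → ℂ} {p : Polynomial (Polynomial ℂ)} :
    p ∈ relIdeal U J X ↔ ∀ τ ∈ U, E2 (J τ) (X τ) p = 0 := Iff.rfl

lemma E2_C (a b : ℂ) (D : Polynomial ℂ) : E2 a b (Polynomial.C D) = D.eval a := by
  simp [E2]

lemma E2_X (a b : ℂ) : E2 a b Polynomial.X = b := by
  simp [E2]

theorem exists_good {U : Set ℂ} (hUc : IsPreconnected U) (hUn : U.Nonempty) {J X : ℂ → ℂ}
    (hJ : AnalyticOnNhd ℂ J U) (hX : AnalyticOnNhd ℂ X U)
    (hJn : ∀ D : Polynomial ℂ, D ≠ 0 → ∃ τ ∈ U, D.eval (J τ) ≠ 0)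
    {p₀ : Polynomial (Polynomial ℂ)} (h0 : p₀ ≠ 0) (h : ∀ τ ∈ U, E2 (J τ) (X τ) p₀ = 0)
    {R : Polynomial (Polynomial ℂ)} (hR : ∃ τ ∈ U, E2 (J τ) (X τ) R ≠ 0) :
    ∃ q : Polynomial (Polynomial ℂ), q ≠ 0 ∧ (∀ τ ∈ U, E2 (J τ) (X τ) q = 0) ∧
      ∃ D : Polynomial ℂ, D ≠ 0 ∧ ∀ γ : ℂ, D.eval γ ≠ 0 → q.leadingCoeff.eval γ ≠ 0 ∧
        ∀ x, E2 γ x q = 0 → E2 γ x (Polynomial.derivative q) ≠ 0 ∧ E2 γ x R ≠ 0 := by
  classical
  set V := relIdeal U J X with hVdef
  have hV : V.IsPrime := by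
    rw [Ideal.isPrime_iff]
    refine ⟨?_, ?_⟩
    · intro htop
      have h1 : (1 : Polynomial (Polynomial ℂ)) ∈ V := by rw [htop]; trivial
      obtain ⟨τ, hτ⟩ := hUn
      have := h1 τ hτ
      rw [map_one] at this
      exact one_ne_zero this
    · intro a b hab
      have h2 := (show AnalyticOnNhd ℂ (fun τ => E2 (J τ) (X τ) a) U from
        fun τ hτ => analyticAt_E2 a (hJ τ hτ) (hX τ hτ)).eq_zero_or_eq_zero_of_mul_eq_zero
        (g := fun τ => E2 (J τ) (X τ) b) (fun τ hτ => analyticAt_E2 b (hJ τ hτ) (hX τ hτ))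
        (fun τ hτ => by
          have := hab τ hτ
          rwa [map_mul] at this) hUc
      exact h2
  have hC : ∀ a : Polynomial ℂ, a ≠ 0 → Polynomial.C a ∉ V := by
    intro a ha hmem
    obtain ⟨τ, hτ, hne⟩ := hJn a ha
    have := hmem τ hτ
    rw [E2_C] at this
    exact hne this
  -- an element of minimal degree
  have hex : ∃ n : ℕ, ∃ r ∈ V, r ≠ 0 ∧ r.natDegree = n := ⟨_, p₀, h, h0, rfl⟩
  obtain ⟨q, hqV, hq0, hqn⟩ := Nat.find_spec hex
  have hmin : ∀ r ∈ V, r ≠ 0 → q.natDegree ≤ r.natDegree := by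
    intro r hr hr0
    rw [hqn]
    exact Nat.find_min' hex ⟨r, hr, hr0, rfl⟩
  have hdeg : 1 ≤ q.natDegree := by
    by_contra hlt
    have h0 : q.natDegree = 0 := by omega
    rw [Polynomial.natDegree_eq_zero] at h0
    obtain ⟨x, hx⟩ := h0
    have hx0 : x ≠ 0 := by
      rintro rfl
      exact hq0 (by rw [← hx, Polynomial.C_0])
    exact hC x hx0 (by rw [hx]; exact hqV)
  have hdq : Polynomial.derivative q ∉ V := by
    intro hmem
    have h1 : Polynomial.derivative q ≠ 0 := by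
      intro h0
      have := Polynomial.derivative_eq_zero.1 h0
      omega
    have h2 := hmin _ hmem h1
    have h3 := Polynomial.natDegree_derivative_lt (p := q) (by omega)
    omega
  have hRV : R ∉ V := by
    intro hmem
    obtain ⟨τ, hτ, hne⟩ := hR
    exact hne (hmem τ hτ)
  obtain ⟨a1, b1, D1, hD1, e1⟩ := coprime_of_minimal hV hC hqV hq0 hmin hdq
  obtain ⟨a2, b2, D2, hD2, e2⟩ := coprime_of_minimal hV hC hqV hq0 hmin hRV
  refine ⟨q, hq0, hqV, q.leadingCoeff * D1 * D2, mul_ne_zero (mul_ne_zero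
    (Polynomial.leadingCoeff_ne_zero.2 hq0) hD1) hD2, ?_⟩
  intro γ hγ
  rw [Polynomial.eval_mul, Polynomial.eval_mul] at hγ
  have g1 : q.leadingCoeff.eval γ ≠ 0 := fun h => hγ (by rw [h]; ring)
  have g2 : D1.eval γ ≠ 0 := fun h => hγ (by rw [h]; ring)
  have g3 : D2.eval γ ≠ 0 := fun h => hγ (by rw [h]; ring)
  refine ⟨g1, fun x hx => ⟨?_, ?_⟩⟩
  · intro h1
    have := congrArg (E2 γ x) e1
    rw [map_add, map_mul, map_mul, hx, h1, E2_C] at this
    apply g2
    rw [← this]
    ring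
  · intro h1
    have := congrArg (E2 γ x) e2
    rw [map_add, map_mul, map_mul, hx, h1, E2_C] at this
    apply g3
    rw [← this]
    ring

/-- the cubic polynomial `4 X ^ 3 - G X - G` -/
noncomputable def cub : Polynomial (Polynomial ℂ) :=
  4 * Polynomial.X ^ 3 - Polynomial.C Polynomial.X * Polynomial.X - Polynomial.C Polynomial.X

lemma E2_cub (a b : ℂ) : E2 a b cub = 4 * b ^ 3 - a * b - a := by
  unfold cub
  rw [map_sub, map_sub, map_mul, map_mul, map_pow, E2_X, E2_C, Polynomial.eval_X, map_ofNat]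

lemma wpd_cub {τ z : ℂ} (hτ : 0 < τ.im) (hz : z ∉ Lam τ) (h2 : gg2 τ ≠ 0) (h3 : gg3 τ ≠ 0) :
    wpd τ z ^ 2 = gg3 τ / jt τ * E2 (jt τ) (xt τ z) cub := by
  have h := wpd_sq hτ hz
  rw [h, E2_cub]
  unfold jt xt
  field_simp

end Pool.Agent.Work.MP_8da9ea_nt
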