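import Pool.Agent.Work.MP_8da9ea_nt.Bd.B07
import Pool.Agent.Work.MP_8da9ea_nt.Bd.B06

/-!
# Normalised invariants
-/

set_option autoImplicit false

namespace Pool.Agent.Work.MP_8da9ea_nt

open Complex Filter Topology Metric

/-- the invariant `g₂ ^ 3 / g₃ ^ 2` -/
noncomputable def jt (τ : ℂ) : ℂ := gg2 τ ^ 3 / gg3 τ ^ 2

/-- the normalised first coordinate -/
noncomputable def xt (τ z : ℂ) : ℂ := wp 1 τ z * gg2 τ / gg3 τ

/-- the solutions at `τ` -/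
def Sol (q : Polynomial (Polynomial ℂ)) (τ : ℂ) : Set ℂ :=
  {z | z ∉ Lam τ ∧ E2 (jt τ) (xt τ z) q = 0}

end Pool.Agent.Work.MP_8da9ea_nt
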