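import Mathlib

/-!
# Lattice functions: definitions, homogeneity, change of basis, bounds
-/

set_option autoImplicit false

namespace Pool.Agent.Work.MP_8da9ea_nt

open Complex Filter Topology

/-- The lattice point with coordinates `q` in the basis `a, b`. -/
noncomputable def lp (a b : ℂ) (q : ℤ × ℤ) : ℂ := (q.1 : ℂ) * a + (q.2 : ℂ) * b

/-- The term of the Weierstrass function. -/
noncomputable def wpT (a b z : ℂ) (q : ℤ × ℤ) : ℂ :=
  1 / (z - lp a b q) ^ 2 - 1 / (lp a b q) ^ 2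

/-- The term of the Weierstrass zeta function. -/
noncomputable def ztT (a b z : ℂ) (q : ℤ × ℤ) : ℂ :=
  1 / (z - lp a b q) + 1 / lp a b q + z / (lp a b q) ^ 2

/-- The Weierstrass function. -/
noncomputable def wp (a b z : ℂ) : ℂ := ∑' q : ℤ × ℤ, wpT a b z q

/-- The Weierstrass zeta function. -/
noncomputable def zt (a b z : ℂ) : ℂ := ∑' q : ℤ × ℤ, ztT a b z q

/-- The Eisenstein sums. -/
noncomputable def gk (k : ℕ) (a b : ℂ) : ℂ := ∑' q : ℤ × ℤ, 1 / (lp a b q) ^ k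

/-! ### homogeneity -/

lemma lp_smul (c a b : ℂ) (q : ℤ × ℤ) : lp (c * a) (c * b) q = c * lp a b q := by
  simp only [lp]; ring

lemma wp_smul {c : ℂ} (hc : c ≠ 0) (a b z : ℂ) : wp (c * a) (c * b) (c * z) = (c ^ 2)⁻¹ * wp a b z := by
  unfold wp
  rw [← tsum_mul_left]
  refine tsum_congr fun q => ?_
  simp only [wpT, lp_smul]
  rw [show c * z - c * lp a b q = c * (z - lp a b q) by ring, mul_pow, mul_pow]
  simp only [one_div, mul_inv]
  ring

lemma zt_smul {c : ℂ} (hc : c ≠ 0) (a b z : ℂ) : zt (c * a) (c * b) (c * z) = c⁻¹ * zt a b z := by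
  unfold zt
  rw [← tsum_mul_left]
  refine tsum_congr fun q => ?_
  simp only [ztT, lp_smul]
  rw [show c * z - c * lp a b q = c * (z - lp a b q) by ring, mul_pow]
  simp only [one_div, mul_inv, div_eq_mul_inv]
  have : c * z * ((c ^ 2)⁻¹ * (lp a b q ^ 2)⁻¹) = c⁻¹ * (z * (lp a b q ^ 2)⁻¹) := by
    field_simp
  rw [this]
  ring

lemma gk_smul (k : ℕ) (c a b : ℂ) : gk k (c * a) (c * b) = (c ^ k)⁻¹ * gk k a b := by
  unfold gk
  rw [← tsum_mul_left]
  refine tsum_congr fun q => ?_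
  simp only [lp_smul, mul_pow, one_div, mul_inv]

/-! ### change of basis -/

/-- the equivalence for `T` -/
def eT (d : ℤ) : ℤ × ℤ ≃ ℤ × ℤ where
  toFun q := (q.1 + q.2 * d, q.2)
  invFun q := (q.1 - q.2 * d, q.2)
  left_inv q := by ext <;> simp
  right_inv q := by ext <;> simp

/-- the equivalence for `S` -/
def eS : ℤ × ℤ ≃ ℤ × ℤ where
  toFun q := (-q.2, q.1)
  invFun q := (q.2, -q.1)
  left_inv q := by ext <;> simp
  right_inv q := by ext <;> simp

lemma lp_T (a b : ℂ) (d : ℤ) (q : ℤ × ℤ) : lp a (b + d * a) q = lp a b (eT d q) := by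
  simp only [lp, eT, Equiv.coe_fn_mk]; push_cast; ring

lemma lp_S (a b : ℂ) (q : ℤ × ℤ) : lp b (-a) q = lp a b (eS q) := by
  simp only [lp, eS, Equiv.coe_fn_mk]; push_cast; ring

lemma wp_T (a b z : ℂ) (d : ℤ) : wp a (b + d * a) z = wp a b z := by
  unfold wp
  rw [← (eT d).tsum_eq (fun q => wpT a b z q)]
  refine tsum_congr fun q => ?_
  simp only [wpT, lp_T]

lemma zt_T (a b z : ℂ) (d : ℤ) : zt a (b + d * a) z = zt a b z := by
  unfold zt
  rw [← (eT d).tsum_eq (fun q => ztT a b z q)]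
  refine tsum_congr fun q => ?_
  simp only [ztT, lp_T]

lemma gk_T (k : ℕ) (a b : ℂ) (d : ℤ) : gk k a (b + d * a) = gk k a b := by
  unfold gk
  rw [← (eT d).tsum_eq (fun q => 1 / (lp a b q) ^ k)]
  refine tsum_congr fun q => ?_
  simp only [lp_T]

lemma wp_S (a b z : ℂ) : wp b (-a) z = wp a b z := by
  unfold wp
  rw [← eS.tsum_eq (fun q => wpT a b z q)]
  refine tsum_congr fun q => ?_
  simp only [wpT, lp_S]

lemma zt_S (a b z : ℂ) : zt b (-a) z = zt a b z := by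
  unfold zt
  rw [← eS.tsum_eq (fun q => ztT a b z q)]
  refine tsum_congr fun q => ?_
  simp only [ztT, lp_S]

lemma gk_S (k : ℕ) (a b : ℂ) : gk k b (-a) = gk k a b := by
  unfold gk
  rw [← eS.tsum_eq (fun q => 1 / (lp a b q) ^ k)]
  refine tsum_congr fun q => ?_
  simp only [lp_S]

/-- the change of sign of the second basis vector -/
def eN : ℤ × ℤ ≃ ℤ × ℤ where
  toFun q := (q.1, -q.2)
  invFun q := (q.1, -q.2)
  left_inv q := by ext <;> simp
  right_inv q := by ext <;> simp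

lemma lp_N (a b : ℂ) (q : ℤ × ℤ) : lp a (-b) q = lp a b (eN q) := by
  simp only [lp, eN, Equiv.coe_fn_mk]; push_cast; ring

lemma wp_N (a b z : ℂ) : wp a (-b) z = wp a b z := by
  unfold wp
  rw [← eN.tsum_eq (fun q => wpT a b z q)]
  refine tsum_congr fun q => ?_
  simp only [wpT, lp_N]

lemma zt_N (a b z : ℂ) : zt a (-b) z = zt a b z := by
  unfold zt
  rw [← eN.tsum_eq (fun q => ztT a b z q)]
  refine tsum_congr fun q => ?_
  simp only [ztT, lp_N]

lemma gk_N (k : ℕ) (a b : ℂ) : gk k a (-b) = gk k a b := by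
  unfold gk
  rw [← eN.tsum_eq (fun q => 1 / (lp a b q) ^ k)]
  refine tsum_congr fun q => ?_
  simp only [lp_N]

/-! ### parity -/

lemma lp_neg (a b : ℂ) (q : ℤ × ℤ) : lp a b (-q) = - lp a b q := by
  simp only [lp, Prod.fst_neg, Prod.snd_neg]; push_cast; ring

lemma zt_neg (a b z : ℂ) : zt a b (-z) = - zt a b z := by
  unfold zt
  rw [← tsum_neg, ← (Equiv.neg (ℤ × ℤ)).tsum_eq (fun q => -ztT a b z q)]
  refine tsum_congr fun q => ?_
  simp only [ztT, Equiv.neg_apply, lp_neg]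
  have h1 : -z - lp a b q = -(z - -lp a b q) := by ring
  rw [h1]
  simp only [one_div, inv_neg, neg_sq, neg_div]
  ring

lemma wp_neg (a b z : ℂ) : wp a b (-z) = wp a b z := by
  unfold wp
  rw [← (Equiv.neg (ℤ × ℤ)).tsum_eq (fun q => wpT a b z q)]
  refine tsum_congr fun q => ?_
  simp only [wpT, Equiv.neg_apply, lp_neg]
  have h1 : -z - lp a b q = -(z - -lp a b q) := by ring
  rw [h1]
  simp only [neg_sq]

/-! ### normalised lattices -/

/-- transformation under `S` for `ℤ + ℤ τ` -/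
lemma wp_inv {τ : ℂ} (hτ : τ ≠ 0) (z : ℂ) : wp 1 (-1 / τ) z = τ ^ 2 * wp 1 τ (τ * z) := by
  have h := wp_smul (c := τ⁻¹) (inv_ne_zero hτ) τ (-1) (τ * z)
  rw [inv_mul_cancel₀ hτ, wp_S, ← mul_assoc, inv_mul_cancel₀ hτ, one_mul] at h
  rw [show -1 / τ = τ⁻¹ * -1 by field_simp, h]
  simp

lemma zt_inv {τ : ℂ} (hτ : τ ≠ 0) (z : ℂ) : zt 1 (-1 / τ) z = τ * zt 1 τ (τ * z) := by
  have h := zt_smul (c := τ⁻¹) (inv_ne_zero hτ) τ (-1) (τ * z)
  rw [inv_mul_cancel₀ hτ, zt_S, ← mul_assoc, inv_mul_cancel₀ hτ, one_mul] at h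
  rw [show -1 / τ = τ⁻¹ * -1 by field_simp, h]
  simp

lemma gk_inv (k : ℕ) {τ : ℂ} (hτ : τ ≠ 0) : gk k 1 (-1 / τ) = τ ^ k * gk k 1 τ := by
  have h := gk_smul k τ⁻¹ τ (-1)
  rw [inv_mul_cancel₀ hτ, gk_S] at h
  rw [show -1 / τ = τ⁻¹ * -1 by field_simp, h]
  simp

end Pool.Agent.Work.MP_8da9ea_nt
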