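import Pool.Agent.Work.MP_8da9ea_nt.Bd.B09

/-!
# Local solutions of the relation
-/

set_option autoImplicit false

namespace Pool.Agent.Work.MP_8da9ea_nt

open Complex Filter Topology Metric

variable {ι : Type*} [Fintype ι]

/-- the left-hand side of the relation for the algebraic part -/
noncomputable def RF (Q : Polynomial (Polynomial ℂ)) (c : ι → ℂ) (Z : ι → ℂ → ℂ) (w : ℂ × ℂ)
    (t : ℂ) : ℂ :=
  E2 (jt t) ((∑ i, c i * Z i t - w.1 - w.2 * t) ^ 2 * gg3 t / gg2 t) Q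

/-- local solutions at `τ` -/
structure LS (q : ι → Polynomial (Polynomial ℂ)) (Q : Polynomial (Polynomial ℂ)) (c : ι → ℂ)
    (τ : ℂ) (Z : ι → ℂ → ℂ) (w : ℂ × ℂ) : Prop where
  an : ∀ i, AnalyticAt ℂ (Z i) τ
  sol : ∀ i, ∀ᶠ t in 𝓝 τ, Z i t ∈ Sol (q i) t
  rel : ∀ᶠ t in 𝓝 τ, RF Q c Z w t = 0

/-- the data are good away from the zeros of `D` -/
structure Gds (q : ι → Polynomial (Polynomial ℂ)) (Q : Polynomial (Polynomial ℂ))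
    (D : Polynomial ℂ) : Prop where
  gd : ∀ i, Gd (q i) D
  D0 : D ≠ 0
  lead : ∀ γ, D.eval γ ≠ 0 → Q.leadingCoeff.eval γ ≠ 0

variable {q : ι → Polynomial (Polynomial ℂ)} {Q : Polynomial (Polynomial ℂ)} {c : ι → ℂ}
  {D : Polynomial ℂ}

lemma RF_congr {Z Z' : ι → ℂ → ℂ} {w : ℂ × ℂ} {t : ℂ} (h : ∀ i, Z i t = Z' i t) :
    RF Q c Z w t = RF Q c Z' w t := by
  unfold RF
  simp only [h]

lemma analyticAt_RF {Z : ι → ℂ → ℂ} {w : ℂ × ℂ} {t : ℂ} (ht : t ∈ Om D)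
    (hZ : ∀ i, AnalyticAt ℂ (Z i) t) : AnalyticAt ℂ (RF Q c Z w) t := by
  unfold RF
  refine analyticAt_E2 Q (analytic_jt ht.1 ht.2.2.1) ?_
  refine AnalyticAt.div ?_ (analytic_gg2 ht.1) ht.2.1
  refine AnalyticAt.mul ?_ (analytic_gg3 ht.1)
  refine AnalyticAt.pow ?_ 2
  refine AnalyticAt.sub (AnalyticAt.sub ?_ analyticAt_const) (analyticAt_const.mul analyticAt_id)
  exact Finset.analyticAt_fun_sum _ fun i _ => analyticAt_const.mul (hZ i)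

lemma LS.congr {τ : ℂ} {Z Z' : ι → ℂ → ℂ} {w : ℂ × ℂ} (h : LS q Q c τ Z w)
    (hZ : ∀ i, Z' i =ᶠ[𝓝 τ] Z i) : LS q Q c τ Z' w := by
  have hall : ∀ᶠ t in 𝓝 τ, ∀ i, Z' i t = Z i t := eventually_all.2 hZ
  refine ⟨fun i => (h.an i).congr (hZ i).symm, fun i => ?_, ?_⟩
  · filter_upwards [h.sol i, hZ i] with t t1 t2
    rw [t2]
    exact t1
  · filter_upwards [h.rel, hall] with t t1 t2
    rw [RF_congr t2]
    exact t1

lemma sections_ball (hq : Gds q Q D) {τ₀ : ℂ} (hτ : τ₀ ∈ Om D) :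
    ∃ r > 0, ball τ₀ r ⊆ Om D ∧ ∃ Ψ : ι → Set (ℂ → ℂ), (∀ i, (Ψ i).Finite) ∧
      ∀ t ∈ ball τ₀ r, ∀ i, (∀ ψ ∈ Ψ i, AnalyticAt ℂ ψ t ∧ ψ t ∈ Sol (q i) t) ∧
        ∀ z ∈ Sol (q i) t, ∃ ψ ∈ Ψ i, ∃ m n : ℤ, z = ψ t + (m + n * t) := by
  choose Ψ h1 h2 h3 using fun i => sections (hq.gd i) hτ
  have h40 : ∀ᶠ t in 𝓝 τ₀, t ∈ Om D := Om_open.mem_nhds hτ
  have h4 : ∀ᶠ t in 𝓝 τ₀, t ∈ Om D ∧ ∀ i, (∀ ψ ∈ Ψ i, AnalyticAt ℂ ψ t ∧ ψ t ∈ Sol (q i) t) ∧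
        ∀ z ∈ Sol (q i) t, ∃ ψ ∈ Ψ i, ∃ m n : ℤ, z = ψ t + (m + n * t) :=
    h40.and (eventually_all.2 fun i => (h2 i).and (h3 i))
  obtain ⟨r, hr, h5⟩ := Metric.eventually_nhds_iff_ball.1 h4
  exact ⟨r, hr, fun t ht => (h5 t ht).1, Ψ, h1, fun t ht => (h5 t ht).2⟩

lemma LS.ext_aux {τ₀ : ℂ} {r : ℝ} (hsub : ball τ₀ r ⊆ Om D) (hq : Gds q Q D)
    {Ψ : ι → Set (ℂ → ℂ)} (hΨ : ∀ t ∈ ball τ₀ r, ∀ i, (∀ ψ ∈ Ψ i, AnalyticAt ℂ ψ t ∧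
      ψ t ∈ Sol (q i) t) ∧ ∀ z ∈ Sol (q i) t, ∃ ψ ∈ Ψ i, ∃ m n : ℤ, z = ψ t + (m + n * t))
    {τ₁ : ℂ} (hτ₁ : τ₁ ∈ ball τ₀ r) {Z : ι → ℂ → ℂ} {w : ℂ × ℂ} (h : LS q Q c τ₁ Z w) :
    ∃ (ψ : ι → ℂ → ℂ) (m n : ι → ℤ), (∀ i, ψ i ∈ Ψ i) ∧
      (∀ i, (fun t => ψ i t + (m i + n i * t)) =ᶠ[𝓝 τ₁] Z i) ∧
      (∀ i, AnalyticOnNhd ℂ (fun t => ψ i t + (m i + n i * t)) (ball τ₀ r)) ∧
      (∀ i, ∀ t ∈ ball τ₀ r, ψ i t + (m i + n i * t) ∈ Sol (q i) t) ∧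
      (∀ t ∈ ball τ₀ r, RF Q c (fun i t => ψ i t + (m i + n i * t)) w t = 0) := by
  choose ψ hψ m n hmn using fun i => (hΨ τ₁ hτ₁ i).2 _ (h.sol i).self_of_nhds
  have han : ∀ i, AnalyticOnNhd ℂ (fun t => ψ i t + (m i + n i * t)) (ball τ₀ r) := by
    intro i t ht
    exact (((hΨ t ht i).1 _ (hψ i)).1).add
      (analyticAt_const.add (analyticAt_const.mul analyticAt_id))
  have hsol : ∀ i, ∀ t ∈ ball τ₀ r, ψ i t + (m i + n i * t) ∈ Sol (q i) t := by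
    intro i t ht
    rw [Sol_add (hsub ht).1]
    exact ((hΨ t ht i).1 _ (hψ i)).2
  have hgerm : ∀ i, (fun t => ψ i t + (m i + n i * t)) =ᶠ[𝓝 τ₁] Z i := by
    intro i
    refine germ_unique (hq.gd i) (hsub hτ₁) (han i τ₁ hτ₁).continuousAt (h.an i).continuousAt
      ?_ (h.sol i) (hmn i).symm
    filter_upwards [isOpen_ball.mem_nhds hτ₁] with t ht
    exact hsol i t ht
  refine ⟨ψ, m, n, hψ, hgerm, han, hsol, ?_⟩
  have hRF : AnalyticOnNhd ℂ (RF Q c (fun i t => ψ i t + (m i + n i * t)) w) (ball τ₀ r) :=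
    fun t ht => analyticAt_RF (hsub ht) fun i => han i t ht
  have hz : RF Q c (fun i t => ψ i t + (m i + n i * t)) w =ᶠ[𝓝 τ₁] 0 := by
    have hall : ∀ᶠ t in 𝓝 τ₁, ∀ i, ψ i t + (m i + n i * t) = Z i t := eventually_all.2 hgerm
    filter_upwards [h.rel, hall] with t t1 t2
    rw [RF_congr t2]
    exact t1
  exact hRF.eqOn_zero_of_preconnected_of_eventuallyEq_zero (convex_ball τ₀ r).isPreconnected hτ₁ hz

/-- **extension** of local solutions to a fixed ball -/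
theorem LS.ext (hq : Gds q Q D) {τ₀ : ℂ} (hτ : τ₀ ∈ Om D) :
    ∃ r > 0, ball τ₀ r ⊆ Om D ∧ ∀ τ₁ ∈ ball τ₀ r, ∀ (Z : ι → ℂ → ℂ) (w : ℂ × ℂ),
      LS q Q c τ₁ Z w → ∃ Z' : ι → ℂ → ℂ, (∀ i, AnalyticOnNhd ℂ (Z' i) (ball τ₀ r)) ∧
        (∀ i, Z' i =ᶠ[𝓝 τ₁] Z i) ∧ ∀ t ∈ ball τ₀ r, LS q Q c t Z' w := by
  obtain ⟨r, hr, hsub, Ψ, hfin, hΨ⟩ := sections_ball hq hτ
  refine ⟨r, hr, hsub, ?_⟩
  intro τ₁ hτ₁ Z w h
  obtain ⟨ψ, m, n, h1, h2, h3, h4, h5⟩ := h.ext_aux hsub hq hΨ hτ₁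
  refine ⟨fun i t => ψ i t + (m i + n i * t), h3, h2, ?_⟩
  intro t ht
  refine ⟨fun i => h3 i t ht, fun i => ?_, ?_⟩
  · filter_upwards [isOpen_ball.mem_nhds ht] with u hu
    exact h4 i u hu
  · filter_upwards [isOpen_ball.mem_nhds ht] with u hu
    exact h5 u hu

/-! ### finiteness -/

lemma roots_finite {γ : ℂ} (h : Q.leadingCoeff.eval γ ≠ 0) : {x : ℂ | E2 γ x Q = 0}.Finite := by
  set p : Polynomial ℂ := Q.map (Polynomial.evalRingHom γ) with hp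
  have hp0 : p ≠ 0 := by
    intro h0
    apply h
    have h1 : p.coeff Q.natDegree = 0 := by rw [h0, Polynomial.coeff_zero]
    rw [hp, Polynomial.coeff_map] at h1
    exact h1
  refine (p.roots.toFinset.finite_toSet).subset fun x hx => ?_
  simp only [Finset.mem_coe, Multiset.mem_toFinset]
  rw [Polynomial.mem_roots hp0, Polynomial.IsRoot.def, hp, Polynomial.eval_map,
    Polynomial.eval₂_eq_sum_range]
  have h2 : E2 γ x Q = 0 := hx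
  rw [E2_eq_sum] at h2
  exact h2

lemma val_finite {γ : ℂ} (h : Q.leadingCoeff.eval γ ≠ 0) {κ : ℂ} (hκ : κ ≠ 0) :
    {f : ℂ | E2 γ (f ^ 2 * κ) Q = 0}.Finite := by
  have h1 := roots_finite h
  have h2 : {f : ℂ | E2 γ (f ^ 2 * κ) Q = 0} ⊆ (fun f : ℂ => f ^ 2) ⁻¹' ((fun x => x * κ) ⁻¹' {x : ℂ | E2 γ x Q = 0}) :=
    fun f hf => hf
  refine Set.Finite.subset ?_ h2
  have h3 : ((fun x => x * κ) ⁻¹' {x : ℂ | E2 γ x Q = 0}).Finite :=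
    h1.preimage (mul_left_injective₀ hκ).injOn
  have h4 : (fun f : ℂ => f ^ 2) ⁻¹' ((fun x => x * κ) ⁻¹' {x : ℂ | E2 γ x Q = 0}) ⊆
      ⋃ y ∈ ((fun x => x * κ) ⁻¹' {x : ℂ | E2 γ x Q = 0}), {f : ℂ | f ^ 2 = y} := by
    intro f hf
    simp only [Set.mem_iUnion]
    exact ⟨f ^ 2, hf, rfl⟩
  refine (h3.biUnion fun y _ => ?_).subset h4
  by_cases hy : ∃ g : ℂ, g ^ 2 = y
  · obtain ⟨g, hg⟩ := hy
    refine (Set.toFinite {g, -g}).subset fun f hf => ?_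
    have : f ^ 2 = g ^ 2 := by rw [hg]; exact hf
    rcases sq_eq_sq_iff_eq_or_eq_neg.1 this with h | h
    · exact Or.inl h
    · exact Or.inr h
  · have : {f : ℂ | f ^ 2 = y} = ∅ := by
      ext f
      simp only [Set.mem_ofPred_eq, Set.mem_empty_iff_false, iff_false]
      exact fun hf => hy ⟨f, hf⟩
    rw [this]
    exact Set.finite_empty

/-- for given logarithms there are finitely many constants -/
lemma w_finite (hq : Gds q Q D) {τ₀ : ℂ} {r : ℝ} (hr : 0 < r) (hsub : ball τ₀ r ⊆ Om D)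
    (Z : ι → ℂ → ℂ) : {w : ℂ × ℂ | ∀ t ∈ ball τ₀ r, RF Q c Z w t = 0}.Finite := by
  set t₁ : ℂ := τ₀ with ht₁
  set t₂ : ℂ := τ₀ + (r / 2 : ℝ) with ht₂
  have m1 : t₁ ∈ ball τ₀ r := mem_ball_self hr
  have m2 : t₂ ∈ ball τ₀ r := by
    rw [mem_ball, dist_eq_norm, ht₂, add_sub_cancel_left, norm_real,
      Real.norm_of_nonneg (by positivity)]
    linarith
  have hne : t₂ - t₁ ≠ 0 := by
    rw [ht₂, ht₁, add_sub_cancel_left]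
    simp [hr.ne']
  have hfin : ∀ t ∈ ball τ₀ r, {f : ℂ | E2 (jt t) (f ^ 2 * (gg3 t / gg2 t)) Q = 0}.Finite := by
    intro t ht
    obtain ⟨a0, a2, a3, aD⟩ := hsub ht
    exact val_finite (hq.lead _ aD) (div_ne_zero a3 a2)
  set e : ℂ × ℂ → ℂ × ℂ := fun w => (∑ i, c i * Z i t₁ - w.1 - w.2 * t₁,
    ∑ i, c i * Z i t₂ - w.1 - w.2 * t₂) with he
  have hinj : Function.Injective e := by
    intro w w' h
    simp only [he, Prod.mk.injEq] at h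
    obtain ⟨e1, e2⟩ := h
    have e3 : (w.2 - w'.2) * (t₂ - t₁) = 0 := by linear_combination e1 - e2
    have e4 : w.2 = w'.2 := sub_eq_zero.1 ((mul_eq_zero.1 e3).resolve_right hne)
    refine Prod.ext ?_ e4
    rw [e4] at e1
    linear_combination -e1
  have h1 : {w : ℂ × ℂ | ∀ t ∈ ball τ₀ r, RF Q c Z w t = 0} ⊆ e ⁻¹'
      ({f : ℂ | E2 (jt t₁) (f ^ 2 * (gg3 t₁ / gg2 t₁)) Q = 0} ×ˢ
        {f : ℂ | E2 (jt t₂) (f ^ 2 * (gg3 t₂ / gg2 t₂)) Q = 0}) := by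
    intro w hw
    refine ⟨?_, ?_⟩
    · have := hw t₁ m1
      unfold RF at this
      rw [mul_div_assoc] at this
      exact this
    · have := hw t₂ m2
      unfold RF at this
      rw [mul_div_assoc] at this
      exact this
  exact (((hfin t₁ m1).prod (hfin t₂ m2)).preimage hinj.injOn).subset h1

lemma ya_add {τ : ℂ} (hτ : 0 < τ.im) (w : ℂ) (m n : ℤ) : ya τ (w + (m + n * τ)) = ya τ w + n := by
  unfold ya
  simp only [add_im, intCast_im, mul_im, intCast_re, zero_mul, add_zero, zero_add]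
  field_simp

lemma xa_add {τ : ℂ} (hτ : 0 < τ.im) (w : ℂ) (m n : ℤ) : xa τ (w + (m + n * τ)) = xa τ w + m := by
  have h := ya_add hτ w m n
  unfold ya at h
  unfold xa
  rw [h]
  simp only [add_re, intCast_re, mul_re, intCast_im, zero_mul, sub_zero]
  ring

theorem LS.fin (hq : Gds q Q D) {τ : ℂ} (hτ : τ ∈ Om D) (M : ℝ) :
    ∃ F : Set ((ι → ℂ → ℂ) × (ℂ × ℂ)), F.Finite ∧ ∀ (Z : ι → ℂ → ℂ) (w : ℂ × ℂ),
      LS q Q c τ Z w → (∀ i, |xa τ (Z i τ)| ≤ M ∧ |ya τ (Z i τ)| ≤ M) →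
      ∃ Z', (Z', w) ∈ F ∧ ∀ i, Z' i =ᶠ[𝓝 τ] Z i := by
  classical
  obtain ⟨r, hr, hsub, Ψ, hfin, hΨ⟩ := sections_ball hq hτ
  have hτb : τ ∈ ball τ r := mem_ball_self hr
  -- a bound for the coordinates of the sections
  have hB : ∃ B : ℝ, ∀ i, ∀ ψ ∈ Ψ i, |xa τ (ψ τ)| ≤ B ∧ |ya τ (ψ τ)| ≤ B := by
    have h1 : ∀ i, ∃ B : ℝ, ∀ ψ ∈ Ψ i, |xa τ (ψ τ)| ≤ B ∧ |ya τ (ψ τ)| ≤ B := by
      intro i
      obtain ⟨B, hB⟩ := ((hfin i).image fun ψ => max |xa τ (ψ τ)| |ya τ (ψ τ)|).bddAbove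
      refine ⟨B, fun ψ hψ => ?_⟩
      have := hB ⟨ψ, hψ, rfl⟩
      exact ⟨(le_max_left _ _).trans this, (le_max_right _ _).trans this⟩
    choose B hB using h1
    obtain ⟨B', hB'⟩ := (Set.finite_range B).bddAbove
    exact ⟨B', fun i ψ hψ => ⟨((hB i ψ hψ).1).trans (hB' ⟨i, rfl⟩),
      ((hB i ψ hψ).2).trans (hB' ⟨i, rfl⟩)⟩⟩
  obtain ⟨B, hB⟩ := hB
  set N : Set ℤ := Set.Icc (-⌈M + B⌉) ⌈M + B⌉ with hN
  have hNfin : N.Finite := Set.finite_Icc _ _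
  set Φ : ι → Set (ℂ → ℂ) := fun i => (fun p : (ℂ → ℂ) × (ℤ × ℤ) => fun t =>
    p.1 t + (p.2.1 + p.2.2 * t)) '' (Ψ i ×ˢ (N ×ˢ N)) with hΦ
  have hΦfin : ∀ i, (Φ i).Finite := fun i => ((hfin i).prod (hNfin.prod hNfin)).image _
  have hpi : (Set.univ.pi Φ).Finite := Set.Finite.pi fun i => hΦfin i
  refine ⟨⋃ φ ∈ Set.univ.pi Φ, {φ} ×ˢ {w : ℂ × ℂ | ∀ t ∈ ball τ r, RF Q c φ w t = 0}, ?_, ?_⟩
  · exact hpi.biUnion fun φ _ => (Set.finite_singleton φ).prod (w_finite hq hr hsub φ)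
  · intro Z w h hbd
    obtain ⟨ψ, m, n, h1, h2, h3, h4, h5⟩ := h.ext_aux hsub hq hΨ hτb
    refine ⟨fun i t => ψ i t + (m i + n i * t), ?_, h2⟩
    simp only [Set.mem_iUnion]
    refine ⟨fun i t => ψ i t + (m i + n i * t), ?_, ?_⟩
    · intro i _
      have hval : ψ i τ + (m i + n i * τ) = Z i τ := (h2 i).self_of_nhds
      obtain ⟨b1, b2⟩ := hbd i
      obtain ⟨b3, b4⟩ := hB i _ (h1 i)
      rw [← hval, xa_add hτ.1] at b1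
      rw [← hval, ya_add hτ.1] at b2
      have hm : |(m i : ℝ)| ≤ M + B := by
        have : (m i : ℝ) = (xa τ (ψ i τ) + m i) - xa τ (ψ i τ) := by ring
        rw [this]
        exact (abs_sub _ _).trans (add_le_add b1 b3)
      have hn : |(n i : ℝ)| ≤ M + B := by
        have : (n i : ℝ) = (ya τ (ψ i τ) + n i) - ya τ (ψ i τ) := by ring
        rw [this]
        exact (abs_sub _ _).trans (add_le_add b2 b4)
      have hint : ∀ k : ℤ, |(k : ℝ)| ≤ M + B → k ∈ N := by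
        intro k hk
        have h6 := hk.trans (Int.le_ceil (M + B))
        rw [abs_le] at h6
        obtain ⟨h7, h8⟩ := h6
        refine ⟨?_, ?_⟩
        · have : ((-⌈M + B⌉ : ℤ) : ℝ) ≤ k := by push_cast; exact h7
          exact_mod_cast this
        · exact_mod_cast h8
      exact ⟨(ψ i, (m i, n i)), ⟨h1 i, hint _ hm, hint _ hn⟩, rfl⟩
    · exact ⟨rfl, h5⟩

end Pool.Agent.Work.MP_8da9ea_nt
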