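import Pool.Agent.Work.MP_8da9ea_nt.Bd.B06

/-!
# Finite families of germs of negative weight vanish
-/

set_option autoImplicit false

namespace Pool.Agent.Work.MP_8da9ea_nt

open Complex Filter Topology Metric

/-! ### a maximum principle at the cusp -/

lemma cusp_max {D : ℂ → ℂ} {T T1 a M K : ℝ} (hper : Function.Periodic D ((1 : ℝ) : ℂ))
    (hd : ∀ τ : ℂ, T < τ.im → DifferentiableAt ℂ D τ) (ha : a < 2 * Real.pi)
    (hgrow : ∀ τ : ℂ, T < τ.im → ‖D τ‖ ≤ M * Real.exp (a * τ.im)) (hT1 : T < T1)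
    (hK : ∀ τ : ℂ, τ.im = T1 → ‖D τ‖ ≤ K) : ∀ τ : ℂ, T1 ≤ τ.im → ‖D τ‖ ≤ K := by
  set G : ℂ → ℂ := fun τ => exp (2 * Real.pi * I * τ) * D τ with hG
  have hGper : Function.Periodic G ((1 : ℝ) : ℂ) := by
    intro τ
    simp only [hG]
    rw [hper τ, ofReal_one, mul_add, exp_add, mul_one, exp_two_pi_mul_I, mul_one]
  have hev : ∀ {P : ℂ → Prop}, (∀ τ : ℂ, T < τ.im → P τ) →
      ∀ᶠ τ in Filter.comap Complex.im atTop, P τ := by
    intro P hP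
    exact ((eventually_gt_atTop T).comap Complex.im).mono fun τ hτ => hP τ hτ
  have hGd : ∀ τ : ℂ, T < τ.im → DifferentiableAt ℂ G τ := by
    intro τ hτ
    have := hd τ hτ
    simp only [hG]
    fun_prop
  have hnormG : ∀ τ : ℂ, ‖G τ‖ = Real.exp (-(2 * Real.pi * τ.im)) * ‖D τ‖ := by
    intro τ
    simp only [hG]
    rw [norm_mul, norm_exp]
    congr 2
    simp [mul_assoc]
  have hGb : ∀ τ : ℂ, T < τ.im → ‖G τ‖ ≤ M * Real.exp (-((2 * Real.pi - a) * τ.im)) := by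
    intro τ hτ
    rw [hnormG]
    calc _ ≤ Real.exp (-(2 * Real.pi * τ.im)) * (M * Real.exp (a * τ.im)) := by
          gcongr
          exact hgrow τ hτ
      _ = M * (Real.exp (-(2 * Real.pi * τ.im)) * Real.exp (a * τ.im)) := by ring
      _ = M * Real.exp (-((2 * Real.pi - a) * τ.im)) := by
          rw [← Real.exp_add]
          congr 2
          ring
  have hzero : ZeroAtFilter (Filter.comap Complex.im atTop) G := by
    unfold ZeroAtFilter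
    rw [tendsto_zero_iff_norm_tendsto_zero]
    have h1 : Tendsto (fun y : ℝ => M * Real.exp (-((2 * Real.pi - a) * y))) atTop (𝓝 0) := by
      have h2 : Tendsto (fun y : ℝ => -((2 * Real.pi - a) * y)) atTop atBot :=
        tendsto_neg_atTop_atBot.comp (tendsto_id.const_mul_atTop (by linarith))
      have h3 := (Real.tendsto_exp_atBot.comp h2).const_mul M
      rw [mul_zero] at h3
      exact h3
    have h2 := h1.comp (tendsto_comap (f := Complex.im) (x := atTop))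
    exact squeeze_zero' (Eventually.of_forall fun _ => norm_nonneg _) (hev hGb) h2
  have hdec := Function.Periodic.exp_decay_of_zero_at_inf one_pos hGper (hev hGd) hzero
  have hDb : BoundedAtFilter (Filter.comap Complex.im atTop) D := by
    obtain ⟨C, hC⟩ := hdec.bound
    unfold BoundedAtFilter
    rw [Asymptotics.isBigO_iff]
    refine ⟨C, ?_⟩
    filter_upwards [hC] with τ hτ
    rw [hnormG, Real.norm_of_nonneg (Real.exp_nonneg _)] at hτ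
    have h1 : -2 * Real.pi * τ.im / 1 = -(2 * Real.pi * τ.im) := by ring
    rw [h1] at hτ
    simp only [Pi.one_apply, norm_one, mul_one]
    have h2 := Real.exp_pos (-(2 * Real.pi * τ.im))
    rw [mul_comm] at hτ
    exact le_of_mul_le_mul_right hτ h2
  set d : ℂ → ℂ := Function.Periodic.cuspFunction 1 D with hdd
  have hd0 : DifferentiableAt ℂ d 0 :=
    Function.Periodic.differentiableAt_cuspFunction_zero one_pos hper (hev hd) hDb
  have him : ∀ q : ℂ, q ≠ 0 → (Function.Periodic.invQParam 1 q).im =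
      -Real.log ‖q‖ / (2 * Real.pi) := by
    intro q _
    rw [Function.Periodic.im_invQParam]
    ring
  set r : ℝ := Real.exp (-(2 * Real.pi * T1)) with hr
  have hr0 : 0 < r := Real.exp_pos _
  have hpi := Real.pi_pos
  have himT : ∀ q : ℂ, q ≠ 0 → ‖q‖ ≤ r → T1 ≤ (Function.Periodic.invQParam 1 q).im := by
    intro q hq hqr
    rw [him q hq, le_div_iff₀ (by positivity)]
    have h1 := Real.log_le_log (norm_pos_iff.2 hq) hqr
    rw [hr, Real.log_exp] at h1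
    linarith
  have hdq : ∀ q : ℂ, q ≠ 0 → ‖q‖ ≤ r → DifferentiableAt ℂ d q := by
    intro q hq hqr
    have h1 := hd _ (hT1.trans_le (himT q hq hqr))
    have h2 := Function.Periodic.differentiableAt_cuspFunction one_ne_zero hper h1
    rwa [Function.Periodic.qParam_right_inv one_ne_zero hq] at h2
  have hdall : ∀ q : ℂ, ‖q‖ ≤ r → DifferentiableAt ℂ d q := by
    intro q hqr
    by_cases hq : q = 0
    · rw [hq]; exact hd0
    · exact hdq q hq hqr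
  have hmax : ∀ q : ℂ, ‖q‖ ≤ r → ‖d q‖ ≤ K := by
    intro q hq
    refine Complex.norm_le_of_forall_mem_frontier_norm_le (U := ball 0 r) isBounded_ball ?_ ?_ ?_
    · refine ⟨fun w hw => ?_, fun w hw => ?_⟩
      · exact (hdall w (mem_ball_zero_iff.1 hw).le).differentiableWithinAt
      · rw [closure_ball _ hr0.ne', mem_closedBall_zero_iff] at hw
        exact (hdall w hw).continuousAt.continuousWithinAt
    · intro w hw
      rw [frontier_ball _ hr0.ne', mem_sphere_zero_iff_norm] at hw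
      have hw0 : w ≠ 0 := by
        rw [← norm_pos_iff, hw]
        exact hr0
      rw [hdd, Function.Periodic.cuspFunction_eq_of_nonzero _ _ hw0]
      apply hK
      rw [him w hw0, hw, hr, Real.log_exp]
      field_simp
    · rw [closure_ball _ hr0.ne', mem_closedBall_zero_iff]
      exact hq
  intro τ hτ
  have h1 := Function.Periodic.eq_cuspFunction one_ne_zero hper τ
  rw [← h1]
  apply hmax
  rw [Function.Periodic.norm_qParam, hr]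
  apply Real.exp_le_exp.2
  rw [div_one]
  nlinarith

/-! ### germ families -/

/-- A locally constant family of finite sets of germs on `Ω`. -/
structure Fam (Ω : Set ℂ) (A : (τ : ℂ) → Set ((𝓝 τ).Germ ℂ)) : Prop where
  fin : ∀ τ ∈ Ω, (A τ).Finite
  loc : ∀ τ₀ ∈ Ω, ∃ r > 0, ball τ₀ r ⊆ Ω ∧ ∀ τ₁ ∈ ball τ₀ r, ∀ g ∈ A τ₁, ∃ φ : ℂ → ℂ,
    AnalyticOnNhd ℂ φ (ball τ₀ r) ∧ (φ : (𝓝 τ₁).Germ ℂ) = g ∧
      ∀ τ ∈ ball τ₀ r, (φ : (𝓝 τ).Germ ℂ) ∈ A τ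

/-- sums over the values of the germs -/
noncomputable def Sm {E : Type*} [AddCommMonoid E] (A : (τ : ℂ) → Set ((𝓝 τ).Germ ℂ)) (ψ : ℂ → E)
    (τ : ℂ) : E := ∑ᶠ g ∈ A τ, ψ (Germ.value g)

lemma germ_eq_iff {τ : ℂ} {φ φ' : ℂ → ℂ} :
    ((φ : (𝓝 τ).Germ ℂ) = φ') ↔ φ =ᶠ[𝓝 τ] φ' := Germ.coe_eq

lemma eqOn_of_germ {τ₀ τ : ℂ} {r : ℝ} {φ φ' : ℂ → ℂ} (h1 : AnalyticOnNhd ℂ φ (ball τ₀ r))
    (h2 : AnalyticOnNhd ℂ φ' (ball τ₀ r)) (hτ : τ ∈ ball τ₀ r) (h : φ =ᶠ[𝓝 τ] φ') :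
    Set.EqOn φ φ' (ball τ₀ r) :=
  h1.eqOn_of_preconnected_of_eventuallyEq h2 (convex_ball τ₀ r).isPreconnected hτ h

lemma germ_of_eqOn {τ₀ τ : ℂ} {r : ℝ} {φ φ' : ℂ → ℂ} (hτ : τ ∈ ball τ₀ r)
    (h : Set.EqOn φ φ' (ball τ₀ r)) : φ =ᶠ[𝓝 τ] φ' := by
  filter_upwards [isOpen_ball.mem_nhds hτ] with t ht
  exact h ht

lemma Fam.localBij {Ω : Set ℂ} {A : (τ : ℂ) → Set ((𝓝 τ).Germ ℂ)} (hA : Fam Ω A) {τ₀ : ℂ}
    (hτ₀ : τ₀ ∈ Ω) : ∃ r > 0, ball τ₀ r ⊆ Ω ∧ ∃ φ : (𝓝 τ₀).Germ ℂ → ℂ → ℂ,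
      (∀ g ∈ A τ₀, AnalyticOnNhd ℂ (φ g) (ball τ₀ r)) ∧
      ∀ τ ∈ ball τ₀ r, Set.BijOn (fun g => (φ g : (𝓝 τ).Germ ℂ)) (A τ₀) (A τ) := by
  obtain ⟨r, hr, hsub, hloc⟩ := hA.loc τ₀ hτ₀
  have h0 : τ₀ ∈ ball τ₀ r := mem_ball_self hr
  choose! φ hφa hφg hφA using hloc τ₀ h0
  refine ⟨r, hr, hsub, φ, hφa, ?_⟩
  intro τ hτ
  refine ⟨fun g hg => hφA g hg τ hτ, ?_, ?_⟩
  · intro g hg g' hg' h
    have h1 : φ g =ᶠ[𝓝 τ] φ g' := germ_eq_iff.1 h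
    have h2 := eqOn_of_germ (hφa g hg) (hφa g' hg') hτ h1
    have h3 : ((φ g : ℂ → ℂ) : (𝓝 τ₀).Germ ℂ) = φ g' := germ_eq_iff.2 (germ_of_eqOn h0 h2)
    rw [hφg g hg, hφg g' hg'] at h3
    exact h3
  · intro h hh
    obtain ⟨χ, hχa, hχg, hχA⟩ := hloc τ hτ h hh
    refine ⟨(χ : (𝓝 τ₀).Germ ℂ), hχA τ₀ h0, ?_⟩
    have h1 := hφg _ (hχA τ₀ h0)
    have h2 := eqOn_of_germ (hφa _ (hχA τ₀ h0)) hχa h0 (germ_eq_iff.1 h1)
    rw [← hχg]
    exact germ_eq_iff.2 (germ_of_eqOn hτ h2)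

lemma Fam.local_sum {E : Type*} [AddCommMonoid E] {Ω : Set ℂ}
    {A : (τ : ℂ) → Set ((𝓝 τ).Germ ℂ)} (hA : Fam Ω A) {τ₀ : ℂ}
    (hτ₀ : τ₀ ∈ Ω) : ∃ (s : Finset ((𝓝 τ₀).Germ ℂ)) (φ : (𝓝 τ₀).Germ ℂ → ℂ → ℂ),
      (∀ g ∈ s, AnalyticAt ℂ (φ g) τ₀) ∧
      ∀ᶠ τ in 𝓝 τ₀, ∀ ψ : ℂ → E, Sm A ψ τ = ∑ g ∈ s, ψ (φ g τ) := by
  obtain ⟨r, hr, hsub, φ, hφa, hbij⟩ := hA.localBij hτ₀
  refine ⟨(hA.fin τ₀ hτ₀).toFinset, φ, ?_, ?_⟩
  · intro g hg
    exact hφa g ((Set.Finite.mem_toFinset _).1 hg) τ₀ (mem_ball_self hr)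
  · filter_upwards [ball_mem_nhds τ₀ hr] with τ hτ ψ
    have h := finsum_mem_eq_of_bijOn (f := fun g => ψ (φ g τ)) (g := fun g => ψ (Germ.value g))
      (fun g => (φ g : (𝓝 τ).Germ ℂ)) (hbij τ hτ) (fun g _ => rfl)
    unfold Sm
    rw [← h, finsum_mem_eq_finite_toFinset_sum _ (hA.fin τ₀ hτ₀)]

lemma Fam.analyticAt {Ω : Set ℂ} {A : (τ : ℂ) → Set ((𝓝 τ).Germ ℂ)} (hA : Fam Ω A) {τ₀ : ℂ}
    (hτ₀ : τ₀ ∈ Ω) {ψ : ℂ → ℂ} (hψ : Differentiable ℂ ψ) : AnalyticAt ℂ (Sm A ψ) τ₀ := by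
  obtain ⟨s, φ, hφ, hs⟩ := hA.local_sum (E := ℂ) hτ₀
  have h1 : AnalyticAt ℂ (fun τ => ∑ g ∈ s, ψ (φ g τ)) τ₀ := by
    refine Finset.analyticAt_fun_sum _ fun g hg => ?_
    exact (hψ.analyticAt _).comp (hφ g hg)
  refine h1.congr ?_
  filter_upwards [hs] with τ hτ
  exact (hτ ψ).symm

lemma Fam.continuousAt {E : Type*} [AddCommMonoid E] [TopologicalSpace E] [ContinuousAdd E]
    {Ω : Set ℂ} {A : (τ : ℂ) → Set ((𝓝 τ).Germ ℂ)} (hA : Fam Ω A) {τ₀ : ℂ}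
    (hτ₀ : τ₀ ∈ Ω) {ψ : ℂ → E} (hψ : Continuous ψ) : ContinuousAt (Sm A ψ) τ₀ := by
  obtain ⟨s, φ, hφ, hs⟩ := hA.local_sum (E := E) hτ₀
  have h1 : ContinuousAt (fun τ => ∑ g ∈ s, ψ (φ g τ)) τ₀ := by
    refine tendsto_finsetSum _ fun g hg => ?_
    exact (hψ.continuousAt.comp (hφ g hg).continuousAt)
  refine h1.congr ?_
  filter_upwards [hs] with τ hτ
  exact (hτ ψ).symm

/-- two injections between finite sets are bijections -/
lemma bijOn_of_two_inj {α β : Type*} {s : Set α} {t : Set β} (hs : s.Finite) (ht : t.Finite)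
    {e : α → β} {e' : β → α} (he : Set.MapsTo e s t) (hei : Set.InjOn e s)
    (he' : Set.MapsTo e' t s) (hei' : Set.InjOn e' t) : Set.BijOn e s t := by
  refine ⟨he, hei, ?_⟩
  have h1 : t.ncard ≤ s.ncard := Set.ncard_le_ncard_of_injOn e' he' hei' hs
  have h2 : (e '' s).ncard = s.ncard := hei.ncard_image
  have h3 : e '' s = t := Set.eq_of_subset_of_ncard_le he.image_subset (by rw [h2]; exact h1) ht
  exact h3.ge

end Pool.Agent.Work.MP_8da9ea_nt
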