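import Pool.Agent.Work.MP_8da9ea_nt.Dens

/-!
# Joint complex differentiability of the lattice functions in the pair of variables
-/

set_option autoImplicit false

namespace Pool.Agent.Work.MP_8da9ea_nt

open Complex Filter Topology

/-! ### a general lemma -/

open scoped Classical in
lemma tsum_split_aux {ι F : Type*} [NormedAddCommGroup F] [CompleteSpace F] (S : Finset ι)
    (a b : ι → F) (hab : ∀ i, b i = if i ∈ S then 0 else a i) (hb : Summable b) :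
    ∑' i, a i = ∑ i ∈ S, a i + ∑' i, b i := by
  have hfin : Summable (fun i => if i ∈ S then a i else 0) :=
    summable_of_ne_finset_zero (s := S) (fun i hi => by simp [hi])
  have e1 : ∑' i, (if i ∈ S then a i else 0) = ∑ i ∈ S, a i := by
    rw [tsum_eq_sum (s := S) (fun i hi => by simp [hi])]
    exact Finset.sum_congr rfl (fun i hi => by simp [hi])
  rw [← e1, ← hfin.tsum_add hb]
  refine tsum_congr fun i => ?_
  rw [hab]
  by_cases hi : i ∈ S <;> simp [hi]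

lemma hasFDerivAt_tsum_cofinite {ι E : Type*} [NormedAddCommGroup E] [NormedSpace ℂ E]
    {f : ι → E → ℂ} {f' : ι → E → (E →L[ℂ] ℂ)} {x₀ : E} {u : ι → ℝ} (hu : Summable u)
    (hu0 : ∀ i, 0 ≤ u i) (S : Finset ι) (hS : ∀ i ∈ S, HasFDerivAt (f i) (f' i x₀) x₀)
    (hd : ∀ᶠ x in 𝓝 x₀, ∀ i ∉ S, HasFDerivAt (f i) (f' i x) x ∧ ‖f' i x‖ ≤ u i)
    (hs : Summable (fun i => f i x₀)) :
    HasFDerivAt (fun x => ∑' i, f i x) (∑' i, f' i x₀) x₀ := by
  classical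
  obtain ⟨r, hr, hball⟩ := Metric.eventually_nhds_iff_ball.1 hd
  set U : Set E := Metric.ball x₀ r with hU
  have hUo : IsOpen U := Metric.isOpen_ball
  have hUc : IsPreconnected U := by
    have := NormedSpace.restrictScalars ℝ ℂ E
    exact (convex_ball x₀ r).isPreconnected
  have hxU : x₀ ∈ U := Metric.mem_ball_self hr
  let g : ι → E → ℂ := fun i x => if i ∈ S then 0 else f i x
  let g' : ι → E → (E →L[ℂ] ℂ) := fun i x => if i ∈ S then 0 else f' i x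
  have hg' : ∀ i, ∀ x ∈ U, ‖g' i x‖ ≤ u i := by
    intro i x hx
    by_cases hi : i ∈ S
    · simp [g', hi, hu0 i]
    · simp only [g', hi, if_false]
      exact (hball x hx i hi).2
  have hgd : ∀ i, ∀ x ∈ U, HasFDerivAt (g i) (g' i x) x := by
    intro i x hx
    by_cases hi : i ∈ S
    · have : g i = fun _ => 0 := by funext y; simp [g, hi]
      rw [this]
      simp only [g', hi, if_true]
      exact hasFDerivAt_const _ _
    · have : g i = f i := by funext y; simp [g, hi]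
      rw [this]
      simp only [g', hi, if_false]
      exact (hball x hx i hi).1
  have hfin : ∀ x, Summable (fun i => if i ∈ S then f i x else 0) := fun x =>
    summable_of_ne_finset_zero (s := S) (fun i hi => by simp [hi])
  have hg0 : Summable (fun i => g i x₀) := by
    refine (hs.sub (hfin x₀)).congr fun i => ?_
    by_cases hi : i ∈ S <;> simp [g, hi]
  have hsumg : ∀ x ∈ U, Summable (fun i => g i x) := fun x hx =>
    summable_of_summable_hasFDerivAt_of_isPreconnected hu hUo hUc hgd hg' hxU hg0 hx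
  have h1 : HasFDerivAt (fun x => ∑' i, g i x) (∑' i, g' i x₀) x₀ :=
    hasFDerivAt_tsum_of_isPreconnected hu hUo hUc hgd hg' hxU hg0 hxU
  have h2 : HasFDerivAt (fun x => ∑ i ∈ S, f i x) (∑ i ∈ S, f' i x₀) x₀ :=
    HasFDerivAt.fun_sum fun i hi => hS i hi
  have h3 := h2.add h1
  have e2 : ∑' i, f' i x₀ = ∑ i ∈ S, f' i x₀ + ∑' i, g' i x₀ :=
    tsum_split_aux S _ _ (fun i => rfl) (Summable.of_norm_bounded hu (fun i => hg' i x₀ hxU))
  rw [e2]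
  refine h3.congr_of_eventuallyEq ?_
  filter_upwards [hUo.mem_nhds hxU] with x hx
  exact tsum_split_aux S (fun i => f i x) (fun i => g i x) (fun i => rfl) (hsumg x hx)

/-- the linear form with coordinates `A`, `B` on `ℂ × ℂ` -/
noncomputable def lf (A B : ℂ) : ℂ × ℂ →L[ℂ] ℂ :=
  A • ContinuousLinearMap.fst ℂ ℂ ℂ + B • ContinuousLinearMap.snd ℂ ℂ ℂ

lemma lf_apply (A B : ℂ) (v : ℂ × ℂ) : lf A B v = A * v.1 + B * v.2 := by
  simp [lf]

lemma norm_lf_le (A B : ℂ) : ‖lf A B‖ ≤ ‖A‖ + ‖B‖ := by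
  refine ContinuousLinearMap.opNorm_le_bound _ (by positivity) fun v => ?_
  rw [lf_apply, add_mul]
  refine (norm_add_le _ _).trans ?_
  rw [norm_mul, norm_mul]
  have h1 := norm_fst_le v
  have h2 := norm_snd_le v
  gcongr

lemma tsum_lf {ι : Type*} {A B : ι → ℂ} (hA : Summable A) (hB : Summable B) :
    ∑' i, lf (A i) (B i) = lf (∑' i, A i) (∑' i, B i) := by
  unfold lf
  have h1 : Summable (fun i => A i • ContinuousLinearMap.fst ℂ ℂ ℂ) := hA.smul_const _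
  have h2 : Summable (fun i => B i • ContinuousLinearMap.snd ℂ ℂ ℂ) := hB.smul_const _
  rw [h1.tsum_add h2, hA.tsum_smul_const, hB.tsum_smul_const]

/-! ### the partial derivatives of the terms -/

/-- derivative in the second variable of the term of the Weierstrass function -/
noncomputable def wpdT (τ z : ℂ) (q : ℤ × ℤ) : ℂ := -2 / (z - lp 1 τ q) ^ 3

/-- derivative in the first variable of the term of the Weierstrass function -/
noncomputable def wptT (τ z : ℂ) (q : ℤ × ℤ) : ℂ :=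
  2 * q.2 * (1 / (z - lp 1 τ q) ^ 3 + 1 / (lp 1 τ q) ^ 3)

/-- derivative in the first variable of the term of the zeta function -/
noncomputable def zttT (τ z : ℂ) (q : ℤ × ℤ) : ℂ :=
  q.2 * (1 / (z - lp 1 τ q) ^ 2 - 1 / (lp 1 τ q) ^ 2 - 2 * z / (lp 1 τ q) ^ 3)

/-- second derivative in the second variable of the term of the Weierstrass function -/
noncomputable def wpddT (τ z : ℂ) (q : ℤ × ℤ) : ℂ := 6 / (z - lp 1 τ q) ^ 4

/-- mixed derivative of the term of the Weierstrass function -/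
noncomputable def wpdtT (τ z : ℂ) (q : ℤ × ℤ) : ℂ := -6 * q.2 / (z - lp 1 τ q) ^ 4

lemma hasFDerivAt_fst' (p : ℂ × ℂ) : HasFDerivAt (fun p : ℂ × ℂ => p.1) (lf 1 0) p := by
  have h : lf 1 0 = ContinuousLinearMap.fst ℂ ℂ ℂ := by ext <;> simp [lf]
  rw [h]
  exact hasFDerivAt_fst

lemma hasFDerivAt_snd' (p : ℂ × ℂ) : HasFDerivAt (fun p : ℂ × ℂ => p.2) (lf 0 1) p := by
  have h : lf 0 1 = ContinuousLinearMap.snd ℂ ℂ ℂ := by ext <;> simp [lf]
  rw [h]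
  exact hasFDerivAt_snd

lemma hasFDerivAt_lp (p : ℂ × ℂ) (q : ℤ × ℤ) :
    HasFDerivAt (fun p : ℂ × ℂ => lp 1 p.1 q) (lf q.2 0) p := by
  have h : (fun p : ℂ × ℂ => lp 1 p.1 q) = fun p : ℂ × ℂ => (q.1 : ℂ) + q.2 * p.1 := by
    funext p; simp [lp]
  rw [h]
  have h1 := ((hasFDerivAt_fst' p).const_mul (q.2 : ℂ)).const_add (q.1 : ℂ)
  have h2 : lf q.2 0 = (q.2 : ℂ) • lf 1 0 := by ext <;> simp [lf]
  rw [h2]
  exact h1

lemma hasFDerivAt_zl (p : ℂ × ℂ) (q : ℤ × ℤ) :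
    HasFDerivAt (fun p : ℂ × ℂ => p.2 - lp 1 p.1 q) (lf (-q.2) 1) p := by
  have h1 := (hasFDerivAt_snd' p).sub (hasFDerivAt_lp p q)
  have h2 : lf (-q.2) 1 = lf 0 1 - lf q.2 0 := by ext <;> simp [lf]
  rw [h2]
  exact h1

/-- derivative of a function composed with an analytic function of one variable -/
lemma hasFDerivAt_comp1 {g : ℂ → ℂ} {g' : ℂ} {f : ℂ × ℂ → ℂ} {A B : ℂ} {p : ℂ × ℂ}
    (hf : HasFDerivAt f (lf A B) p) (hg : HasDerivAt g g' (f p)) :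
    HasFDerivAt (fun p => g (f p)) (lf (g' * A) (g' * B)) p := by
  have h := hg.comp_hasFDerivAt p hf
  have h2 : lf (g' * A) (g' * B) = g' • lf A B := by ext <;> simp [lf]
  rw [h2]
  exact h

lemma lf_add (A B A' B' : ℂ) : lf A B + lf A' B' = lf (A + A') (B + B') := by
  ext <;> simp [lf]

lemma lf_sub (A B A' B' : ℂ) : lf A B - lf A' B' = lf (A - A') (B - B') := by
  ext <;> simp [lf]

lemma lf_smul (c A B : ℂ) : c • lf A B = lf (c * A) (c * B) := by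
  ext <;> simp [lf]

lemma hasDerivAt_invpow (k : ℕ) {w : ℂ} (hw : w ≠ 0) :
    HasDerivAt (fun w : ℂ => 1 / w ^ k) (-(k : ℂ) / w ^ (k + 1)) w := by
  have h := hasDerivAt_zpow (-(k : ℤ)) w (Or.inl hw)
  have h1 : (fun w : ℂ => w ^ (-(k : ℤ))) = fun w => 1 / w ^ k := by
    funext w; rw [zpow_neg, zpow_natCast, one_div]
  rw [h1] at h
  refine h.congr_deriv ?_
  rw [show (-(k : ℤ) - 1) = -((k + 1 : ℕ) : ℤ) by push_cast; ring, zpow_neg, zpow_natCast]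
  push_cast
  rw [div_eq_mul_inv]

lemma hfd_congr {f g : ℂ × ℂ → ℂ} {A B A' B' : ℂ} {p : ℂ × ℂ} (h : HasFDerivAt f (lf A B) p)
    (hfg : ∀ x, g x = f x) (hA : A' = A) (hB : B' = B) : HasFDerivAt g (lf A' B') p := by
  have : g = f := funext hfg
  rw [this, hA, hB]
  exact h

lemma hasFDerivAt_wpT {τ z : ℂ} {q : ℤ × ℤ} (h : z - lp 1 τ q ≠ 0) (h0 : lp 1 τ q ≠ 0 ∨ q.2 = 0) :
    HasFDerivAt (fun p : ℂ × ℂ => wpT 1 p.1 p.2 q) (lf (wptT τ z q) (wpdT τ z q)) (τ, z) := by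
  have h1 := hasFDerivAt_comp1 (hasFDerivAt_zl (τ, z) q) (hasDerivAt_invpow 2 h)
  have h2 : HasFDerivAt (fun p : ℂ × ℂ => 1 / (lp 1 p.1 q) ^ 2)
      (lf (-2 * q.2 / (lp 1 τ q) ^ 3) 0) (τ, z) := by
    rcases h0 with h0 | h0
    · have := hasFDerivAt_comp1 (hasFDerivAt_lp (τ, z) q) (hasDerivAt_invpow 2 h0)
      refine hfd_congr this (fun _ => rfl) ?_ ?_
      · push_cast; ring
      · ring
    · have : (fun p : ℂ × ℂ => 1 / (lp 1 p.1 q) ^ 2) = fun _ => 1 / (q.1 : ℂ) ^ 2 := by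
        funext p; simp [lp, h0]
      rw [this]
      have h3 : lf (-2 * q.2 / (lp 1 τ q) ^ 3) 0 = 0 := by
        ext <;> simp [lf, h0]
      rw [h3]
      exact hasFDerivAt_const _ _
  have h3 := h1.sub h2
  rw [lf_sub] at h3
  refine hfd_congr h3 (fun _ => rfl) ?_ ?_
  · unfold wptT
    push_cast
    ring
  · unfold wpdT
    push_cast
    ring

lemma hasFDerivAt_ztT {τ z : ℂ} {q : ℤ × ℤ} (h : z - lp 1 τ q ≠ 0) (h0 : lp 1 τ q ≠ 0 ∨ q.2 = 0) :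
    HasFDerivAt (fun p : ℂ × ℂ => ztT 1 p.1 p.2 q) (lf (zttT τ z q) (-wpT 1 τ z q)) (τ, z) := by
  have h1 := hasFDerivAt_comp1 (hasFDerivAt_zl (τ, z) q) (hasDerivAt_invpow 1 h)
  have key : ∀ k : ℕ, HasFDerivAt (fun p : ℂ × ℂ => 1 / (lp 1 p.1 q) ^ k)
      (lf (-k * q.2 / (lp 1 τ q) ^ (k + 1)) 0) (τ, z) := by
    intro k
    rcases h0 with h0 | h0
    · have := hasFDerivAt_comp1 (hasFDerivAt_lp (τ, z) q) (hasDerivAt_invpow k h0)
      refine hfd_congr this (fun _ => rfl) ?_ ?_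
      · push_cast; ring
      · ring
    · have : (fun p : ℂ × ℂ => 1 / (lp 1 p.1 q) ^ k) = fun _ => 1 / (q.1 : ℂ) ^ k := by
        funext p; simp [lp, h0]
      rw [this]
      have h3 : lf (-k * q.2 / (lp 1 τ q) ^ (k + 1)) 0 = 0 := by
        ext <;> simp [lf, h0]
      rw [h3]
      exact hasFDerivAt_const _ _
  have h2 := (hasFDerivAt_snd' (τ, z)).mul (key 2)
  rw [lf_smul, lf_smul, lf_add] at h2
  have h3 := (h1.add (key 1)).add h2
  rw [lf_add, lf_add] at h3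
  refine hfd_congr h3 ?_ ?_ ?_
  · intro p
    simp only [ztT, pow_one, Pi.add_apply, Pi.mul_apply]
    ring
  · unfold zttT
    push_cast
    ring
  · unfold wpT
    push_cast
    ring

lemma hasFDerivAt_wpdT {τ z : ℂ} {q : ℤ × ℤ} (h : z - lp 1 τ q ≠ 0) :
    HasFDerivAt (fun p : ℂ × ℂ => wpdT p.1 p.2 q) (lf (wpdtT τ z q) (wpddT τ z q)) (τ, z) := by
  have h1 := (hasFDerivAt_comp1 (hasFDerivAt_zl (τ, z) q) (hasDerivAt_invpow 3 h)).const_mul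
    (-2 : ℂ)
  rw [lf_smul] at h1
  refine hfd_congr h1 ?_ ?_ ?_
  · intro p
    simp only [wpdT]
    ring
  · unfold wpdtT
    push_cast
    ring
  · unfold wpddT
    push_cast
    ring

lemma hasDerivAt_wptT {τ z : ℂ} {q : ℤ × ℤ} (h : z - lp 1 τ q ≠ 0) :
    HasDerivAt (fun z : ℂ => wptT τ z q) (wpdtT τ z q) z := by
  have h1 : HasDerivAt (fun z : ℂ => z - lp 1 τ q) 1 z := (hasDerivAt_id z).sub_const _
  have h2 := (((hasDerivAt_invpow 3 h).comp z h1).add_const (1 / (lp 1 τ q) ^ 3)).const_mul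
    (2 * (q.2 : ℂ))
  refine h2.congr_deriv ?_
  unfold wpdtT
  push_cast
  ring

/-! ### bounds -/

section bounds

variable {z l : ℂ} {R : ℝ}

lemma half_le (hR : 0 < R) (hz : ‖z‖ ≤ R) (hl : 2 * R ≤ ‖l‖) : ‖l‖ / 2 ≤ ‖z - l‖ := by
  have := norm_sub_norm_le l z
  rw [norm_sub_rev l z] at this
  linarith

lemma invpow_bound (hR : 0 < R) (hz : ‖z‖ ≤ R) (hl : 2 * R ≤ ‖l‖) (k : ℕ) :
    ‖1 / (z - l) ^ k‖ ≤ 2 ^ k / ‖l‖ ^ k := by
  have h1 := half_le hR hz hl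
  have hl0 : 0 < ‖l‖ := by linarith
  have h2 : 0 < ‖z - l‖ := by linarith
  rw [norm_div, norm_one, norm_pow, div_le_div_iff₀ (by positivity) (by positivity), one_mul,
    ← mul_pow]
  gcongr
  linarith

lemma wptT_bound (hR : 0 < R) (hz : ‖z‖ ≤ R) (hl : 2 * R ≤ ‖l‖) :
    ‖1 / (z - l) ^ 3 + 1 / l ^ 3‖ ≤ 40 * R / ‖l‖ ^ 4 := by
  have h1 := half_le hR hz hl
  have hl0 : 0 < ‖l‖ := by linarith
  have h2 : 0 < ‖z - l‖ := by linarith
  have hl1 : l ≠ 0 := norm_pos_iff.1 hl0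
  have hzl : z - l ≠ 0 := norm_pos_iff.1 h2
  have e : 1 / (z - l) ^ 3 + 1 / l ^ 3 = z * (z ^ 2 - 3 * z * l + 3 * l ^ 2) / (l ^ 3 * (z - l) ^ 3) := by
    field_simp
    ring
  have hz0 : 0 ≤ ‖z‖ := norm_nonneg z
  have h3 : ‖z ^ 2 - 3 * z * l + 3 * l ^ 2‖ ≤ 5 * ‖l‖ ^ 2 := by
    calc ‖z ^ 2 - 3 * z * l + 3 * l ^ 2‖ ≤ ‖z ^ 2‖ + ‖3 * z * l‖ + ‖3 * l ^ 2‖ :=
          (norm_add_le _ _).trans (by gcongr; exact norm_sub_le _ _)
      _ = ‖z‖ ^ 2 + 3 * ‖z‖ * ‖l‖ + 3 * ‖l‖ ^ 2 := by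
          simp only [norm_pow, norm_mul]
          norm_num
      _ ≤ 5 * ‖l‖ ^ 2 := by nlinarith
  rw [e, norm_div, norm_mul, norm_mul, norm_pow, norm_pow,
    div_le_div_iff₀ (by positivity) (by positivity)]
  have h4 : (‖l‖ / 2) ^ 3 ≤ ‖z - l‖ ^ 3 := by gcongr
  calc ‖z‖ * ‖z ^ 2 - 3 * z * l + 3 * l ^ 2‖ * ‖l‖ ^ 4 ≤ R * (5 * ‖l‖ ^ 2) * ‖l‖ ^ 4 := by gcongr
    _ = 40 * R * (‖l‖ ^ 3 * (‖l‖ / 2) ^ 3) := by ring
    _ ≤ 40 * R * (‖l‖ ^ 3 * ‖z - l‖ ^ 3) := by gcongr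

lemma zttT_bound (hR : 0 < R) (hz : ‖z‖ ≤ R) (hl : 2 * R ≤ ‖l‖) :
    ‖1 / (z - l) ^ 2 - 1 / l ^ 2 - 2 * z / l ^ 3‖ ≤ 16 * R ^ 2 / ‖l‖ ^ 4 := by
  have h1 := half_le hR hz hl
  have hl0 : 0 < ‖l‖ := by linarith
  have h2 : 0 < ‖z - l‖ := by linarith
  have hl1 : l ≠ 0 := norm_pos_iff.1 hl0
  have hzl : z - l ≠ 0 := norm_pos_iff.1 h2
  have e : 1 / (z - l) ^ 2 - 1 / l ^ 2 - 2 * z / l ^ 3 =
      z ^ 2 * (3 * l - 2 * z) / (l ^ 3 * (z - l) ^ 2) := by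
    field_simp
    ring
  have hz0 : 0 ≤ ‖z‖ := norm_nonneg z
  have h3 : ‖3 * l - 2 * z‖ ≤ 4 * ‖l‖ := by
    calc ‖3 * l - 2 * z‖ ≤ ‖3 * l‖ + ‖2 * z‖ := norm_sub_le _ _
      _ = 3 * ‖l‖ + 2 * ‖z‖ := by
          simp only [norm_mul]
          norm_num
      _ ≤ 4 * ‖l‖ := by linarith
  rw [e, norm_div, norm_mul, norm_mul, norm_pow, norm_pow, norm_pow,
    div_le_div_iff₀ (by positivity) (by positivity)]
  have h4 : (‖l‖ / 2) ^ 2 ≤ ‖z - l‖ ^ 2 := by gcongr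
  calc ‖z‖ ^ 2 * ‖3 * l - 2 * z‖ * ‖l‖ ^ 4 ≤ R ^ 2 * (4 * ‖l‖) * ‖l‖ ^ 4 := by gcongr
    _ = 16 * R ^ 2 * (‖l‖ ^ 3 * (‖l‖ / 2) ^ 2) := by ring
    _ ≤ 16 * R ^ 2 * (‖l‖ ^ 3 * ‖z - l‖ ^ 2) := by gcongr

end bounds

end Pool.Agent.Work.MP_8da9ea_nt
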