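import Pool.Agent.Work.MP_8da9ea_nt.OdeA

/-!
# Joint complex differentiability of the lattice functions: the sums
-/

set_option autoImplicit false

namespace Pool.Agent.Work.MP_8da9ea_nt

open Complex Filter Topology

open scoped Classical in
/-- the family `f` with the indices in `T` removed -/
noncomputable def exc (T : Set (ℤ × ℤ)) (f : ℤ × ℤ → ℂ) : ℤ × ℤ → ℂ :=
  fun q => if q ∈ T then 0 else f q

lemma exc_empty (f : ℤ × ℤ → ℂ) : exc ∅ f = f := by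
  funext q; simp [exc]

lemma exc_mem {T : Set (ℤ × ℤ)} {q : ℤ × ℤ} (h : q ∈ T) (f : ℤ × ℤ → ℂ) : exc T f q = 0 := by
  simp [exc, h]

lemma exc_not_mem {T : Set (ℤ × ℤ)} {q : ℤ × ℤ} (h : q ∉ T) (f : ℤ × ℤ → ℂ) :
    exc T f q = f q := by
  simp [exc, h]

lemma exc_neg (T : Set (ℤ × ℤ)) (f : ℤ × ℤ → ℂ) : exc T (fun q => -f q) = fun q => -exc T f q := by
  funext q
  by_cases h : q ∈ T <;> simp [exc, h]

lemma norm_exc_le (T : Set (ℤ × ℤ)) (f : ℤ × ℤ → ℂ) (q : ℤ × ℤ) : ‖exc T f q‖ ≤ ‖f q‖ := by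
  by_cases h : q ∈ T <;> simp [exc, h]

lemma summable_exc (T : Set (ℤ × ℤ)) {f : ℤ × ℤ → ℂ} (hf : Summable f) : Summable (exc T f) := by
  classical
  have : exc T f = Tᶜ.indicator f := by
    funext q
    by_cases h : q ∈ T <;> simp [exc, h]
  rw [this]
  exact hf.indicator _

lemma exists_setup2 {τ₀ : ℂ} (z₀ : ℂ) (him : 0 < τ₀.im) :
    ∃ (R c : ℝ) (S : Finset (ℤ × ℤ)), 0 < R ∧ 0 < c ∧ (0, 0) ∈ S ∧
      ∀ᶠ p : ℂ × ℂ in 𝓝 (τ₀, z₀), 0 < p.1.im ∧ ‖p.2‖ ≤ R ∧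
        (∀ q, c * nr q ≤ ‖lp 1 p.1 q‖) ∧ ∀ q ∉ S, 0 < nr q ∧ 2 * R ≤ ‖lp 1 p.1 q‖ := by
  obtain ⟨c, hc, hlow⟩ := exists_lower (|τ₀.re| + 1) (τ₀.im / 2) (by linarith)
  set R : ℝ := ‖z₀‖ + 1 with hR
  have hR0 : 0 < R := by positivity
  refine ⟨R, c, (finite_nr (2 * R / c)).toFinset, hR0, hc, ?_, ?_⟩
  · rw [Set.Finite.mem_toFinset]
    change nr 0 ≤ 2 * R / c
    rw [nr_zero]; positivity
  have c1 : ContinuousAt (fun p : ℂ × ℂ => ‖p.2‖) (τ₀, z₀) := by fun_prop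
  have c2 : ContinuousAt (fun p : ℂ × ℂ => |p.1.re|) (τ₀, z₀) := by fun_prop
  have c3 : ContinuousAt (fun p : ℂ × ℂ => p.1.im) (τ₀, z₀) := by fun_prop
  have e1 : ∀ᶠ p : ℂ × ℂ in 𝓝 (τ₀, z₀), ‖p.2‖ < R :=
    c1.eventually_lt continuousAt_const (by rw [hR]; linarith)
  have e2 : ∀ᶠ p : ℂ × ℂ in 𝓝 (τ₀, z₀), |p.1.re| < |τ₀.re| + 1 :=
    c2.eventually_lt continuousAt_const (by simp)
  have e3 : ∀ᶠ p : ℂ × ℂ in 𝓝 (τ₀, z₀), τ₀.im / 2 < p.1.im :=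
    continuousAt_const.eventually_lt c3 (by simp; linarith)
  filter_upwards [e1, e2, e3] with p h1 h2 h3
  refine ⟨by linarith, h1.le, hlow _ h2.le h3.le, ?_⟩
  intro q hq
  rw [Set.Finite.mem_toFinset] at hq
  have hq' : 2 * R / c < nr q := lt_of_not_ge hq
  have h6 := hlow _ h2.le h3.le q
  constructor
  · exact lt_trans (by positivity) hq'
  · rw [div_lt_iff₀ hc] at hq'
    linarith

/-- the growth condition for a family of terms -/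
def Bdd3 (A : ℂ → ℂ → ℤ × ℤ → ℂ) : Prop :=
  ∀ R c : ℝ, 0 < R → 0 < c → ∃ C : ℝ, 0 ≤ C ∧ ∀ (τ z : ℂ) (q : ℤ × ℤ), ‖z‖ ≤ R →
    2 * R ≤ ‖lp 1 τ q‖ → c * nr q ≤ ‖lp 1 τ q‖ → ‖A τ z q‖ ≤ C / ‖lp 1 τ q‖ ^ 3

lemma Bdd3.summable {A : ℂ → ℂ → ℤ × ℤ → ℂ} (hA : Bdd3 A) {τ : ℂ} (hτ : 0 < τ.im) (z : ℂ) :
    Summable (A τ z) := by
  obtain ⟨R, c, S, hR, hc, hS0, hev⟩ := exists_setup2 z hτ
  obtain ⟨-, d4, d5, d6⟩ := hev.self_of_nhds
  obtain ⟨C, hC, hb⟩ := hA R c hR hc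
  refine Summable.of_norm_bounded_eventually
    (g := fun q => (C / c ^ 3) * (nr q ^ 3)⁻¹) (summable_nr.mul_left _) ?_
  rw [Filter.eventually_cofinite]
  refine S.finite_toSet.subset ?_
  intro q hq
  by_contra hqS
  apply hq
  have hqS' : q ∉ S := hqS
  obtain ⟨d7, d8⟩ := d6 q hqS'
  refine (hb τ z q d4 d8 (d5 q)).trans ?_
  have h1 : (c * nr q) ^ 3 ≤ ‖lp 1 τ q‖ ^ 3 := by
    have := d5 q
    gcongr
  calc C / ‖lp 1 τ q‖ ^ 3 ≤ C / (c * nr q) ^ 3 := by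
        gcongr
    _ = (C / c ^ 3) * (nr q ^ 3)⁻¹ := by
        rw [mul_pow]; field_simp

lemma joint {f A B : ℂ → ℂ → ℤ × ℤ → ℂ} (T : Set (ℤ × ℤ))
    (hder : ∀ (τ z : ℂ) (q : ℤ × ℤ), 0 < τ.im → z - lp 1 τ q ≠ 0 →
      HasFDerivAt (fun p : ℂ × ℂ => f p.1 p.2 q) (lf (A τ z q) (B τ z q)) (τ, z))
    (hA : Bdd3 A) (hB : Bdd3 B) (hf : ∀ τ z : ℂ, 0 < τ.im → Summable (f τ z))
    {τ z : ℂ} (hτ : 0 < τ.im) (hz : ∀ q ∉ T, z ≠ lp 1 τ q) :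
    HasFDerivAt (fun p : ℂ × ℂ => ∑' q, exc T (f p.1 p.2) q)
      (lf (∑' q, exc T (A τ z) q) (∑' q, exc T (B τ z) q)) (τ, z) := by
  obtain ⟨R, c, S, hR, hc, hS0, hev⟩ := exists_setup2 z hτ
  obtain ⟨CA, hCA, hbA⟩ := hA R c hR hc
  obtain ⟨CB, hCB, hbB⟩ := hB R c hR hc
  rw [← tsum_lf (summable_exc T (hA.summable hτ z)) (summable_exc T (hB.summable hτ z))]
  have hterm : ∀ (p : ℂ × ℂ) (q : ℤ × ℤ), 0 < p.1.im → (q ∉ T → p.2 - lp 1 p.1 q ≠ 0) →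
      HasFDerivAt (fun p : ℂ × ℂ => exc T (f p.1 p.2) q)
        (lf (exc T (A p.1 p.2) q) (exc T (B p.1 p.2) q)) p := by
    intro p q hp hq
    by_cases hT : q ∈ T
    · simp only [exc_mem hT]
      have : lf 0 0 = 0 := by ext <;> simp [lf]
      rw [this]
      exact hasFDerivAt_const _ _
    · simp only [exc_not_mem hT]
      exact hder p.1 p.2 q hp (hq hT)
  refine hasFDerivAt_tsum_cofinite (f := fun q p => exc T (f p.1 p.2) q) (x₀ := (τ, z))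
    (f' := fun q p => lf (exc T (A p.1 p.2) q) (exc T (B p.1 p.2) q))
    (u := fun q => ((CA + CB) / c ^ 3) * (nr q ^ 3)⁻¹)
    (summable_nr.mul_left _) (fun q => by have := nr_nonneg q; positivity) S ?_ ?_
    (summable_exc T (hf τ z hτ))
  · intro q _
    exact hterm (τ, z) q hτ (fun hT => sub_ne_zero.2 (hz q hT))
  · filter_upwards [hev] with p hp q hq
    obtain ⟨d3, d4, d5, d6⟩ := hp
    obtain ⟨d7, d8⟩ := d6 q hq
    have hl0 : lp 1 p.1 q ≠ 0 := norm_pos_iff.1 (by linarith)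
    have hzl : p.2 - lp 1 p.1 q ≠ 0 := by
      intro h
      rw [sub_eq_zero] at h
      rw [← h] at d8
      linarith
    refine ⟨hterm p q d3 (fun _ => hzl), ?_⟩
    refine (norm_lf_le _ _).trans ?_
    have h1 : (c * nr q) ^ 3 ≤ ‖lp 1 p.1 q‖ ^ 3 := by
      have := d5 q
      gcongr
    calc ‖exc T (A p.1 p.2) q‖ + ‖exc T (B p.1 p.2) q‖ ≤ CA / ‖lp 1 p.1 q‖ ^ 3 +
          CB / ‖lp 1 p.1 q‖ ^ 3 := by
          gcongr
          · exact (norm_exc_le _ _ _).trans (hbA _ _ _ d4 d8 (d5 q))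
          · exact (norm_exc_le _ _ _).trans (hbB _ _ _ d4 d8 (d5 q))
      _ = (CA + CB) / ‖lp 1 p.1 q‖ ^ 3 := by ring
      _ ≤ (CA + CB) / (c * nr q) ^ 3 := by
          gcongr
      _ = ((CA + CB) / c ^ 3) * (nr q ^ 3)⁻¹ := by
          rw [mul_pow]; field_simp

lemma nq_le {c : ℝ} (hc : 0 < c) {τ : ℂ} {q : ℤ × ℤ} (h : c * nr q ≤ ‖lp 1 τ q‖) :
    ‖(q.2 : ℂ)‖ ≤ ‖lp 1 τ q‖ / c := by
  rw [le_div_iff₀ hc, mul_comm]
  refine le_trans ?_ h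
  rw [Complex.norm_intCast]
  gcongr
  exact nr_ge_snd q

lemma bdd3_wpT : Bdd3 (fun τ z q => wpT 1 τ z q) := by
  intro R c hR hc
  refine ⟨10 * (R + R ^ 2), by positivity, fun τ z q h1 h2 h3 => wpT_bound hR h1 h2⟩

lemma bdd3_neg {A : ℂ → ℂ → ℤ × ℤ → ℂ} (hA : Bdd3 A) : Bdd3 (fun τ z q => - A τ z q) := by
  intro R c hR hc
  obtain ⟨C, hC, h⟩ := hA R c hR hc
  refine ⟨C, hC, fun τ z q h1 h2 h3 => ?_⟩
  rw [norm_neg]
  exact h τ z q h1 h2 h3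

lemma bdd3_wpdT : Bdd3 wpdT := by
  intro R c hR hc
  refine ⟨16, by positivity, fun τ z q h1 h2 h3 => ?_⟩
  have h := invpow_bound hR h1 h2 3
  have e : wpdT τ z q = -2 * (1 / (z - lp 1 τ q) ^ 3) := by unfold wpdT; ring
  rw [e, norm_mul, norm_neg, Complex.norm_ofNat]
  calc 2 * ‖1 / (z - lp 1 τ q) ^ 3‖ ≤ 2 * (2 ^ 3 / ‖lp 1 τ q‖ ^ 3) := by gcongr
    _ = 16 / ‖lp 1 τ q‖ ^ 3 := by ring

lemma bdd3_wpddT : Bdd3 wpddT := by
  intro R c hR hc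
  refine ⟨96 / (2 * R), by positivity, fun τ z q h1 h2 h3 => ?_⟩
  have h := invpow_bound hR h1 h2 4
  have hl : 0 < ‖lp 1 τ q‖ := by linarith
  have e : wpddT τ z q = 6 * (1 / (z - lp 1 τ q) ^ 4) := by unfold wpddT; ring
  rw [e, norm_mul, Complex.norm_ofNat]
  calc 6 * ‖1 / (z - lp 1 τ q) ^ 4‖ ≤ 6 * (2 ^ 4 / ‖lp 1 τ q‖ ^ 4) := by gcongr
    _ = 96 / ‖lp 1 τ q‖ / ‖lp 1 τ q‖ ^ 3 := by field_simp; norm_num
    _ ≤ 96 / (2 * R) / ‖lp 1 τ q‖ ^ 3 := by gcongr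

lemma bdd3_wpdtT : Bdd3 wpdtT := by
  intro R c hR hc
  refine ⟨96 / c, by positivity, fun τ z q h1 h2 h3 => ?_⟩
  have h := invpow_bound hR h1 h2 4
  have hl : 0 < ‖lp 1 τ q‖ := by linarith
  have hq := nq_le hc h3
  have e : wpdtT τ z q = -6 * q.2 * (1 / (z - lp 1 τ q) ^ 4) := by unfold wpdtT; ring
  rw [e, norm_mul, norm_mul, norm_neg, Complex.norm_ofNat]
  calc 6 * ‖(q.2 : ℂ)‖ * ‖1 / (z - lp 1 τ q) ^ 4‖ ≤
        6 * (‖lp 1 τ q‖ / c) * (2 ^ 4 / ‖lp 1 τ q‖ ^ 4) := by gcongr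
    _ = 96 / c / ‖lp 1 τ q‖ ^ 3 := by field_simp; norm_num

lemma bdd3_wptT : Bdd3 wptT := by
  intro R c hR hc
  refine ⟨80 * R / c, by positivity, fun τ z q h1 h2 h3 => ?_⟩
  have h := wptT_bound hR h1 h2
  have hl : 0 < ‖lp 1 τ q‖ := by linarith
  have hq := nq_le hc h3
  rw [wptT, norm_mul, norm_mul, Complex.norm_ofNat]
  calc 2 * ‖(q.2 : ℂ)‖ * ‖1 / (z - lp 1 τ q) ^ 3 + 1 / lp 1 τ q ^ 3‖ ≤
        2 * (‖lp 1 τ q‖ / c) * (40 * R / ‖lp 1 τ q‖ ^ 4) := by gcongr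
    _ = 80 * R / c / ‖lp 1 τ q‖ ^ 3 := by field_simp; norm_num

lemma bdd3_zttT : Bdd3 zttT := by
  intro R c hR hc
  refine ⟨16 * R ^ 2 / c, by positivity, fun τ z q h1 h2 h3 => ?_⟩
  have h := zttT_bound hR h1 h2
  have hl : 0 < ‖lp 1 τ q‖ := by linarith
  have hq := nq_le hc h3
  rw [zttT, norm_mul]
  calc ‖(q.2 : ℂ)‖ * ‖1 / (z - lp 1 τ q) ^ 2 - 1 / lp 1 τ q ^ 2 - 2 * z / lp 1 τ q ^ 3‖ ≤
        (‖lp 1 τ q‖ / c) * (16 * R ^ 2 / ‖lp 1 τ q‖ ^ 4) := by gcongr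
    _ = 16 * R ^ 2 / c / ‖lp 1 τ q‖ ^ 3 := by field_simp

lemma lp_or {τ : ℂ} (hτ : 0 < τ.im) (q : ℤ × ℤ) : lp 1 τ q ≠ 0 ∨ q.2 = 0 := by
  by_cases h : q = 0
  · right; rw [h]; rfl
  · left; exact lp_ne_zero hτ h

/-! ### the sums -/

/-- the derivative in `z` -/
noncomputable def wpd (τ z : ℂ) : ℂ := ∑' q, wpdT τ z q

/-- the derivative of the Weierstrass function in `τ` -/
noncomputable def wpt (τ z : ℂ) : ℂ := ∑' q, wptT τ z q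

/-- the derivative of the zeta function in `τ` -/
noncomputable def ztt (τ z : ℂ) : ℂ := ∑' q, zttT τ z q

/-- the second derivative in `z` -/
noncomputable def wpdd (τ z : ℂ) : ℂ := ∑' q, wpddT τ z q

/-- the mixed derivative -/
noncomputable def wpdt (τ z : ℂ) : ℂ := ∑' q, wpdtT τ z q

/-- the zeta function without the terms in `T` -/
noncomputable def ztE (T : Set (ℤ × ℤ)) (τ z : ℂ) : ℂ := ∑' q, exc T (ztT 1 τ z) q

/-- the Weierstrass function without the terms in `T` -/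
noncomputable def wpE (T : Set (ℤ × ℤ)) (τ z : ℂ) : ℂ := ∑' q, exc T (wpT 1 τ z) q

/-- the derivative in `z` of the Weierstrass function without the terms in `T` -/
noncomputable def wpdE (T : Set (ℤ × ℤ)) (τ z : ℂ) : ℂ := ∑' q, exc T (wpdT τ z) q

lemma hasFDerivAt_ztE (T : Set (ℤ × ℤ)) {τ z : ℂ} (hτ : 0 < τ.im) (hz : ∀ q ∉ T, z ≠ lp 1 τ q) :
    HasFDerivAt (fun p : ℂ × ℂ => ztE T p.1 p.2)
      (lf (∑' q, exc T (zttT τ z) q) (-wpE T τ z)) (τ, z) := by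
  have h := joint (f := fun τ z => ztT 1 τ z) (A := zttT) (B := fun τ z q => -wpT 1 τ z q) T
    (fun _ _ q hτ h => hasFDerivAt_ztT h (lp_or hτ q)) bdd3_zttT (bdd3_neg bdd3_wpT)
    (fun _ z hτ => summable_ztT hτ z) hτ hz
  rw [exc_neg, tsum_neg] at h
  exact h

lemma hasFDerivAt_wpE (T : Set (ℤ × ℤ)) {τ z : ℂ} (hτ : 0 < τ.im) (hz : ∀ q ∉ T, z ≠ lp 1 τ q) :
    HasFDerivAt (fun p : ℂ × ℂ => wpE T p.1 p.2)
      (lf (∑' q, exc T (wptT τ z) q) (wpdE T τ z)) (τ, z) :=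
  joint (f := fun τ z => wpT 1 τ z) (A := wptT) (B := wpdT) T
    (fun _ _ q hτ h => hasFDerivAt_wpT h (lp_or hτ q)) bdd3_wptT bdd3_wpdT
    (fun _ z hτ => summable_wpT hτ z) hτ hz

lemma hasFDerivAt_wpdE (T : Set (ℤ × ℤ)) {τ z : ℂ} (hτ : 0 < τ.im) (hz : ∀ q ∉ T, z ≠ lp 1 τ q) :
    HasFDerivAt (fun p : ℂ × ℂ => wpdE T p.1 p.2)
      (lf (∑' q, exc T (wpdtT τ z) q) (∑' q, exc T (wpddT τ z) q)) (τ, z) :=
  joint (f := wpdT) (A := wpdtT) (B := wpddT) T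
    (fun _ _ _ _ h => hasFDerivAt_wpdT h) bdd3_wpdtT bdd3_wpddT
    (fun _ z hτ => bdd3_wpdT.summable hτ z) hτ hz

lemma notMem_Lam {τ z : ℂ} (hz : z ∉ Lam τ) : ∀ q ∉ (∅ : Set (ℤ × ℤ)), z ≠ lp 1 τ q :=
  fun q _ h => hz ⟨q, h.symm⟩

/-- joint derivative of the zeta function -/
theorem hasFDerivAt_zt {τ z : ℂ} (hτ : 0 < τ.im) (hz : z ∉ Lam τ) :
    HasFDerivAt (fun p : ℂ × ℂ => zt 1 p.1 p.2) (lf (ztt τ z) (-wp 1 τ z)) (τ, z) := by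
  have h := hasFDerivAt_ztE ∅ hτ (notMem_Lam hz)
  simp only [ztE, wpE, exc_empty] at h
  exact h

/-- joint derivative of the Weierstrass function -/
theorem hasFDerivAt_wp {τ z : ℂ} (hτ : 0 < τ.im) (hz : z ∉ Lam τ) :
    HasFDerivAt (fun p : ℂ × ℂ => wp 1 p.1 p.2) (lf (wpt τ z) (wpd τ z)) (τ, z) := by
  have h := hasFDerivAt_wpE ∅ hτ (notMem_Lam hz)
  simp only [wpE, wpdE, exc_empty] at h
  exact h

/-- joint derivative of the derivative of the Weierstrass function -/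
theorem hasFDerivAt_wpd {τ z : ℂ} (hτ : 0 < τ.im) (hz : z ∉ Lam τ) :
    HasFDerivAt (fun p : ℂ × ℂ => wpd p.1 p.2) (lf (wpdt τ z) (wpdd τ z)) (τ, z) := by
  have h := hasFDerivAt_wpdE ∅ hτ (notMem_Lam hz)
  simp only [wpdE, exc_empty] at h
  exact h

/-! ### one variable derivatives -/

lemma hasDerivAt_tsum_cofinite {ι : Type*}
    {f f' : ι → ℂ → ℂ} {x₀ : ℂ} {u : ι → ℝ} (hu : Summable u)
    (hu0 : ∀ i, 0 ≤ u i) (S : Finset ι) (hS : ∀ i ∈ S, HasDerivAt (f i) (f' i x₀) x₀)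
    (hd : ∀ᶠ x in 𝓝 x₀, ∀ i ∉ S, HasDerivAt (f i) (f' i x) x ∧ ‖f' i x‖ ≤ u i)
    (hs : Summable (fun i => f i x₀)) (hs' : Summable (fun i => f' i x₀)) :
    HasDerivAt (fun x => ∑' i, f i x) (∑' i, f' i x₀) x₀ := by
  have h := hasFDerivAt_tsum_cofinite (f := f) (x₀ := x₀) (u := u)
    (f' := fun i x => ContinuousLinearMap.toSpanSingleton ℂ (f' i x)) hu hu0 S
    (fun i hi => (hS i hi).hasFDerivAt) ?_ hs
  · have h2 := h.hasDerivAt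
    refine h2.congr_deriv ?_
    have h3 : Summable (fun i => ContinuousLinearMap.toSpanSingleton ℂ (f' i x₀)) := by
      have := hs'.mapL (ContinuousLinearMap.toSpanSingletonCLE (𝕜 := ℂ) (E := ℂ) :
        ℂ →L[ℂ] (ℂ →L[ℂ] ℂ))
      exact this
    have h4 := ContinuousLinearMap.map_tsum (ContinuousLinearMap.apply ℂ ℂ (1 : ℂ)) h3
    simp only [ContinuousLinearMap.apply_apply, ContinuousLinearMap.toSpanSingleton_apply,
      one_smul] at h4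
    exact h4
  · filter_upwards [hd] with x hx i hi
    refine ⟨(hx i hi).1.hasFDerivAt, ?_⟩
    rw [ContinuousLinearMap.norm_toSpanSingleton]
    exact (hx i hi).2

/-- derivative in `z` of the `τ` derivative, also at the origin -/
theorem hasDerivAt_wpt {τ z : ℂ} (hτ : 0 < τ.im) (hz : ∀ q : ℤ × ℤ, q.2 ≠ 0 → z ≠ lp 1 τ q) :
    HasDerivAt (fun z => wpt τ z) (wpdt τ z) z := by
  obtain ⟨R, c, S, hR, hc, hS0, hev⟩ := exists_setup2 z hτ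
  obtain ⟨C, hC, hb⟩ := bdd3_wpdtT R c hR hc
  have hev' : ∀ᶠ w in 𝓝 z, ‖w‖ ≤ R ∧ (∀ q, c * nr q ≤ ‖lp 1 τ q‖) ∧
      ∀ q ∉ S, 0 < nr q ∧ 2 * R ≤ ‖lp 1 τ q‖ := by
    have hcont : Tendsto (fun w : ℂ => (τ, w)) (𝓝 z) (𝓝 (τ, z)) := by
      have : ContinuousAt (fun w : ℂ => (τ, w)) z := by fun_prop
      exact this
    filter_upwards [hcont.eventually hev] with w hw
    exact hw.2
  have hterm : ∀ (w : ℂ) (q : ℤ × ℤ), (q.2 ≠ 0 → w ≠ lp 1 τ q) →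
      HasDerivAt (fun z : ℂ => wptT τ z q) (wpdtT τ w q) w := by
    intro w q hq
    by_cases h0 : q.2 = 0
    · have : (fun z : ℂ => wptT τ z q) = fun _ => 0 := by
        funext z; simp [wptT, h0]
      rw [this]
      have h1 : wpdtT τ w q = 0 := by simp [wpdtT, h0]
      rw [h1]
      exact hasDerivAt_const _ _
    · exact hasDerivAt_wptT (sub_ne_zero.2 (hq h0))
  refine hasDerivAt_tsum_cofinite (f := fun q z => wptT τ z q) (f' := fun q z => wpdtT τ z q)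
    (u := fun q => (C / c ^ 3) * (nr q ^ 3)⁻¹) (summable_nr.mul_left _)
    (fun q => by have := nr_nonneg q; positivity) S (fun q _ => hterm z q (hz q)) ?_
    (bdd3_wptT.summable hτ z) (bdd3_wpdtT.summable hτ z)
  filter_upwards [hev'] with w hw q hq
  obtain ⟨d4, d5, d6⟩ := hw
  obtain ⟨d7, d8⟩ := d6 q hq
  refine ⟨hterm w q (fun _ h => ?_), ?_⟩
  · rw [← h] at d8
    linarith
  · refine (hb τ w q d4 d8 (d5 q)).trans ?_
    have h1 : (c * nr q) ^ 3 ≤ ‖lp 1 τ q‖ ^ 3 := by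
      have := d5 q
      gcongr
    calc C / ‖lp 1 τ q‖ ^ 3 ≤ C / (c * nr q) ^ 3 := by
          gcongr
      _ = (C / c ^ 3) * (nr q ^ 3)⁻¹ := by
          rw [mul_pow]; field_simp

end Pool.Agent.Work.MP_8da9ea_nt
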