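import Pool.Agent.Work.MP_8da9ea_nt.OdeB

/-!
# Connection with the Mathlib development and expansions at the origin
-/

set_option autoImplicit false

namespace Pool.Agent.Work.MP_8da9ea_nt

open Complex Filter Topology

lemma indep_one {τ : ℂ} (hτ : 0 < τ.im) : LinearIndependent ℝ ![(1 : ℂ), τ] := by
  rw [LinearIndependent.pair_iff]
  intro s t h
  have him := congrArg Complex.im h
  have hre := congrArg Complex.re h
  simp at him hre
  rcases him with h0 | h0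
  · subst h0
    simp at hre
    exact ⟨hre, rfl⟩
  · exact absurd h0 hτ.ne'

/-- the pair of periods `1, τ` -/
noncomputable def PP {τ : ℂ} (hτ : 0 < τ.im) : PeriodPair := ⟨1, τ, indep_one hτ⟩

lemma mem_PP {τ : ℂ} (hτ : 0 < τ.im) {z : ℂ} : z ∈ (PP hτ).lattice ↔ z ∈ Lam τ := by
  rw [PeriodPair.mem_lattice, mem_Lam]
  constructor
  · rintro ⟨m, n, h⟩
    exact ⟨m, n, by rw [← h]; simp [PP]⟩
  · rintro ⟨m, n, h⟩
    exact ⟨m, n, by rw [h]; simp [PP]⟩

lemma coe_PP {τ : ℂ} (hτ : 0 < τ.im) : ((PP hτ).lattice : Set ℂ) = Lam τ := by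
  ext z; exact mem_PP hτ

lemma tsum_PP {τ : ℂ} (hτ : 0 < τ.im) (F : ℂ → ℂ) :
    ∑' l : (PP hτ).lattice, F l = ∑' q : ℤ × ℤ, F (lp 1 τ q) := by
  rw [← ((PP hτ).latticeEquivProd.symm.toEquiv).tsum_eq]
  refine tsum_congr fun q => ?_
  congr 1
  exact (PP hτ).latticeEquiv_symm_apply q

lemma wp_PP {τ : ℂ} (hτ : 0 < τ.im) (z : ℂ) : wp 1 τ z = (PP hτ).weierstrassP z := by
  unfold wp PeriodPair.weierstrassP
  exact (tsum_PP hτ (fun l => 1 / (z - l) ^ 2 - 1 / l ^ 2)).symm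

lemma wpd_PP {τ : ℂ} (hτ : 0 < τ.im) (z : ℂ) : wpd τ z = (PP hτ).derivWeierstrassP z := by
  unfold wpd PeriodPair.derivWeierstrassP
  rw [tsum_PP hτ (fun l => 2 / (z - l) ^ 3), ← tsum_neg]
  refine tsum_congr fun q => ?_
  rw [wpdT, neg_div]

lemma gk_PP {τ : ℂ} (hτ : 0 < τ.im) (k : ℕ) : gk k 1 τ = (PP hτ).G k := by
  unfold gk PeriodPair.G
  rw [tsum_PP hτ (fun l => (l ^ k)⁻¹)]
  refine tsum_congr fun q => ?_
  rw [one_div]

lemma lp_eq_zero_iff {τ : ℂ} (hτ : 0 < τ.im) (q : ℤ × ℤ) : lp 1 τ q = 0 ↔ q ∈ ({0} : Set (ℤ × ℤ)) := by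
  constructor
  · intro h
    by_contra h2
    exact lp_ne_zero hτ h2 h
  · intro h
    have h2 : q = 0 := h
    rw [h2]
    simp [lp]

lemma wpE_PP {τ : ℂ} (hτ : 0 < τ.im) (z : ℂ) : wpE {0} τ z = (PP hτ).weierstrassPExcept 0 z := by
  classical
  unfold wpE PeriodPair.weierstrassPExcept
  rw [tsum_PP hτ (fun l => if l = 0 then 0 else (1 / (z - l) ^ 2 - 1 / l ^ 2))]
  refine tsum_congr fun q => ?_
  by_cases h : q ∈ ({0} : Set (ℤ × ℤ))
  · rw [exc_mem h, if_pos ((lp_eq_zero_iff hτ q).2 h)]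
  · rw [exc_not_mem h, if_neg (fun h2 => h ((lp_eq_zero_iff hτ q).1 h2)), wpT]

lemma wpdE_PP {τ : ℂ} (hτ : 0 < τ.im) (z : ℂ) :
    wpdE {0} τ z = (PP hτ).derivWeierstrassPExcept 0 z := by
  classical
  unfold wpdE PeriodPair.derivWeierstrassPExcept
  rw [tsum_PP hτ (fun l => if l = 0 then 0 else -2 / (z - l) ^ 3)]
  refine tsum_congr fun q => ?_
  by_cases h : q ∈ ({0} : Set (ℤ × ℤ))
  · rw [exc_mem h, if_pos ((lp_eq_zero_iff hτ q).2 h)]
  · rw [exc_not_mem h, if_neg (fun h2 => h ((lp_eq_zero_iff hτ q).1 h2)), wpdT]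

/-! ### the relations at the origin -/

lemma tsum_exc_zero {f : ℤ × ℤ → ℂ} (hf : Summable f) : ∑' q, f q = f 0 + ∑' q, exc {0} f q := by
  classical
  rw [hf.tsum_eq_add_tsum_ite 0]
  congr 1
  refine tsum_congr fun q => ?_
  simp only [exc, Set.mem_singleton_iff]

lemma wp_eq_E {τ : ℂ} (hτ : 0 < τ.im) (z : ℂ) : wp 1 τ z = 1 / z ^ 2 + wpE {0} τ z := by
  unfold wp wpE
  rw [tsum_exc_zero (summable_wpT hτ z)]
  congr 1
  simp [wpT, lp]

lemma zt_eq_E {τ : ℂ} (hτ : 0 < τ.im) (z : ℂ) : zt 1 τ z = 1 / z + ztE {0} τ z := by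
  unfold zt ztE
  rw [tsum_exc_zero (summable_ztT hτ z)]
  congr 1
  simp [ztT, lp]

lemma wpd_eq_E {τ : ℂ} (hτ : 0 < τ.im) (z : ℂ) : wpd τ z = -2 / z ^ 3 + wpdE {0} τ z := by
  unfold wpd wpdE
  rw [tsum_exc_zero (bdd3_wpdT.summable hτ z)]
  congr 1
  simp [wpdT, lp]

/-! ### Taylor coefficients and limits -/

lemma tendsto_div_pow {f : ℂ → ℂ} (hf : AnalyticAt ℂ f 0) (n : ℕ)
    (h : ∀ k < n, iteratedDeriv k f 0 = 0) :
    Tendsto (fun z => f z / z ^ n) (𝓝[≠] 0) (𝓝 (iteratedDeriv n f 0 / n.factorial)) := by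
  have hs := hf.hasFPowerSeriesAt
  have hO := hs.isBigO_sub_partialSum_pow (n + 1)
  simp only [zero_add] at hO
  set c : ℂ := iteratedDeriv n f 0 / n.factorial with hc
  have hpart : ∀ y : ℂ, FormalMultilinearSeries.partialSum
      (FormalMultilinearSeries.ofScalars ℂ fun n => iteratedDeriv n f 0 / n.factorial) (n + 1) y =
      c * y ^ n := by
    intro y
    unfold FormalMultilinearSeries.partialSum
    rw [Finset.sum_range_succ, Finset.sum_eq_zero, zero_add]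
    · rw [FormalMultilinearSeries.ofScalars_apply_eq, smul_eq_mul]
    · intro k hk
      rw [FormalMultilinearSeries.ofScalars_apply_eq, h k (Finset.mem_range.1 hk)]
      simp
  simp only [hpart] at hO
  obtain ⟨C, hC⟩ := hO.bound
  rw [tendsto_iff_norm_sub_tendsto_zero]
  have h1 : ∀ᶠ z in 𝓝[≠] (0 : ℂ), ‖f z / z ^ n - c‖ ≤ C * ‖z‖ := by
    filter_upwards [nhdsWithin_le_nhds hC, self_mem_nhdsWithin] with z hz hz0
    have hz0' : z ≠ 0 := hz0
    have hn : 0 < ‖z‖ := norm_pos_iff.2 hz0'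
    have e : f z / z ^ n - c = (f z - c * z ^ n) / z ^ n := by field_simp
    rw [e, norm_div, norm_pow, div_le_iff₀ (by positivity)]
    rw [Real.norm_of_nonneg (by positivity)] at hz
    calc ‖f z - c * z ^ n‖ ≤ C * ‖z‖ ^ (n + 1) := hz
      _ = C * ‖z‖ * ‖z‖ ^ n := by ring
  have h2 : Tendsto (fun z : ℂ => C * ‖z‖) (𝓝[≠] 0) (𝓝 0) := by
    have : Tendsto (fun z : ℂ => C * ‖z‖) (𝓝 0) (𝓝 (C * ‖(0 : ℂ)‖)) := by
      apply Continuous.tendsto
      fun_prop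
    rw [norm_zero, mul_zero] at this
    exact this.mono_left nhdsWithin_le_nhds
  exact squeeze_zero' (Eventually.of_forall fun z => norm_nonneg _) h1 h2

lemma eventually_ne_lp {τ : ℂ} (hτ : 0 < τ.im) :
    ∀ᶠ z : ℂ in 𝓝 0, ∀ q ∉ ({0} : Set (ℤ × ℤ)), z ≠ lp 1 τ q := by
  have h := (PP hτ).compl_lattice_sdiff_singleton_mem_nhds 0
  filter_upwards [h] with z hz q hq hzq
  apply hz
  refine ⟨?_, ?_⟩
  · rw [coe_PP hτ]
    exact ⟨q, hzq.symm⟩
  · intro h0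
    have h0' : z = 0 := h0
    apply hq
    rw [← lp_eq_zero_iff hτ, ← hzq, h0']

lemma eventually_notMem {τ : ℂ} (hτ : 0 < τ.im) : ∀ᶠ z : ℂ in 𝓝[≠] 0, z ∉ Lam τ := by
  filter_upwards [nhdsWithin_le_nhds (eventually_ne_lp hτ), self_mem_nhdsWithin] with z hz hz0
  rintro ⟨q, hq⟩
  by_cases h : q ∈ ({0} : Set (ℤ × ℤ))
  · rw [(lp_eq_zero_iff hτ q).2 h] at hq
    exact hz0 hq.symm
  · exact hz q h hq.symm

/-- composition with an arc -/
lemma hasDerivAt_arc {F : ℂ × ℂ → ℂ} {A B : ℂ} {τ z : ℂ → ℂ} {τ' z' x : ℂ}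
    (hF : HasFDerivAt F (lf A B) (τ x, z x)) (hτ : HasDerivAt τ τ' x) (hz : HasDerivAt z z' x) :
    HasDerivAt (fun x => F (τ x, z x)) (A * τ' + B * z') x := by
  have h := hF.comp_hasDerivAt x (hτ.prodMk hz)
  rw [lf_apply] at h
  exact h

lemma hasDerivAt_ztE {τ : ℂ} (hτ : 0 < τ.im) {z : ℂ} (hz : ∀ q ∉ ({0} : Set (ℤ × ℤ)), z ≠ lp 1 τ q) :
    HasDerivAt (fun z => ztE {0} τ z) (-wpE {0} τ z) z := by
  have h := hasDerivAt_arc (τ := fun _ => τ) (z := fun z => z) (x := z)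
    (hasFDerivAt_ztE {0} hτ hz) (hasDerivAt_const _ _) (hasDerivAt_id z)
  simpa using h

lemma analyticAt_ztE {τ : ℂ} (hτ : 0 < τ.im) : AnalyticAt ℂ (fun z => ztE {0} τ z) 0 := by
  rw [Complex.analyticAt_iff_eventually_differentiableAt]
  filter_upwards [eventually_ne_lp hτ] with z hz
  exact (hasDerivAt_ztE hτ hz).differentiableAt

lemma G3_zero {τ : ℂ} (hτ : 0 < τ.im) : (PP hτ).G 3 = 0 :=
  (PP hτ).G_eq_zero_of_odd 3 (by decide)

lemma lim_wpE {τ : ℂ} (hτ : 0 < τ.im) :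
    Tendsto (fun z => wpE {0} τ z / z ^ 2) (𝓝[≠] 0) (𝓝 (3 * gk 4 1 τ)) := by
  have h := tendsto_div_pow ((PP hτ).analyticAt_weierstrassPExcept 0) 2 (by
    intro k hk
    rw [(PP hτ).iteratedDeriv_weierstrassPExcept_self 0]
    interval_cases k
    · simp
    · simp [G3_zero hτ])
  rw [(PP hτ).iteratedDeriv_weierstrassPExcept_self 0] at h
  simp only [wpE_PP hτ, gk_PP hτ]
  convert h using 2
  simp [Nat.factorial]
  ring

lemma lim_wpdE {τ : ℂ} (hτ : 0 < τ.im) :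
    Tendsto (fun z => wpdE {0} τ z / z) (𝓝[≠] 0) (𝓝 (6 * gk 4 1 τ)) := by
  have h := tendsto_div_pow ((PP hτ).analyticAt_derivWeierstrassPExcept 0) 1 (by
    intro k hk
    rw [(PP hτ).iteratedDeriv_derivWeierstrassPExcept_self 0]
    interval_cases k
    simp [G3_zero hτ])
  rw [(PP hτ).iteratedDeriv_derivWeierstrassPExcept_self 0] at h
  simp only [wpdE_PP hτ, gk_PP hτ]
  simp only [pow_one] at h
  convert h using 2
  simp [Nat.factorial]

lemma lim_ztE {τ : ℂ} (hτ : 0 < τ.im) :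
    Tendsto (fun z => ztE {0} τ z / z ^ 3) (𝓝[≠] 0) (𝓝 (-gk 4 1 τ)) := by
  have hder : deriv (fun z => ztE {0} τ z) =ᶠ[𝓝 0] fun z => -(PP hτ).weierstrassPExcept 0 z := by
    filter_upwards [eventually_ne_lp hτ] with z hz
    rw [(hasDerivAt_ztE hτ hz).deriv, wpE_PP hτ]
  have hit : ∀ k, iteratedDeriv (k + 1) (fun z => ztE {0} τ z) 0 =
      -iteratedDeriv k ((PP hτ).weierstrassPExcept 0) 0 := by
    intro k
    rw [iteratedDeriv_succ', hder.iteratedDeriv_eq, iteratedDeriv_fun_neg]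
  have h := tendsto_div_pow (analyticAt_ztE hτ) 3 (by
    intro k hk
    interval_cases k
    · rw [iteratedDeriv_zero]
      unfold ztE
      rw [tsum_congr (g := fun _ => 0), tsum_zero]
      intro q
      by_cases h : q ∈ ({0} : Set (ℤ × ℤ))
      · rw [exc_mem h]
      · rw [exc_not_mem h]
        simp only [ztT]
        rw [zero_sub, zero_div, add_zero, one_div, one_div, inv_neg, neg_add_cancel]
    · rw [hit 0, (PP hτ).iteratedDeriv_weierstrassPExcept_self 0]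
      simp
    · rw [hit 1, (PP hτ).iteratedDeriv_weierstrassPExcept_self 0]
      simp [G3_zero hτ])
  rw [hit 2, (PP hτ).iteratedDeriv_weierstrassPExcept_self 0] at h
  simp only [gk_PP hτ]
  convert h using 2
  simp [Nat.factorial]
  ring

end Pool.Agent.Work.MP_8da9ea_nt
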