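import Pool.Agent.Work.MP_8da9ea_nt.Ana

/-!
# Periodicity, quasi-periodicity and the Legendre relation
-/

set_option autoImplicit false

namespace Pool.Agent.Work.MP_8da9ea_nt

open Complex Filter Topology

lemma summable_aux {τ : ℂ} (hτ : 0 < τ.im) (z : ℂ) (f : ℤ × ℤ → ℂ)
    (hf : ∀ q, ∀ R : ℝ, 0 < R → ‖z‖ ≤ R → 2 * R ≤ ‖lp 1 τ q‖ →
      ‖f q‖ ≤ 10 * (R + R ^ 2) / ‖lp 1 τ q‖ ^ 3) : Summable f := by
  obtain ⟨R, c, S, hR, hc, hS0, hev⟩ := exists_setup (z := fun _ => z) (τ := fun _ => τ)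
    (x₀ := 0) analyticAt_const analyticAt_const hτ
  obtain ⟨-, -, -, d4, d5, d6⟩ := hev.self_of_nhds
  refine Summable.of_norm_bounded_eventually
    (g := fun q => (10 * (R + R ^ 2) / c ^ 3) * (nr q ^ 3)⁻¹) (summable_nr.mul_left _) ?_
  rw [Filter.eventually_cofinite]
  refine S.finite_toSet.subset ?_
  intro q hq
  by_contra hqS
  apply hq
  have hqS' : q ∉ S := hqS
  obtain ⟨d7, d8⟩ := d6 q hqS'
  refine (hf q R hR d4 d8).trans ?_
  have h1 : (c * nr q) ^ 3 ≤ ‖lp 1 τ q‖ ^ 3 := by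
    have := d5 q
    gcongr
  calc 10 * (R + R ^ 2) / ‖lp 1 τ q‖ ^ 3 ≤ 10 * (R + R ^ 2) / (c * nr q) ^ 3 := by
        gcongr
    _ = (10 * (R + R ^ 2) / c ^ 3) * (nr q ^ 3)⁻¹ := by
        rw [mul_pow]; field_simp

lemma summable_ztT {τ : ℂ} (hτ : 0 < τ.im) (z : ℂ) : Summable (fun q => ztT 1 τ z q) :=
  summable_aux hτ z _ fun _ _ hR hz hl => ztT_bound hR hz hl

lemma summable_wpT {τ : ℂ} (hτ : 0 < τ.im) (z : ℂ) : Summable (fun q => wpT 1 τ z q) :=
  summable_aux hτ z _ fun _ _ hR hz hl => wpT_bound hR hz hl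

lemma sum_tele (h : ℤ → ℂ) (n : ℕ) :
    ∑ m ∈ Finset.Ico (-(n : ℤ)) n, (h (m - 1) - h m) = h (-n - 1) - h (n - 1) := by
  induction n with
  | zero => simp
  | succ n ih =>
    have h1 : Finset.Ico (-((n + 1 : ℕ) : ℤ)) ((n + 1 : ℕ) : ℤ) =
        insert (-((n : ℤ) + 1)) (insert (n : ℤ) (Finset.Ico (-(n : ℤ)) n)) := by
      ext m
      simp only [Finset.mem_Ico, Finset.mem_insert]
      push_cast
      omega
    rw [h1, Finset.sum_insert, Finset.sum_insert, ih]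
    · have e1 : -((n : ℤ) + 1) = -n - 1 := by ring
      have e2 : (((n + 1 : ℕ) : ℤ) - 1) = n := by push_cast; ring
      have e3 : (-((n + 1 : ℕ) : ℤ) - 1) = -n - 1 - 1 := by push_cast; ring
      rw [e1, e2, e3]
      ring
    · simp
    · simp only [Finset.mem_insert, Finset.mem_Ico, not_or, not_and, not_lt]
      constructor
      · omega
      · intro h; omega

lemma tele {h : ℤ → ℂ} (h1 : Tendsto (fun n : ℕ => h n) atTop (𝓝 0))
    (h2 : Tendsto (fun n : ℕ => h (-n)) atTop (𝓝 0))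
    (hs : Summable (fun m => h (m - 1) - h m)) : ∑' m, (h (m - 1) - h m) = 0 := by
  have e1 := hs.hasSum.comp (Finset.tendsto_Ico_neg (R := ℤ))
  have e2 : Tendsto (fun n : ℕ => h (-n - 1) - h (n - 1)) atTop (𝓝 0) := by
    have e3 : Tendsto (fun n : ℕ => h (-n - 1)) atTop (𝓝 0) := by
      have := (tendsto_add_atTop_iff_nat 1).2 h2
      refine this.congr fun n => ?_
      congr 1
      push_cast
      ring
    have e4 : Tendsto (fun n : ℕ => h (n - 1)) atTop (𝓝 0) := by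
      rw [← tendsto_add_atTop_iff_nat 1]
      refine h1.congr fun n => ?_
      congr 1
      push_cast
      ring
    simpa using e3.sub e4
  refine tendsto_nhds_unique e1 (e2.congr fun n => ?_)
  simp only [Function.comp_apply]
  exact (sum_tele h n).symm

lemma tendsto_inv_pos (w : ℂ) : Tendsto (fun n : ℕ => 1 / (w - ((n : ℤ) : ℂ))) atTop (𝓝 0) := by
  have := EisensteinSeries.tendsto_zero_inv_linear_sub w 1
  refine this.congr fun n => ?_
  push_cast
  rw [one_mul]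

lemma tendsto_inv_neg (w : ℂ) :
    Tendsto (fun n : ℕ => 1 / (w - ((-(n : ℤ) : ℤ) : ℂ))) atTop (𝓝 0) := by
  have := EisensteinSeries.tendsto_zero_inv_linear w 1
  refine this.congr fun n => ?_
  push_cast
  rw [one_mul, sub_neg_eq_add]

lemma lp_one (τ : ℂ) (m n : ℤ) : lp 1 τ (m, n) = m + n * τ := by simp [lp]

lemma summable_row (τ : ℂ) (n : ℤ) : Summable (fun m : ℤ => 1 / (lp 1 τ (m, n)) ^ 2) := by
  have := EisensteinSeries.linear_right_summable τ n (k := 2) le_rfl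
  refine this.congr fun m => ?_
  rw [lp_one, one_div]
  norm_cast
  ring_nf

lemma zt_add_one {τ : ℂ} (hτ : 0 < τ.im) (z : ℂ) :
    zt 1 τ (z + 1) = zt 1 τ z + EisensteinSeries.G2 ⟨τ, hτ⟩ := by
  set D : ℤ × ℤ → ℂ := fun q => ztT 1 τ (z + 1) q - ztT 1 τ z q with hD
  have hs : Summable D := (summable_ztT hτ (z + 1)).sub (summable_ztT hτ z)
  have h1 : ∑' q, D q = zt 1 τ (z + 1) - zt 1 τ z :=
    (summable_ztT hτ (z + 1)).tsum_sub (summable_ztT hτ z)
  have hs' : Summable (fun p : ℤ × ℤ => D (p.2, p.1)) := (Equiv.prodComm ℤ ℤ).summable_iff.2 hs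
  have h2 : ∑' q, D q = ∑' n : ℤ, ∑' m : ℤ, D (m, n) := by
    rw [← (Equiv.prodComm ℤ ℤ).tsum_eq D]
    exact hs'.tsum_prod
  have h3 : ∀ n : ℤ, ∑' m : ℤ, D (m, n) = EisensteinSeries.e2Summand n ⟨τ, hτ⟩ := by
    intro n
    set h : ℤ → ℂ := fun m => 1 / (z - n * τ - m) with hh
    have e1 : ∀ m : ℤ, D (m, n) = (h (m - 1) - h m) + 1 / (lp 1 τ (m, n)) ^ 2 := by
      intro m
      simp only [hD, ztT, hh, lp_one]
      push_cast
      have a1 : z + 1 - (m + n * τ) = z - n * τ - (m - 1) := by ring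
      have a2 : z - (m + n * τ) = z - n * τ - m := by ring
      rw [a1, a2]
      ring
    have hrow := summable_row τ n
    have hsn : Summable (fun m : ℤ => D (m, n)) := hs'.prod_factor n
    have hst : Summable (fun m => h (m - 1) - h m) := by
      have := hsn.sub hrow
      refine this.congr fun m => ?_
      rw [e1]; ring
    have e2 := tele (tendsto_inv_pos (z - n * τ)) (tendsto_inv_neg (z - n * τ)) hst
    rw [tsum_congr e1, hst.tsum_add hrow, e2, zero_add]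
    unfold EisensteinSeries.e2Summand EisensteinSeries.eisSummand
    refine tsum_congr fun m => ?_
    rw [lp_one]
    simp only [Matrix.cons_val_zero, Matrix.cons_val_one]
    rw [show (-2 : ℤ) = -((2 : ℕ) : ℤ) by norm_num, zpow_neg, zpow_natCast, one_div]
    congr 2
    ring
  have hse : Summable (fun n : ℤ => EisensteinSeries.e2Summand n ⟨τ, hτ⟩) := by
    refine hs'.prod.congr fun n => ?_
    exact (h3 n)
  have h4 : EisensteinSeries.G2 ⟨τ, hτ⟩ = ∑' n : ℤ, EisensteinSeries.e2Summand n ⟨τ, hτ⟩ :=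
    tsum_eq_of_summable_unconditional hse
  rw [h4, ← tsum_congr h3, ← h2, h1]
  ring

lemma wp_add_one {τ : ℂ} (hτ : 0 < τ.im) (z : ℂ) : wp 1 τ (z + 1) = wp 1 τ z := by
  set D : ℤ × ℤ → ℂ := fun q => wpT 1 τ (z + 1) q - wpT 1 τ z q with hD
  have hs : Summable D := (summable_wpT hτ (z + 1)).sub (summable_wpT hτ z)
  have h1 : ∑' q, D q = wp 1 τ (z + 1) - wp 1 τ z :=
    (summable_wpT hτ (z + 1)).tsum_sub (summable_wpT hτ z)
  have hs' : Summable (fun p : ℤ × ℤ => D (p.2, p.1)) := (Equiv.prodComm ℤ ℤ).summable_iff.2 hs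
  have h2 : ∑' q, D q = ∑' n : ℤ, ∑' m : ℤ, D (m, n) := by
    rw [← (Equiv.prodComm ℤ ℤ).tsum_eq D]
    exact hs'.tsum_prod
  have h3 : ∀ n : ℤ, ∑' m : ℤ, D (m, n) = 0 := by
    intro n
    set h : ℤ → ℂ := fun m => (1 / (z - n * τ - m)) ^ 2 with hh
    have e1 : ∀ m : ℤ, D (m, n) = h (m - 1) - h m := by
      intro m
      simp only [hD, wpT, hh, lp_one]
      push_cast
      have a1 : z + 1 - (m + n * τ) = z - n * τ - (m - 1) := by ring
      have a2 : z - (m + n * τ) = z - n * τ - m := by ring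
      rw [a1, a2]
      simp only [one_div, inv_pow]
      ring
    have hsn : Summable (fun m : ℤ => D (m, n)) := hs'.prod_factor n
    have hst : Summable (fun m => h (m - 1) - h m) := hsn.congr fun m => e1 m
    have t1 := (tendsto_inv_pos (z - n * τ)).pow 2
    have t2 := (tendsto_inv_neg (z - n * τ)).pow 2
    rw [zero_pow two_ne_zero] at t1 t2
    rw [tsum_congr e1]
    exact tele t1 t2 hst
  rw [← sub_eq_zero, ← h1, h2, tsum_congr h3, tsum_zero]

/-- the quasi-period of `1` -/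
noncomputable def et (τ : ℂ) : ℂ := 2 * zt 1 τ (1 / 2)

lemma et_eq {τ : ℂ} (hτ : 0 < τ.im) : et τ = EisensteinSeries.G2 ⟨τ, hτ⟩ := by
  have h := zt_add_one hτ (-(1 / 2))
  rw [zt_neg, show -(1 / 2 : ℂ) + 1 = 1 / 2 by norm_num] at h
  unfold et
  linear_combination h

lemma zt_add_one' {τ : ℂ} (hτ : 0 < τ.im) (z : ℂ) : zt 1 τ (z + 1) = zt 1 τ z + et τ := by
  rw [zt_add_one hτ, et_eq hτ]

lemma inv_im {τ : ℂ} (hτ : 0 < τ.im) : 0 < (-1 / τ).im := by
  rw [div_im]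
  simp only [neg_im, one_im, neg_zero, zero_mul, zero_div, neg_re, one_re, zero_sub]
  have : 0 < normSq τ := normSq_pos.2 (by rintro rfl; simp at hτ)
  rw [neg_mul, one_mul, neg_div, neg_neg]
  positivity

lemma ne_zero_of_im {τ : ℂ} (hτ : 0 < τ.im) : τ ≠ 0 := by rintro rfl; simp at hτ

lemma G2_inv {τ : ℂ} (hτ : 0 < τ.im) :
    EisensteinSeries.G2 ⟨-1 / τ, inv_im hτ⟩ =
      τ ^ 2 * EisensteinSeries.G2 ⟨τ, hτ⟩ - 2 * Real.pi * I * τ := by
  have h := EisensteinSeries.G2_S_transform ⟨τ, hτ⟩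
  have h2 : (ModularGroup.S • (⟨τ, hτ⟩ : UpperHalfPlane)) = ⟨-1 / τ, inv_im hτ⟩ := by
    rw [UpperHalfPlane.modular_S_smul]
    ext
    change (-τ)⁻¹ = -1 / τ
    rw [neg_div, one_div, inv_neg]
  rw [h2] at h
  have h3 : (UpperHalfPlane.coe ⟨τ, hτ⟩ : ℂ) = τ := rfl
  rw [h3] at h
  have h0 := ne_zero_of_im hτ
  rw [h]
  field_simp
  ring

lemma zt_add_tau {τ : ℂ} (hτ : 0 < τ.im) (z : ℂ) :
    zt 1 τ (z + τ) = zt 1 τ z + (τ * et τ - 2 * Real.pi * I) := by
  have h0 := ne_zero_of_im hτ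
  have key : ∀ w, zt 1 τ w = τ⁻¹ * zt 1 (-1 / τ) (w / τ) := by
    intro w
    rw [zt_inv h0]
    rw [mul_div_cancel₀ _ h0, ← mul_assoc, inv_mul_cancel₀ h0, one_mul]
  rw [key (z + τ), add_div, div_self h0, zt_add_one (inv_im hτ), mul_add, ← key z, G2_inv hτ,
    et_eq hτ]
  congr 1
  field_simp

lemma wp_add_tau {τ : ℂ} (hτ : 0 < τ.im) (z : ℂ) : wp 1 τ (z + τ) = wp 1 τ z := by
  have h0 := ne_zero_of_im hτ
  have key : ∀ w, wp 1 τ w = (τ ^ 2)⁻¹ * wp 1 (-1 / τ) (w / τ) := by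
    intro w
    rw [wp_inv h0]
    rw [mul_div_cancel₀ _ h0, ← mul_assoc, inv_mul_cancel₀ (pow_ne_zero 2 h0), one_mul]
  rw [key (z + τ), add_div, div_self h0, wp_add_one (inv_im hτ), ← key z]

lemma et_T {τ : ℂ} (d : ℤ) : et (τ + d) = et τ := by
  unfold et
  have := zt_T 1 τ (1 / 2) d
  rw [mul_one] at this
  rw [this]

lemma zt_half_tau {τ : ℂ} (hτ : 0 < τ.im) : 2 * zt 1 τ (τ / 2) = τ * et τ - 2 * Real.pi * I := by
  have h := zt_add_tau hτ (-(τ / 2))
  rw [zt_neg, show -(τ / 2) + τ = τ / 2 by ring] at h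
  linear_combination h

lemma et_inv {τ : ℂ} (hτ : 0 < τ.im) : et (-1 / τ) = τ ^ 2 * et τ - 2 * Real.pi * I * τ := by
  have h0 := ne_zero_of_im hτ
  unfold et
  rw [zt_inv h0, show τ * (1 / 2) = τ / 2 by ring]
  have := zt_half_tau hτ
  unfold et at this
  linear_combination τ * this

lemma periodic_int {f : ℂ → ℂ} {ω c : ℂ} (h : ∀ z, f (z + ω) = f z + c) (n : ℤ) (z : ℂ) :
    f (z + n * ω) = f z + n * c := by
  induction n using Int.induction_on with
  | zero => simp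
  | succ n ih =>
    have := h (z + (n : ℤ) * ω)
    rw [ih] at this
    push_cast at this ⊢
    rw [show z + ((n : ℂ) + 1) * ω = z + n * ω + ω by ring, this]
    ring
  | pred n ih =>
    have := h (z + (-(n : ℤ) - 1 : ℤ) * ω)
    push_cast at this ih ⊢
    rw [show z + (-(n : ℂ) - 1) * ω + ω = z + -(n : ℂ) * ω by ring, ih] at this
    linear_combination -this

lemma wp_add_lp {τ : ℂ} (hτ : 0 < τ.im) (z : ℂ) (m n : ℤ) :
    wp 1 τ (z + (m + n * τ)) = wp 1 τ z := by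
  have h1 := periodic_int (f := wp 1 τ) (ω := 1) (c := 0) (fun z => by
    rw [wp_add_one hτ, add_zero]) m z
  have h2 := periodic_int (f := wp 1 τ) (ω := τ) (c := 0) (fun z => by
    rw [wp_add_tau hτ, add_zero]) n (z + m * 1)
  rw [show z + (m + n * τ) = z + m * 1 + n * τ by ring, h2, h1]
  ring

lemma zt_add_lp {τ : ℂ} (hτ : 0 < τ.im) (z : ℂ) (m n : ℤ) :
    zt 1 τ (z + (m + n * τ)) = zt 1 τ z + et τ * (m + n * τ) - 2 * Real.pi * I * n := by
  have h1 := periodic_int (f := zt 1 τ) (ω := 1) (fun z => zt_add_one' hτ z) m z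
  have h2 := periodic_int (f := zt 1 τ) (ω := τ) (fun z => zt_add_tau hτ z) n (z + m * 1)
  rw [show z + (m + n * τ) = z + m * 1 + n * τ by ring, h2, h1]
  ring

end Pool.Agent.Work.MP_8da9ea_nt
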